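import Pool.Agent.Lib.Shp.FlR

set_option autoImplicit false

/-!
# The flat example: the compactly supported correction

`psi = χ(|z₁|²) [p(z₂) (x₀ dx₁ - x₁ dx₀) / 2 + h(z₂) dx₃]`, `χ` and `h` smooth with small supports, `χ = 1` near `0`, `p = ∂₂ h`,
`h = -2 x₂ b(|z₂|²)`, `b(0) = 1`. On the line `z₁ = 0`: `d psi = p (dx₀ dx₁ + dx₂ dx₃)`, `p(0) = -2`. The functions `Uc 0`, `Uc 1`, `Vc i` of `d psi`
vanish on the line and are smooth with compact support, so Lipschitz: bounded by `C |z₁|`.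
-/

open MeasureTheory Set Metric
open scoped ContDiff

namespace Pool.Agent.Lib.Shp

open Pool.Agent.P28b04d Pool.Agent.Lib.Psd Pool.Agent.Lib.Pex

namespace FlBAux

/-- the bump -/
noncomputable def Bf (t : ℝ) : ℝ := Real.smoothTransition (1 - 4 * t)

theorem Bf_smooth : ContDiff ℝ ∞ Bf := by
  have h : Bf = Real.smoothTransition ∘ fun t => 1 - 4 * t := rfl
  rw [h]
  exact Real.smoothTransition.contDiff.comp
    (contDiff_const.sub (contDiff_const.mul contDiff_id))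

theorem Bf_zero : Bf 0 = 1 := by
  unfold Bf
  apply Real.smoothTransition.one_of_one_le
  norm_num

theorem Bf_big {t : ℝ} (h : 1 / 4 ≤ t) : Bf t = 0 := by
  unfold Bf
  apply Real.smoothTransition.zero_of_nonpos
  linarith

theorem cd_coord (i : Fin 4) : ContDiff ℝ ∞ (fun x : E => x i) :=
  (EuclideanSpace.proj (𝕜 := ℝ) i : E →L[ℝ] ℝ).contDiff

/-- `|z₁|²` -/
def s1 (x : E) : ℝ := x 0 ^ 2 + x 1 ^ 2

/-- `|z₂|²` -/
def s2 (x : E) : ℝ := x 2 ^ 2 + x 3 ^ 2

theorem s1_cd : ContDiff ℝ ∞ s1 := ((cd_coord 0).pow 2).add ((cd_coord 1).pow 2)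

theorem s2_cd : ContDiff ℝ ∞ s2 := ((cd_coord 2).pow 2).add ((cd_coord 3).pow 2)

/-- the cut-off in `z₁` -/
noncomputable def b1 (x : E) : ℝ := Bf (s1 x)

/-- the cut-off in `z₂` -/
noncomputable def b2 (x : E) : ℝ := Bf (s2 x)

theorem b1_cd : ContDiff ℝ ∞ b1 := Bf_smooth.comp s1_cd

theorem b2_cd : ContDiff ℝ ∞ b2 := Bf_smooth.comp s2_cd

/-- the function `h` -/
noncomputable def hh (x : E) : ℝ := (-2 * x 2) * b2 x

theorem hh_cd : ContDiff ℝ ∞ hh := (contDiff_const.mul (cd_coord 2)).mul b2_cd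

/-- the function `p` -/
noncomputable def pp (x : E) : ℝ := pd 2 hh x

theorem pp_cd : ContDiff ℝ ∞ pp := ClosedAux.pd_contDiff' hh_cd 2

/-- half of the product -/
noncomputable def AA (x : E) : ℝ := b1 x * (pp x / 2)

theorem AA_cd : ContDiff ℝ ∞ AA := b1_cd.mul (pp_cd.div_const 2)

/-- the coefficients -/
noncomputable def gg : Fin 4 → E → ℝ :=
  ![fun x => -(AA x * x 1), fun x => AA x * x 0, fun _ => 0, fun x => b1 x * hh x]

theorem gg_cd (j : Fin 4) : ContDiff ℝ ∞ (gg j) := by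
  fin_cases j
  · exact (AA_cd.mul (cd_coord 1)).neg
  · exact AA_cd.mul (cd_coord 0)
  · exact contDiff_const
  · exact b1_cd.mul hh_cd

theorem pd_mul {f g : E → ℝ} (hf : ContDiff ℝ ∞ f) (hg : ContDiff ℝ ∞ g) (i : Fin 4) (x : E) :
    pd i (fun y => f y * g y) x = pd i f x * g x + f x * pd i g x := by
  unfold pd
  rw [fderiv_fun_mul (hf.differentiable (by simp)).differentiableAt
    (hg.differentiable (by simp)).differentiableAt]
  simp only [add_apply, smul_apply, smul_eq_mul]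
  ring

theorem pd_neg (f : E → ℝ) (i : Fin 4) (x : E) : pd i (fun y => -f y) x = -pd i f x := by
  unfold pd
  rw [fderiv_fun_neg]
  rfl

theorem pd_cst (c : ℝ) (i : Fin 4) (x : E) : pd i (fun _ => c) x = 0 := by
  unfold pd
  simp

theorem pd_coord (i j : Fin 4) (x : E) : pd i (fun y => y j) x = if i = j then 1 else 0 := by
  unfold pd
  have h1 : (fun y : E => y j) = (EuclideanSpace.proj (𝕜 := ℝ) j : E →L[ℝ] ℝ) := rfl
  rw [h1, ContinuousLinearMap.fderiv]
  show (EuclideanSpace.single i (1 : ℝ) : E) j = _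
  by_cases h : i = j
  · subst h; simp
  · simp [h, Ne.symm h]

theorem pd_sum2 (a b i : Fin 4) (x : E) : pd i (fun y => y a ^ 2 + y b ^ 2) x =
    2 * x a * (if i = a then 1 else 0) + 2 * x b * (if i = b then 1 else 0) := by
  have h1 : (fun y : E => y a ^ 2 + y b ^ 2) = fun y => y a * y a + y b * y b := by
    funext y; ring
  have hA := (cd_coord a).mul (cd_coord a)
  have hB := (cd_coord b).mul (cd_coord b)
  have h2 : pd i (fun y : E => y a * y a + y b * y b) x =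
      pd i (fun y : E => y a * y a) x + pd i (fun y : E => y b * y b) x := by
    unfold pd
    rw [fderiv_fun_add (hA.differentiable (by simp)).differentiableAt
      (hB.differentiable (by simp)).differentiableAt]
    rfl
  rw [h1, h2, pd_mul (cd_coord a) (cd_coord a), pd_mul (cd_coord b) (cd_coord b), pd_coord,
    pd_coord]
  ring

theorem pd_Bf {s : E → ℝ} (hs : ContDiff ℝ ∞ s) (i : Fin 4) (x : E) :
    pd i (fun y => Bf (s y)) x = deriv Bf (s x) * pd i s x := by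
  unfold pd
  have h1 : HasDerivAt Bf (deriv Bf (s x)) (s x) :=
    ((Bf_smooth.differentiable (by simp)) (s x)).hasDerivAt
  have h2 : HasFDerivAt s (fderiv ℝ s x) x :=
    ((hs.differentiable (by simp)) x).hasFDerivAt
  have h3 := h1.comp_hasFDerivAt x h2
  have h4 : (fun y => Bf (s y)) = Bf ∘ s := rfl
  rw [h4, h3.fderiv]
  simp

theorem pd_b1 {x : E} (h0 : x 0 = 0) (h1 : x 1 = 0) (i : Fin 4) : pd i b1 x = 0 := by
  have h : pd i b1 x = deriv Bf (s1 x) * pd i s1 x := pd_Bf s1_cd i x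
  have h2 : pd i s1 x = 0 := by
    have h3 : pd i s1 x = _ := pd_sum2 0 1 i x
    rw [h3, h0, h1]
    ring
  rw [h, h2, mul_zero]

theorem pd_b2 (x : E) (i : Fin 4) (h2 : i ≠ 2) (h3 : i ≠ 3) : pd i b2 x = 0 := by
  have h : pd i b2 x = deriv Bf (s2 x) * pd i s2 x := pd_Bf s2_cd i x
  have h4 : pd i s2 x = 0 := by
    have h5 : pd i s2 x = _ := pd_sum2 2 3 i x
    rw [h5, if_neg h2, if_neg h3]
    ring
  rw [h, h4, mul_zero]

theorem pd_hh (x : E) (i : Fin 4) :
    pd i hh x = -2 * (if i = 2 then 1 else 0) * b2 x + -2 * x 2 * pd i b2 x := by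
  have h1 : pd i hh x = _ := pd_mul (contDiff_const.mul (cd_coord 2)) b2_cd i x
  have h2 : pd i (fun y : E => -2 * y 2) x = _ := pd_mul contDiff_const (cd_coord 2) i x
  rw [h1, h2, pd_coord, pd_cst]
  ring

theorem pd_hh0 (x : E) : pd 0 hh x = 0 := by
  rw [pd_hh, pd_b2 x 0 (by decide) (by decide)]
  simp

theorem pd_hh1 (x : E) : pd 1 hh x = 0 := by
  rw [pd_hh, pd_b2 x 1 (by decide) (by decide)]
  simp

theorem pp_zero : pp 0 = -2 := by
  unfold pp
  rw [pd_hh]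
  have h1 : b2 (0 : E) = 1 := by
    unfold b2 s2
    simp [Bf_zero]
  rw [h1]
  simp

theorem b1_line {x : E} (h0 : x 0 = 0) (h1 : x 1 = 0) : b1 x = 1 := by
  unfold b1 s1
  rw [h0, h1]
  simp [Bf_zero]

/-- the values on the line -/
theorem pd_g0 {x : E} (h0 : x 0 = 0) (h1 : x 1 = 0) (i : Fin 4) :
    pd i (gg 0) x = -(pp x / 2) * (if i = 1 then 1 else 0) := by
  have e : pd i (gg 0) x = pd i (fun y => -(AA y * y 1)) x := rfl
  rw [e, pd_neg (fun y => AA y * y 1), pd_mul AA_cd (cd_coord 1), pd_coord, h1]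
  unfold AA
  rw [b1_line h0 h1]
  ring

theorem pd_g1 {x : E} (h0 : x 0 = 0) (h1 : x 1 = 0) (i : Fin 4) :
    pd i (gg 1) x = (pp x / 2) * (if i = 0 then 1 else 0) := by
  have e : pd i (gg 1) x = pd i (fun y => AA y * y 0) x := rfl
  rw [e, pd_mul AA_cd (cd_coord 0), pd_coord, h0]
  unfold AA
  rw [b1_line h0 h1]
  ring

theorem pd_g2 (x : E) (i : Fin 4) : pd i (gg 2) x = 0 := pd_cst 0 i x

theorem pd_g3 {x : E} (h0 : x 0 = 0) (h1 : x 1 = 0) (i : Fin 4) :
    pd i (gg 3) x = pd i hh x := by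
  have e : pd i (gg 3) x = pd i (fun y => b1 y * hh y) x := rfl
  rw [e, pd_mul b1_cd hh_cd, pd_b1 h0 h1, b1_line h0 h1]
  ring

/-- the form -/
noncomputable def psi : E → E →L[ℝ] ℝ := frm gg

theorem psi_cd : ContDiff ℝ ∞ psi := frm_smooth gg_cd

theorem co_line {x : E} (h0 : x 0 = 0) (h1 : x 1 = 0) (i j : Fin 4) :
    co psi i j x = (![![0, pp x, 0, 0], ![-pp x, 0, 0, 0], ![0, 0, 0, pp x],
      ![0, 0, -pp x, 0]] : Fin 4 → Fin 4 → ℝ) i j := by
  have hp : pd 2 hh x = pp x := rfl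
  have a0 := pd_hh0 x
  have a1 := pd_hh1 x
  unfold psi
  rw [co_frm gg_cd]
  fin_cases i <;> fin_cases j <;>
    simp only [Fin.zero_eta, Fin.mk_one, Fin.reduceFinMk, sub_self, pd_g0 h0 h1, pd_g1 h0 h1,
      pd_g2, pd_g3 h0 h1, hp, a0, a1] <;> simp <;> ring

/-- vanishing far away -/
theorem psi_far {x : E} (h : 1 ≤ ‖x‖) : psi x = 0 := by
  have hn : ‖x‖ ^ 2 = s1 x + s2 x := by
    rw [EuclideanSpace.norm_sq_eq, Fin.sum_univ_four]
    simp only [Real.norm_eq_abs, sq_abs, s1, s2]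
    ring
  have h1 : 1 ≤ s1 x + s2 x := by
    rw [← hn]
    nlinarith
  have hg : ∀ j, gg j x = 0 := by
    rcases le_or_gt (1 / 4) (s1 x) with h2 | h2
    · have hb : b1 x = 0 := Bf_big h2
      have hA : AA x = 0 := by unfold AA; rw [hb, zero_mul]
      intro j
      fin_cases j
      · show -(AA x * x 1) = 0
        rw [hA]; ring
      · show AA x * x 0 = 0
        rw [hA]; ring
      · rfl
      · show b1 x * hh x = 0
        rw [hb]; ring
    · have h3 : 1 / 4 < s2 x := by linarith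
      have hev : hh =ᶠ[nhds x] fun _ => (0 : ℝ) := by
        have ho : IsOpen {y : E | 1 / 4 < s2 y} := isOpen_lt continuous_const s2_cd.continuous
        filter_upwards [ho.mem_nhds h3] with y hy
        have hb : b2 y = 0 := Bf_big (le_of_lt hy)
        unfold hh
        rw [hb, mul_zero]
      have hp : pp x = 0 := by
        unfold pp pd
        rw [hev.fderiv_eq]
        simp
      have hh0 : hh x = 0 := hev.eq_of_nhds
      have hA : AA x = 0 := by unfold AA; rw [hp]; ring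
      intro j
      fin_cases j
      · show -(AA x * x 1) = 0
        rw [hA]; ring
      · show AA x * x 0 = 0
        rw [hA]; ring
      · rfl
      · show b1 x * hh x = 0
        rw [hh0]; ring
  unfold psi frm
  simp [hg]

theorem co_far {x : E} (h : 1 < ‖x‖) (i j : Fin 4) : co psi i j x = 0 := by
  have hev : psi =ᶠ[nhds x] fun _ => (0 : E →L[ℝ] ℝ) := by
    have ho : IsOpen {y : E | 1 < ‖y‖} := isOpen_lt continuous_const continuous_norm
    filter_upwards [ho.mem_nhds h] with y hy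
    exact psi_far (le_of_lt hy)
  unfold co dd
  rw [hev.fderiv_eq]
  simp

/-- a smooth function of bounded support, zero on the line -/
theorem lip_line {F : E → ℝ} (hF : ContDiff ℝ ∞ F) (hfar : ∀ x, 1 < ‖x‖ → F x = 0)
    (hz : ∀ x : E, x 0 = 0 → x 1 = 0 → F x = 0) :
    ∃ K : ℝ, 0 ≤ K ∧ ∀ x, F x ^ 2 ≤ K ^ 2 * (x 0 ^ 2 + x 1 ^ 2) := by
  have hc : HasCompactSupport F := by
    apply HasCompactSupport.intro (isCompact_closedBall (0 : E) 1)
    intro x hx
    apply hfar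
    rw [mem_closedBall_zero_iff] at hx
    exact not_le.1 hx
  obtain ⟨K, hK⟩ := ContDiff.lipschitzWith_of_hasCompactSupport hc hF (by simp)
  refine ⟨K, K.2, fun x => ?_⟩
  let q : E := EuclideanSpace.single 0 (x 0) + EuclideanSpace.single 1 (x 1)
  have h1 := hK.dist_le_mul x (x - q)
  have h2 : F (x - q) = 0 := by
    apply hz
    · simp [q]
    · simp [q]
  have hq : dist x (x - q) ^ 2 = x 0 ^ 2 + x 1 ^ 2 := by
    rw [dist_eq_norm, sub_sub_cancel, EuclideanSpace.norm_sq_eq, Fin.sum_univ_four]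
    simp [q]
  rw [h2, Real.dist_eq, sub_zero] at h1
  calc F x ^ 2 = |F x| ^ 2 := (sq_abs _).symm
    _ ≤ (K * dist x (x - q)) ^ 2 := pow_le_pow_left₀ (abs_nonneg _) h1 2
    _ = K ^ 2 * (x 0 ^ 2 + x 1 ^ 2) := by rw [mul_pow, hq]

/-- the same for a combination of two components -/
theorem lip_comb (i j k l : Fin 4) (c : ℝ)
    (h : ∀ x : E, x 0 = 0 → x 1 = 0 → co psi i j x + c * co psi k l x = 0) :
    ∃ K : ℝ, 0 ≤ K ∧ ∀ x, (co psi i j x + c * co psi k l x) ^ 2 ≤ K ^ 2 * (x 0 ^ 2 + x 1 ^ 2) := by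
  apply lip_line (F := fun x => co psi i j x + c * co psi k l x)
  · exact (ClosedAux.co_smooth psi_cd i j).add
      (contDiff_const.mul (ClosedAux.co_smooth psi_cd k l))
  · intro x hx
    simp only [co_far hx]
    ring
  · exact h

end FlBAux

open FlBAux in
theorem exists_psi : ∃ (psi : E → E →L[ℝ] ℝ) (C : ℝ), ContDiff ℝ ∞ psi ∧ 0 < C ∧
    (∀ x, 1 ≤ ‖x‖ → psi x = 0) ∧ (∀ i j, cof psi 0 i j = -c0 i j) ∧
    (∀ x, Uc (cof psi x) 0 ^ 2 + Uc (cof psi x) 1 ^ 2 ≤ C ^ 2 * (x 0 ^ 2 + x 1 ^ 2)) ∧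
    ∀ x, ∑ i, Vc (cof psi x) i ^ 2 ≤ C ^ 2 * (x 0 ^ 2 + x 1 ^ 2) := by
  obtain ⟨K0, hK0, h0⟩ := lip_comb 0 2 3 1 1 (by
    intro x a b
    rw [co_line a b, co_line a b]
    simp)
  obtain ⟨K1, hK1, h1⟩ := lip_comb 0 3 1 2 1 (by
    intro x a b
    rw [co_line a b, co_line a b]
    simp)
  obtain ⟨K2, hK2, h2⟩ := lip_comb 0 2 3 1 (-1) (by
    intro x a b
    rw [co_line a b, co_line a b]
    simp)
  obtain ⟨K3, hK3, h3⟩ := lip_comb 0 3 1 2 (-1) (by
    intro x a b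
    rw [co_line a b, co_line a b]
    simp)
  obtain ⟨K4, hK4, h4⟩ := lip_comb 0 1 2 3 (-1) (by
    intro x a b
    rw [co_line a b, co_line a b]
    simp)
  refine ⟨FlBAux.psi, K0 + K1 + K2 + K3 + K4 + 1, psi_cd, by positivity, fun x hx => psi_far hx,
    ?_, ?_, ?_⟩
  · intro i j
    unfold cof
    rw [co_line (by simp) (by simp), pp_zero]
    unfold c0
    fin_cases i <;> fin_cases j <;> simp
  · intro x
    have a0 := h0 x
    have a1 := h1 x
    have hm : 0 ≤ x 0 ^ 2 + x 1 ^ 2 := by positivity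
    have e0 : Uc (cof FlBAux.psi x) 0 = co FlBAux.psi 0 2 x + 1 * co FlBAux.psi 3 1 x := by
      simp [Uc, cof]
    have e1 : Uc (cof FlBAux.psi x) 1 = co FlBAux.psi 0 3 x + 1 * co FlBAux.psi 1 2 x := by
      simp [Uc, cof]
    rw [e0, e1]
    have hC : K0 ^ 2 + K1 ^ 2 ≤ (K0 + K1 + K2 + K3 + K4 + 1) ^ 2 := by
      have : K0 ^ 2 + K1 ^ 2 ≤ (K0 + K1) ^ 2 := by nlinarith [mul_nonneg hK0 hK1]
      have h5 : (K0 + K1) ^ 2 ≤ (K0 + K1 + K2 + K3 + K4 + 1) ^ 2 :=
        pow_le_pow_left₀ (by positivity) (by linarith) 2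
      linarith
    nlinarith [mul_le_mul_of_nonneg_right hC hm]
  · intro x
    have a2 := h2 x
    have a3 := h3 x
    have a4 := h4 x
    have hm : 0 ≤ x 0 ^ 2 + x 1 ^ 2 := by positivity
    have e0 : Vc (cof FlBAux.psi x) 0 = co FlBAux.psi 0 2 x + -1 * co FlBAux.psi 3 1 x := by
      simp [Vc, cof]; ring
    have e1 : Vc (cof FlBAux.psi x) 1 = co FlBAux.psi 0 3 x + -1 * co FlBAux.psi 1 2 x := by
      simp [Vc, cof]; ring
    have e2 : Vc (cof FlBAux.psi x) 2 = co FlBAux.psi 0 1 x + -1 * co FlBAux.psi 2 3 x := by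
      simp [Vc, cof]; ring
    rw [Fin.sum_univ_three, e0, e1, e2]
    have hC : K2 ^ 2 + K3 ^ 2 + K4 ^ 2 ≤ (K0 + K1 + K2 + K3 + K4 + 1) ^ 2 := by
      have : K2 ^ 2 + K3 ^ 2 + K4 ^ 2 ≤ (K2 + K3 + K4) ^ 2 := by
        nlinarith [mul_nonneg hK2 hK3, mul_nonneg hK2 hK4, mul_nonneg hK3 hK4]
      have h5 : (K2 + K3 + K4) ^ 2 ≤ (K0 + K1 + K2 + K3 + K4 + 1) ^ 2 :=
        pow_le_pow_left₀ (by positivity) (by linarith) 2
      linarith
    nlinarith [mul_le_mul_of_nonneg_right hC hm]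

end Pool.Agent.Lib.Shp
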