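import Pool.Agent.Lib.Shp.FlF
import Pool.Agent.Lib.Shp.FlB

set_option autoImplicit false

/-!
# The flat example

`lam x = FH F H x + c r psi (x / r)`, `r = √a`, with `C c ≤ e √a` for a large constant (`C (1 + k) ≤ 2 k C'`). For `‖x‖² ≤ a`: `F = c`, `H = e`,
`Uc = (2 e x₀, -2 e x₁, 4 c) + c Uc (d psi) (x / r)`, `Vc = c Vc (d psi) (x / r)`; `|Vc| ≤ c C |z₁| / r`, `|(Uc 0, Uc 1)| ≥ (2 e - c C / r) |z₁|`. For
`‖x‖² ≥ a` the correction vanishes and `exists_FH` applies (`m = x₀² + x₁²`).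
-/

open MeasureTheory Set Metric
open scoped ContDiff

namespace Pool.Agent.Lib.Shp

open Pool.Agent.P28b04d Pool.Agent.Lib.Psd Pool.Agent.Lib.Pex

namespace FlXAux

theorem cof_smul {lam : E → E →L[ℝ] ℝ} (h : ContDiff ℝ ∞ lam) (c : ℝ) (x : E) (i j : Fin 4) :
    cof (fun y => c • lam y) x i j = c * cof lam x i j := by
  have h1 : DifferentiableAt ℝ lam x := (h.differentiable (by simp)) x
  have h2 : fderiv ℝ (fun y => c • lam y) x = c • fderiv ℝ lam x := fderiv_fun_const_smul h1 c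
  unfold cof co dd
  rw [h2]
  simp only [smul_apply, smul_eq_mul]
  ring

theorem cof_zero {lam : E → E →L[ℝ] ℝ} {x : E} (h : lam =ᶠ[nhds x] fun _ => 0) (i j : Fin 4) :
    cof lam x i j = 0 := by
  have h2 : fderiv ℝ lam x = 0 := by
    rw [h.fderiv_eq]
    simp
  unfold cof co dd
  rw [h2]
  simp

theorem deriv_const {F : ℝ → ℝ} (hF : ContDiff ℝ ∞ F) {a c : ℝ} (h : ∀ T ≤ a, F T = c) {T : ℝ}
    (hT : T ≤ a) : deriv F T = 0 := by
  have h1 : HasDerivWithinAt F (deriv F T) (Iic T) T :=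
    ((hF.differentiable (by simp)) T).hasDerivAt.hasDerivWithinAt
  have h2 : HasDerivWithinAt F 0 (Iic T) T := by
    refine (hasDerivWithinAt_const T (Iic T) c).congr (fun y hy => h y (le_trans hy hT)) (h T hT)
  exact (uniqueDiffOn_Iic T T (mem_Iic.2 le_rfl)).eq_deriv _ h1 h2

theorem nrm_eq (x : E) : ‖x‖ ^ 2 = x 0 ^ 2 + x 1 ^ 2 + x 2 ^ 2 + x 3 ^ 2 := by
  rw [EuclideanSpace.norm_sq_eq, Fin.sum_univ_four]
  simp only [Real.norm_eq_abs, sq_abs]

theorem low {A B u v e β m : ℝ} (hm : 0 ≤ m) (he : 0 < e) (hβ : 0 ≤ β) (hβe : β ≤ 2 * e)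
    (hA : A ^ 2 + B ^ 2 = 4 * e ^ 2 * m) (hu : u ^ 2 + v ^ 2 ≤ β ^ 2 * m) :
    (2 * e - β) ^ 2 * m ≤ (A + u) ^ 2 + (B + v) ^ 2 := by
  have h1 : (A * u + B * v) ^ 2 ≤ (2 * e * β * m) ^ 2 := by
    have h2 : (A * u + B * v) ^ 2 ≤ (A ^ 2 + B ^ 2) * (u ^ 2 + v ^ 2) := by
      nlinarith [sq_nonneg (A * v - B * u)]
    rw [hA] at h2
    have h3 : 4 * e ^ 2 * m * (u ^ 2 + v ^ 2) ≤ 4 * e ^ 2 * m * (β ^ 2 * m) :=
      mul_le_mul_of_nonneg_left hu (by positivity)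
    nlinarith
  have h4 : -(2 * e * β * m) ≤ A * u + B * v := by
    have := abs_le_of_sq_le_sq h1 (by positivity)
    exact (abs_le.1 this).1
  -- inner product with (A, B)
  have h5 : 2 * e * (2 * e - β) * m ≤ A * (A + u) + B * (B + v) := by nlinarith
  have h6 : (A * (A + u) + B * (B + v)) ^ 2 ≤ (A ^ 2 + B ^ 2) * ((A + u) ^ 2 + (B + v) ^ 2) := by
    nlinarith [sq_nonneg (A * (B + v) - B * (A + u))]
  have h7 : 0 ≤ 2 * e * (2 * e - β) * m := by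
    have : 0 ≤ 2 * e - β := by linarith
    positivity
  have h8 : (2 * e * (2 * e - β) * m) ^ 2 ≤ (A * (A + u) + B * (B + v)) ^ 2 :=
    pow_le_pow_left₀ h7 h5 2
  rw [hA] at h6
  rcases hm.eq_or_lt with h9 | h9
  · rw [← h9, mul_zero]
    positivity
  · have h10 : 4 * e ^ 2 * m * ((2 * e - β) ^ 2 * m) ≤
        4 * e ^ 2 * m * ((A + u) ^ 2 + (B + v) ^ 2) := by nlinarith
    exact le_of_mul_le_mul_left h10 (by positivity)

theorem sq3 {a b c : ℝ} (h : a ^ 2 + b ^ 2 + c ^ 2 = 0) : a = 0 ∧ b = 0 ∧ c = 0 := by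
  have ha := sq_nonneg a
  have hb := sq_nonneg b
  have hc := sq_nonneg c
  refine ⟨?_, ?_, ?_⟩
  · exact pow_eq_zero_iff (two_ne_zero) |>.1 (by linarith)
  · exact pow_eq_zero_iff (two_ne_zero) |>.1 (by linarith)
  · exact pow_eq_zero_iff (two_ne_zero) |>.1 (by linarith)

theorem comp_eq {p : Fin 4 → Fin 4 → ℝ} {c : ℝ} (hs : Skew p) (h0 : p 0 2 + p 3 1 = 0)
    (h1 : p 0 3 + p 1 2 = 0) (h2 : p 0 1 + p 2 3 = 4 * c) (v0 : p 0 2 - p 3 1 = 0)
    (v1 : p 0 3 - p 1 2 = 0) (v2 : p 0 1 - p 2 3 = 0) (i j : Fin 4) : p i j = c * c0 i j := by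
  obtain ⟨⟨e1, e2, e3, e4⟩, ⟨e5, e6, e7⟩, ⟨e8, e9, e10⟩⟩ := AlgAux.sk hs
  have f1 : p 0 1 = c * 2 := by linarith
  have f2 : p 2 3 = c * 2 := by linarith
  have f3 : p 0 2 = 0 := by linarith
  have f4 : p 3 1 = 0 := by linarith
  have f5 : p 0 3 = 0 := by linarith
  have f6 : p 1 2 = 0 := by linarith
  have f7 : p 1 3 = 0 := by linarith
  have f8 : p 1 0 = c * -2 := by rw [e5, f1]; ring
  have f9 : p 3 2 = c * -2 := by rw [e10, f2]; ring
  have f10 : p 2 0 = 0 := by rw [e6, f3]; ring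
  have f11 : p 3 0 = 0 := by rw [e7, f5]; ring
  have f12 : p 2 1 = 0 := by rw [e8, f6]; ring
  fin_cases i <;> fin_cases j <;>
    simp [c0, f1, f2, f3, f4, f5, f6, f7, f8, f9, f10, f11, f12, e1, e2, e3, e4]

theorem fin_ineq {p q : Fin 4 → Fin 4 → ℝ} {c e k β m x0 x1 : ℝ} (hm0 : 0 ≤ m)
    (hm : m = x0 ^ 2 + x1 ^ 2) (hk0 : 0 < k) (he : 0 < e) (hβ0 : 0 ≤ β)
    (hkey : (1 + k) * β ≤ k * e)
    (h0 : p 0 2 + p 3 1 = 2 * x0 * e) (h1 : p 0 3 + p 1 2 = -2 * x1 * e)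
    (v0 : p 0 2 - p 3 1 = 0) (v1 : p 0 3 - p 1 2 = 0) (v2 : p 0 1 - p 2 3 = 0)
    (hu : c ^ 2 * ((q 0 2 + q 3 1) ^ 2 + (q 0 3 + q 1 2) ^ 2) ≤ β ^ 2 * m)
    (hv : c ^ 2 * ((q 0 2 - q 3 1) ^ 2 + (q 0 3 - q 1 2) ^ 2 + (q 0 1 - q 2 3) ^ 2) ≤
      β ^ 2 * m) :
    (p 0 2 + c * q 0 2 - (p 3 1 + c * q 3 1)) ^ 2 +
      (p 0 3 + c * q 0 3 - (p 1 2 + c * q 1 2)) ^ 2 +
      (p 0 1 + c * q 0 1 - (p 2 3 + c * q 2 3)) ^ 2 ≤
    k ^ 2 * ((p 0 2 + c * q 0 2 + (p 3 1 + c * q 3 1)) ^ 2 +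
      (p 0 3 + c * q 0 3 + (p 1 2 + c * q 1 2)) ^ 2 +
      (p 0 1 + c * q 0 1 + (p 2 3 + c * q 2 3)) ^ 2) := by
  have hβe : β ≤ e := by
    have h1 : (1 + k) * β ≤ (1 + k) * e := by nlinarith
    exact le_of_mul_le_mul_left h1 (by linarith)
  have hlow := low (A := 2 * x0 * e) (B := -2 * x1 * e) (u := c * (q 0 2 + q 3 1))
    (v := c * (q 0 3 + q 1 2)) (e := e) (β := β) (m := m) hm0 he hβ0 (by linarith)
    (by rw [hm]; ring) (by
      calc (c * (q 0 2 + q 3 1)) ^ 2 + (c * (q 0 3 + q 1 2)) ^ 2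
          = c ^ 2 * ((q 0 2 + q 3 1) ^ 2 + (q 0 3 + q 1 2) ^ 2) := by ring
        _ ≤ β ^ 2 * m := hu)
  have hbk : β ^ 2 ≤ k ^ 2 * (2 * e - β) ^ 2 := by
    have h2 : β ≤ k * (2 * e - β) := by
      have h3 : 0 < k * e := by positivity
      linarith
    have h3 := pow_le_pow_left₀ hβ0 h2 2
    rwa [mul_pow] at h3
  have hbkm : β ^ 2 * m ≤ k ^ 2 * ((2 * e - β) ^ 2 * m) := by
    have := mul_le_mul_of_nonneg_right hbk hm0
    rwa [mul_assoc] at this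
  have hL : (p 0 2 + c * q 0 2 - (p 3 1 + c * q 3 1)) ^ 2 +
      (p 0 3 + c * q 0 3 - (p 1 2 + c * q 1 2)) ^ 2 +
      (p 0 1 + c * q 0 1 - (p 2 3 + c * q 2 3)) ^ 2 =
      c ^ 2 * ((q 0 2 - q 3 1) ^ 2 + (q 0 3 - q 1 2) ^ 2 + (q 0 1 - q 2 3) ^ 2) := by
    have e1 : p 0 2 = p 3 1 := by linarith
    have e2 : p 0 3 = p 1 2 := by linarith
    have e3 : p 0 1 = p 2 3 := by linarith
    rw [e1, e2, e3]
    ring
  have hR1 : p 0 2 + c * q 0 2 + (p 3 1 + c * q 3 1) = 2 * x0 * e + c * (q 0 2 + q 3 1) := by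
    linarith
  have hR2 : p 0 3 + c * q 0 3 + (p 1 2 + c * q 1 2) =
      -2 * x1 * e + c * (q 0 3 + q 1 2) := by
    linarith
  rw [hL, hR1, hR2]
  have hk2 := mul_le_mul_of_nonneg_left hlow (sq_nonneg k)
  have hk3 : 0 ≤ k ^ 2 * (p 0 1 + c * q 0 1 + (p 2 3 + c * q 2 3)) ^ 2 := by positivity
  rw [mul_add]
  linarith

end FlXAux

open FlXAux in
theorem flat_ex {k : ℝ} (hk : ks < k) (hk1 : k < 1) : ∃ lam : E → E →L[ℝ] ℝ, ContDiff ℝ ∞ lam ∧
    (∀ x, 1 ≤ ‖x‖ → lam x = th1 x) ∧ (∀ i j, cof lam 0 i j = 0) ∧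
    ∀ x, ∑ i, Vc (cof lam x) i ^ 2 ≤ k ^ 2 * ∑ i, Uc (cof lam x) i ^ 2 := by
  obtain ⟨psi, C, hps, hC, hp1, hp0, hpU, hpV⟩ := exists_psi
  have hk0 : 0 < k := by
    refine lt_of_le_of_lt ?_ hk
    unfold ks
    have h1 : Real.sqrt 6 ≤ 5 / 2 := by
      rw [Real.sqrt_le_left (by norm_num)]
      norm_num
    linarith
  obtain ⟨F, H, a, c, e, ha, ha4, hc, he, hF, hH, hFa, hF1, hCe, hFH⟩ :=
    exists_FH hk hk1 ((1 + k) * C / k)
  set r := Real.sqrt a with hr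
  have hr0 : 0 < r := Real.sqrt_pos.2 ha
  have hr2 : r ^ 2 = a := Real.sq_sqrt ha.le
  have hr1 : r ≤ 1 := by nlinarith
  have hpc : ContDiff ℝ ∞ (fun y => c • psi y) := hps.const_smul c
  have hsc : ContDiff ℝ ∞ (fun y : E => r • (c • psi (r⁻¹ • y))) :=
    (hpc.comp (contDiff_id.const_smul r⁻¹)).const_smul r
  have hFHs := FH_smooth hF hH
  have hcof : ∀ x i j, cof (fun y => FH F H y + r • (c • psi (r⁻¹ • y))) x i j =
      cof (FH F H) x i j + c * cof psi (r⁻¹ • x) i j := by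
    intro x i j
    rw [cof_add hFHs hsc, cof_scale hpc hr0, cof_smul hps]
  refine ⟨fun y => FH F H y + r • (c • psi (r⁻¹ • y)), hFHs.add hsc, ?_, ?_, ?_⟩
  · intro x hx
    have h1 : 1 ≤ ‖r⁻¹ • x‖ := by
      rw [norm_smul, norm_inv, Real.norm_eq_abs, abs_of_pos hr0]
      have : 1 ≤ r⁻¹ := (one_le_inv₀ hr0).2 hr1
      nlinarith [norm_nonneg x]
    have h2 : (1 : ℝ) ≤ ‖x‖ ^ 2 := by nlinarith
    simp only [hp1 _ h1, smul_zero, add_zero]
    unfold FH th1 frm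
    refine Finset.sum_congr rfl fun j _ => ?_
    have e1 := (hF1 _ h2).1
    have e2 := (hF1 _ h2).2
    show (F (‖x‖ ^ 2) * t1c x j + H (‖x‖ ^ 2) * rbc x j / 3) • _ = t1c x j • _
    rw [e1, e2, one_mul, zero_mul, zero_div, add_zero]
  · intro i j
    rw [hcof]
    have h0 : ‖(0 : E)‖ ^ 2 = 0 := by simp
    have h1 := FH_U hF hH (0 : E)
    have h2 := FH_V hF hH (0 : E)
    rw [h0] at h1 h2
    have h3 : F 0 = c := (hFa 0 ha.le).1
    have h4 : cof (FH F H) 0 i j = c * c0 i j := by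
      have hU0 := congrFun h1 0
      have hU1 := congrFun h1 1
      have hU2 := congrFun h1 2
      simp only [Uc, Matrix.cons_val_zero, Matrix.cons_val_one, Matrix.cons_val, h3,
        PiLp.zero_apply] at hU0 hU1 hU2
      simp only [PiLp.zero_apply, Fin.sum_univ_three, Vc, Matrix.cons_val_zero,
        Matrix.cons_val_one, Matrix.cons_val, zero_mul] at h2
      obtain ⟨v0, v1, v2⟩ := sq3 (a := cof (FH F H) 0 0 2 - cof (FH F H) 0 3 1)
        (b := cof (FH F H) 0 0 3 - cof (FH F H) 0 1 2)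
        (c := cof (FH F H) 0 0 1 - cof (FH F H) 0 2 3) (by rw [h2]; ring)
      exact comp_eq (cof_skew (FH F H) 0) (by rw [hU0]; ring) (by rw [hU1]; ring)
        (by rw [hU2]; ring) v0 v1 v2 i j
    have h5 := hp0 i j
    rw [smul_zero, h4, h5]
    ring
  · intro x
    have hfun : cof (fun y => FH F H y + r • (c • psi (r⁻¹ • y))) x =
        fun i j => cof (FH F H) x i j + c * cof psi (r⁻¹ • x) i j := by
      funext i j
      exact hcof x i j
    rw [hfun]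
    have hU := FH_U hF hH x
    have hV := FH_V hF hH x
    have hT : (0 : ℝ) ≤ ‖x‖ ^ 2 := by positivity
    have hm0 : 0 ≤ x 0 ^ 2 + x 1 ^ 2 := by positivity
    have hmT : x 0 ^ 2 + x 1 ^ 2 ≤ ‖x‖ ^ 2 := by
      rw [nrm_eq]
      nlinarith [sq_nonneg (x 2), sq_nonneg (x 3)]
    have hU0 := congrFun hU 0
    have hU1 := congrFun hU 1
    have hU2 := congrFun hU 2
    simp only [Uc, Matrix.cons_val_zero, Matrix.cons_val_one, Matrix.cons_val] at hU0 hU1 hU2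
    simp only [Fin.sum_univ_three, Vc, Matrix.cons_val_zero,
        Matrix.cons_val_one, Matrix.cons_val] at hV
    simp only [Fin.sum_univ_three, Vc, Uc, Matrix.cons_val_zero,
        Matrix.cons_val_one, Matrix.cons_val]
    by_cases hxa : ‖x‖ ^ 2 ≤ a
    · have hdF : deriv F (‖x‖ ^ 2) = 0 := deriv_const hF (fun T hT => (hFa T hT).1) hxa
      have hdH : deriv H (‖x‖ ^ 2) = 0 := deriv_const hH (fun T hT => (hFa T hT).2) hxa
      obtain ⟨hFx, hHx⟩ := hFa _ hxa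
      rw [hdF, hFx] at hU2
      rw [hdH, hHx] at hU0 hU1
      rw [hdF, hdH] at hV
      have hpU' := hpU (r⁻¹ • x)
      have hpV' := hpV (r⁻¹ • x)
      simp only [Uc, Vc, Fin.sum_univ_three, Matrix.cons_val_zero, Matrix.cons_val_one,
        Matrix.cons_val, PiLp.smul_apply, smul_eq_mul] at hpU' hpV'
      set m := x 0 ^ 2 + x 1 ^ 2 with hm
      have hsc1 : (r⁻¹ * x 0) ^ 2 + (r⁻¹ * x 1) ^ 2 = (r⁻¹) ^ 2 * m := by rw [hm]; ring
      rw [hsc1] at hpU' hpV'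
      set β := c * C * r⁻¹ with hβ
      have hβ0 : 0 ≤ β := by positivity
      have hkey : (1 + k) * β ≤ k * e := by
        have h1 : (1 + k) * C / k * c ≤ e * r := hCe
        have h2 : (1 + k) * C * c ≤ e * r * k := by
          have h4 := mul_le_mul_of_nonneg_right h1 hk0.le
          have h3 : (1 + k) * C / k * c * k = (1 + k) * C * c := by
            field_simp
          linarith
        have h4 : (1 + k) * (c * C * r⁻¹) = (1 + k) * C * c * r⁻¹ := by ring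
        have h5 : e * r * k * r⁻¹ = k * e := by
          field_simp
        rw [hβ, h4, ← h5]
        exact mul_le_mul_of_nonneg_right h2 (by positivity)
      obtain ⟨v0, v1, v2⟩ := sq3 (a := cof (FH F H) x 0 2 - cof (FH F H) x 3 1)
        (b := cof (FH F H) x 0 3 - cof (FH F H) x 1 2)
        (c := cof (FH F H) x 0 1 - cof (FH F H) x 2 3) (by rw [hV]; ring)
      refine fin_ineq (x0 := x 0) (x1 := x 1) (m := m) (β := β) (e := e) hm0 hm hk0 he hβ0 hkey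
        (by rw [hU0]; ring) (by rw [hU1]; ring) v0 v1 v2 ?_ ?_
      · have h1 := mul_le_mul_of_nonneg_left hpU' (sq_nonneg c)
        refine le_trans h1 (le_of_eq ?_)
        rw [hβ]; ring
      · have h1 := mul_le_mul_of_nonneg_left hpV' (sq_nonneg c)
        refine le_trans h1 (le_of_eq ?_)
        rw [hβ]; ring
    · push Not at hxa
      have hz : ∀ i j, cof psi (r⁻¹ • x) i j = 0 := by
        intro i j
        apply cof_zero
        have h1 : 1 < ‖r⁻¹ • x‖ := by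
          rw [norm_smul, norm_inv, Real.norm_eq_abs, abs_of_pos hr0]
          have h2 : r < ‖x‖ := by
            rw [← hr2] at hxa
            exact lt_of_pow_lt_pow_left₀ 2 (norm_nonneg x) hxa
          rw [inv_mul_eq_div, one_lt_div hr0]
          exact h2
        have h3 : ∀ᶠ y in nhds (r⁻¹ • x), 1 < ‖y‖ :=
          (continuous_norm.tendsto _).eventually (lt_mem_nhds h1)
        filter_upwards [h3] with y hy
        exact hp1 y hy.le
      simp only [hz, mul_zero, add_zero]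
      have h := hFH (‖x‖ ^ 2) (x 0 ^ 2 + x 1 ^ 2) hm0 hmT
      rw [hV, hU0, hU1, hU2]
      nlinarith

end Pool.Agent.Lib.Shp
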