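import Pool.Agent.Lib.Shp.Ker

set_option autoImplicit false

/-!
# The anti-self-dual part of the average

`Asd`: for a form pinched by `k`, the anti-self-dual components of `d(Ay s α)` at `z` have square norm at most
`(k + s² / 2)² (4 / (1 - k²)) EK (ey α z u v) (s²)`. Chart formula (`Vc_Ay`), polar coordinates (`radial`), pinching on the spheres (`SA_V`),
`y / (1 - y)³ k2 6 σ y (1 - y) = (π σ / 7) y KK σ (y / σ)`, mass `72 ∫ t KK = 1 - σ / 10 ≤ 1`, Cauchy-Schwarz.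
Text: /team-store/b19_28b04d_sharp.md, III (e).
-/

open MeasureTheory Set Metric
open scoped ContDiff

namespace Pool.Agent.Lib.Shp

open Pool.Agent.P28b04d Pool.Agent.Lib.Psd Pool.Agent.Lib.Pex

variable {α : W → W →L[ℝ] ℝ} {z u v : W}

theorem KK_nonneg {σ t : ℝ} (h0 : 0 < σ) (h1 : σ ≤ 2 / 3) (ht : t ∈ Icc (0 : ℝ) 1) :
    0 ≤ KK σ t := by
  unfold KK
  have h2 : 0 ≤ 1 - t := by linarith [ht.2]
  have h3 : 0 ≤ 1 - σ * t := by nlinarith [ht.1, ht.2]
  positivity

theorem Dy0_compact {σ : ℝ} (h0 : 0 ≤ σ) (h1 : σ < 1) : IsCompact (Dy0 σ) := by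
  rw [Dy0_eq h0 h1]
  exact isCompact_closedBall _ _

/-- a direction -/
theorem dir_eq (h : Conn α) (hz : ON3 z u v) {s : ℝ} (h0 : 0 < s) (h1 : s ^ 2 ≤ 2 / 3)
    (e : Fin 3 → ℝ) : ∑ i, e i * Vc (Psd.cmp (dd (Ay s α) z) u v) i =
      c6⁻¹ * ((s ^ 6)⁻¹ * ∫ x in Dy0 (s ^ 2), k2 6 (s ^ 2) (yy x) *
        ∑ i, e i * Ve α z u v i x) := by
  have hc : ∀ i, IntegrableOn (fun x => e i * (k2 6 (s ^ 2) (yy x) * Ve α z u v i x))
      (Dy0 (s ^ 2)) := fun i =>
    (continuous_const.mul (((k2_cont 6 (s ^ 2)).comp yy_cont).mul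
      (Ve_smooth h hz i).continuous)).continuousOn.integrableOn_compact
      (Dy0_compact (sq_nonneg s) (by linarith))
  have e1 : ∀ x, k2 6 (s ^ 2) (yy x) * ∑ i, e i * Ve α z u v i x =
      ∑ i, e i * (k2 6 (s ^ 2) (yy x) * Ve α z u v i x) := by
    intro x
    rw [Finset.mul_sum]
    refine Finset.sum_congr rfl fun i _ => ?_
    ring
  simp only [e1]
  rw [integral_finsetSum _ fun i _ => hc i, Finset.mul_sum, Finset.mul_sum]
  refine Finset.sum_congr rfl fun i _ => ?_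
  rw [Vc_Ay h hz h0 h1 i, integral_const_mul]
  ring

/-- the root of the energy -/
noncomputable def fq (α : W → W →L[ℝ] ℝ) (z u v : W) (y : ℝ) : ℝ :=
  Real.sqrt (u2 α z u v (rY y))

theorem fq_cont (h : Conn α) (hz : ON3 z u v) : Continuous (fq α z u v) :=
  Real.continuous_sqrt.comp ((u2_smooth h.smooth hz).continuous.comp rY_cont)

theorem fq_nonneg (y : ℝ) : 0 ≤ fq α z u v y := Real.sqrt_nonneg _

theorem fq_sq (y : ℝ) : fq α z u v y ^ 2 = u2 α z u v (rY y) := Real.sq_sqrt (u2_nonneg _)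

/-- the mean of the root -/
noncomputable def Yq (α : W → W →L[ℝ] ℝ) (z u v : W) (σ : ℝ) : ℝ :=
  72 * ∫ t in (0 : ℝ)..1, t * KK σ t * fq α z u v (σ * t)

theorem Yq_nonneg {σ : ℝ} (h0 : 0 < σ) (h1 : σ ≤ 2 / 3) : 0 ≤ Yq α z u v σ := by
  unfold Yq
  refine mul_nonneg (by norm_num) (intervalIntegral.integral_nonneg zero_le_one fun t ht => ?_)
  exact mul_nonneg (mul_nonneg ht.1 (KK_nonneg h0 h1 ht)) (fq_nonneg _)

theorem dir_le (h : Conn α) {k : ℝ} (hk : 0 ≤ k) (hp : Pinched k α) (hz : ON3 z u v) {s : ℝ}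
    (h0 : 0 < s) (h1 : s ^ 2 ≤ 2 / 3) {e : Fin 3 → ℝ} (he : ∑ i, e i ^ 2 = 1) :
    ∑ i, e i * Vc (Psd.cmp (dd (Ay s α) z) u v) i ≤ (k + s ^ 2 / 2) * Yq α z u v (s ^ 2) := by
  rw [dir_eq h hz h0 h1]
  have hσ : 0 < s ^ 2 := by positivity
  set σ := s ^ 2 with hσd
  have hσ1 : σ < 1 := by linarith
  have hV : Continuous fun x : E => ∑ i, e i * Ve α z u v i x :=
    continuous_finsetSum _ fun i _ => continuous_const.mul (Ve_smooth h hz i).continuous
  rw [radial hV (k2_cont 6 σ) hσ h1]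
  have hf := fq_cont h hz
  have hKK : Continuous fun y => KK σ (y / σ) :=
    (KK_cont σ).comp (continuous_id.div_const σ)
  -- comparison on `(0, σ)`
  have e1 : ∫ y in (0 : ℝ)..σ, y / (1 - y) ^ 3 * k2 6 σ y *
      SA (fun ξ => ∑ i, e i * Ve α z u v i (Real.tan (rY y) • ξ)) ≤
      ∫ y in (0 : ℝ)..σ, (Real.pi * σ / 7 * (k + σ / 2)) * (y * KK σ (y / σ) * fq α z u v y) := by
    refine intervalIntegral.integral_mono_on_of_le_Ioo hσ.le ?_ ?_ ?_
    · -- integrability of the left side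
      have hG := SA_scale_cont' hV
      have h4 : ContinuousOn (fun y => y / (1 - y) ^ 3 * k2 6 σ y *
          (fun t : ℝ => SA fun ξ => ∑ i, e i * Ve α z u v i (t • ξ)) (tq y)) (Icc 0 σ) := by
        refine ((continuousOn_id.div ((continuousOn_const.sub continuousOn_id).pow 3) ?_).mul
          (k2_cont 6 σ).continuousOn).mul (hG.comp_continuousOn (tq_cont hσ1))
        intro y hy
        have h4 : (1 - y) ^ 3 ≠ 0 := pow_ne_zero 3 (by linarith [hy.2])
        exact h4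
      refine (ContinuousOn.congr (h4) ?_).intervalIntegrable_of_Icc hσ.le
      intro y hy
      show y / (1 - y) ^ 3 * k2 6 σ y *
        SA (fun ξ => ∑ i, e i * Ve α z u v i (Real.tan (rY y) • ξ)) = _
      rw [tan_rY hy.1 (lt_of_le_of_lt hy.2 hσ1)]
    · exact Continuous.intervalIntegrable (by fun_prop) _ _
    · intro y hy
      have hy1 : 0 < 1 - y := by linarith [hy.2]
      have h5 := SA_V h hk hp hz hy.1 (by linarith [hy.2]) he
      have h6 : 0 ≤ k2 6 σ y := by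
        have h7 : 0 ≤ 1 - y / σ := by
          rw [sub_nonneg, div_le_one hσ]
          exact hy.2.le
        have := Real.pi_pos
        unfold k2 k1
        positivity
      have h8 : 0 ≤ y / (1 - y) ^ 3 * k2 6 σ y := mul_nonneg (div_nonneg hy.1.le (by positivity)) h6
      refine (mul_le_mul_of_nonneg_left h5 h8).trans ?_
      have h9 : y / (1 - y) ^ 3 * k2 6 σ y * (1 - y) =
          Real.pi * σ / 7 * (y * KK σ (y / σ)) := by
        unfold k2 k1 KK
        have e5 : σ * (y / σ) = y := mul_div_cancel₀ y hσ.ne'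
        rw [e5]
        generalize 1 - y / σ = a
        have := hy1.ne'
        push_cast
        field_simp
        ring
      have h10 : 0 ≤ Real.pi * σ / 7 * (y * KK σ (y / σ)) := by
        rw [← h9]
        exact mul_nonneg h8 hy1.le
      have h11 : k + y / 2 ≤ k + σ / 2 := by linarith [hy.2]
      calc y / (1 - y) ^ 3 * k2 6 σ y * ((1 - y) * ((k + y / 2) * Real.sqrt (u2 α z u v (rY y)))) =
          y / (1 - y) ^ 3 * k2 6 σ y * (1 - y) * ((k + y / 2) * fq α z u v y) := by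
            unfold fq
            ring
        _ ≤ Real.pi * σ / 7 * (y * KK σ (y / σ)) * ((k + σ / 2) * fq α z u v y) := by
            rw [h9]
            exact mul_le_mul_of_nonneg_left (mul_le_mul_of_nonneg_right h11 (fq_nonneg y)) h10
        _ = _ := by ring
  rw [intervalIntegral.integral_const_mul,
    sub_int σ fun y => y * KK σ (y / σ) * fq α z u v y] at e1
  have e2 : ∀ t : ℝ, σ * t * KK σ (σ * t / σ) * fq α z u v (σ * t) =
      σ * (t * KK σ t * fq α z u v (σ * t)) := by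
    intro t
    rw [mul_div_cancel_left₀ _ hσ.ne']
    ring
  simp only [e2] at e1
  rw [intervalIntegral.integral_const_mul] at e1
  have hc : 0 ≤ c6⁻¹ * ((s ^ 6)⁻¹ * Real.pi ^ 2) := by
    have := c6_pos
    positivity
  have e3 := mul_le_mul_of_nonneg_left e1 hc
  refine (le_of_eq ?_).trans (e3.trans (le_of_eq ?_))
  · ring
  · unfold Yq
    rw [c6_eq]
    have e4 : s ^ 6 = σ ^ 3 := by
      rw [hσd]
      ring
    rw [e4]
    have := Real.pi_pos.ne'
    field_simp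
    ring

theorem Yq_sq (h : Conn α) {k : ℝ} (hk1 : k ^ 2 < 1) (hp : Pinched k α) (hz : ON3 z u v) {σ : ℝ}
    (h0 : 0 < σ) (h1 : σ ≤ 2 / 3) : Yq α z u v σ ^ 2 ≤
      4 / (1 - k ^ 2) * EK (ey α z u v) σ := by
  have hf := fq_cont h hz
  have hK := KK_cont σ
  have hey := ey_cont h hz
  set Y := Yq α z u v σ with hY
  -- the mean of the square
  have h2 : 0 ≤ 72 * ∫ t in (0 : ℝ)..1, t * KK σ t * (fq α z u v (σ * t) - Y) ^ 2 := by
    refine mul_nonneg (by norm_num) (intervalIntegral.integral_nonneg zero_le_one fun t ht => ?_)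
    exact mul_nonneg (mul_nonneg ht.1 (KK_nonneg h0 h1 ht)) (sq_nonneg _)
  have e1 : ∀ t : ℝ, t * KK σ t * (fq α z u v (σ * t) - Y) ^ 2 =
      t * KK σ t * fq α z u v (σ * t) ^ 2 - 2 * Y * (t * KK σ t * fq α z u v (σ * t)) +
      Y ^ 2 * (t * KK σ t) := fun t => by ring
  simp only [e1] at h2
  rw [intervalIntegral.integral_add (Continuous.intervalIntegrable (by fun_prop) _ _)
    (Continuous.intervalIntegrable (by fun_prop) _ _),
    intervalIntegral.integral_sub (Continuous.intervalIntegrable (by fun_prop) _ _)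
    (Continuous.intervalIntegrable (by fun_prop) _ _), intervalIntegral.integral_const_mul,
    intervalIntegral.integral_const_mul] at h2
  have h3 := KK_mass σ
  have h4 : 72 * ∫ t in (0 : ℝ)..1, t * KK σ t * fq α z u v (σ * t) = Y := rfl
  have h5 : 72 * ∫ t in (0 : ℝ)..1, t * KK σ t * fq α z u v (σ * t) ^ 2 ≤
      4 / (1 - k ^ 2) * EK (ey α z u v) σ := by
    unfold EK
    have h6 : ∫ t in (0 : ℝ)..1, t * KK σ t * fq α z u v (σ * t) ^ 2 ≤
        ∫ t in (0 : ℝ)..1, 4 / (1 - k ^ 2) * (t * KK σ t * ey α z u v (σ * t)) := by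
      refine intervalIntegral.integral_mono_on zero_le_one
        (Continuous.intervalIntegrable (by fun_prop) _ _)
        (Continuous.intervalIntegrable (by fun_prop) _ _) fun t ht => ?_
      rw [fq_sq]
      have h7 := u2_le_ey h hk1 hp hz (σ * t)
      have h8 := mul_nonneg ht.1 (KK_nonneg h0 h1 ht)
      calc t * KK σ t * u2 α z u v (rY (σ * t)) ≤
          t * KK σ t * (4 / (1 - k ^ 2) * ey α z u v (σ * t)) := mul_le_mul_of_nonneg_left h7 h8
        _ = _ := by ring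
    rw [intervalIntegral.integral_const_mul] at h6
    linarith
  have h9 : 0 ≤ (72 * ∫ t in (0 : ℝ)..1, t * KK σ t * fq α z u v (σ * t) ^ 2) -
      2 * Y * (72 * ∫ t in (0 : ℝ)..1, t * KK σ t * fq α z u v (σ * t)) +
      Y ^ 2 * (72 * ∫ t in (0 : ℝ)..1, t * KK σ t) := by linarith
  rw [h3, h4] at h9
  have h10 : 0 ≤ Y ^ 2 * σ := mul_nonneg (sq_nonneg Y) h0.le
  nlinarith

/-- **The anti-self-dual part of the average.** -/
theorem Asd (h : Conn α) {k : ℝ} (hk : 0 ≤ k) (hk1 : k ^ 2 < 1) (hp : Pinched k α)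
    (hz : ON3 z u v) {s : ℝ} (h0 : 0 < s) (h1 : s ^ 2 ≤ 2 / 3) :
    n3 (Vc (Psd.cmp (dd (Ay s α) z) u v)) ^ 2 ≤
      (k + s ^ 2 / 2) ^ 2 * (4 / (1 - k ^ 2)) * EK (ey α z u v) (s ^ 2) := by
  have hσ : 0 < s ^ 2 := by positivity
  have hY := Yq_nonneg (α := α) (z := z) (u := u) (v := v) hσ h1
  have hks : 0 ≤ k + s ^ 2 / 2 := by positivity
  have h2 : n3 (Vc (Psd.cmp (dd (Ay s α) z) u v)) ≤ (k + s ^ 2 / 2) * Yq α z u v (s ^ 2) :=
    n3_le_of_dir (mul_nonneg hks hY) fun e he => dir_le h hk hp hz h0 h1 he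
  have h3 := Yq_sq h hk1 hp hz hσ h1
  calc n3 (Vc (Psd.cmp (dd (Ay s α) z) u v)) ^ 2 ≤ ((k + s ^ 2 / 2) * Yq α z u v (s ^ 2)) ^ 2 :=
        pow_le_pow_left₀ (n3_nonneg _) h2 2
    _ = (k + s ^ 2 / 2) ^ 2 * Yq α z u v (s ^ 2) ^ 2 := by ring
    _ ≤ (k + s ^ 2 / 2) ^ 2 * (4 / (1 - k ^ 2) * EK (ey α z u v) (s ^ 2)) :=
        mul_le_mul_of_nonneg_left h3 (sq_nonneg _)
    _ = _ := by ring

end Pool.Agent.Lib.Shp
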