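import Pool.Agent.Lib.Shp.Ene

set_option autoImplicit false

/-!
# The lower bound of the average (III (e), (f))

Text: /team-store/b19_28b04d_sharp.md.
-/

open Set MeasureTheory

namespace Pool.Agent.Lib.Shp

variable {q : ℝ} {S D : Fin 3 → ℝ → ℝ} {th e : ℝ → ℝ}

/-- moments of `kap` -/
theorem kmom (a0 a1 a2 a3 a4 : ℝ) :
    ∫ t in (0 : ℝ)..1, kap t * (a0 + a1 * t + a2 * t ^ 2 + a3 * t ^ 3 + a4 * t ^ 4) =
      a0 + 3 / 10 * a1 + 6 / 55 * a2 + 1 / 22 * a3 + 3 / 143 * a4 := by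
  have e1 : (fun t : ℝ => kap t * (a0 + a1 * t + a2 * t ^ 2 + a3 * t ^ 3 + a4 * t ^ 4)) =
      fun t => ∑ i : Fin 13, (![
      0,
      0,
      (252) * a0,
      (-1512) * a0 + (252) * a1,
      (3780) * a0 + (-1512) * a1 + (252) * a2,
      (-5040) * a0 + (3780) * a1 + (-1512) * a2 + (252) * a3,
      (3780) * a0 + (-5040) * a1 + (3780) * a2 + (-1512) * a3 + (252) * a4,
      (-1512) * a0 + (3780) * a1 + (-5040) * a2 + (3780) * a3 + (-1512) * a4,
      (252) * a0 + (-1512) * a1 + (3780) * a2 + (-5040) * a3 + (3780) * a4,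
      (252) * a1 + (-1512) * a2 + (3780) * a3 + (-5040) * a4,
      (252) * a2 + (-1512) * a3 + (3780) * a4,
      (252) * a3 + (-1512) * a4,
      (252) * a4] : Fin 13 → ℝ) i * t ^ (i : ℕ) := by
    funext t
    simp only [Fin.sum_univ_succ, Matrix.cons_val_zero, Matrix.cons_val_succ, Fin.val_zero,
      Fin.val_succ, Finset.univ_eq_empty, Finset.sum_empty]
    unfold kap
    ring
  rw [e1, int_poly]
  simp only [Fin.sum_univ_succ, Matrix.cons_val_zero, Matrix.cons_val_succ, Fin.val_zero,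
    Fin.val_succ, Finset.univ_eq_empty, Finset.sum_empty]
  push_cast
  ring

theorem kap_one : ∫ t in (0 : ℝ)..1, kap t = 1 := by
  have h := kmom 1 0 0 0 0
  have e1 : (fun t : ℝ => kap t * (1 + 0 * t + 0 * t ^ 2 + 0 * t ^ 3 + 0 * t ^ 4)) = kap := by
    funext t
    ring
  rw [e1] at h
  rw [h]
  ring

theorem rr_cont (σ : ℝ) : Continuous (rr σ) := by
  unfold rr
  fun_prop

theorem pJ_cont (σ : ℝ) : Continuous (pJ σ) := by
  unfold pJ
  fun_prop

theorem rr_mean (σ : ℝ) : ∫ t in (0 : ℝ)..1, kap t * (rr σ t - 1) = 0 := by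
  have h := kmom (3 * σ / 7) (-σ - 3 * σ / 7) 0 0 0
  have e1 : (fun t : ℝ => kap t * (3 * σ / 7 + (-σ - 3 * σ / 7) * t + 0 * t ^ 2 + 0 * t ^ 3 +
      0 * t ^ 4)) = fun t => kap t * (rr σ t - 1) := by
    funext t
    unfold rr
    ring
  rw [e1] at h
  rw [h]
  ring

theorem rr_var (σ : ℝ) : ∫ t in (0 : ℝ)..1, kap t * (rr σ t - 1) ^ 2 = 3 / 77 * σ ^ 2 := by
  have h := kmom ((3 * σ / 7) ^ 2) (2 * (3 * σ / 7) * (-σ - 3 * σ / 7)) ((-σ - 3 * σ / 7) ^ 2) 0 0
  have e1 : (fun t : ℝ => kap t * ((3 * σ / 7) ^ 2 + (2 * (3 * σ / 7) * (-σ - 3 * σ / 7)) * t +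
      ((-σ - 3 * σ / 7) ^ 2) * t ^ 2 + 0 * t ^ 3 + 0 * t ^ 4)) =
      fun t => kap t * (rr σ t - 1) ^ 2 := by
    funext t
    unfold rr
    ring
  rw [e1] at h
  rw [h]
  ring

theorem pJ_mean (σ : ℝ) : ∫ t in (0 : ℝ)..1, kap t * (pJ σ t - 1) = 0 := by
  have h := kmom (6 * σ / 7 + 3 * σ ^ 2 / 28) (-20 * σ / 7 - 30 * σ ^ 2 / 28) (55 * σ ^ 2 / 28) 0 0
  have e1 : (fun t : ℝ => kap t * (6 * σ / 7 + 3 * σ ^ 2 / 28 +
      (-20 * σ / 7 - 30 * σ ^ 2 / 28) * t + (55 * σ ^ 2 / 28) * t ^ 2 + 0 * t ^ 3 +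
      0 * t ^ 4)) = fun t => kap t * (pJ σ t - 1) := by
    funext t
    unfold pJ
    ring
  rw [e1] at h
  rw [h]
  ring

theorem pJ_var (σ : ℝ) : ∫ t in (0 : ℝ)..1, kap t * (pJ σ t - 1) ^ 2 =
    12 / 77 * σ ^ 2 - 2 / 77 * σ ^ 3 + 27 / 8008 * σ ^ 4 := by
  have h := kmom ((6 * σ / 7 + 3 * σ ^ 2 / 28) ^ 2)
    (2 * (6 * σ / 7 + 3 * σ ^ 2 / 28) * (-20 * σ / 7 - 30 * σ ^ 2 / 28))
    ((-20 * σ / 7 - 30 * σ ^ 2 / 28) ^ 2 + 2 * (6 * σ / 7 + 3 * σ ^ 2 / 28) * (55 * σ ^ 2 / 28))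
    (2 * (-20 * σ / 7 - 30 * σ ^ 2 / 28) * (55 * σ ^ 2 / 28)) ((55 * σ ^ 2 / 28) ^ 2)
  have e1 : (fun t : ℝ => kap t * ((6 * σ / 7 + 3 * σ ^ 2 / 28) ^ 2 +
      (2 * (6 * σ / 7 + 3 * σ ^ 2 / 28) * (-20 * σ / 7 - 30 * σ ^ 2 / 28)) * t +
      ((-20 * σ / 7 - 30 * σ ^ 2 / 28) ^ 2 +
        2 * (6 * σ / 7 + 3 * σ ^ 2 / 28) * (55 * σ ^ 2 / 28)) * t ^ 2 +
      (2 * (-20 * σ / 7 - 30 * σ ^ 2 / 28) * (55 * σ ^ 2 / 28)) * t ^ 3 +
      ((55 * σ ^ 2 / 28) ^ 2) * t ^ 4)) = fun t => kap t * (pJ σ t - 1) ^ 2 := by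
    funext t
    unfold pJ
    ring
  rw [e1] at h
  rw [h]
  ring

theorem pJ_var_le {σ : ℝ} (h0 : 0 < σ) (h1 : σ ≤ 2 / 3) :
    ∫ t in (0 : ℝ)..1, kap t * (pJ σ t - 1) ^ 2 ≤ 693 / 10000 := by
  rw [pJ_var]
  have h2 : σ ^ 4 ≤ 2 / 3 * σ ^ 3 := by
    have : 0 < σ ^ 3 := by positivity
    nlinarith
  have h3 : σ ^ 2 ≤ 4 / 9 := by nlinarith
  have h4 : 0 < σ ^ 3 := by positivity
  nlinarith

theorem rr_var_le {σ : ℝ} (h0 : 0 < σ) (h1 : σ ≤ 2 / 3) :
    ∫ t in (0 : ℝ)..1, kap t * (rr σ t - 1) ^ 2 ≤ 693 / 10000 := by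
  rw [rr_var]
  have h3 : σ ^ 2 ≤ 4 / 9 := by nlinarith
  nlinarith

theorem N2_pos (h : RY q S D th e) {σ : ℝ} (h0 : 0 < σ) (h1 : σ ≤ 2 / 3) : 0 < N2 S σ := by
  unfold N2
  refine intervalIntegral.intervalIntegral_pos_of_pos_on
    (ii_of (kap_cont.continuousOn.mul (sumS_cont h h0 h1))) (fun t ht => ?_) zero_lt_one
  have h2 := mem_sc' h0 h1 ⟨ht.1, ht.2.le⟩
  have h3 := h.bar _ h2
  have h4 := h.thn _ h2
  have h5 : 0 < 4 * (σ * t) ^ 2 * ∑ i, S i (σ * t) ^ 2 := lt_of_le_of_lt h4 h3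
  have h6 : 0 < 4 * (σ * t) ^ 2 := by
    have := h2.1
    positivity
  have h7 : 0 < ∑ i, S i (σ * t) ^ 2 := by
    by_contra hc
    push Not at hc
    nlinarith
  have h8 : 0 < kap t := by
    unfold kap
    have h9 : 0 < 1 - t := by linarith [ht.2]
    have := ht.1
    positivity
  positivity

/-- Cauchy-Schwarz on an interval -/
theorem cs_int {f : ℝ → ℝ} {a b : ℝ} (hab : a ≤ b) (hf : ContinuousOn f (Icc a b)) :
    (∫ x in a..b, f x) ^ 2 ≤ (b - a) * ∫ x in a..b, f x ^ 2 := by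
  rcases eq_or_lt_of_le hab with h | h
  · rw [h]
    simp
  have i1 : IntervalIntegrable f volume a b :=
    ContinuousOn.intervalIntegrable (by rwa [uIcc_of_le hab])
  have i2 : IntervalIntegrable (fun x => f x ^ 2) volume a b :=
    ContinuousOn.intervalIntegrable (by
      rw [uIcc_of_le hab]
      exact hf.pow 2)
  set m := (∫ x in a..b, f x) / (b - a) with hm
  have hba : 0 < b - a := by linarith
  have hI : ∫ x in a..b, f x = m * (b - a) := by
    rw [hm]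
    field_simp
  have h1 : 0 ≤ ∫ x in a..b, (f x - m) ^ 2 :=
    intervalIntegral.integral_nonneg hab fun x _ => sq_nonneg _
  have h2 : ∫ x in a..b, (f x - m) ^ 2 =
      (∫ x in a..b, f x ^ 2) - 2 * m * (∫ x in a..b, f x) + (b - a) * m ^ 2 := by
    have e : (fun x => (f x - m) ^ 2) = fun x => (f x ^ 2 - 2 * m * f x) + m ^ 2 := by
      funext x
      ring
    rw [e, intervalIntegral.integral_add (i2.sub (i1.const_mul _)) intervalIntegrable_const,
      intervalIntegral.integral_sub i2 (i1.const_mul _), intervalIntegral.integral_const_mul,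
      intervalIntegral.integral_const, smul_eq_mul]
  rw [h2, hI] at h1
  rw [hI]
  nlinarith

/-- the square of the speed -/
noncomputable def Gs (D : Fin 3 → ℝ → ℝ) (σ t : ℝ) : ℝ := ∑ i, (σ * D i (σ * t)) ^ 2

theorem Dt_cont (h : RY q S D th e) {σ : ℝ} (h0 : 0 < σ) (h1 : σ ≤ 2 / 3) (i : Fin 3) :
    ContinuousOn (fun t => σ * D i (σ * t)) (Ioc 0 1) :=
  ((h.Dc i).comp (f := fun t => σ * t) (by fun_prop) fun _ ht => mem_sc' h0 h1 ht).const_mul σ

theorem Gs_cont (h : RY q S D th e) {σ : ℝ} (h0 : 0 < σ) (h1 : σ ≤ 2 / 3) :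
    ContinuousOn (Gs D σ) (Ioc 0 1) :=
  continuousOn_finsetSum _ fun i _ => (Dt_cont h h0 h1 i).pow 2

theorem St_deriv (h : RY q S D th e) {σ : ℝ} (h0 : 0 < σ) (h1 : σ ≤ 2 / 3) (i : Fin 3) {t : ℝ}
    (ht : t ∈ Ioc (0 : ℝ) 1) : HasDerivAt (fun t => S i (σ * t)) (σ * D i (σ * t)) t := by
  have h2 : HasDerivAt (fun t : ℝ => σ * t) σ t := by
    simpa using (hasDerivAt_id t).const_mul σ
  have h3 := (h.Sd i (σ * t) (mem_sc' h0 h1 ht)).comp t h2
  refine HasDerivAt.congr_deriv (f := fun t => S i (σ * t)) h3 ?_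
  ring

/-- variation between two points -/
theorem var_two (h : RY q S D th e) {σ : ℝ} (h0 : 0 < σ) (h1 : σ ≤ 2 / 3) {a b : ℝ} (ha : 0 < a)
    (hab : a ≤ b) (hb : b ≤ 1) :
    ∑ i, (S i (σ * b) - S i (σ * a)) ^ 2 ≤ (b - a) * ∫ x in a..b, Gs D σ x := by
  have hsub : Icc a b ⊆ Ioc 0 1 := fun x hx => ⟨lt_of_lt_of_le ha hx.1, hx.2.trans hb⟩
  have c : ∀ i, ContinuousOn (fun t => σ * D i (σ * t)) (Icc a b) := fun i =>
    (Dt_cont h h0 h1 i).mono hsub
  have ii : ∀ i, IntervalIntegrable (fun t => σ * D i (σ * t)) volume a b := fun i =>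
    ContinuousOn.intervalIntegrable (by
      rw [uIcc_of_le hab]
      exact c i)
  have ii2 : ∀ i ∈ (Finset.univ : Finset (Fin 3)),
      IntervalIntegrable (fun t => (σ * D i (σ * t)) ^ 2) volume a b := fun i _ =>
    ContinuousOn.intervalIntegrable (by
      rw [uIcc_of_le hab]
      exact (c i).pow 2)
  have e1 : ∀ i, S i (σ * b) - S i (σ * a) = ∫ x in a..b, σ * D i (σ * x) := by
    intro i
    refine (intervalIntegral.integral_eq_sub_of_hasDerivAt (f := fun t => S i (σ * t))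
      (fun x hx => ?_) (ii i)).symm
    rw [uIcc_of_le hab] at hx
    exact St_deriv h h0 h1 i (hsub hx)
  have e2 : ∫ x in a..b, Gs D σ x = ∑ i, ∫ x in a..b, (σ * D i (σ * x)) ^ 2 := by
    unfold Gs
    rw [intervalIntegral.integral_finsetSum ii2]
  rw [e2, Finset.mul_sum]
  refine Finset.sum_le_sum fun i _ => ?_
  rw [e1]
  exact cs_int hab (c i)

/-- the primitive of the speed -/
noncomputable def Pg (D : Fin 3 → ℝ → ℝ) (σ t : ℝ) : ℝ := ∫ x in t..(3 / 10), Gs D σ x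

/-- variation from the mean point -/
theorem var_star (h : RY q S D th e) {σ : ℝ} (h0 : 0 < σ) (h1 : σ ≤ 2 / 3) {t : ℝ} (ht0 : 0 < t)
    (ht1 : t ≤ 1) : ∑ i, (S i (σ * t) - S i (σ * (3 / 10))) ^ 2 ≤ (3 / 10 - t) * Pg D σ t := by
  rcases le_total t (3 / 10) with h2 | h2
  · have h3 := var_two h h0 h1 ht0 h2 (by norm_num)
    refine le_trans (le_of_eq ?_) h3
    exact Finset.sum_congr rfl fun i _ => by ring
  · have h3 := var_two h h0 h1 (by norm_num : (0 : ℝ) < 3 / 10) h2 ht1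
    refine h3.trans (le_of_eq ?_)
    unfold Pg
    rw [intervalIntegral.integral_symm t (3 / 10)]
    ring

theorem Pg_deriv (h : RY q S D th e) {σ : ℝ} (h0 : 0 < σ) (h1 : σ ≤ 2 / 3) {t : ℝ}
    (ht : t ∈ Ioo (0 : ℝ) 1) : HasDerivAt (Pg D σ) (-Gs D σ t) t := by
  have hG := Gs_cont h h0 h1
  have hsub : uIcc t (3 / 10) ⊆ Ioc 0 1 := by
    intro x hx
    rw [uIcc, mem_Icc] at hx
    refine ⟨lt_of_lt_of_le (lt_inf_iff.2 ⟨ht.1, by norm_num⟩) hx.1, hx.2.trans ?_⟩
    exact sup_le ht.2.le (by norm_num)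
  have hi : IntervalIntegrable (Gs D σ) volume t (3 / 10) :=
    (hG.mono hsub).intervalIntegrable
  have hn : Ioc (0 : ℝ) 1 ∈ nhds t := Ioc_mem_nhds ht.1 ht.2
  refine intervalIntegral.integral_hasDerivAt_left hi ?_ (hG.continuousAt hn)
  exact (hG.mono Ioo_subset_Ioc_self).stronglyMeasurableAtFilter isOpen_Ioo t ht

/-- the weight -/
noncomputable def Tw (t : ℝ) : ℝ := 126 / 5 * t ^ 3 * (1 - t) ^ 7

theorem Tw_deriv (t : ℝ) : HasDerivAt Tw ((3 / 10 - t) * kap t) t := by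
  have h2 : HasDerivAt (fun t : ℝ => 1 - t) (-1) t := by
    simpa using (hasDerivAt_id t).const_sub 1
  have h3 := (((hasDerivAt_id t).pow 3).const_mul (126 / 5)).mul (h2.pow 7)
  refine HasDerivAt.congr_deriv (f := Tw) h3 ?_
  simp only [Nat.cast_ofNat, Nat.add_one_sub_one, Pi.pow_apply, id_eq]
  unfold kap
  ring

theorem Tw_nonneg {t : ℝ} (h0 : 0 ≤ t) (h1 : t ≤ 1) : 0 ≤ Tw t := by
  have : 0 ≤ 1 - t := by linarith
  unfold Tw
  positivity

/-- the mean square of the variation, away from `0` -/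
theorem var_cut (h : RY q S D th e) {σ : ℝ} (h0 : 0 < σ) (h1 : σ ≤ 2 / 3) {d : ℝ} (hd0 : 0 < d)
    (hd1 : d ≤ 3 / 10) :
    ∫ t in d..1, kap t * ∑ i, (S i (σ * t) - S i (σ * (3 / 10))) ^ 2 ≤
      ∫ t in d..1, Tw t * Gs D σ t := by
  have hd2 : d ≤ 1 := hd1.trans (by norm_num)
  have hsub : Icc d 1 ⊆ Ioc 0 1 := fun x hx => ⟨lt_of_lt_of_le hd0 hx.1, hx.2⟩
  have hG : ContinuousOn (Gs D σ) (Icc d 1) := (Gs_cont h h0 h1).mono hsub
  have hTc : Continuous Tw := by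
    unfold Tw
    fun_prop
  have hP : ContinuousOn (Pg D σ) (Icc d 1) := by
    have h2 : IntegrableOn (Gs D σ) (uIcc d 1) volume := by
      rw [uIcc_of_le hd2]
      exact hG.integrableOn_compact isCompact_Icc
    have h3 := intervalIntegral.continuousOn_primitive_interval' (a := 3 / 10)
      (h2.intervalIntegrable) (by
        rw [uIcc_of_le hd2]
        exact ⟨hd1, by norm_num⟩)
    rw [uIcc_of_le hd2] at h3
    refine h3.neg.congr fun x _ => ?_
    unfold Pg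
    rw [intervalIntegral.integral_symm]
    rfl
  have ii : ∀ {f : ℝ → ℝ}, ContinuousOn f (Icc d 1) → IntervalIntegrable f volume d 1 :=
    fun hf => ContinuousOn.intervalIntegrable (by rwa [uIcc_of_le hd2])
  have c1 : ContinuousOn (fun t => (3 / 10 - t) * kap t * Pg D σ t) (Icc d 1) :=
    ((continuousOn_const.sub continuousOn_id).mul kap_cont.continuousOn).mul hP
  have c2 : ContinuousOn (fun t => Tw t * Gs D σ t) (Icc d 1) := hTc.continuousOn.mul hG
  have c3 : ContinuousOn (fun t => kap t * ∑ i, (S i (σ * t) - S i (σ * (3 / 10))) ^ 2)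
      (Icc d 1) := by
    refine kap_cont.continuousOn.mul (continuousOn_finsetSum _ fun i _ => ?_)
    refine ((((comp_cont (h.Sc i) h0 h1).mono ?_)).sub continuousOn_const).pow 2
    exact Icc_subset_Icc_left hd0.le
  have h2 := intervalIntegral.integral_eq_sub_of_hasDerivAt_of_le hd2
    (f := fun t => Tw t * Pg D σ t)
    (f' := fun t => (3 / 10 - t) * kap t * Pg D σ t - Tw t * Gs D σ t)
    (hTc.continuousOn.mul hP) (fun t ht => by
      refine ((Tw_deriv t).mul (Pg_deriv h h0 h1 ⟨hd0.trans ht.1, ht.2⟩)).congr_deriv ?_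
      ring) ((ii c1).sub (ii c2))
  rw [intervalIntegral.integral_sub (ii c1) (ii c2)] at h2
  have h3 : Tw 1 = 0 := by
    unfold Tw
    ring
  have h4 : 0 ≤ Pg D σ d := intervalIntegral.integral_nonneg hd1 fun x _ =>
    Finset.sum_nonneg fun i _ => sq_nonneg _
  have h5 := mul_nonneg (Tw_nonneg hd0.le hd2) h4
  have h6 : ∫ t in d..1, kap t * ∑ i, (S i (σ * t) - S i (σ * (3 / 10))) ^ 2 ≤
      ∫ t in d..1, (3 / 10 - t) * kap t * Pg D σ t := by
    refine intervalIntegral.integral_mono_on hd2 (ii c3) (ii c1) fun t ht => ?_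
    have h7 := var_star h h0 h1 (lt_of_lt_of_le hd0 ht.1) ht.2
    calc _ ≤ kap t * ((3 / 10 - t) * Pg D σ t) := mul_le_mul_of_nonneg_left h7 (kap_nonneg t)
      _ = _ := by ring
  simp only [h3, zero_mul] at h2
  linarith

/-- the mean square of the variation -/
noncomputable def Vr (S : Fin 3 → ℝ → ℝ) (σ : ℝ) (i : Fin 3) : ℝ :=
  ∫ t in (0 : ℝ)..1, kap t * (S i (σ * t) - S i (σ * (3 / 10))) ^ 2

theorem var_cut_le (h : RY q S D th e) (hq : q ≤ 413 / 10000) {σ : ℝ} (h0 : 0 < σ)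
    (h1 : σ ≤ 2 / 3) {d : ℝ} (hd0 : 0 < d) (hd1 : d ≤ 3 / 10) :
    ∫ t in d..1, Tw t * Gs D σ t ≤ 2891 / 100000 * N2 S σ := by
  have hd2 : d ≤ 1 := hd1.trans (by norm_num)
  have hsub : Icc d 1 ⊆ Ioc 0 1 := fun x hx => ⟨lt_of_lt_of_le hd0 hx.1, hx.2⟩
  have hTc : Continuous Tw := by
    unfold Tw
    fun_prop
  have c2 : ContinuousOn (fun t => Tw t * Gs D σ t) (Icc d 1) :=
    hTc.continuousOn.mul ((Gs_cont h h0 h1).mono hsub)
  have c4 : ContinuousOn (fun t => t * (1 - t) ^ 7 * e (σ * t)) (Icc 0 1) := by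
    refine ContinuousOn.mul (by fun_prop) (comp_cont h.ec h0 h1)
  have c5 := c4.mono (Icc_subset_Icc_left hd0.le : Icc d 1 ⊆ Icc 0 1)
  have ii : ∀ {f : ℝ → ℝ}, ContinuousOn f (Icc d 1) → IntervalIntegrable f volume d 1 :=
    fun hf => ContinuousOn.intervalIntegrable (by rwa [uIcc_of_le hd2])
  have h2 : ∫ t in d..1, Tw t * Gs D σ t ≤
      ∫ t in d..1, 26019 / 100000 * (t * (1 - t) ^ 7 * e (σ * t)) := by
    refine intervalIntegral.integral_mono_on hd2 (ii c2) ((ii c5).const_mul _) fun t ht => ?_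
    have ht0 : 0 < t := lt_of_lt_of_le hd0 ht.1
    have hm := mem_sc' h0 h1 ⟨ht0, ht.2⟩
    have h3 := h.Dq _ hm
    have h4 : q * e (σ * t) ≤ 413 / 10000 * e (σ * t) :=
      mul_le_mul_of_nonneg_right hq (h.en _ hm)
    have h5 : Gs D σ t = σ ^ 2 * ∑ i, D i (σ * t) ^ 2 := by
      unfold Gs
      rw [Finset.mul_sum]
      exact Finset.sum_congr rfl fun i _ => by ring
    have h6 : 4 * t ^ 2 * Gs D σ t ≤ 413 / 10000 * e (σ * t) := by
      rw [h5]
      refine le_trans (le_of_eq ?_) (h3.trans h4)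
      ring
    have h7 : 0 ≤ 63 / 10 * (t * (1 - t) ^ 7) := by
      have : 0 ≤ 1 - t := by linarith [ht.2]
      positivity
    have h8 := mul_le_mul_of_nonneg_left h6 h7
    refine le_trans (le_of_eq ?_) (h8.trans (le_of_eq ?_))
    · unfold Tw
      ring
    · ring
  rw [intervalIntegral.integral_const_mul] at h2
  have h3 : ∫ t in d..1, t * (1 - t) ^ 7 * e (σ * t) ≤
      ∫ t in (0 : ℝ)..1, t * (1 - t) ^ 7 * e (σ * t) := by
    have h4 : IntervalIntegrable (fun t => t * (1 - t) ^ 7 * e (σ * t)) volume 0 d := by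
      refine ContinuousOn.intervalIntegrable ?_
      rw [uIcc_of_le hd0.le]
      exact c4.mono (Icc_subset_Icc_right hd2)
    rw [← intervalIntegral.integral_add_adjacent_intervals h4 (ii c5)]
    have h5 : 0 ≤ ∫ t in (0 : ℝ)..d, t * (1 - t) ^ 7 * e (σ * t) := by
      refine intervalIntegral.integral_nonneg hd0.le fun t ht => ?_
      rcases eq_or_lt_of_le ht.1 with h6 | h6
      · rw [← h6]
        simp
      · have h7 := h.en _ (mem_sc' h0 h1 ⟨h6, ht.2.trans hd2⟩)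
        have h8 : 0 ≤ 1 - t := by linarith [ht.2]
        positivity
    linarith
  have h4 := parts h h0 h1 (K := fun t => (1 - t) ^ 7) (K' := fun t => 7 * (1 - t) ^ 6)
    (fun t => by
      have h5 : HasDerivAt (fun t : ℝ => 1 - t) (-1) t := by
        simpa using (hasDerivAt_id t).const_sub 1
      refine HasDerivAt.congr_deriv (f := fun t : ℝ => (1 - t) ^ 7) (h5.pow 7) ?_
      simp only [Nat.cast_ofNat, Nat.add_one_sub_one]
      ring) (by fun_prop) (by norm_num)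
  have h5 := th_int_le h h0 h1 (c := 7) (K' := fun t => 7 * (1 - t) ^ 6) (by fun_prop)
    (by norm_num) (fun t _ => le_rfl)
  rw [← h4] at h5
  have h6 : ∫ t in (0 : ℝ)..1, t * (1 - t) ^ 7 * e (σ * t) ≤ 1 / 9 * N2 S σ := by
    have h7 : 0 < σ ^ 2 := by positivity
    refine le_of_mul_le_mul_left (h5.trans (le_of_eq ?_)) h7
    ring
  linarith

theorem Vr_le (h : RY q S D th e) (hq : q ≤ 413 / 10000) {σ : ℝ} (h0 : 0 < σ)
    (h1 : σ ≤ 2 / 3) : ∑ i, Vr S σ i ≤ 2891 / 100000 * N2 S σ := by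
  have c3 : ContinuousOn (fun t => kap t * ∑ i, (S i (σ * t) - S i (σ * (3 / 10))) ^ 2)
      (Icc 0 1) := by
    refine kap_cont.continuousOn.mul (continuousOn_finsetSum _ fun i _ => ?_)
    exact (((comp_cont (h.Sc i) h0 h1)).sub continuousOn_const).pow 2
  have e1 : ∑ i, Vr S σ i =
      ∫ t in (0 : ℝ)..1, kap t * ∑ i, (S i (σ * t) - S i (σ * (3 / 10))) ^ 2 := by
    unfold Vr
    rw [← intervalIntegral.integral_finsetSum]
    · exact intervalIntegral.integral_congr fun t _ => by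
        simp only [Finset.mul_sum]
    · intro i _
      exact ii_of (kap_cont.continuousOn.mul
        ((((comp_cont (h.Sc i) h0 h1)).sub continuousOn_const).pow 2))
  rw [e1]
  obtain ⟨C, hC⟩ := isCompact_Icc.exists_bound_of_continuousOn c3
  refine le_of_forall_pos_le_add fun ε hε => ?_
  have hC0 : 0 ≤ C := (norm_nonneg _).trans (hC 0 ⟨le_rfl, zero_le_one⟩)
  obtain ⟨d, hd0, hd1, hdε⟩ : ∃ d : ℝ, 0 < d ∧ d ≤ 3 / 10 ∧ C * d ≤ ε := by
    refine ⟨min (3 / 10) (ε / (C + 1)), lt_min (by norm_num) (by positivity), min_le_left _ _, ?_⟩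
    calc C * min (3 / 10) (ε / (C + 1)) ≤ (C + 1) * (ε / (C + 1)) :=
          mul_le_mul (by linarith) (min_le_right _ _) (by positivity) (by positivity)
      _ = ε := by field_simp
  have hd2 : d ≤ 1 := hd1.trans (by norm_num)
  have i1 : IntervalIntegrable (fun t => kap t *
      ∑ i, (S i (σ * t) - S i (σ * (3 / 10))) ^ 2) volume 0 d := by
    refine ContinuousOn.intervalIntegrable ?_
    rw [uIcc_of_le hd0.le]
    exact c3.mono (Icc_subset_Icc_right hd2)
  have i2 : IntervalIntegrable (fun t => kap t *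
      ∑ i, (S i (σ * t) - S i (σ * (3 / 10))) ^ 2) volume d 1 := by
    refine ContinuousOn.intervalIntegrable ?_
    rw [uIcc_of_le hd2]
    exact c3.mono (Icc_subset_Icc_left hd0.le)
  rw [← intervalIntegral.integral_add_adjacent_intervals i1 i2]
  have h2 := (var_cut h h0 h1 hd0 hd1).trans (var_cut_le h hq h0 h1 hd0 hd1)
  have h3 : ∫ t in (0 : ℝ)..d, kap t * ∑ i, (S i (σ * t) - S i (σ * (3 / 10))) ^ 2 ≤ C * d := by
    have h4 := intervalIntegral.integral_mono_on hd0.le i1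
      (intervalIntegrable_const (c := C)) (fun t ht =>
        (le_abs_self _).trans (hC t ⟨ht.1, ht.2.trans hd2⟩))
    refine h4.trans (le_of_eq ?_)
    rw [intervalIntegral.integral_const, smul_eq_mul]
    ring
  linarith

/-- weighted Cauchy-Schwarz -/
theorem cs_kap {f g : ℝ → ℝ} (hf : ContinuousOn f (Icc 0 1)) (hg : ContinuousOn g (Icc 0 1)) :
    (∫ t in (0 : ℝ)..1, kap t * (f t * g t)) ^ 2 ≤
      (∫ t in (0 : ℝ)..1, kap t * f t ^ 2) * ∫ t in (0 : ℝ)..1, kap t * g t ^ 2 := by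
  set A := ∫ t in (0 : ℝ)..1, kap t * f t ^ 2 with hA
  set B := ∫ t in (0 : ℝ)..1, kap t * (f t * g t) with hB
  set C := ∫ t in (0 : ℝ)..1, kap t * g t ^ 2 with hC
  have kc : ContinuousOn kap (Icc 0 1) := kap_cont.continuousOn
  have i1 : IntervalIntegrable (fun t => kap t * f t ^ 2) volume 0 1 :=
    ii_of (kc.mul (hf.pow 2))
  have i2 : IntervalIntegrable (fun t => kap t * (f t * g t)) volume 0 1 :=
    ii_of (kc.mul (hf.mul hg))
  have i3 : IntervalIntegrable (fun t => kap t * g t ^ 2) volume 0 1 :=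
    ii_of (kc.mul (hg.pow 2))
  have h1 : ∀ x : ℝ, 0 ≤ C * (x * x) + (2 * B) * x + A := by
    intro x
    have h2 : 0 ≤ ∫ t in (0 : ℝ)..1, kap t * (f t + x * g t) ^ 2 :=
      intervalIntegral.integral_nonneg zero_le_one fun t _ =>
        mul_nonneg (kap_nonneg t) (sq_nonneg _)
    have h3 : ∫ t in (0 : ℝ)..1, kap t * (f t + x * g t) ^ 2 = A + 2 * x * B + x ^ 2 * C := by
      have e : (fun t => kap t * (f t + x * g t) ^ 2) = fun t =>
          (kap t * f t ^ 2 + 2 * x * (kap t * (f t * g t))) + x ^ 2 * (kap t * g t ^ 2) := by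
        funext t
        ring
      rw [e, intervalIntegral.integral_add (i1.add (i2.const_mul _)) (i3.const_mul _),
        intervalIntegral.integral_add i1 (i2.const_mul _), intervalIntegral.integral_const_mul,
        intervalIntegral.integral_const_mul]
    rw [h3] at h2
    linarith
  have h4 := discrim_le_zero h1
  unfold discrim at h4
  nlinarith

/-- one component -/
theorem comp_low (h : RY q S D th e) {σ : ℝ} (h0 : 0 < σ) (h1 : σ ≤ 2 / 3) (i : Fin 3)
    {k : ℝ → ℝ} (hk : Continuous k) (hm : ∫ t in (0 : ℝ)..1, kap t * (k t - 1) = 0)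
    (hv : ∫ t in (0 : ℝ)..1, kap t * (k t - 1) ^ 2 ≤ 693 / 10000) :
    (1 - 455 / 10000) * ((∫ t in (0 : ℝ)..1, kap t * S i (σ * t) ^ 2) - Vr S σ i) -
      (10000 / 455 - 1) * (693 / 10000 * Vr S σ i) ≤
      (∫ t in (0 : ℝ)..1, kap t * (k t * S i (σ * t))) ^ 2 := by
  set s0 := S i (σ * (3 / 10)) with hs0
  have kc : ContinuousOn kap (Icc 0 1) := kap_cont.continuousOn
  have sc := comp_cont (h.Sc i) h0 h1
  have dc : ContinuousOn (fun t => S i (σ * t) - s0) (Icc 0 1) := sc.sub continuousOn_const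
  have k1 : ContinuousOn (fun t => k t - 1) (Icc 0 1) := (hk.continuousOn).sub continuousOn_const
  set M := ∫ t in (0 : ℝ)..1, kap t * S i (σ * t) with hM
  set E := ∫ t in (0 : ℝ)..1, kap t * ((k t - 1) * (S i (σ * t) - s0)) with hE
  set V := Vr S σ i with hV
  have hE2 : E ^ 2 ≤ 693 / 10000 * V := by
    refine (cs_kap k1 dc).trans (mul_le_mul_of_nonneg_right hv ?_)
    exact intervalIntegral.integral_nonneg zero_le_one fun t _ =>
      mul_nonneg (kap_nonneg t) (sq_nonneg _)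
  have iS : IntervalIntegrable (fun t => kap t * S i (σ * t)) volume 0 1 :=
    ii_of (kc.mul sc)
  have iS2 : IntervalIntegrable (fun t => kap t * S i (σ * t) ^ 2) volume 0 1 :=
    ii_of (kc.mul (sc.pow 2))
  have iK : IntervalIntegrable (fun t => kap t * ((k t - 1) * (S i (σ * t) - s0))) volume 0 1 :=
    ii_of (kc.mul (k1.mul dc))
  have iK1 : IntervalIntegrable (fun t => kap t * (k t - 1)) volume 0 1 :=
    ii_of (kc.mul k1)
  have hW : ∫ t in (0 : ℝ)..1, kap t * (k t * S i (σ * t)) = M + E := by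
    have e : (fun t => kap t * (k t * S i (σ * t))) = fun t =>
        (kap t * S i (σ * t) + kap t * ((k t - 1) * (S i (σ * t) - s0))) +
          s0 * (kap t * (k t - 1)) := by
      funext t
      ring
    rw [e, intervalIntegral.integral_add (iS.add iK) (iK1.const_mul _),
      intervalIntegral.integral_add iS iK, intervalIntegral.integral_const_mul, hm]
    ring
  have hVe : V = (∫ t in (0 : ℝ)..1, kap t * S i (σ * t) ^ 2) - 2 * s0 * M + s0 ^ 2 := by
    have e : (fun t => kap t * (S i (σ * t) - s0) ^ 2) = fun t =>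
        (kap t * S i (σ * t) ^ 2 - 2 * s0 * (kap t * S i (σ * t))) + s0 ^ 2 * kap t := by
      funext t
      ring
    rw [hV]
    unfold Vr
    rw [← hs0, e, intervalIntegral.integral_add (iS2.sub (iS.const_mul _))
      ((ii_of kc).const_mul _), intervalIntegral.integral_sub iS2 (iS.const_mul _),
      intervalIntegral.integral_const_mul, intervalIntegral.integral_const_mul, kap_one]
    ring
  have hM2 : (∫ t in (0 : ℝ)..1, kap t * S i (σ * t) ^ 2) - V ≤ M ^ 2 := by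
    nlinarith [sq_nonneg (M - s0)]
  rw [hW]
  have h5 : (1 - 455 / 10000) * M ^ 2 - (10000 / 455 - 1) * E ^ 2 ≤ (M + E) ^ 2 := by
    nlinarith [sq_nonneg (455 / 10000 * M + E)]
  linarith

/-- (e), (f): `|W| ≥ 0.94 √N2` -/
theorem low (h : RY q S D th e) (hq : q ≤ 413 / 10000) {σ : ℝ} (h0 : 0 < σ) (h1 : σ ≤ 2 / 3) :
    (94 / 100) ^ 2 * N2 S σ ≤ ∑ i, Wm S σ i ^ 2 := by
  have hV := Vr_le h hq h0 h1
  have hN : N2 S σ = ∑ i, ∫ t in (0 : ℝ)..1, kap t * S i (σ * t) ^ 2 := by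
    unfold N2
    rw [← intervalIntegral.integral_finsetSum]
    · exact intervalIntegral.integral_congr fun t _ => by
        simp only [Finset.mul_sum]
    · intro i _
      exact ii_of (kap_cont.continuousOn.mul ((comp_cont (h.Sc i) h0 h1).pow 2))
  have hN0 := N2_pos h h0 h1
  have a0 := comp_low h h0 h1 0 (rr_cont σ) (rr_mean σ) (rr_var_le h0 h1)
  have a1 := comp_low h h0 h1 1 (rr_cont σ) (rr_mean σ) (rr_var_le h0 h1)
  have a2 := comp_low h h0 h1 2 (pJ_cont σ) (pJ_mean σ) (pJ_var_le h0 h1)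
  rw [Fin.sum_univ_three] at hV hN ⊢
  simp only [Wm, Matrix.cons_val_zero, Matrix.cons_val_one, Matrix.cons_val]
  linarith

end Pool.Agent.Lib.Shp
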