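import Pool.Agent.Lib.Shp.Yv
import Pool.Agent.Lib.Shp.Low

set_option autoImplicit false

/-!
# The `J`-component of the average at the last scale
-/

open MeasureTheory Set Metric
open scoped ContDiff

namespace Pool.Agent.Lib.Shp

open Pool.Agent.P28b04d Pool.Agent.Lib.Psd Pool.Agent.Lib.Pex

theorem pJ_nonneg {σ t : ℝ} (h0 : 0 ≤ σ) (h1 : σ * t ≤ 1) (ht : t ≤ 1) : 0 ≤ pJ σ t := by
  have e : pJ σ t = (1 - σ * t) ^ 2 + 6 * σ / 7 * ((1 - σ * t) * (1 - t)) +
      3 * σ ^ 2 / 28 * (1 - t) ^ 2 := by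
    unfold pJ
    ring
  rw [e]
  have h2 : 0 ≤ 1 - σ * t := by linarith
  have h3 : 0 ≤ 1 - t := by linarith
  positivity

theorem k1_int : ∫ t in (0 : ℝ)..1, 252 * t * (1 - t) ^ 6 * pJ (2 / 3) t = 31 / 6 := by
  have e1 : (fun t : ℝ => 252 * t * (1 - t) ^ 6 * pJ (2 / 3) t) = fun t => ∑ i : Fin 10,
      (![0, 408, -3048, 9940, -18480, 21420, -15848, 7308, -1920, 220] : Fin 10 → ℝ) i *
        t ^ (i : ℕ) := by
    funext t
    simp only [Fin.sum_univ_succ, Matrix.cons_val_zero, Matrix.cons_val_succ, Fin.val_zero,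
      Fin.val_succ, Finset.univ_eq_empty, Finset.sum_empty]
    unfold pJ
    ring
  rw [e1, int_poly]
  simp only [Fin.sum_univ_succ, Matrix.cons_val_zero, Matrix.cons_val_succ, Fin.val_zero,
    Fin.val_succ, Finset.univ_eq_empty, Finset.sum_empty]
  push_cast
  norm_num

theorem kpJ_int (σ : ℝ) : ∫ t in (0 : ℝ)..1, kap t * pJ σ t = 1 := by
  have h1 := pJ_mean σ
  have h2 := kap_one
  have i1 : IntervalIntegrable (fun t => kap t * (pJ σ t - 1)) volume 0 1 :=
    (kap_cont.mul ((pJ_cont σ).sub continuous_const)).intervalIntegrable _ _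
  have i2 : IntervalIntegrable kap volume 0 1 := kap_cont.intervalIntegrable _ _
  have e : (fun t => kap t * pJ σ t) = fun t => kap t * (pJ σ t - 1) + kap t := by
    funext t
    ring
  rw [e, intervalIntegral.integral_add i1 i2, h1, h2, zero_add]

section
variable {α : W → W →L[ℝ] ℝ} {z u v : W}

theorem total' (hα : Conn α) {k : ℝ} (hk : k ^ 2 < 1) (hp : Pinched k α) (h : ON3 z u v) :
    Nn (df α) z u v (Real.pi / 2) ≤ 2 * k ^ 2 / (1 - k ^ 2) := by
  have hr : Real.pi / 2 ∈ Icc 0 (Real.pi / 2) := right_mem_Icc.2 (by linarith [Real.pi_pos])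
  have hb : Basic (df α) := hα.sub a0_conn
  have h1 := Th_sub (HK.of_basic hb) h (Real.pi / 2)
  rw [Th_half hb h] at h1
  have h2 : Yn (df α) z u v (Real.pi / 2) = Yn α z u v (Real.pi / 2) :=
    eq_of_der (fun r => Yn_deriv hb.smooth h r)
      (fun r => by
        rw [v2_sub hα h]
        exact Yn_deriv hα.smooth h r) (by rw [Yn_zero, Yn_zero]) _
  have h3 := Yn_le hα.smooth h (fun r => pin_v2 hα hp h r) hr
  have h4 := Th_sub (HK.of_conn hα) h (Real.pi / 2)
  rw [Th_half_conn hα h] at h4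
  have h5 : 0 < 1 - k ^ 2 := by linarith
  rw [le_div_iff₀ h5]
  nlinarith [sq_nonneg k]

theorem bm_close (hα : Conn α) {k : ℝ} (hk : k ^ 2 < 1) (hp : Pinched k α) (h : ON3 z u v) {r : ℝ}
    (hr : r ∈ Icc 0 (Real.pi / 2)) :
    (bm α z u v r 2 - 2 * Real.sin r ^ 2) ^ 2 ≤ 4 * k ^ 2 / (1 - k ^ 2) := by
  have hb : Basic (df α) := hα.sub a0_conn
  have h1 := M_le_N (HK.of_basic hb) h hr
  have hm : MonotoneOn (Nn (df α) z u v) (Icc 0 (Real.pi / 2)) :=
    mono_of_wt (fun r => Nn_deriv hb.smooth h r) fun r _ => u2_nonneg r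
  have h2 : Nn (df α) z u v r ≤ Nn (df α) z u v (Real.pi / 2) :=
    hm hr (right_mem_Icc.2 (by linarith [Real.pi_pos])) hr.2
  have h3 := total' hα hk hp h
  have h4 := bm_sub hα h r 2
  have e4 : bm (df α) z u v r 2 = bm α z u v r 2 - 2 * Real.sin r ^ 2 := by
    rw [h4]
    simp only [ww, c3, Matrix.cons_val]
    ring
  have h5 : 1 / 2 * bm (df α) z u v r 2 ^ 2 ≤ Mf2 (bm (df α) z u v) r := by
    unfold Mf2
    rw [Fin.sum_univ_three]
    nlinarith [sq_nonneg (bm (df α) z u v r 0), sq_nonneg (bm (df α) z u v r 1)]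
  rw [e4] at h5
  have e5 : 4 * k ^ 2 / (1 - k ^ 2) = 2 * (2 * k ^ 2 / (1 - k ^ 2)) := by ring
  rw [e5]
  linarith

theorem Sy2_ge (hα : Conn α) (hp : Pinched ks α) (h : ON3 z u v) {y : ℝ} (h0 : 0 < y) (h1 : y ≤ 1) :
    1 - 1016 / 10000 / y ≤ Sy α z u v 2 y := by
  have h2 := bm_close hα ks_sq_lt hp h (rY_mem h0.le)
  rw [rY_sin_sq h0.le h1] at h2
  have hks : ks ^ 2 = 49 - 20 * Real.sqrt 6 := by
    unfold ks
    nlinarith [s6_sq]
  have hlo : 24494897 / 10000000 < Real.sqrt 6 := by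
    rw [Real.lt_sqrt (by norm_num)]
    norm_num
  have h3 : 4 * ks ^ 2 / (1 - ks ^ 2) ≤ (2 * (1016 / 10000)) ^ 2 := by
    have h5 : 0 < 1 - ks ^ 2 := by linarith [ks_sq_lt]
    rw [div_le_iff₀ h5, hks]
    linarith
  have h4 := abs_le_of_sq_le_sq (h2.trans h3) (by norm_num)
  have h5 := (abs_le.1 h4).1
  have h6 := Sy_bm hα h 2 h0 h1
  have h7 : Sy α z u v 2 y = bm α z u v (rY y) 2 / (2 * y) := by
    rw [h6]
    simp only [Matrix.cons_val]
    ring
  rw [h7, le_div_iff₀ (by positivity)]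
  have h8 : (1 - 1016 / 10000 / y) * (2 * y) = 2 * y - 2 * (1016 / 10000) := by
    field_simp
  rw [h8]
  linarith

theorem W2_pos (hα : Conn α) (hp : Pinched ks α) (h : ON3 z u v) :
    0 < Wm (Sy α z u v) (2 / 3) 2 := by
  have e : Wm (Sy α z u v) (2 / 3) 2 =
      ∫ t in (0 : ℝ)..1, kap t * (pJ (2 / 3) t * Sy α z u v 2 (2 / 3 * t)) := rfl
  rw [e]
  have c1 : Continuous fun t : ℝ => kap t * pJ (2 / 3) t := kap_cont.mul (pJ_cont _)
  have c2 : Continuous fun t : ℝ => 252 * t * (1 - t) ^ 6 * pJ (2 / 3) t :=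
    (by fun_prop : Continuous fun t : ℝ => 252 * t * (1 - t) ^ 6).mul (pJ_cont _)
  have c3' : Continuous fun t : ℝ => kap t * (pJ (2 / 3) t * Sy α z u v 2 (2 / 3 * t)) :=
    kap_cont.mul ((pJ_cont _).mul ((Sy_cont' hα h 2).comp (continuous_const.mul continuous_id)))
  have h1 : ∫ t in (0 : ℝ)..1, (kap t * pJ (2 / 3) t - 1016 / 10000 * (3 / 2) *
      (252 * t * (1 - t) ^ 6 * pJ (2 / 3) t)) ≤
      ∫ t in (0 : ℝ)..1, kap t * (pJ (2 / 3) t * Sy α z u v 2 (2 / 3 * t)) := by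
    refine intervalIntegral.integral_mono_on zero_le_one
      ((c1.sub (continuous_const.mul c2)).intervalIntegrable _ _)
      (c3'.intervalIntegrable _ _) fun t ht => ?_
    rcases ht.1.eq_or_lt with h0 | h0
    · rw [← h0]
      unfold kap
      norm_num
    · have h2 := Sy2_ge hα hp h (y := 2 / 3 * t) (by positivity) (by linarith [ht.2])
      have h3 : 0 ≤ kap t * pJ (2 / 3) t :=
        mul_nonneg (kap_nonneg t) (pJ_nonneg (by norm_num) (by linarith [ht.2]) ht.2)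
      have h4 := mul_le_mul_of_nonneg_left h2 h3
      refine le_trans (le_of_eq ?_) (h4.trans (le_of_eq (by ring)))
      unfold kap
      field_simp
  refine lt_of_lt_of_le ?_ h1
  have c4 : Continuous fun t : ℝ => 1016 / 10000 * (3 / 2) *
      (252 * t * (1 - t) ^ 6 * pJ (2 / 3) t) := continuous_const.mul c2
  rw [intervalIntegral.integral_sub (c1.intervalIntegrable _ _)
    (c4.intervalIntegrable _ _), intervalIntegral.integral_const_mul, kpJ_int, k1_int]
  norm_num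

end

end Pool.Agent.Lib.Shp
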