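import Pool.Agent.Lib.Shp.Ker
import Pool.Agent.Lib.Shp.Asd
import Pool.Agent.Lib.Shp.End

set_option autoImplicit false

/-!
# Closed two-forms on the projective plane pinched by `5 - 2 √6`
-/

open MeasureTheory Set Metric
open scoped ContDiff

namespace Pool.Agent.Lib.Shp

open Pool.Agent.P28b04d Pool.Agent.Lib.Psd Pool.Agent.Lib.Pex

section
variable {α : W → W →L[ℝ] ℝ} {z u v : W}

/-- the self-dual part of the averages dominates -/
theorem Ay_lt (hα : Conn α) (hp : Pinched ks α) (h : ON3 z u v) {s : ℝ} (h0 : 0 < s)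
    (h1 : s ^ 2 ≤ 2 / 3) : ∑ i, Vc (Psd.cmp (dd (Ay s α) z) u v) i ^ 2 <
      ∑ i, Uc (Psd.cmp (dd (Ay s α) z) u v) i ^ 2 := by
  have hR := RY_conn hα hp h
  have hσ : 0 < s ^ 2 := by positivity
  have hV := Asd hα ks_pos.le ks_sq_lt hp h h0 h1
  rw [n3_sq] at hV
  have hN := N2_pos hR hσ h1
  have hlow := low hR le_rfl hσ h1
  have hE := EK_le hR hσ h1
  have hU : ∑ i, Uc (Psd.cmp (dd (Ay s α) z) u v) i ^ 2 =
      16 * ∑ i, Wm (Sy α z u v) (s ^ 2) i ^ 2 := by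
    rw [Finset.mul_sum]
    refine Finset.sum_congr rfl fun i _ => ?_
    rw [Uc_Ay hα h h0 h1 i]
    ring
  rw [hU]
  have hk0 := ks_pos
  have hk1 := ks_lt
  have hk2 := ks_sq_lt
  have h5 : 0 < 1 - ks ^ 2 := by linarith
  have h6 : ks ^ 2 ≤ 1 / 90 := by nlinarith
  have h7 : 4 / (1 - ks ^ 2) ≤ 360 / 89 := by
    rw [div_le_div_iff₀ h5 (by norm_num)]
    linarith
  have h8 : (ks + s ^ 2 / 2) ^ 2 ≤ 190 / 1000 := by
    have : ks + s ^ 2 / 2 ≤ 4354 / 10000 := by linarith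
    nlinarith
  have h9 : 8 * (1 + 2 * s ^ 2 / 7) ≤ 952381 / 100000 := by linarith
  have h10 : (ks + s ^ 2 / 2) ^ 2 * (4 / (1 - ks ^ 2)) ≤ 190 / 1000 * (360 / 89) :=
    mul_le_mul h8 h7 (by positivity) (by norm_num)
  have h11 : 8 * (1 + 2 * s ^ 2 / 7) * N2 (Sy α z u v) (s ^ 2) ≤
      952381 / 100000 * N2 (Sy α z u v) (s ^ 2) := mul_le_mul_of_nonneg_right h9 hN.le
  have h12 : (ks + s ^ 2 / 2) ^ 2 * (4 / (1 - ks ^ 2)) * EK (ey α z u v) (s ^ 2) ≤
      190 / 1000 * (360 / 89) * (952381 / 100000 * N2 (Sy α z u v) (s ^ 2)) := by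
    have h13 : 0 ≤ (ks + s ^ 2 / 2) ^ 2 * (4 / (1 - ks ^ 2)) := by positivity
    exact (mul_le_mul_of_nonneg_left (hE.trans h11) h13).trans
      (mul_le_mul_of_nonneg_right h10 (by positivity))
  nlinarith

/-- the averages are non-degenerate -/
theorem Ay_pos (hα : Conn α) (hp : Pinched ks α) (h : ON3 z u v) {s : ℝ} (h0 : 0 < s)
    (h1 : s ^ 2 ≤ 2 / 3) : 0 < Pf (Psd.cmp (dd (Ay s α) z) u v) := by
  have h2 := Pf_UV (Psd.cmp_skew (Ay s α) z u v)
  have h3 := Ay_lt hα hp h h0 h1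
  linarith

/-- the last scale -/
noncomputable def s0 : ℝ := Real.sqrt (2 / 3)

theorem s0_pos : 0 < s0 := Real.sqrt_pos.2 (by norm_num)

theorem s0_sq : s0 ^ 2 = 2 / 3 := Real.sq_sqrt (by norm_num)

theorem s0_lt : s0 < 9 / 10 := by
  unfold s0
  rw [Real.sqrt_lt' (by norm_num)]
  norm_num

/-- the linear path at the last scale -/
theorem lin_pos' (hα : Conn α) (hp : Pinched ks α) (h : ON3 z u v) {t : ℝ} (ht0 : 0 ≤ t)
    (ht1 : t ≤ 1) : 0 < Pf (fun i j => (1 - t) * Psd.cmp (dd (Ay s0 α) z) u v i j +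
      t * c0 i j) := by
  have hlt := Ay_lt hα hp h s0_pos s0_sq.le
  have h2 : 0 < Uc (Psd.cmp (dd (Ay s0 α) z) u v) 2 := by
    rw [Uc_Ay hα h s0_pos s0_sq.le 2, s0_sq]
    have := W2_pos hα hp h
    linarith
  set T := Psd.cmp (dd (Ay s0 α) z) u v with hT
  have hTs : Skew T := Psd.cmp_skew _ z u v
  have hS : Skew fun i j => (1 - t) * T i j + t * c0 i j := by
    intro i j
    show (1 - t) * T i j + t * c0 i j = -((1 - t) * T j i + t * c0 j i)
    rw [hTs i j, c0_facts.1 i j]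
    ring
  have h3 := Pf_UV hS
  have eU : ∑ i, Uc (fun i j => (1 - t) * T i j + t * c0 i j) i ^ 2 =
      (1 - t) ^ 2 * ∑ i, Uc T i ^ 2 + 8 * (t * (1 - t)) * Uc T 2 + 16 * t ^ 2 := by
    simp only [Fin.sum_univ_three, Uc, c0, Matrix.cons_val_zero, Matrix.cons_val_one,
      Matrix.cons_val]
    ring
  have eV : ∑ i, Vc (fun i j => (1 - t) * T i j + t * c0 i j) i ^ 2 =
      (1 - t) ^ 2 * ∑ i, Vc T i ^ 2 := by
    simp only [Fin.sum_univ_three, Vc, c0, Matrix.cons_val_zero, Matrix.cons_val_one,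
      Matrix.cons_val]
    ring
  rw [eU, eV] at h3
  have h4 : 0 ≤ 8 * (t * (1 - t)) * Uc T 2 := by
    have : 0 ≤ 1 - t := by linarith
    positivity
  rcases ht0.eq_or_lt with h5 | h5
  · rw [← h5] at h3 ⊢
    nlinarith
  · have h6 : 0 ≤ (1 - t) ^ 2 * (∑ i, Uc T i ^ 2 - ∑ i, Vc T i ^ 2) :=
      mul_nonneg (sq_nonneg _) (by linarith)
    have h7 : 0 < 16 * t ^ 2 := by positivity
    nlinarith

end

theorem mainS : ∀ α : W → W →L[ℝ] ℝ, Conn α → Pinched ks α → Nondeg α ∧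
    ∃ K : ℝ × W → W →L[ℝ] ℝ, ContDiffOn ℝ ∞ K (univ ×ˢ {0}ᶜ) ∧ (∀ z : W, z ≠ 0 → K (0, z) = α z) ∧
      (∀ z : W, z ≠ 0 → K (1, z) = a0 z) ∧
      ∀ t : ℝ, Conn (fun z => K (t, z)) ∧ Nondeg (fun z => K (t, z)) := by
  intro α hα hP
  have hk0 := ks_pos
  have hk1 := ks_lt
  have hA0 : ∀ z u v : W, ON3 z u v → 0 < Pf (Psd.cmp (dd α z) u v) := by
    intro z u v hz
    obtain ⟨i, j, hij⟩ := centre hα hP hz
    exact MainAAux.pf_pos_of_ne hk0.le (by linarith) (Psd.cmp_skew α z u v) (hP z u v hz) hij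
  have hs0 := s0_pos
  have hs1 := s0_lt
  have hs2 := s0_sq
  set χ : ℝ → ℝ := Real.smoothTransition with hχ
  have hχc : ContDiff ℝ ∞ χ := Real.smoothTransition.contDiff
  have hχ0 : ∀ x, 0 ≤ χ x := fun x => Real.smoothTransition.nonneg x
  have hχ1 : ∀ x, χ x ≤ 1 := fun x => Real.smoothTransition.le_one x
  have hsc : ∀ x, |s0 * χ x| < 9 / 10 := fun x => by
    rw [abs_of_nonneg (mul_nonneg hs0.le (hχ0 x))]
    nlinarith [hχ1 x, hχ0 x]
  refine ⟨nondeg_of_Pf hα fun z u v hz => (hA0 z u v hz).ne',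
    fun p => (1 - χ (2 * p.1 - 1)) • Ay (s0 * χ (2 * p.1)) α p.2 + χ (2 * p.1 - 1) • a0 p.2,
    ?_, ?_, ?_, ?_⟩
  · have h1 : ContDiffOn ℝ ∞ (fun p : ℝ × W => Ay (s0 * χ (2 * p.1)) α p.2)
        (univ ×ˢ {0}ᶜ) := by
      have hmap : ContDiffOn ℝ ∞ (fun p : ℝ × W => (s0 * χ (2 * p.1), p.2))
          (univ ×ˢ {0}ᶜ) := by
        apply ContDiff.contDiffOn
        exact (contDiff_const.mul (hχc.comp (contDiff_const.mul contDiff_fst))).prodMk contDiff_snd
      refine (Ay_smooth hα).comp hmap ?_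
      rintro ⟨t, z⟩ ⟨-, hz⟩
      exact ⟨abs_lt.1 (hsc _), hz⟩
    have h2 : ContDiffOn ℝ ∞ (fun p : ℝ × W => a0 p.2) (univ ×ˢ {0}ᶜ) :=
      a0_conn.smooth.comp contDiff_snd.contDiffOn fun p hp => hp.2
    have h3 : ContDiff ℝ ∞ (fun p : ℝ × W => χ (2 * p.1 - 1)) :=
      hχc.comp ((contDiff_const.mul contDiff_fst).sub contDiff_const)
    exact ((contDiff_const.sub h3).contDiffOn.smul h1).add (h3.contDiffOn.smul h2)
  · intro z hz
    have e1 : χ (2 * 0 - 1) = 0 := Real.smoothTransition.zero_of_nonpos (by norm_num)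
    have e2 : χ (2 * 0) = 0 := Real.smoothTransition.zero_of_nonpos (by norm_num)
    show (1 - χ (2 * 0 - 1)) • Ay (s0 * χ (2 * 0)) α z + χ (2 * 0 - 1) • a0 z = α z
    rw [e1, e2, mul_zero, sub_zero, one_smul, zero_smul, add_zero]
    exact Ay_zero hα hz
  · intro z hz
    have e1 : χ (2 * 1 - 1) = 1 := Real.smoothTransition.one_of_one_le (by norm_num)
    show (1 - χ (2 * 1 - 1)) • Ay (s0 * χ (2 * 1)) α z + χ (2 * 1 - 1) • a0 z = a0 z
    rw [e1, sub_self, zero_smul, one_smul, zero_add]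
  · intro t
    have hcA : Conn (Ay (s0 * χ (2 * t)) α) := Ay_conn hα (hsc _)
    have hK : Conn (fun z => (1 - χ (2 * t - 1)) • Ay (s0 * χ (2 * t)) α z +
        χ (2 * t - 1) • a0 z) := hcA.lin a0_conn _
    refine ⟨hK, nondeg_of_Pf hK fun z u v hz => ne_of_gt ?_⟩
    have hzz := MainAAux.ne_zero hz
    have hcmp : Psd.cmp (dd (fun z => (1 - χ (2 * t - 1)) • Ay (s0 * χ (2 * t)) α z +
        χ (2 * t - 1) • a0 z) z) u v = fun i j =>
        (1 - χ (2 * t - 1)) * Psd.cmp (dd (Ay (s0 * χ (2 * t)) α) z) u v i j +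
          χ (2 * t - 1) * c0 i j := by
      funext i j
      rw [← MainAAux.cmp_a0 hz]
      exact dd_lin hcA.smooth a0_conn.smooth _ hzz _ _
    rw [hcmp]
    by_cases ht : 2 * t - 1 ≤ 0
    · have e1 : χ (2 * t - 1) = 0 := Real.smoothTransition.zero_of_nonpos ht
      have hfun : (fun i j => (1 - χ (2 * t - 1)) *
          Psd.cmp (dd (Ay (s0 * χ (2 * t)) α) z) u v i j + χ (2 * t - 1) * c0 i j) =
          Psd.cmp (dd (Ay (s0 * χ (2 * t)) α) z) u v := by
        funext i j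
        rw [e1]
        ring
      rw [hfun]
      by_cases hs : χ (2 * t) = 0
      · have e3 : dd (Ay (s0 * χ (2 * t)) α) z = dd α z := by
          have hev : Ay (s0 * χ (2 * t)) α =ᶠ[nhds z] α := by
            filter_upwards [isOpen_compl_singleton.mem_nhds (by simpa using hzz)] with y hy
            rw [hs, mul_zero]
            exact Ay_zero hα hy
          funext a b
          unfold dd
          rw [hev.fderiv_eq]
        rw [e3]
        exact hA0 z u v hz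
      · have hpos : 0 < χ (2 * t) := lt_of_le_of_ne (hχ0 _) (Ne.symm hs)
        refine Ay_pos hα hP hz (by positivity) ?_
        have h3 : χ (2 * t) ^ 2 ≤ 1 := by
          have := hχ1 (2 * t)
          nlinarith
        rw [mul_pow, hs2]
        linarith
    · push Not at ht
      have e2 : χ (2 * t) = 1 := Real.smoothTransition.one_of_one_le (by linarith)
      rw [e2, mul_one]
      exact lin_pos' hα hP hz (hχ0 _) (hχ1 _)

end Pool.Agent.Lib.Shp
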