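import Pool.Agent.Lib.Pex.MainP

set_option autoImplicit false

/-!
# Pinching from one polar frame

`nrm2 (sd T)` and `nrm2 (asd T)` of the components of `dd α` do not depend on the unitary frame: `frame_inv`, for `z' = c z` (`|c| = 1`
automatically) and any unitary `(u', v')`. Every unit vector is `c • zt z u v r x` with `‖x‖ = 1`, `0 ≤ r ≤ π / 2`; the inequality passes to
`r = 0` and `r = π / 2` by continuity in `r` (`UU_joint`, `VV_joint`).
-/

open MeasureTheory Set Metric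
open scoped ContDiff

namespace Pool.Agent.Lib.Shp

open Pool.Agent.P28b04d Pool.Agent.Lib.Psd Pool.Agent.Lib.Pex

namespace TrIAux

/-- the real matrix of the change of frames `u' = p u + q v`, `v' = s u + t v` -/
def Mt (p q s t : ℂ) : Matrix (Fin 4) (Fin 4) ℝ :=
  !![p.re, -p.im, s.re, -s.im; p.im, p.re, s.im, s.re; q.re, -q.im, t.re, -t.im;
    q.im, q.re, t.im, t.re]

/-- the components after a change of frames -/
def tf (M : Matrix (Fin 4) (Fin 4) ℝ) (T : Fin 4 → Fin 4 → ℝ) (i j : Fin 4) : ℝ :=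
  ∑ k, M k i * ∑ l, M l j * T k l

theorem nrm2_trace (T : Fin 4 → Fin 4 → ℝ) :
    nrm2 T = Matrix.trace (Matrix.of T * (Matrix.of T).transpose) := by
  unfold nrm2 Matrix.trace
  refine Finset.sum_congr rfl fun i _ => ?_
  rw [Matrix.diag_apply, Matrix.mul_apply]
  refine Finset.sum_congr rfl fun j _ => ?_
  rw [Matrix.transpose_apply, Matrix.of_apply, pow_two]

theorem tf_mul (M : Matrix (Fin 4) (Fin 4) ℝ) (T : Fin 4 → Fin 4 → ℝ) :
    Matrix.of (tf M T) = M.transpose * Matrix.of T * M := by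
  ext i j
  rw [Matrix.of_apply, Matrix.mul_assoc, Matrix.mul_apply]
  unfold tf
  refine Finset.sum_congr rfl fun k _ => ?_
  rw [Matrix.mul_apply, Matrix.transpose_apply]
  congr 1
  refine Finset.sum_congr rfl fun l _ => ?_
  rw [Matrix.of_apply, mul_comm]

theorem nrm2_tf {M : Matrix (Fin 4) (Fin 4) ℝ} (hM : M.transpose * M = 1)
    (T : Fin 4 → Fin 4 → ℝ) : nrm2 (tf M T) = nrm2 T := by
  have hM' : M * M.transpose = 1 := mul_eq_one_comm.1 hM
  rw [nrm2_trace, nrm2_trace, tf_mul]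
  rw [Matrix.transpose_mul, Matrix.transpose_mul, Matrix.transpose_transpose]
  have e : M.transpose * Matrix.of T * M * (M.transpose * ((Matrix.of T).transpose * M)) =
      M.transpose * (Matrix.of T * (Matrix.of T).transpose * M) := by
    have : M.transpose * Matrix.of T * M * (M.transpose * ((Matrix.of T).transpose * M)) =
        M.transpose * Matrix.of T * (M * M.transpose) * ((Matrix.of T).transpose * M) := by
      simp only [Matrix.mul_assoc]
    rw [this, hM', Matrix.mul_one]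
    simp only [Matrix.mul_assoc]
  rw [e, Matrix.trace_mul_comm, Matrix.mul_assoc _ M, hM', Matrix.mul_one]

/-- the coefficients of a unitary matrix -/
structure Un (p q s t : ℂ) : Prop where
  a : p.re ^ 2 + p.im ^ 2 + q.re ^ 2 + q.im ^ 2 = 1
  b : s.re ^ 2 + s.im ^ 2 + t.re ^ 2 + t.im ^ 2 = 1
  c : p.re * s.re + p.im * s.im + q.re * t.re + q.im * t.im = 0
  d : p.re * s.im - p.im * s.re + q.re * t.im - q.im * t.re = 0

theorem Un.orth {p q s t : ℂ} (h : Un p q s t) : (Mt p q s t).transpose * Mt p q s t = 1 := by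
  obtain ⟨a, b, c, d⟩ := h
  ext i j
  rw [Matrix.mul_apply, Fin.sum_univ_four]
  fin_cases i <;> fin_cases j <;> simp [Mt] <;> linarith

theorem skew_tf {M : Matrix (Fin 4) (Fin 4) ℝ} {T : Fin 4 → Fin 4 → ℝ} (h : Skew T) :
    Skew (tf M T) := by
  intro i j
  unfold tf
  simp only [Finset.mul_sum]
  rw [Finset.sum_comm, ← Finset.sum_neg_distrib]
  refine Finset.sum_congr rfl fun k _ => ?_
  rw [← Finset.sum_neg_distrib]
  refine Finset.sum_congr rfl fun l _ => ?_
  rw [h l k]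
  ring

theorem Pf_tf {p q s t : ℂ} (h : Un p q s t) {T : Fin 4 → Fin 4 → ℝ} (hT : Skew T) :
    Pf (tf (Mt p q s t) T) = Pf T := by
  obtain ⟨⟨e1, e2, e3, e4⟩, ⟨e5, e6, e7⟩, ⟨e8, e9, e10⟩⟩ := AlgAux.sk hT
  obtain ⟨a, b, c, d⟩ := h
  have key : Pf (tf (Mt p q s t) T) =
      ((p.re ^ 2 + p.im ^ 2 + q.re ^ 2 + q.im ^ 2) * (s.re ^ 2 + s.im ^ 2 + t.re ^ 2 + t.im ^ 2) -
        (p.re * s.re + p.im * s.im + q.re * t.re + q.im * t.im) ^ 2 -
        (p.re * s.im - p.im * s.re + q.re * t.im - q.im * t.re) ^ 2) * Pf T := by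
    simp only [Pf, tf, Fin.sum_univ_four, Mt, Matrix.of_apply, Matrix.cons_val', Matrix.cons_val_zero,
      Matrix.cons_val_one, Matrix.cons_val, Matrix.cons_val_fin_one, e1, e2, e3, e4, e5, e6, e7, e8,
      e9, e10]
    ring
  rw [key, a, b, c, d]
  ring

theorem inv_tf {p q s t : ℂ} (h : Un p q s t) {T : Fin 4 → Fin 4 → ℝ} (hT : Skew T) :
    nrm2 (sd (tf (Mt p q s t) T)) = nrm2 (sd T) ∧
      nrm2 (asd (tf (Mt p q s t) T)) = nrm2 (asd T) := by
  have h1 := Pf_tf h hT
  have h2 := nrm2_tf h.orth T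
  have h3 := Pf_split hT
  have h4 := Pf_split (skew_tf (M := Mt p q s t) hT)
  have h5 := nrm2_split hT
  have h6 := nrm2_split (skew_tf (M := Mt p q s t) hT)
  constructor <;> linarith

theorem csm (c : ℂ) (w : W) : c • w = c.re • w + c.im • (Complex.I • w) := by
  funext k
  simp only [Pi.smul_apply, Pi.add_apply, smul_eq_mul, Complex.real_smul]
  conv_lhs => rw [← Complex.re_add_im c]
  ring

/-- change of the frame at the same point -/
theorem fr_eq {u v u' v' : W} {p q s t : ℂ} (hu : u' = p • u + q • v) (hv : v' = s • u + t • v)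
    (i : Fin 4) : fr u' v' i = ∑ k, Mt p q s t k i • fr u v k := by
  have hI : ∀ w : W, Complex.I • (Complex.I • w) = -w := by
    intro w
    rw [smul_smul, Complex.I_mul_I, neg_one_smul]
  have hc : ∀ (r : ℝ) (w : W), Complex.I • (r • w) = r • (Complex.I • w) := by
    intro r w
    exact smul_comm _ _ _
  rw [csm p, csm q] at hu
  rw [csm s, csm t] at hv
  rw [Fin.sum_univ_four]
  fin_cases i
  · show u' = p.re • u + p.im • (Complex.I • u) + q.re • v + q.im • (Complex.I • v)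
    rw [hu]
    abel
  · show Complex.I • u' = (-p.im) • u + p.re • (Complex.I • u) + (-q.im) • v + q.re • (Complex.I • v)
    rw [hu]
    simp only [smul_add, hc, hI, smul_neg, neg_smul]
    abel
  · show v' = s.re • u + s.im • (Complex.I • u) + t.re • v + t.im • (Complex.I • v)
    rw [hv]
    abel
  · show Complex.I • v' = (-s.im) • u + s.re • (Complex.I • u) + (-t.im) • v + t.re • (Complex.I • v)
    rw [hv]
    simp only [smul_add, hc, hI, smul_neg, neg_smul]
    abel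

theorem cmp_tf (α : W → W →L[ℝ] ℝ) (z : W) {u v u' v' : W} {p q s t : ℂ}
    (hu : u' = p • u + q • v) (hv : v' = s • u + t • v) :
    Psd.cmp (dd α z) u' v' = tf (Mt p q s t) (Psd.cmp (dd α z) u v) := by
  funext i j
  unfold Psd.cmp tf
  rw [fr_eq hu hv i, fr_eq hu hv j, CmpFAux.dd_sum_left]
  refine Finset.sum_congr rfl fun k _ => ?_
  rw [CmpFAux.dd_sum_right]

theorem hp_two {z u v : W} (h : ON3 z u v) (p q s t : ℂ) :
    hp (p • u + q • v) (s • u + t • v) = star p * s + star q * t := by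
  have hvu : hp v u = 0 := by rw [← hp_star, h.uv, star_zero]
  rw [FrameGAux.hp_add_left, FrameGAux.hp_smul_left, FrameGAux.hp_smul_left, hp_add_right,
    hp_add_right, hp_smul_right, hp_smul_right, hp_smul_right, hp_smul_right, h.uu, h.vv, h.uv, hvu]
  ring

/-- frames at the same point -/
theorem inv_same {α : W → W →L[ℝ] ℝ} {z u v u' v' : W} (h : ON3 z u v) (h' : ON3 z u' v') :
    nrm2 (sd (Psd.cmp (dd α z) u' v')) = nrm2 (sd (Psd.cmp (dd α z) u v)) ∧
    nrm2 (asd (Psd.cmp (dd α z) u' v')) = nrm2 (asd (Psd.cmp (dd α z) u v)) := by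
  have hu : u' = hp u u' • u + hp v u' • v := by
    have h1 := NdPAux.expand h u'
    rw [h'.zu, zero_smul, zero_add] at h1
    exact h1
  have hv : v' = hp u v' • u + hp v v' • v := by
    have h1 := NdPAux.expand h v'
    rw [h'.zv, zero_smul, zero_add] at h1
    exact h1
  set p := hp u u'
  set q := hp v u'
  set s := hp u v'
  set t := hp v v'
  have e1 : star p * p + star q * q = 1 := by rw [← hp_two h, ← hu, h'.uu]
  have e2 : star s * s + star t * t = 1 := by rw [← hp_two h, ← hv, h'.vv]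
  have e3 : star p * s + star q * t = 0 := by rw [← hp_two h, ← hu, ← hv, h'.uv]
  have hU : Un p q s t := by
    have a1 := congrArg Complex.re e1
    have a2 := congrArg Complex.re e2
    have a3 := congrArg Complex.re e3
    have a4 := congrArg Complex.im e3
    simp only [Complex.star_def, Complex.add_re, Complex.add_im, Complex.mul_re, Complex.mul_im,
      Complex.conj_re, Complex.conj_im, Complex.one_re, Complex.zero_re, Complex.zero_im] at a1 a2 a3 a4
    refine ⟨?_, ?_, ?_, ?_⟩ <;> linarith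
  rw [cmp_tf α z hu hv]
  exact inv_tf hU (Pex.cmp_skew α z u v)

theorem fr_smul (c : ℂ) (u v : W) (i : Fin 4) : fr (c • u) (c • v) i = c • fr u v i := by
  fin_cases i
  · rfl
  · show Complex.I • (c • u) = c • (Complex.I • u)
    exact smul_comm _ _ _
  · rfl
  · show Complex.I • (c • v) = c • (Complex.I • v)
    exact smul_comm _ _ _

theorem cmp_scale {α : W → W →L[ℝ] ℝ} (hα : Conn α) {z : W} (hz : z ≠ 0) {c : ℂ} (hc : c ≠ 0)
    (u v : W) : Psd.cmp (dd α (c • z)) (c • u) (c • v) = Psd.cmp (dd α z) u v := by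
  funext i j
  unfold Psd.cmp
  rw [fr_smul, fr_smul, hα.dd_hom hc hz]

theorem hp_both (c : ℂ) (a b : W) : hp (c • a) (c • b) = (star c * c) * hp a b := by
  rw [FrameGAux.hp_smul_left, hp_smul_right]
  ring

theorem ON3_smul {z u v : W} {c : ℂ} (hc : star c * c = 1) (h : ON3 z u v) :
    ON3 (c • z) (c • u) (c • v) :=
  ⟨by rw [hp_both, hc, h.zz, one_mul], by rw [hp_both, hc, h.uu, one_mul],
    by rw [hp_both, hc, h.vv, one_mul], by rw [hp_both, hc, h.zu, one_mul],
    by rw [hp_both, hc, h.zv, one_mul], by rw [hp_both, hc, h.uv, one_mul]⟩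

/-- continuity in the radius -/
theorem cont_sq {g : ℝ → Fin 3 → E → ℝ}
    (hg : ∀ i, ContDiffOn ℝ ∞ (fun p : ℝ × E => g p.1 i p.2) Dm) {x : E} (hx : x ≠ 0) :
    Continuous fun r => ∑ i, g r i x ^ 2 := by
  refine continuous_finsetSum _ fun i _ => Continuous.pow ?_ 2
  exact (hg i).continuousOn.comp_continuous (f := fun r : ℝ => ((r, x) : ℝ × E))
    (by fun_prop) fun r => ⟨mem_univ _, hx⟩

/-- polar coordinates of a unit vector -/
theorem polar {z u v y : W} (h : ON3 z u v) (hy : hp y y = 1) :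
    ∃ (c : ℂ) (r : ℝ) (x : E), star c * c = 1 ∧ 0 ≤ r ∧ r ≤ Real.pi / 2 ∧ ‖x‖ = 1 ∧
      y = c • zt z u v r x := by
  -- the phase
  obtain ⟨c, hc, ρ, hρ0, hρ⟩ : ∃ c : ℂ, star c * c = 1 ∧ ∃ ρ : ℝ, 0 ≤ ρ ∧ hp z y = c * ρ := by
    by_cases h0 : hp z y = 0
    · exact ⟨1, by simp, 0, le_rfl, by rw [h0]; simp⟩
    · have hn : (‖hp z y‖ : ℂ) ≠ 0 := by exact_mod_cast (norm_pos_iff.2 h0).ne'
      refine ⟨hp z y / ‖hp z y‖, ?_, ‖hp z y‖, norm_nonneg _, ?_⟩
      · have e : star (hp z y) * hp z y = (‖hp z y‖ : ℂ) ^ 2 := by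
          rw [Complex.star_def, Complex.conj_mul']
        rw [star_div₀, div_mul_div_comm, e, Complex.star_def, Complex.conj_ofReal]
        field_simp
      · field_simp
  have hc0 : c ≠ 0 := by
    rintro rfl
    simp at hc
  have hyc : y = c • (star c • y) := by
    rw [smul_smul, mul_comm, hc, one_smul]
  set y' : W := star c • y with hy'
  have hz' : hp z y' = ρ := by
    rw [hy', hp_smul_right, hρ, ← mul_assoc, hc, one_mul]
  have hyy : hp y' y' = 1 := by
    rw [hy', hp_both, hy, star_star, mul_one, mul_comm, hc]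
  obtain ⟨a, w, hw⟩ := decomp h y'
  have ha : a = ρ := by
    rw [← hz', hw, hp_add_right, hp_smul_right, h.zz, hp_z_Lf h]
    ring
  rw [ha, ← CmpFAux.rsmul] at hw
  have hn : ρ ^ 2 + ‖w‖ ^ 2 = 1 := by
    have h1 := hp_comb h ρ 1 ρ 1 w
    rw [one_smul, ← hw, hyy] at h1
    have h2 : (1 : ℝ) = ρ * ρ + 1 * 1 * ‖w‖ ^ 2 := by exact_mod_cast h1
    linarith
  have hw0 := norm_nonneg w
  have hρ1 : ρ ≤ 1 := by nlinarith
  have hcos : Real.cos (Real.arccos ρ) = ρ := Real.cos_arccos (by linarith) hρ1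
  have hsin : Real.sin (Real.arccos ρ) = ‖w‖ := by
    rw [Real.sin_arccos]
    have : 1 - ρ ^ 2 = ‖w‖ ^ 2 := by linarith
    rw [this, Real.sqrt_sq hw0]
  obtain ⟨x, hx1, hx⟩ : ∃ x : E, ‖x‖ = 1 ∧ w = ‖w‖ • x := by
    by_cases h0 : w = 0
    · refine ⟨ev 0, ?_, ?_⟩
      · simp [ev]
      · rw [h0]
        simp
    · have h1 : ‖w‖ ≠ 0 := norm_ne_zero_iff.2 h0
      refine ⟨‖w‖⁻¹ • w, ?_, ?_⟩
      · rw [norm_smul, norm_inv, norm_norm, inv_mul_cancel₀ h1]
      · rw [smul_smul, mul_inv_cancel₀ h1, one_smul]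
  refine ⟨c, Real.arccos ρ, x, hc, Real.arccos_nonneg _, Real.arccos_le_pi_div_two.2 hρ0, hx1, ?_⟩
  rw [hyc]
  congr 1
  rw [hw]
  unfold zt
  rw [hcos, hsin, ← map_smul, ← hx]

end TrIAux

open TrIAux

theorem frame_inv {α : W → W →L[ℝ] ℝ} (hα : Conn α) {z u v z' u' v' : W} (h : ON3 z u v)
    (h' : ON3 z' u' v') {c : ℂ} (hz : z' = c • z) :
    nrm2 (sd (Psd.cmp (dd α z') u' v')) = nrm2 (sd (Psd.cmp (dd α z) u v)) ∧
    nrm2 (asd (Psd.cmp (dd α z') u' v')) = nrm2 (asd (Psd.cmp (dd α z) u v)) := by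
  have hc : star c * c = 1 := by
    have h1 := h'.zz
    rw [hz, hp_both, h.zz, mul_one] at h1
    exact h1
  have hc0 : c ≠ 0 := by
    rintro rfl
    simp at hc
  have hz0 : z ≠ 0 := by
    rintro rfl
    have h1 := h.zz
    simp [hp] at h1
  subst hz
  have h1 : ON3 (c • z) (c • u) (c • v) := ON3_smul hc h
  have h2 := inv_same (α := α) h1 h'
  rw [cmp_scale hα hz0 hc0] at h2
  exact h2

theorem pinched_of_polar {α : W → W →L[ℝ] ℝ} (hα : Conn α) {z u v : W} (h : ON3 z u v) {k : ℝ}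
    (hc : ∀ r, 0 < r → r < Real.pi / 2 → ∀ x : E, ‖x‖ = 1 →
      ∑ i, VV α z u v r i x ^ 2 ≤ k ^ 2 * ∑ i, UU α z u v r i x ^ 2) : Pinched k α := by
  intro z' u' v' h'
  obtain ⟨c, r, x, -, hr0, hr1, hx, hy⟩ := polar h h'.zz
  have hF := frame_ON3 h r hx
  obtain ⟨e1, e2⟩ := frame_inv hα hF h' hy
  rw [e1, e2, nrm2_sd (Pex.cmp_skew _ _ _ _), nrm2_asd (Pex.cmp_skew _ _ _ _)]
  have hx0 : x ≠ 0 := ne_of_norm hx
  have c1 : Continuous fun r => ∑ i, VV α z u v r i x ^ 2 :=
    cont_sq (g := fun r i x => VV α z u v r i x) (fun i => VV_joint hα.smooth h i) hx0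
  have c2 : Continuous fun r => ∑ i, UU α z u v r i x ^ 2 :=
    cont_sq (g := fun r i x => UU α z u v r i x) (fun i => UU_joint hα.smooth h i) hx0
  have hcl : IsClosed {r : ℝ | ∑ i, VV α z u v r i x ^ 2 ≤ k ^ 2 * ∑ i, UU α z u v r i x ^ 2} :=
    isClosed_le c1 (continuous_const.mul c2)
  have hpi : (0 : ℝ) ≠ Real.pi / 2 := (by positivity : (0 : ℝ) < Real.pi / 2).ne
  have hsub := hcl.closure_subset_iff.2 fun r (hr : r ∈ Ioo 0 (Real.pi / 2)) =>
    hc r hr.1 hr.2 x hx
  rw [closure_Ioo hpi] at hsub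
  exact hsub ⟨hr0, hr1⟩

end Pool.Agent.Lib.Shp
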