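import Pool.Agent.Lib.Shp.TrB
import Pool.Agent.Lib.Shp.TrI

set_option autoImplicit false

/-!
# Transplantation of the flat example

`R > 0` small, `G T = 1 - η(T / R²) T / (1 + T)`, `η τ = smoothTransition ((τ - 1) / 3)` (`G = 1` for `T ≤ R²`, `G = 1 / (1 + T)` for `T ≥ 4 R²`),
`lamt x = R lam (x / R) + (G T - 1) th1 x`, `mu = lamt - th1 / (1 + T)` (zero for `‖x‖ ≥ 2 R`), `α` from `bundle mu`: `ch α = lamt`, so
`tE α = cof lamt`. For `‖x‖ < R`: `cof lamt x = cof lam (x / R)`; for `‖x‖ > R`: `lamt = FH G 0`, `Uc = (0, 0, 2 (2 G + T G'))`, `|Vc| = 2 |T G'|`, so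
`k'`-pinched in the flat sense for `R ≤ ‖x‖ ≤ 2 R`; `‖x‖ = R` by continuity; for `‖x‖ > 2 R`: `tE α = tE a0` near `x`, `VV = 0` (`pE_eq`, `qE_eq`,
`cmp_a0`). FLAT TO CURVED: at `x = tan r ξ`, `c = cos r`, by `Ue_eq`, `QV_eq`: `c³ UU = (U₀, U₁, C U₂ + S V₂)`, `c³ VV = (V₀, V₁, C V₂ + S U₂)` where
`U = Ue`, `∑ V_i² = QV`, `C = (1/c + c) / 2`, `S = (1/c - c) / 2`. So `|VV| ≤ (C k' + S) / (1 - S k') |UU|`, and this is `≤ k` for `tan r ≤ 2 R` small.
-/

open MeasureTheory Set Metric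
open scoped ContDiff

namespace Pool.Agent.Lib.Shp

open Pool.Agent.P28b04d Pool.Agent.Lib.Psd Pool.Agent.Lib.Pex

namespace TrXAux

/-! ### the profile -/

/-- the profile `G` -/
noncomputable def Gf (R T : ℝ) : ℝ :=
  1 - Real.smoothTransition ((T / R ^ 2 - 1) / 3) * (T * (1 + T)⁻¹)

theorem Gf_low {R T : ℝ} (hR : 0 < R) (hT : T ≤ R ^ 2) : Gf R T = 1 := by
  have h1 : (T / R ^ 2 - 1) / 3 ≤ 0 := by
    have : T / R ^ 2 ≤ 1 := by
      rw [div_le_one (by positivity)]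
      exact hT
    linarith
  unfold Gf
  rw [Real.smoothTransition.zero_of_nonpos h1]
  ring

theorem Gf_high {R T : ℝ} (hR : 0 < R) (hT : 4 * R ^ 2 ≤ T) : Gf R T = (1 + T)⁻¹ := by
  have h0 : 0 < R ^ 2 := by positivity
  have h1 : 1 ≤ (T / R ^ 2 - 1) / 3 := by
    have : 4 ≤ T / R ^ 2 := by
      rw [le_div_iff₀ h0]
      exact hT
    linarith
  have h2 : (1 : ℝ) + T ≠ 0 := by
    have : 0 < T := by linarith
    positivity
  unfold Gf
  rw [Real.smoothTransition.one_of_one_le h1]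
  field_simp
  ring

theorem Gf_smooth {R : ℝ} (hR : 0 < R) : ContDiff ℝ ∞ (Gf R) := by
  rw [contDiff_iff_contDiffAt]
  intro T
  rcases lt_or_ge T 0 with h | h
  · have h1 : Gf R =ᶠ[nhds T] fun _ => (1 : ℝ) := by
      filter_upwards [Iio_mem_nhds h] with y hy
      exact Gf_low hR ((le_of_lt hy).trans (by positivity))
    exact (contDiffAt_const).congr_of_eventuallyEq h1
  · have h1 : (1 : ℝ) + T ≠ 0 := by positivity
    unfold Gf
    refine contDiffAt_const.sub (ContDiffAt.mul ?_ ?_)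
    · exact (Real.smoothTransition.contDiff.comp
        (((contDiff_id.div_const _).sub contDiff_const).div_const _)).contDiffAt
    · exact contDiffAt_id.mul ((contDiffAt_const.add contDiffAt_id).inv h1)

theorem Gf_deriv {R T : ℝ} (hT : 0 < T) : HasDerivAt (Gf R)
    (-(deriv Real.smoothTransition ((T / R ^ 2 - 1) / 3) * (1 / R ^ 2 / 3) * (T * (1 + T)⁻¹) +
      Real.smoothTransition ((T / R ^ 2 - 1) / 3) * ((1 + T) ^ 2)⁻¹)) T := by
  have h1 : (1 : ℝ) + T ≠ 0 := by positivity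
  have hs : HasDerivAt Real.smoothTransition (deriv Real.smoothTransition ((T / R ^ 2 - 1) / 3))
      ((T / R ^ 2 - 1) / 3) :=
    ((Real.smoothTransition.contDiff (n := 1)).differentiable (by simp) _).hasDerivAt
  have h2 : HasDerivAt (fun T : ℝ => (T / R ^ 2 - 1) / 3) (1 / R ^ 2 / 3) T :=
    (((hasDerivAt_id T).div_const (R ^ 2)).sub_const 1).div_const 3
  have h3 := hs.comp T h2
  have h4 : HasDerivAt (fun T : ℝ => T * (1 + T)⁻¹) ((1 + T) ^ 2)⁻¹ T := by
    have h5 : HasDerivAt (fun T : ℝ => 1 + T) 1 T := (hasDerivAt_id T).const_add 1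
    have h6 := (hasDerivAt_id T).mul (h5.inv h1)
    refine HasDerivAt.congr_deriv (f := fun T : ℝ => T * (1 + T)⁻¹) h6 ?_
    simp only [id, Pi.inv_apply]
    field_simp
    ring
  have h5 := (h3.mul h4).const_sub 1
  exact h5

/-! ### the one-form -/

theorem t1c_smooth (j : Fin 4) : ContDiff ℝ ∞ fun y : E => t1c y j := by
  fin_cases j
  · exact (EuclideanSpace.proj (𝕜 := ℝ) (1 : Fin 4) : E →L[ℝ] ℝ).contDiff.neg
  · exact (EuclideanSpace.proj (𝕜 := ℝ) (0 : Fin 4) : E →L[ℝ] ℝ).contDiff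
  · exact (EuclideanSpace.proj (𝕜 := ℝ) (3 : Fin 4) : E →L[ℝ] ℝ).contDiff.neg
  · exact (EuclideanSpace.proj (𝕜 := ℝ) (2 : Fin 4) : E →L[ℝ] ℝ).contDiff

theorem th1_smooth : ContDiff ℝ ∞ th1 := by
  have e : th1 = frm fun j y => t1c y j := rfl
  rw [e]
  exact frm_smooth t1c_smooth

theorem th1_smul (c : ℝ) (x : E) : th1 (c • x) = c • th1 x := by
  ext v
  unfold th1
  rw [ContinuousLinearMap.smul_apply, frm_apply, frm_apply, smul_eq_mul, Finset.mul_sum]
  refine Finset.sum_congr rfl fun j _ => ?_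
  fin_cases j <;> simp [t1c] <;> ring

/-- the one-form in the chart -/
noncomputable def lamt (lam : E → E →L[ℝ] ℝ) (R : ℝ) (x : E) : E →L[ℝ] ℝ :=
  R • lam (R⁻¹ • x) + (Gf R (‖x‖ ^ 2) - 1) • th1 x

theorem Gn_smooth {R : ℝ} (hR : 0 < R) : ContDiff ℝ ∞ fun x : E => Gf R (‖x‖ ^ 2) :=
  (Gf_smooth hR).comp (contDiff_norm_sq ℝ)

theorem lamt_smooth {lam : E → E →L[ℝ] ℝ} (hs : ContDiff ℝ ∞ lam) {R : ℝ} (hR : 0 < R) :
    ContDiff ℝ ∞ (lamt lam R) := by
  unfold lamt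
  refine ContDiff.add ?_ ?_
  · exact (hs.comp (contDiff_id.const_smul R⁻¹)).const_smul R
  · exact ((Gn_smooth hR).sub contDiff_const).smul th1_smooth

theorem lamt_in {lam : E → E →L[ℝ] ℝ} {R : ℝ} (hR : 0 < R) {x : E} (hx : ‖x‖ ≤ R) :
    lamt lam R x = R • lam (R⁻¹ • x) := by
  have h1 : Gf R (‖x‖ ^ 2) = 1 := Gf_low hR (pow_le_pow_left₀ (norm_nonneg _) hx 2)
  unfold lamt
  rw [h1, sub_self, zero_smul, add_zero]

theorem lamt_out {lam : E → E →L[ℝ] ℝ} (hout : ∀ x, 1 ≤ ‖x‖ → lam x = th1 x) {R : ℝ}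
    (hR : 0 < R) {x : E} (hx : R ≤ ‖x‖) : lamt lam R x = Gf R (‖x‖ ^ 2) • th1 x := by
  have h1 : 1 ≤ ‖R⁻¹ • x‖ := by
    rw [norm_smul, Real.norm_eq_abs, abs_of_pos (inv_pos.2 hR), ← div_eq_inv_mul,
      le_div_iff₀ hR, one_mul]
    exact hx
  unfold lamt
  rw [hout _ h1, th1_smul, smul_smul, mul_inv_cancel₀ hR.ne']
  ext v
  simp only [ContinuousLinearMap.add_apply, ContinuousLinearMap.smul_apply, smul_eq_mul]
  ring

theorem lamt_FH {lam : E → E →L[ℝ] ℝ} (hout : ∀ x, 1 ≤ ‖x‖ → lam x = th1 x) {R : ℝ}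
    (hR : 0 < R) {x : E} (hx : R ≤ ‖x‖) : lamt lam R x = FH (Gf R) (fun _ => 0) x := by
  rw [lamt_out hout hR hx]
  ext v
  unfold FH th1
  rw [ContinuousLinearMap.smul_apply, frm_apply, frm_apply, smul_eq_mul, Finset.mul_sum]
  refine Finset.sum_congr rfl fun j _ => ?_
  ring

theorem cof_congr {lam mu : E → E →L[ℝ] ℝ} {x : E} (h : lam =ᶠ[nhds x] mu) :
    cof lam x = cof mu x := by
  funext i j
  unfold cof co dd
  rw [h.fderiv_eq]

theorem cof_cont {lam : E → E →L[ℝ] ℝ} (hs : ContDiff ℝ ∞ lam) (i j : Fin 4) :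
    Continuous fun x => cof lam x i j := by
  have h1 : Continuous (fderiv ℝ lam) := hs.continuous_fderiv (by simp)
  unfold cof co dd
  exact ((h1.clm_apply continuous_const).clm_apply continuous_const).sub
    ((h1.clm_apply continuous_const).clm_apply continuous_const)

/-- flat pinching in the ball of radius `2 R` -/
theorem flat_pinch {k' : ℝ} (h0 : 0 < k') (hk1 : k' < 1) {lam : E → E →L[ℝ] ℝ}
    (hs : ContDiff ℝ ∞ lam) (hout : ∀ x, 1 ≤ ‖x‖ → lam x = th1 x)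
    (hp : ∀ x, ∑ i, Vc (cof lam x) i ^ 2 ≤ k' ^ 2 * ∑ i, Uc (cof lam x) i ^ 2) {R M : ℝ}
    (hR : 0 < R) (hM0 : 0 ≤ M) (hM : ∀ s ∈ Icc (0 : ℝ) 1, |deriv Real.smoothTransition s| ≤ M)
    (hR1 : 4 * R ^ 2 ≤ 1) (hR2 : (4 * M / 3 + 1) * (4 * R ^ 2) ≤ k' / 2) {x : E}
    (hx : ‖x‖ ≤ 2 * R) :
    ∑ i, Vc (cof (lamt lam R) x) i ^ 2 ≤ k' ^ 2 * ∑ i, Uc (cof (lamt lam R) x) i ^ 2 := by
  rcases le_or_gt ‖x‖ R with hx1 | hx1
  · -- the small ball
    set P : Set E := {x | ∑ i, Vc (cof (lamt lam R) x) i ^ 2 ≤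
      k' ^ 2 * ∑ i, Uc (cof (lamt lam R) x) i ^ 2} with hP
    have hc := cof_cont (lamt_smooth hs hR)
    have hcl : IsClosed P := by
      refine isClosed_le ?_ ?_
      · simp only [Fin.sum_univ_three, Vc, Matrix.cons_val_zero, Matrix.cons_val_one,
          Matrix.cons_val]
        exact ((((hc 0 2).sub (hc 3 1)).pow 2).add (((hc 0 3).sub (hc 1 2)).pow 2)).add
          (((hc 0 1).sub (hc 2 3)).pow 2)
      · simp only [Fin.sum_univ_three, Uc, Matrix.cons_val_zero, Matrix.cons_val_one,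
          Matrix.cons_val]
        exact continuous_const.mul
          (((((hc 0 2).add (hc 3 1)).pow 2).add (((hc 0 3).add (hc 1 2)).pow 2)).add
          (((hc 0 1).add (hc 2 3)).pow 2))
    have hb : ball (0 : E) R ⊆ P := by
      intro y hy
      have hy1 : ‖y‖ < R := by simpa using hy
      have e1 : lamt lam R =ᶠ[nhds y] fun y => R • lam (R⁻¹ • y) := by
        filter_upwards [isOpen_ball.mem_nhds hy] with w hw
        have hw1 : ‖w‖ < R := by simpa using hw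
        exact lamt_in hR hw1.le
      have e2 : cof (lamt lam R) y = cof lam (R⁻¹ • y) := by
        rw [cof_congr e1]
        funext i j
        exact cof_scale hs hR y i j
      show ∑ i, Vc (cof (lamt lam R) y) i ^ 2 ≤ k' ^ 2 * ∑ i, Uc (cof (lamt lam R) y) i ^ 2
      rw [e2]
      exact hp _
    have h1 : closure (ball (0 : E) R) ⊆ P := hcl.closure_subset_iff.2 hb
    rw [closure_ball (0 : E) hR.ne'] at h1
    exact h1 (by simpa using hx1)
  · -- the annulus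
    have e1 : lamt lam R =ᶠ[nhds x] FH (Gf R) (fun _ => 0) := by
      have ho : IsOpen {y : E | R < ‖y‖} := isOpen_lt continuous_const continuous_norm
      filter_upwards [ho.mem_nhds hx1] with w hw
      exact lamt_FH hout hR (le_of_lt hw)
    set T := ‖x‖ ^ 2 with hT
    have hn : 0 < ‖x‖ := hR.trans hx1
    have hT0 : 0 < T := pow_pos hn 2
    have hT1 : R ^ 2 ≤ T := pow_le_pow_left₀ hR.le hx1.le 2
    have hT2 : T ≤ 4 * R ^ 2 := by
      have h := pow_le_pow_left₀ (norm_nonneg _) hx 2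
      have e : (2 * R) ^ 2 = 4 * R ^ 2 := by ring
      rw [hT]
      linarith
    rw [cof_congr e1, FH_V (Gf_smooth hR) contDiff_const, FH_U (Gf_smooth hR) contDiff_const]
    simp only [Fin.sum_univ_three, Matrix.cons_val_zero, Matrix.cons_val_one, Matrix.cons_val,
      deriv_const, ← hT]
    have hG := (Gf_deriv (R := R) hT0).deriv
    set s := (T / R ^ 2 - 1) / 3 with hs'
    have hR0 : 0 < R ^ 2 := by positivity
    have hs0 : 0 ≤ s := by
      have : 1 ≤ T / R ^ 2 := by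
        rw [le_div_iff₀ hR0, one_mul]
        exact hT1
      rw [hs']
      linarith
    have hq : T / R ^ 2 ≤ 4 := by
      rw [div_le_iff₀ hR0]
      exact hT2
    have hs1 : s ≤ 1 := by
      rw [hs']
      linarith
    have hd := hM s ⟨hs0, hs1⟩
    set D := deriv Real.smoothTransition s with hD
    have hη0 := Real.smoothTransition.nonneg s
    have hη1 := Real.smoothTransition.le_one s
    set η := Real.smoothTransition s with hη
    set G' := deriv (Gf R) T with hG'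
    have h1T : 0 < 1 + T := by positivity
    have hi : (1 + T)⁻¹ ≤ 1 := by
      rw [inv_le_one_iff₀]
      right
      linarith
    have hi0 : 0 < (1 + T)⁻¹ := inv_pos.2 h1T
    have hi2 : ((1 + T) ^ 2)⁻¹ ≤ 1 := by
      rw [inv_le_one_iff₀]
      right
      exact one_le_pow₀ (by linarith)
    have hi20 : 0 < ((1 + T) ^ 2)⁻¹ := by positivity
    -- the bound of the derivative
    have hb : |T * G'| ≤ k' / 2 := by
      rw [hG]
      have e2 : T * -(D * (1 / R ^ 2 / 3) * (T * (1 + T)⁻¹) + η * ((1 + T) ^ 2)⁻¹) =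
          -(T * (D * (T / R ^ 2) / 3 * (1 + T)⁻¹ + η * ((1 + T) ^ 2)⁻¹)) := by
        field_simp
      rw [e2, abs_neg, abs_mul, abs_of_pos hT0]
      have h3 : |D * (T / R ^ 2) / 3 * (1 + T)⁻¹ + η * ((1 + T) ^ 2)⁻¹| ≤ 4 * M / 3 + 1 := by
        refine (abs_add_le _ _).trans (add_le_add ?_ ?_)
        · rw [abs_mul, abs_div, abs_mul, abs_of_pos hi0]
          have h4 : |T / R ^ 2| ≤ 4 := by
            rw [abs_of_pos (by positivity)]
            exact hq
          have h5 : |D| * |T / R ^ 2| ≤ M * 4 := mul_le_mul hd h4 (abs_nonneg _) hM0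
          have h6 : |(3 : ℝ)| = 3 := abs_of_pos (by norm_num)
          rw [h6]
          calc |D| * |T / R ^ 2| / 3 * (1 + T)⁻¹ ≤ M * 4 / 3 * 1 := by
                gcongr
            _ = 4 * M / 3 := by ring
        · rw [abs_of_nonneg (by positivity)]
          calc η * ((1 + T) ^ 2)⁻¹ ≤ 1 * 1 := by gcongr
            _ = 1 := by ring
      calc T * |D * (T / R ^ 2) / 3 * (1 + T)⁻¹ + η * ((1 + T) ^ 2)⁻¹| ≤
          (4 * R ^ 2) * (4 * M / 3 + 1) := by gcongr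
        _ ≤ k' / 2 := by linarith
    -- the lower bound of `G`
    have hGl : 1 / 2 ≤ Gf R T := by
      have h3 : T * (1 + T)⁻¹ ≤ 1 / 2 := by
        rw [← div_eq_mul_inv, div_le_iff₀ h1T]
        linarith
      have h4 : η * (T * (1 + T)⁻¹) ≤ 1 * (1 / 2) :=
        mul_le_mul hη1 h3 (by positivity) zero_le_one
      unfold Gf
      rw [← hs', ← hη]
      linarith
    have hb2 := abs_le.1 hb
    have h5 : |T * G'| ≤ k' * (2 * Gf R T + T * G') := by
      have : k' * (1 / 2) ≤ k' * (2 * Gf R T + T * G') := by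
        refine mul_le_mul_of_nonneg_left ?_ h0.le
        linarith
      linarith
    have h6 : (T * G') ^ 2 ≤ (k' * (2 * Gf R T + T * G')) ^ 2 := by
      rw [← sq_abs (T * G')]
      exact pow_le_pow_left₀ (abs_nonneg _) h5 2
    linarith

/-! ### from flat to curved -/

/-- the algebra -/
theorem flat_curved {c t k' k : ℝ} (hc : 0 < c) (hct : c ^ 2 * (1 + t ^ 2) = 1) (h0 : 0 < k')
    (hkk : k' < k) (hk1 : k < 1) (ht : t ^ 2 ≤ k ^ 2 - k' ^ 2) {a0 a1 a2 b0 b1 b2 : ℝ}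
    (H : (c ^ 3 * b0) ^ 2 + (c ^ 3 * b1) ^ 2 +
      ((c ^ 4 - c ^ 2) / 2 * a2 + (c ^ 4 + c ^ 2) / 2 * b2) ^ 2 ≤
      k' ^ 2 * ((c ^ 3 * a0) ^ 2 + (c ^ 3 * a1) ^ 2 +
        ((c ^ 4 + c ^ 2) / 2 * a2 + (c ^ 4 - c ^ 2) / 2 * b2) ^ 2)) :
    b0 ^ 2 + b1 ^ 2 + b2 ^ 2 ≤ k ^ 2 * (a0 ^ 2 + a1 ^ 2 + a2 ^ 2) := by
  have hc2 : c ^ 2 ≤ 1 := by
    have h := sq_nonneg (c * t)
    have e : c ^ 2 * (1 + t ^ 2) = c ^ 2 + (c * t) ^ 2 := by ring
    linarith
  have hc4 : c ^ 4 ≤ c ^ 2 := by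
    have e : c ^ 4 = c ^ 2 * c ^ 2 := by ring
    rw [e]
    exact mul_le_of_le_one_right (sq_nonneg c) hc2
  set p := (c ^ 4 + c ^ 2) / 2 with hp
  set q := (c ^ 2 - c ^ 4) / 2 with hq
  have e1 : (c ^ 4 - c ^ 2) / 2 = -q := by
    rw [hq]
    ring
  rw [e1] at H
  have hpq : p ^ 2 = c ^ 6 + q ^ 2 := by
    rw [hp, hq]
    ring
  have hq0 : 0 ≤ q := by
    rw [hq]
    linarith
  have hp0 : 0 ≤ p := by
    rw [hp]
    positivity
  have hq1 : q * c ^ 2 = c ^ 6 * (t ^ 2 / 2) := by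
    rw [hq]
    linear_combination (-(c ^ 4) / 2) * hct
  have hpq1 : p * q ≤ c ^ 6 * (t ^ 2 / 2) := by
    rw [← hq1]
    have h : p ≤ c ^ 2 := by
      rw [hp]
      linarith
    have h' := mul_le_mul_of_nonneg_right h hq0
    linarith
  have hpq2 : q ^ 2 + p * q = c ^ 6 * (t ^ 2 / 2) := by
    rw [← hq1, hp, hq]
    ring
  have hk2 : k' ^ 2 ≤ 1 := pow_le_one₀ h0.le (hkk.trans hk1).le
  have hk3 : k ^ 2 ≤ 1 := pow_le_one₀ (h0.trans hkk).le hk1.le
  have hc6 : 0 < c ^ 6 := by positivity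
  set A := a0 ^ 2 + a1 ^ 2 + a2 ^ 2 with hA
  set B := b0 ^ 2 + b1 ^ 2 + b2 ^ 2 with hB
  have hA0 : 0 ≤ A := by positivity
  have hB0 : 0 ≤ B := by positivity
  have hpq0 : 0 ≤ p * q := by positivity
  -- the main inequality
  have h1 : c ^ 6 * B ≤ k' ^ 2 * (c ^ 6 * A) + (c ^ 6 * (t ^ 2 / 2)) * A +
      (c ^ 6 * (t ^ 2 / 2)) * B := by
    have h2 : c ^ 6 * B ≤ k' ^ 2 * (c ^ 6 * A) + k' ^ 2 * q ^ 2 * a2 ^ 2 +
        k' ^ 2 * q ^ 2 * b2 ^ 2 - q ^ 2 * a2 ^ 2 - q ^ 2 * b2 ^ 2 +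
        2 * (p * q) * (1 - k' ^ 2) * (a2 * b2) := by
      have e2 : c ^ 6 * B + q ^ 2 * b2 ^ 2 + q ^ 2 * a2 ^ 2 - 2 * (p * q) * (a2 * b2) =
          (c ^ 3 * b0) ^ 2 + (c ^ 3 * b1) ^ 2 + (-q * a2 + p * b2) ^ 2 := by
        rw [hB]
        linear_combination (-(b2 ^ 2)) * hpq
      have e3 : c ^ 6 * A + q ^ 2 * a2 ^ 2 + q ^ 2 * b2 ^ 2 - 2 * (p * q) * (a2 * b2) =
          (c ^ 3 * a0) ^ 2 + (c ^ 3 * a1) ^ 2 + (p * a2 + -q * b2) ^ 2 := by
        rw [hA]
        linear_combination (-(a2 ^ 2)) * hpq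
      rw [← e2, ← e3] at H
      linarith
    have h3 : 2 * (p * q) * (1 - k' ^ 2) * (a2 * b2) ≤ (p * q) * (a2 ^ 2 + b2 ^ 2) := by
      have h4 : 2 * (a2 * b2) * (1 - k' ^ 2) ≤ a2 ^ 2 + b2 ^ 2 := by
        have h5 : 2 * |a2 * b2| ≤ a2 ^ 2 + b2 ^ 2 := by
          rw [abs_mul, ← sq_abs a2, ← sq_abs b2]
          linarith [sq_nonneg (|a2| - |b2|)]
        have h6 : (a2 * b2) * (1 - k' ^ 2) ≤ |a2 * b2| * 1 := by
          refine (le_abs_self _).trans ?_
          rw [abs_mul]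
          refine mul_le_mul_of_nonneg_left ?_ (abs_nonneg _)
          rw [abs_of_nonneg (by linarith)]
          linarith [sq_nonneg k']
        linarith
      have := mul_le_mul_of_nonneg_left h4 hpq0
      linarith
    have hq2 : 0 ≤ q ^ 2 := sq_nonneg q
    have ha2 : a2 ^ 2 ≤ A := by
      rw [hA]
      linarith [sq_nonneg a0, sq_nonneg a1]
    have hb2 : b2 ^ 2 ≤ B := by
      rw [hB]
      linarith [sq_nonneg b0, sq_nonneg b1]
    have h7 : k' ^ 2 * q ^ 2 * a2 ^ 2 ≤ q ^ 2 * a2 ^ 2 := by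
      have h : 0 ≤ q ^ 2 * a2 ^ 2 := by positivity
      have h' := mul_le_mul_of_nonneg_right hk2 h
      linarith
    have h8 : k' ^ 2 * q ^ 2 * b2 ^ 2 ≤ q ^ 2 * b2 ^ 2 := by
      have h : 0 ≤ q ^ 2 * b2 ^ 2 := by positivity
      have h' := mul_le_mul_of_nonneg_right hk2 h
      linarith
    have h9 : (p * q) * (a2 ^ 2 + b2 ^ 2) ≤ (c ^ 6 * (t ^ 2 / 2)) * (A + B) :=
      mul_le_mul hpq1 (add_le_add ha2 hb2) (by positivity) (by positivity)
    linarith
  have h2 : B ≤ k' ^ 2 * A + t ^ 2 / 2 * A + t ^ 2 / 2 * B := by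
    have : c ^ 6 * B ≤ c ^ 6 * (k' ^ 2 * A + t ^ 2 / 2 * A + t ^ 2 / 2 * B) := by linarith
    exact le_of_mul_le_mul_left this hc6
  have ht0 : 0 ≤ t ^ 2 := sq_nonneg t
  have ht1 : t ^ 2 ≤ 1 := by linarith [sq_nonneg k']
  -- `B (1 - t² / 2) ≤ (k'² + t² / 2) A ≤ k² (1 - t² / 2) A`
  have h3 : B * (1 - t ^ 2 / 2) ≤ (k ^ 2 * A) * (1 - t ^ 2 / 2) := by
    have h4 : (k' ^ 2 + t ^ 2 / 2) * A ≤ (k ^ 2 * (1 - t ^ 2 / 2)) * A := by
      refine mul_le_mul_of_nonneg_right ?_ hA0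
      have h' := mul_le_mul_of_nonneg_right hk3 ht0
      linarith
    linarith
  exact le_of_mul_le_mul_right h3 (by linarith)

end TrXAux

open TrXAux

theorem transplant {k' k : ℝ} (h0 : 0 < k') (hk : k' < k) (hk1 : k < 1) {lam : E → E →L[ℝ] ℝ}
    (hs : ContDiff ℝ ∞ lam) (hout : ∀ x, 1 ≤ ‖x‖ → lam x = th1 x) (hz : ∀ i j, cof lam 0 i j = 0)
    (hp : ∀ x, ∑ i, Vc (cof lam x) i ^ 2 ≤ k' ^ 2 * ∑ i, Uc (cof lam x) i ^ 2) :
    ∃ α : W → W →L[ℝ] ℝ, Conn α ∧ Pinched k α ∧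
      ∀ i j, Psd.cmp (dd α (eW 0)) (eW 1) (eW 2) i j = 0 := by
  -- the bound of the derivative of the transition function
  have hdc : ContinuousOn (deriv Real.smoothTransition) (Icc (0 : ℝ) 1) :=
    ((Real.smoothTransition.contDiff (n := 1)).continuous_deriv le_rfl).continuousOn
  obtain ⟨M0, hM0⟩ := isCompact_Icc.exists_bound_of_continuousOn hdc
  set M := max M0 0 with hMd
  have hM1 : 0 ≤ M := le_max_right _ _
  have hM : ∀ s ∈ Icc (0 : ℝ) 1, |deriv Real.smoothTransition s| ≤ M := fun s hs =>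
    (hM0 s hs).trans (le_max_left _ _)
  have hkk : 0 < k ^ 2 - k' ^ 2 := by
    have := pow_lt_pow_left₀ hk h0.le two_ne_zero
    linarith
  -- the radius
  obtain ⟨R, hR, hR1, hR2, hR3⟩ : ∃ R : ℝ, 0 < R ∧ 4 * R ^ 2 ≤ 1 ∧
      (4 * M / 3 + 1) * (4 * R ^ 2) ≤ k' / 2 ∧ 4 * R ^ 2 ≤ k ^ 2 - k' ^ 2 := by
    have hc : Filter.Tendsto (fun R : ℝ => 4 * R ^ 2) (nhdsWithin 0 (Ioi 0)) (nhds 0) := by
      have h1 : Continuous fun R : ℝ => 4 * R ^ 2 := by fun_prop
      have h2 := (h1.tendsto 0).mono_left (nhdsWithin_le_nhds (s := Ioi (0 : ℝ)))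
      simpa using h2
    have hA : 0 < 4 * M / 3 + 1 := by positivity
    have h1 := (hc.eventually (Iic_mem_nhds (zero_lt_one (α := ℝ))))
    have h2 := (hc.eventually (Iic_mem_nhds (show (0 : ℝ) < k' / 2 / (4 * M / 3 + 1) by positivity)))
    have h3 := (hc.eventually (Iic_mem_nhds hkk))
    obtain ⟨R, ⟨⟨hR1, hR2⟩, hR3⟩, hR⟩ :=
      (((h1.and h2).and h3).and (self_mem_nhdsWithin (a := (0 : ℝ)) (s := Ioi 0))).exists
    refine ⟨R, hR, hR1, ?_, hR3⟩
    have h4 : 4 * R ^ 2 ≤ k' / 2 / (4 * M / 3 + 1) := hR2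
    rw [le_div_iff₀ hA] at h4
    linarith
  have hl := lamt_smooth hs hR
  -- the form `mu`
  have hmu : ContDiff ℝ ∞ fun x : E => lamt lam R x - (1 + ‖x‖ ^ 2)⁻¹ • th1 x := by
    have h1 : ContDiff ℝ ∞ fun x : E => (1 + ‖x‖ ^ 2)⁻¹ :=
      (contDiff_const.add (contDiff_norm_sq ℝ)).inv fun x => by positivity
    exact hl.sub (h1.smul th1_smooth)
  have hρ : ∀ x : E, 2 * R ≤ ‖x‖ → lamt lam R x - (1 + ‖x‖ ^ 2)⁻¹ • th1 x = 0 := by
    intro x hx
    have h1 : 4 * R ^ 2 ≤ ‖x‖ ^ 2 := by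
      have h := pow_le_pow_left₀ (by positivity) hx 2
      have e : (2 * R) ^ 2 = 4 * R ^ 2 := by ring
      linarith
    rw [lamt_out hout hR (by linarith), Gf_high hR h1, sub_self]
  obtain ⟨α, hα, hch⟩ := bundle hmu hρ
  have hON := eW_ON3
  have hcl : ch α (eW 0) (eW 1) (eW 2) = lamt lam R := by
    funext x
    rw [hch x]
    abel
  have htE : ∀ x : E, tE α (eW 0) (eW 1) (eW 2) x = cof (lamt lam R) x := by
    intro x
    funext i j
    unfold tE cof
    rw [hcl]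
  refine ⟨α, hα, ?_, ?_⟩
  · refine pinched_of_polar hα hON ?_
    intro r hr0 hr1 x hx
    have hx0 : x ≠ 0 := ne_of_norm hx
    have ht0 : 0 < Real.tan r := Real.tan_pos_of_pos_of_lt_pi_div_two hr0 hr1
    have hat : Real.arctan (Real.tan r) = r := Real.arctan_tan (by linarith) hr1
    have hnt : ‖Real.tan r • x‖ = Real.tan r := by
      rw [norm_smul, hx, mul_one, Real.norm_eq_abs, abs_of_pos ht0]
    obtain ⟨-, hc0, hc1⟩ := sc (Real.tan r)
    rw [hat] at hc0 hc1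
    rcases le_or_gt (Real.tan r) (2 * R) with hrR | hrR
    · have h1 := flat_pinch h0 (hk.trans hk1) hs hout hp hR hM1 hM hR1 hR2
        (x := Real.tan r • x) (by rw [hnt]; exact hrR)
      rw [← htE] at h1
      have h2 := QV_eq hα hON ht0 hx
      have h3 := fun i => Ue_eq hα hON ht0 hx i
      rw [hat] at h2 h3
      have e1 : ∑ i, Vc (tE α (eW 0) (eW 1) (eW 2) (Real.tan r • x)) i ^ 2 =
          QV α (eW 0) (eW 1) (eW 2) (Real.tan r • x) := rfl
      have e2 : ∑ i, Uc (tE α (eW 0) (eW 1) (eW 2) (Real.tan r • x)) i ^ 2 =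
          ∑ i, Ue α (eW 0) (eW 1) (eW 2) i (Real.tan r • x) ^ 2 := rfl
      rw [e1, e2, h2] at h1
      simp only [h3] at h1
      rw [Fin.sum_univ_three, Fin.sum_univ_three] at h1 ⊢
      simp only [pe, qe, Matrix.cons_val_zero, Matrix.cons_val_one, Matrix.cons_val] at h1
      have ht2 : Real.tan r ^ 2 ≤ k ^ 2 - k' ^ 2 := by
        have : Real.tan r ^ 2 ≤ (2 * R) ^ 2 := pow_le_pow_left₀ ht0.le hrR 2
        linarith
      refine flat_curved hc0 hc1 h0 hk hk1 ht2 ?_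
      linarith
    · -- outside
      have hnb : tE α (eW 0) (eW 1) (eW 2) (Real.tan r • x) =
          tE a0 (eW 0) (eW 1) (eW 2) (Real.tan r • x) := by
        rw [htE]
        have h1 : lamt lam R =ᶠ[nhds (Real.tan r • x)] ch a0 (eW 0) (eW 1) (eW 2) := by
          have ho : IsOpen {y : E | 2 * R < ‖y‖} := isOpen_lt continuous_const continuous_norm
          have hmem : Real.tan r • x ∈ {y : E | 2 * R < ‖y‖} := by
            show 2 * R < ‖Real.tan r • x‖
            rw [hnt]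
            exact hrR
          filter_upwards [ho.mem_nhds hmem] with y hy
          have h2 := hρ y (le_of_lt hy)
          rw [sub_eq_zero] at h2
          rw [h2]
          ext v
          unfold ch
          rw [ContinuousLinearMap.comp_apply, a0_apply, nsq_sig hON, ContinuousLinearMap.smul_apply]
          unfold sig
          rw [FrameGAux.hp_add_left, hp_z_Lf hON, zero_add, hp_Lf hON]
          unfold th1
          rw [frm_apply, inner_four, inner_four]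
          simp [t1c, J4, Fin.sum_univ_four]
          ring
        rw [cof_congr h1]
        rfl
      have hV : ∀ i, VV α (eW 0) (eW 1) (eW 2) r i x = VV a0 (eW 0) (eW 1) (eW 2) r i x := by
        intro i
        have p1 := pE_eq hα hON ht0 hx0 i
        have p2 := pE_eq a0_conn hON ht0 hx0 i
        have q1 := qE_eq hα hON ht0 hx0 i
        have q2 := qE_eq a0_conn hON ht0 hx0 i
        rw [hat] at p1 p2 q1 q2
        rw [hnb] at p1 q1
        have hpe : 0 < pe r i := by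
          fin_cases i <;> simp [pe] <;> positivity
        have hqe : 0 < qe r i := by
          fin_cases i <;> simp [qe] <;> positivity
        have e1 := mul_left_cancel₀ hpe.ne' (p1.symm.trans p2)
        have e2 := mul_left_cancel₀ hqe.ne' (q1.symm.trans q2)
        linarith
      have hV0 : ∀ i, VV a0 (eW 0) (eW 1) (eW 2) r i x = 0 := by
        intro i
        have e1 : TT a0 (eW 0) (eW 1) (eW 2) r x = c0 := by
          funext a b
          exact MainAAux.cmp_a0 (frame_ON3 hON r hx) a b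
        unfold VV
        rw [e1]
        fin_cases i <;> simp [Vc, c0]
      have e1 : ∑ i, VV α (eW 0) (eW 1) (eW 2) r i x ^ 2 = 0 := by
        refine Finset.sum_eq_zero fun i _ => ?_
        rw [hV, hV0]
        ring
      rw [e1]
      positivity
  · intro i j
    rw [← co_ch_zero hON hα.smooth, hcl]
    have h1 : lamt lam R =ᶠ[nhds 0] fun y => R • lam (R⁻¹ • y) := by
      filter_upwards [isOpen_ball.mem_nhds (mem_ball_self hR)] with w hw
      have hw1 : ‖w‖ < R := by simpa using hw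
      exact lamt_in hR hw1.le
    have h2 : cof (lamt lam R) 0 i j = cof lam 0 i j := by
      rw [cof_congr h1, cof_scale hs hR, smul_zero]
    have h3 : co (lamt lam R) i j 0 = cof (lamt lam R) 0 i j := rfl
    rw [h3, h2, hz]

end Pool.Agent.Lib.Shp
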