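import Pool.Agent.Lib.Psd.AmbC
import Pool.Agent.Lib.Shp.Pth
import Pool.Agent.Lib.Shp.FlX
import Pool.Agent.Lib.Shp.TrX

set_option autoImplicit false

/-!
# The sharp threshold, ambient version
-/

open MeasureTheory Set Metric
open scoped ContDiff

namespace Pool.Agent.Lib.Shp

open Pool.Agent.P28b04d Pool.Agent.Lib.Psd Pool.Agent.Lib.Pex Pool.Agent.Lib.Psd.AmbCAux

theorem ambP : ∀ β : Mat → Mat →L[ℝ] ℝ, ContDiff ℝ ∞ β → PinchedM ks (form β) →
    NondegM (form β) ∧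
    ∃ K : ℝ × Mat → Mat →L[ℝ] ℝ, ContDiff ℝ ∞ K ∧
      (∀ P ∈ CP 2, ∀ Y ∈ Tan P, K (0, P) Y = β P Y) ∧
      (∀ P ∈ CP 2, ∀ Y ∈ Tan P, K (1, P) Y = 0) ∧
      ∀ t : ℝ, NondegM (form fun P => K (t, P)) := by
  intro β hβ hpin
  have hα : Conn (fun z => a0 z + pb β z) := conn_add a0_conn (pb_basic hβ)
  have hP : Pinched ks (fun z => a0 z + pb β z) := by
    intro z u v h
    have h1 : Psd.cmp (dd (fun z => a0 z + pb β z) z) u v = cmpM (form β) z u v := by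
      funext i j
      unfold Psd.cmp cmpM
      exact dd_conn hβ (nsq_of_ON3 h) (hp_fr h i) (hp_fr h j)
    rw [h1]
    exact hpin z u v h
  obtain ⟨hn, K, hKs, hK0, hK1, hKt⟩ := mainS _ hα hP
  refine ⟨nondeg_amb hα hn fun z v w hz hv hw => dd_conn hβ hz hv hw, ?_⟩
  set Γ : ℝ × W → W →L[ℝ] ℝ := fun q => K q - a0 q.2 with hΓ
  have hΓs : ContDiffOn ℝ ∞ Γ (univ ×ˢ {0}ᶜ) := by
    refine hKs.sub ?_
    exact a0_conn.smooth.comp contDiffOn_snd fun q hq => hq.2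
  have hΓb : ∀ t, Basic (fun z => Γ (t, z)) := fun t => (hKt t).1.sub a0_conn
  have hΓt : ∀ t : ℝ, ∀ z : W, z ≠ 0 → a0 z + pb (fun P => ext1 Γ (t, P)) z = K (t, z) := by
    intro t z hz
    rw [pb_ext1 hΓb t hz]
    simp [hΓ]
  have hs := ext1_smooth hΓs
  refine ⟨ext1 Γ, hs, ?_, ?_, ?_⟩
  · intro P hP Y hY
    obtain ⟨z, hz1, rfl⟩ := exists_unit hP
    obtain ⟨v, hv, rfl⟩ := tan_eq hz1 hY
    rw [ext1_apply hΓb 0 hz1 hv]
    have h1 : Γ (0, z) = pb β z := by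
      simp only [hΓ]
      rw [hK0 z (ne_of_nsq hz1), add_sub_cancel_left]
    rw [h1, pb, ContinuousLinearMap.comp_apply, fderiv_pt hz1 hv]
  · intro P hP Y hY
    obtain ⟨z, hz1, rfl⟩ := exists_unit hP
    obtain ⟨v, hv, rfl⟩ := tan_eq hz1 hY
    rw [ext1_apply hΓb 1 hz1 hv]
    have h1 : Γ (1, z) = 0 := by
      simp only [hΓ]
      rw [hK1 z (ne_of_nsq hz1), sub_self]
    rw [h1, zero_apply]
  · intro t
    have hst : ContDiff ℝ ∞ (fun P => ext1 Γ (t, P)) := hs.comp (contDiff_const.prodMk contDiff_id)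
    refine nondeg_amb (hKt t).1 (hKt t).2 fun z v w hz hv hw => ?_
    rw [← dd_conn hst hz hv hw]
    exact dd_congr (fun y hy => (hΓt t y hy).symm) (ne_of_nsq hz) v w

/-- a connection form whose curvature vanishes at a point gives a form vanishing at a point -/
theorem ambZ {k : ℝ} {α : W → W →L[ℝ] ℝ} (hα : Conn α) (hpin : Pinched k α) {z u v : W}
    (h : ON3 z u v) (h0 : ∀ i j, Psd.cmp (dd α z) u v i j = 0) :
    ∃ β : Mat → Mat →L[ℝ] ℝ, ContDiff ℝ ∞ β ∧ PinchedM k (form β) ∧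
      ∃ P ∈ CP 2, ∀ Y ∈ Tan P, ∀ Z ∈ Tan P, form β P Y Z = 0 := by
  set Γ : ℝ × W → W →L[ℝ] ℝ := fun q => α q.2 - a0 q.2 with hΓ
  have hΓs : ContDiffOn ℝ ∞ Γ (univ ×ˢ {0}ᶜ) := by
    refine ContDiffOn.sub ?_ ?_
    · exact hα.smooth.comp contDiffOn_snd fun q hq => hq.2
    · exact a0_conn.smooth.comp contDiffOn_snd fun q hq => hq.2
  have hΓb : ∀ t, Basic (fun z => Γ (t, z)) := fun t => hα.sub a0_conn
  have hΓt : ∀ z : W, z ≠ 0 → a0 z + pb (fun P => ext1 Γ (0, P)) z = α z := by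
    intro z hz
    rw [pb_ext1 hΓb 0 hz]
    simp [hΓ]
  have hst : ContDiff ℝ ∞ (fun P => ext1 Γ (0, P)) :=
    (ext1_smooth hΓs).comp (contDiff_const.prodMk contDiff_id)
  have key : ∀ {z a b : W}, nsq z = 1 → hp z a = 0 → hp z b = 0 →
      form (fun P => ext1 Γ (0, P)) (Pool.Agent.P28b04d.pt z) (tv z a) (tv z b) = dd α z a b := by
    intro z a b hz ha hb
    rw [← dd_conn hst hz ha hb]
    exact dd_congr (fun y hy => hΓt y hy) (ne_of_nsq hz) a b
  refine ⟨fun P => ext1 Γ (0, P), hst, ?_, Pool.Agent.P28b04d.pt z, ?_, ?_⟩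
  · intro z u v h
    have h1 : cmpM (form fun P => ext1 Γ (0, P)) z u v = Psd.cmp (dd α z) u v := by
      funext i j
      unfold Psd.cmp cmpM
      exact key (nsq_of_ON3 h) (hp_fr h i) (hp_fr h j)
    rw [h1]
    exact hpin z u v h
  · exact pt_mem (ne_of_nsq (nsq_of_ON3 h))
  · intro Y hY Z hZ
    have hz1 := nsq_of_ON3 h
    obtain ⟨a, ha, rfl⟩ := tan_eq hz1 hY
    obtain ⟨b, hb, rfl⟩ := tan_eq hz1 hZ
    rw [key hz1 ha hb]
    have hL : ∀ a : W, hp z a = 0 → ∃ r : Fin 4 → ℝ, a = ∑ i, r i • fr u v i := by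
      intro a ha
      refine ⟨![(hp u a).re, (hp u a).im, (hp v a).re, (hp v a).im], ?_⟩
      have h2 := ActXAux.expand h a
      rw [ha, zero_smul, zero_add] at h2
      have e1 := Complex.re_add_im (hp u a)
      have e2 := Complex.re_add_im (hp v a)
      rw [Fin.sum_univ_four]
      conv_lhs => rw [h2, ← e1, ← e2]
      funext k
      simp only [fr, Matrix.cons_val_zero, Matrix.cons_val_one, Matrix.cons_val, Pi.add_apply,
        Pi.smul_apply, smul_eq_mul, Complex.real_smul]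
      ring
    obtain ⟨r, hr⟩ := hL a ha
    obtain ⟨q, hq⟩ := hL b hb
    rw [hr, CmpFAux.dd_sum_left]
    refine Finset.sum_eq_zero fun i _ => ?_
    rw [hq, CmpFAux.dd_sum_right]
    have : ∑ j, q j * dd α z (fr u v i) (fr u v j) = 0 :=
      Finset.sum_eq_zero fun j _ => by
        have := h0 i j
        unfold Psd.cmp at this
        rw [this, mul_zero]
    rw [this, mul_zero]

theorem sharp : (∀ β : Mat → Mat →L[ℝ] ℝ, ContDiff ℝ ∞ β →
      PinchedM (5 - 2 * Real.sqrt 6) (form β) → NondegM (form β) ∧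
      ∃ K : ℝ × Mat → Mat →L[ℝ] ℝ, ContDiff ℝ ∞ K ∧
        (∀ P ∈ CP 2, ∀ Y ∈ Tan P, K (0, P) Y = β P Y) ∧
        (∀ P ∈ CP 2, ∀ Y ∈ Tan P, K (1, P) Y = 0) ∧
        ∀ t : ℝ, NondegM (form fun P => K (t, P))) ∧
    ∀ k : ℝ, 5 - 2 * Real.sqrt 6 < k → ∃ β : Mat → Mat →L[ℝ] ℝ, ContDiff ℝ ∞ β ∧
      PinchedM k (form β) ∧ ∃ P ∈ CP 2, ∀ Y ∈ Tan P, ∀ Z ∈ Tan P, form β P Y Z = 0 := by
  refine ⟨ambP, fun k hk => ?_⟩
  have hks := ks_pos
  have hks' := ks_lt
  have hk' : ks < k := hk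
  set m := min k (1 / 2) with hm
  have hm1 : ks < m := lt_min hk' (by linarith)
  have hm2 : m ≤ 1 / 2 := min_le_right _ _
  obtain ⟨lam, h1, h2, h3, h4⟩ := flat_ex (k := (ks + m) / 2) (by linarith) (by linarith)
  obtain ⟨α, h5, h6, h7⟩ := transplant (k' := (ks + m) / 2) (k := m) (by linarith) (by linarith)
    (by linarith) h1 h2 h3 h4
  refine ambZ h5 (fun z u v h => ?_) eW_ON3 h7
  refine (h6 z u v h).trans (mul_le_mul_of_nonneg_right ?_ ?_)
  · exact pow_le_pow_left₀ (by linarith) (min_le_left _ _) 2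
  · exact Finset.sum_nonneg fun _ _ => Finset.sum_nonneg fun _ _ => sq_nonneg _

/-- the pinching condition is monotone in the constant -/
theorem pinchedM_mono {k k' : ℝ} (h0 : 0 ≤ k) (h : k ≤ k') {Ω : Mat → Mat → Mat → ℝ}
    (hp : PinchedM k Ω) : PinchedM k' Ω := fun z u v h3 => by
  refine (hp z u v h3).trans (mul_le_mul_of_nonneg_right ?_ ?_)
  · exact pow_le_pow_left₀ h0 h 2
  · exact Finset.sum_nonneg fun _ _ => Finset.sum_nonneg fun _ _ => sq_nonneg _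

/-- the tangent spaces are not zero -/
theorem exists_tan {P : Mat} (hP : P ∈ CP 2) : ∃ Y ∈ Tan P, Y ≠ 0 := by
  obtain ⟨z, hz1, rfl⟩ := exists_unit hP
  by_contra hcon
  push Not at hcon
  -- every vector orthogonal to `z` is zero
  have h1 : ∀ v : W, hp z v = 0 → v = 0 := by
    intro v hv
    have h2 := hcon _ (tv_mem hz1 hv)
    have h3 : ∀ i j, tv z v i j = 0 := fun i j => by
      rw [h2]
      rfl
    -- apply to `z`
    funext i
    have h4 : ∑ j, tv z v i j * z j = 0 := Finset.sum_eq_zero fun j _ => by rw [h3, zero_mul]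
    have h5 : ∑ j, tv z v i j * z j = v i * hp z z + z i * hp v z := by
      unfold tv hp
      rw [Finset.mul_sum, Finset.mul_sum, ← Finset.sum_add_distrib]
      exact Finset.sum_congr rfl fun j _ => by ring
    have h6 : hp v z = 0 := by
      rw [← hp_star, hv, star_zero]
    rw [h5, h6, mul_zero, add_zero, ← nsq_eq_hp, hz1] at h4
    simpa using h4
  have h7 : z 0 = 0 := by
    have h8 := h1 ![-star (z 1), star (z 0), 0] (by
      unfold hp
      rw [Fin.sum_univ_three]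
      simp
      ring)
    have h9 := congrFun h8 1
    simpa using h9
  have h7' : z 1 = 0 := by
    have h8 := h1 ![-star (z 1), star (z 0), 0] (by
      unfold hp
      rw [Fin.sum_univ_three]
      simp
      ring)
    have h9 := congrFun h8 0
    simpa using h9
  have h8 := h1 ![1, 0, 0] (by
    unfold hp
    rw [Fin.sum_univ_three]
    simp [h7])
  have h9 := congrFun h8 0
  simp at h9

theorem sharp_tfae (k : ℝ) (hk : 0 ≤ k) : List.TFAE [
    k ≤ 5 - 2 * Real.sqrt 6,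
    ∀ β : Mat → Mat →L[ℝ] ℝ, ContDiff ℝ ∞ β → PinchedM k (form β) → NondegM (form β),
    ∀ β : Mat → Mat →L[ℝ] ℝ, ContDiff ℝ ∞ β → PinchedM k (form β) → NondegM (form β) ∧
      ∃ K : ℝ × Mat → Mat →L[ℝ] ℝ, ContDiff ℝ ∞ K ∧
        (∀ P ∈ CP 2, ∀ Y ∈ Tan P, K (0, P) Y = β P Y) ∧
        (∀ P ∈ CP 2, ∀ Y ∈ Tan P, K (1, P) Y = 0) ∧
        ∀ t : ℝ, NondegM (form fun P => K (t, P)),
    ∀ β : Mat → Mat →L[ℝ] ℝ, ContDiff ℝ ∞ β → PinchedM k (form β) →
      ∀ P ∈ CP 2, ∃ Y ∈ Tan P, ∃ Z ∈ Tan P, form β P Y Z ≠ 0] := by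
  tfae_have 1 → 3 := fun h β hβ hp => ambP β hβ (pinchedM_mono hk h hp)
  tfae_have 3 → 2 := fun h β hβ hp => (h β hβ hp).1
  tfae_have 2 → 4 := by
    intro h β hβ hp P hP
    obtain ⟨Y, hY, hY0⟩ := exists_tan hP
    by_contra hcon
    push Not at hcon
    exact hY0 (h β hβ hp P hP Y hY fun Z hZ => hcon Y hY Z hZ)
  tfae_have 4 → 1 := by
    intro h
    by_contra hcon
    push Not at hcon
    obtain ⟨β, hβ, hp, P, hP, h0⟩ := sharp.2 k hcon
    obtain ⟨Y, hY, Z, hZ, hne⟩ := h β hβ hp P hP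
    exact hne (h0 Y hY Z hZ)
  tfae_finish

end Pool.Agent.Lib.Shp
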