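import Pool.Agent.Lib.Pex.Dis

set_option autoImplicit false

/-!
# Averages of connection forms over the unit ball of `ℂ³` (III (a))

`Ay s α z = E α_{z + s |z| Y} ∘ (1 + (s / |z|) Y z*)`, `Y` in the unit ball of `ℂ³` with the density `(1 - |Y|²)⁶`. Connection forms, smooth in
`(s, z)`, `Ay 0 α = α`; for unit `z` and `a`, `b` orthogonal to `z`:
`d(Ay s α)(b, a) = E dα_{z + s Y}(b, a) + 2 Im ⟨b, a⟩ (1 - E α_{z + s Y}(i z))`.
-/

open MeasureTheory Set Metric
open scoped ContDiff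

namespace Pool.Agent.Lib.Shp

open Pool.Agent.P28b04d Pool.Agent.Lib.Psd Pool.Agent.Lib.Pex

/-- The unit ball of `ℂ³`. -/
def BW : Set W := {Y | nsq Y ≤ 1}

/-- The density. -/
noncomputable def wY (Y : W) : ℝ := (1 - nsq Y) ^ 6

/-- Its integral. -/
noncomputable def cY : ℝ := ∫ Y in BW, wY Y

/-- The Hermitian norm. -/
noncomputable def nn (z : W) : ℝ := Real.sqrt (nsq z)

/-- The point. -/
noncomputable def pt (s : ℝ) (Y z : W) : W := z + (s * nn z) • Y

/-- `a ↦ hp z a`. -/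
noncomputable def hpc (z : W) : W →L[ℝ] ℂ :=
  ∑ k, (ContinuousLinearMap.mul ℝ ℂ (star (z k))).comp
    (ContinuousLinearMap.proj (R := ℝ) k : W →L[ℝ] ℂ)

theorem hpc_apply (z a : W) : hpc z a = hp z a := by
  simp [hpc, hp]

/-- The linear map. -/
noncomputable def LY (s : ℝ) (Y z : W) : W →L[ℝ] W :=
  ContinuousLinearMap.id ℝ W + (s / nn z) • (hpc z).smulRight Y

theorem LY_apply (s : ℝ) (Y z a : W) : LY s Y z a = a + (s / nn z) • (hp z a • Y) := by
  simp [LY, hpc_apply]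

/-- The integrand. -/
noncomputable def Py (α : W → W →L[ℝ] ℝ) (q : (ℝ × W) × W) : W →L[ℝ] ℝ :=
  wY q.2 • (α (pt q.1.1 q.2 q.1.2)).comp (LY q.1.1 q.2 q.1.2)

/-- The average. -/
noncomputable def Ay (s : ℝ) (α : W → W →L[ℝ] ℝ) (z : W) : W →L[ℝ] ℝ :=
  cY⁻¹ • ∫ Y in BW, Py α ((s, z), Y)

/-! ### the ball -/

theorem nsq_cont : Continuous (fun z : W => nsq z) := ConnBAux.contDiff_nsq.continuous

theorem BW_closed : IsClosed BW := isClosed_le nsq_cont continuous_const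

theorem norm_le_of_nsq {Y : W} {r : ℝ} (hr : 0 ≤ r) (h : nsq Y ≤ r ^ 2) : ‖Y‖ ≤ r := by
  rw [pi_norm_le_iff_of_nonneg hr]
  intro k
  have h1 : Complex.normSq (Y k) ≤ nsq Y := by
    rw [ConnBAux.nsq_eq]
    exact Finset.single_le_sum (fun _ _ => Complex.normSq_nonneg _) (Finset.mem_univ k)
  have h2 : ‖Y k‖ ^ 2 ≤ r ^ 2 := by
    rw [← Complex.normSq_eq_norm_sq]
    exact h1.trans h
  exact (sq_le_sq₀ (norm_nonneg _) hr).1 h2

theorem nsq_le_norm (Y : W) : nsq Y ≤ 3 * ‖Y‖ ^ 2 := by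
  rw [ConnBAux.nsq_eq]
  have h : ∀ k ∈ (Finset.univ : Finset (Fin 3)), Complex.normSq (Y k) ≤ ‖Y‖ ^ 2 := by
    intro k _
    rw [Complex.normSq_eq_norm_sq]
    exact pow_le_pow_left₀ (norm_nonneg _) (norm_le_pi_norm Y k) 2
  refine (Finset.sum_le_sum h).trans (le_of_eq ?_)
  simp

theorem BW_compact : IsCompact BW := by
  refine (isCompact_closedBall (0 : W) 1).of_isClosed_subset BW_closed fun Y hY => ?_
  rw [mem_closedBall_zero_iff]
  exact norm_le_of_nsq zero_le_one (by rw [one_pow]; exact hY)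

theorem BW_meas : MeasurableSet BW := BW_compact.measurableSet

theorem wY_cont : Continuous wY := (continuous_const.sub nsq_cont).pow 6

theorem wY_smooth : ContDiff ℝ ∞ wY := (contDiff_const.sub ConnBAux.contDiff_nsq).pow 6

theorem nsq_nonneg' (z : W) : 0 ≤ nsq z := by
  rw [ConnBAux.nsq_eq]
  exact Finset.sum_nonneg fun _ _ => Complex.normSq_nonneg _

theorem wY_nonneg {Y : W} (h : Y ∈ BW) : 0 ≤ wY Y := by
  have : nsq Y ≤ 1 := h
  exact pow_nonneg (by linarith) 6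

theorem cY_pos : 0 < cY := by
  unfold cY
  have hi : IntegrableOn wY BW := wY_cont.continuousOn.integrableOn_compact BW_compact
  rw [integral_pos_iff_support_of_nonneg_ae]
  · have h1 : ball (0 : W) (1 / 2) ⊆ Function.support wY := by
      intro Y hY
      rw [mem_ball_zero_iff] at hY
      have h2 := nsq_le_norm Y
      have h3 : nsq Y < 1 := by nlinarith [norm_nonneg Y]
      exact pow_ne_zero 6 (by linarith)
    have h2 : ball (0 : W) (1 / 2) ⊆ BW := by
      intro Y hY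
      rw [mem_ball_zero_iff] at hY
      have h2 := nsq_le_norm Y
      show nsq Y ≤ 1
      nlinarith [norm_nonneg Y]
    have h3 : (volume.restrict BW) (ball (0 : W) (1 / 2)) = volume (ball (0 : W) (1 / 2)) := by
      rw [Measure.restrict_apply measurableSet_ball, inter_eq_left.2 h2]
    refine lt_of_lt_of_le (lt_of_lt_of_eq (measure_ball_pos volume (0 : W) (by norm_num)) h3.symm)
      (measure_mono h1)
  · rw [Filter.EventuallyLE, ae_restrict_iff' BW_meas]
    exact Filter.Eventually.of_forall fun Y hY => wY_nonneg hY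
  · exact hi

/-! ### the point is not zero -/

theorem nn_pos {z : W} (hz : z ≠ 0) : 0 < nn z := Real.sqrt_pos.2 (ConnBAux.nsq_pos hz)

theorem nn_sq (z : W) : nn z ^ 2 = nsq z := Real.sq_sqrt (nsq_nonneg' z)

theorem rsm (c : ℝ) (a : W) : c • a = (c : ℂ) • a := CmpFAux.rsmul c a

theorem nsq_rsmul (c : ℝ) (z : W) : nsq (c • z) = c ^ 2 * nsq z := by
  rw [rsm, ConnBAux.nsq_smul, Complex.normSq_ofReal]
  ring

/-- the domain of the parameters -/
def Ogy : Set (ℝ × W) := Ioo (-(9 / 10)) (9 / 10) ×ˢ {0}ᶜ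

def Ooy : Set W := {Y | nsq Y < 100 / 81}

theorem Ogy_open : IsOpen Ogy := isOpen_Ioo.prod isOpen_compl_singleton

theorem Ooy_open : IsOpen Ooy := isOpen_lt nsq_cont continuous_const

theorem BW_sub : BW ⊆ Ooy := fun Y hY => by
  have h : nsq Y ≤ 1 := hY
  show nsq Y < 100 / 81
  linarith

theorem pt_ne {s : ℝ} (hs : |s| ≤ 9 / 10) {Y : W} (hY : Y ∈ Ooy) {z : W} (hz : z ≠ 0) :
    pt s Y z ≠ 0 := by
  intro h
  have h1 : z = -((s * nn z) • Y) := eq_neg_of_add_eq_zero_left h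
  have h2 : nsq z = (s * nn z) ^ 2 * nsq Y := by
    conv_lhs => rw [h1, ← neg_smul, nsq_rsmul]
    ring
  have h3 : 0 < nsq z := ConnBAux.nsq_pos hz
  rw [mul_pow, nn_sq] at h2
  have h4 : s ^ 2 ≤ 81 / 100 := by
    have := abs_le.1 hs
    nlinarith
  have h5 : nsq Y < 100 / 81 := hY
  have h6 := nsq_nonneg' Y
  have h7 : s ^ 2 * nsq Y < 1 := by nlinarith [sq_nonneg s]
  have h8 : nsq z * (s ^ 2 * nsq Y) < nsq z * 1 := mul_lt_mul_of_pos_left h7 h3
  nlinarith

/-! ### smoothness -/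

theorem nn_smooth : ContDiffOn ℝ ∞ nn {0}ᶜ := by
  unfold nn
  exact ContDiffOn.sqrt ConnBAux.contDiff_nsq.contDiffOn fun z hz => (ConnBAux.nsq_pos hz).ne'

theorem hp_smooth (a : W) : ContDiff ℝ ∞ (fun z : W => hp z a) := by
  unfold hp
  refine ContDiff.sum fun k _ => ?_
  have h1 : ContDiff ℝ ∞ (fun z : W => (starRingEnd ℂ) (z k)) :=
    Complex.conjCLE.contDiff.comp (contDiff_apply ℝ ℂ k)
  exact h1.mul contDiff_const

theorem pt_smooth : ContDiffOn ℝ ∞ (fun q : (ℝ × W) × W => pt q.1.1 q.2 q.1.2)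
    (Ogy ×ˢ (univ : Set W)) := by
  unfold pt
  have h1 : ContDiffOn ℝ ∞ (fun q : (ℝ × W) × W => nn q.1.2) (Ogy ×ˢ (univ : Set W)) :=
    nn_smooth.comp (contDiff_snd.comp contDiff_fst).contDiffOn fun q hq => hq.1.2
  exact (contDiff_snd.comp contDiff_fst).contDiffOn.add
    (((contDiff_fst.comp contDiff_fst).contDiffOn.mul h1).smul contDiff_snd.contDiffOn)

theorem LY_smooth : ContDiffOn ℝ ∞ (fun q : (ℝ × W) × W => LY q.1.1 q.2 q.1.2)
    (Ogy ×ˢ (univ : Set W)) := by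
  rw [contDiffOn_clm_apply]
  intro a
  have h1 : ContDiffOn ℝ ∞ (fun q : (ℝ × W) × W => nn q.1.2) (Ogy ×ˢ (univ : Set W)) :=
    nn_smooth.comp (contDiff_snd.comp contDiff_fst).contDiffOn fun q hq => hq.1.2
  have h2 : ContDiffOn ℝ ∞ (fun q : (ℝ × W) × W => q.1.1 / nn q.1.2)
      (Ogy ×ˢ (univ : Set W)) :=
    (contDiff_fst.comp contDiff_fst).contDiffOn.div h1 fun q hq => (nn_pos hq.1.2).ne'
  have h3 : ContDiffOn ℝ ∞ (fun q : (ℝ × W) × W => hp q.1.2 a) (Ogy ×ˢ (univ : Set W)) :=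
    ((hp_smooth a).comp (contDiff_snd.comp contDiff_fst)).contDiffOn
  have h4 : ContDiffOn ℝ ∞ (fun q : (ℝ × W) × W => a + (q.1.1 / nn q.1.2) • (hp q.1.2 a • q.2))
      (Ogy ×ˢ (univ : Set W)) :=
    contDiffOn_const.add (h2.smul (h3.smul contDiff_snd.contDiffOn))
  exact h4.congr fun q _ => LY_apply _ _ _ _

variable {α : W → W →L[ℝ] ℝ}

theorem Py_smooth (h : Conn α) : ContDiffOn ℝ ∞ (Py α) (Ogy ×ˢ Ooy) := by
  unfold Py
  have h1 : ContDiffOn ℝ ∞ (fun q : (ℝ × W) × W => wY q.2) (Ogy ×ˢ Ooy) :=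
    (wY_smooth.comp contDiff_snd).contDiffOn
  have h2 : ContDiffOn ℝ ∞ (fun q : (ℝ × W) × W => α (pt q.1.1 q.2 q.1.2)) (Ogy ×ˢ Ooy) :=
    h.smooth.comp (pt_smooth.mono (prod_mono subset_rfl (subset_univ _))) (by
      rintro ⟨⟨s, z⟩, Y⟩ ⟨⟨hs, hz⟩, hY⟩
      exact pt_ne (abs_le.2 ⟨hs.1.le, hs.2.le⟩) hY hz)
  exact h1.smul (h2.clm_comp (LY_smooth.mono (prod_mono subset_rfl (subset_univ _))))

theorem Ay_smooth (h : Conn α) : ContDiffOn ℝ ∞ (fun p : ℝ × W => Ay p.1 α p.2) Ogy := by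
  have h1 := Pool.Agent.Lib.P28e.contDiffOn_param (E := ℝ × W) (F := W) volume Ogy_open Ooy_open
    BW_compact BW_sub (Py_smooth h)
  exact (h1.const_smul (cY⁻¹)).congr fun p _ => rfl

theorem slice_cont (h : Conn α) {s : ℝ} (hs : |s| < 9 / 10) {z : W} (hz : z ≠ 0) :
    ContinuousOn (fun Y => Py α ((s, z), Y)) BW :=
  (Py_smooth h).continuousOn.comp (Continuous.prodMk_right (s, z)).continuousOn
    (fun _ hY => ⟨⟨abs_lt.1 hs, hz⟩, BW_sub hY⟩)

theorem Ay_apply (h : Conn α) {s : ℝ} (hs : |s| < 9 / 10) {z : W} (hz : z ≠ 0) (a : W) :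
    Ay s α z a = cY⁻¹ * ∫ Y in BW, wY Y * α (pt s Y z) (LY s Y z a) := by
  have h1 : IntegrableOn (fun Y => Py α ((s, z), Y)) BW :=
    (slice_cont h hs hz).integrableOn_compact BW_compact
  unfold Ay
  rw [smul_apply, ContinuousLinearMap.integral_apply h1, smul_eq_mul]
  rfl

/-! ### invariance of the measure -/

theorem BW_pos : 0 < volume BW := by
  have h2 : ball (0 : W) (1 / 2) ⊆ BW := by
    intro Y hY
    rw [mem_ball_zero_iff] at hY
    have h2 := nsq_le_norm Y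
    show nsq Y ≤ 1
    nlinarith [norm_nonneg Y]
  exact lt_of_lt_of_le (measure_ball_pos volume (0 : W) (by norm_num)) (measure_mono h2)

theorem BW_fin : volume BW ≠ ⊤ := BW_compact.measure_lt_top.ne

theorem int_inv (f : W →ₗ[ℝ] W) (hf : ∀ Y, nsq (f Y) = nsq Y) (F : W → ℝ) :
    ∫ Y in BW, F (f Y) = ∫ Y in BW, F Y := by
  have hpre : f ⁻¹' BW = BW := by
    ext Y
    show nsq (f Y) ≤ 1 ↔ nsq Y ≤ 1
    rw [hf]
  have hinj : Function.Injective f := by
    rw [← LinearMap.ker_eq_bot, LinearMap.ker_eq_bot']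
    intro Y hY
    by_contra h
    have h1 := ConnBAux.nsq_pos h
    rw [← hf Y, hY] at h1
    have h2 : nsq (0 : W) = 0 := by simp [ConnBAux.nsq_eq]
    linarith
  have hdet : LinearMap.det f ≠ 0 := by
    have h1 := (LinearEquiv.ofInjectiveEndo f hinj).isUnit_det'
    have e : ((LinearEquiv.ofInjectiveEndo f hinj : W ≃ₗ[ℝ] W) : W →ₗ[ℝ] W) = f :=
      LinearMap.ext fun _ => rfl
    rw [e] at h1
    exact h1.ne_zero
  have h2 := Measure.addHaar_preimage_linearMap (volume : Measure W) hdet BW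
  rw [hpre] at h2
  have h3 : ENNReal.ofReal |(LinearMap.det f)⁻¹| = 1 := by
    have h4 : 1 * volume BW = ENNReal.ofReal |(LinearMap.det f)⁻¹| * volume BW := by
      rw [one_mul]
      exact h2
    exact ((ENNReal.mul_left_inj BW_pos.ne' BW_fin).1 h4).symm
  have hmp : MeasurePreserving f (volume : Measure W) volume := by
    refine ⟨(LinearMap.continuous_of_finiteDimensional f).measurable, ?_⟩
    rw [Measure.map_linearMap_addHaar_eq_smul_addHaar (volume : Measure W) hdet, h3, one_smul]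
  have hemb : MeasurableEmbedding f :=
    (LinearEquiv.ofInjectiveEndo f hinj).toContinuousLinearEquiv.toHomeomorph.measurableEmbedding
  have h5 := hmp.setIntegral_preimage_emb hemb F BW
  rwa [hpre] at h5

/-- multiplication by a complex number -/
noncomputable def mulC (c : ℂ) : W →ₗ[ℝ] W where
  toFun Y := c • Y
  map_add' := smul_add c
  map_smul' r Y := smul_comm c r Y

theorem int_rot {c : ℂ} (hc : ‖c‖ = 1) (F : W → ℝ) :
    ∫ Y in BW, F (c • Y) = ∫ Y in BW, F Y := by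
  refine int_inv (mulC c) (fun Y => ?_) F
  show nsq (c • Y) = nsq Y
  rw [ConnBAux.nsq_smul, Complex.normSq_eq_norm_sq, hc]
  ring

theorem wY_rot {c : ℂ} (hc : ‖c‖ = 1) (Y : W) : wY (c • Y) = wY Y := by
  unfold wY
  rw [ConnBAux.nsq_smul, Complex.normSq_eq_norm_sq, hc]
  ring

/-! ### connection forms -/

theorem nn_smul (c : ℂ) (z : W) : nn (c • z) = ‖c‖ * nn z := by
  unfold nn
  rw [ConnBAux.nsq_smul, Complex.normSq_eq_norm_sq, Real.sqrt_mul (sq_nonneg _),
    Real.sqrt_sq (norm_nonneg _)]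

theorem pt_smul (s : ℝ) {c : ℂ} (hc : c ≠ 0) (Y z : W) :
    pt s Y (c • z) = c • pt s (((‖c‖ : ℂ) / c) • Y) z := by
  unfold pt
  rw [nn_smul, smul_add, smul_comm c (s * nn z), smul_smul c, mul_div_cancel₀ _ hc,
    ← rsm ‖c‖ Y, smul_smul]
  congr 2
  ring

theorem LY_smul (s : ℝ) {c : ℂ} (hc : c ≠ 0) (Y z a : W) (hz : z ≠ 0) :
    LY s Y (c • z) (c • a) = c • LY s (((‖c‖ : ℂ) / c) • Y) z a := by
  have hn : 0 < ‖c‖ := norm_pos_iff.2 hc
  have hnz := nn_pos hz
  rw [LY_apply, LY_apply, nn_smul, ConnBAux.hp_smul_smul, smul_add, Complex.normSq_eq_norm_sq,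
    rsm (s / (‖c‖ * nn z)), rsm (s / nn z)]
  simp only [smul_smul]
  congr 2
  have hn' : (‖c‖ : ℂ) ≠ 0 := by exact_mod_cast hn.ne'
  have hnz' : (nn z : ℂ) ≠ 0 := by exact_mod_cast hnz.ne'
  push_cast
  field_simp

theorem LY_self (s : ℝ) (Y z : W) (hz : z ≠ 0) : LY s Y z z = pt s Y z := by
  have hnz := nn_pos hz
  rw [LY_apply, pt, ConnBAux.hp_self, ← nn_sq, ← rsm, smul_smul]
  congr 2
  field_simp

theorem LY_I (s : ℝ) (Y z : W) (hz : z ≠ 0) :
    LY s Y z (Complex.I • z) = Complex.I • pt s Y z := by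
  have h : ∀ c : ℂ, LY s Y z (c • z) = c • LY s Y z z := by
    intro c
    rw [LY_apply, LY_apply, smul_add, ConnBAux.hp_smul_right, smul_comm c (s / nn z), smul_smul c]
  rw [h, LY_self s Y z hz]

theorem Ay_conn (h : Conn α) {s : ℝ} (hs : |s| < 9 / 10) : Conn (Ay s α) := by
  have hne : ∀ {Y z : W}, Y ∈ BW → z ≠ 0 → pt s Y z ≠ 0 := fun hY hz =>
    pt_ne hs.le (BW_sub hY) hz
  have hw : ∀ z : W, z ≠ 0 → ∀ a : W, ∀ r : ℝ, (∀ Y ∈ BW, α (pt s Y z) (LY s Y z a) = r) →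
      Ay s α z a = r := by
    intro z hz a r hr
    rw [Ay_apply h hs hz]
    have e : ∫ Y in BW, wY Y * α (pt s Y z) (LY s Y z a) = ∫ Y in BW, wY Y * r :=
      setIntegral_congr_fun BW_meas fun Y hY => by
        show wY Y * α (pt s Y z) (LY s Y z a) = wY Y * r
        rw [hr Y hY]
    rw [e, integral_mul_const, ← mul_assoc]
    have : cY⁻¹ * ∫ Y in BW, wY Y = 1 := inv_mul_cancel₀ cY_pos.ne'
    rw [this, one_mul]
  refine ⟨?_, ?_, ?_, ?_⟩
  · exact (Ay_smooth h).comp (g := fun p : ℝ × W => Ay p.1 α p.2) (f := fun z : W => (s, z))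
      (s := {0}ᶜ) (contDiff_const.prodMk contDiff_id).contDiffOn
      (fun z hz => ⟨abs_lt.1 hs, hz⟩)
  · intro c hc z hz a
    rw [Ay_apply h hs hz, Ay_apply h hs (smul_ne_zero hc hz)]
    congr 1
    set κ : ℂ := (‖c‖ : ℂ) / c with hκ
    have hκ1 : ‖κ‖ = 1 := by
      rw [hκ, norm_div, Complex.norm_real, norm_norm, div_self (norm_pos_iff.2 hc).ne']
    rw [← int_rot hκ1 fun Y => wY Y * α (pt s Y z) (LY s Y z a)]
    refine setIntegral_congr_fun BW_meas fun Y hY => ?_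
    show wY Y * α (pt s Y (c • z)) (LY s Y (c • z) (c • a)) =
      wY (κ • Y) * α (pt s (κ • Y) z) (LY s (κ • Y) z a)
    have hκY : κ • Y ∈ BW := by
      show nsq (κ • Y) ≤ 1
      rw [ConnBAux.nsq_smul, Complex.normSq_eq_norm_sq, hκ1]
      have : nsq Y ≤ 1 := hY
      linarith
    rw [wY_rot hκ1, pt_smul s hc, LY_smul s hc Y z a hz, ← hκ, h.hom c hc _ (hne hκY hz)]
  · intro z hz
    exact hw z hz z 0 fun Y hY => by
      rw [LY_self s Y z hz]
      exact h.rad _ (hne hY hz)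
  · intro z hz
    exact hw z hz _ 1 fun Y hY => by
      rw [LY_I s Y z hz]
      exact h.rot _ (hne hY hz)

theorem Ay_zero (h : Conn α) {z : W} (hz : z ≠ 0) : Ay 0 α z = α z := by
  ext a
  rw [Ay_apply h (by norm_num) hz]
  have e : ∫ Y in BW, wY Y * α (pt 0 Y z) (LY 0 Y z a) = ∫ Y in BW, wY Y * α z a :=
    setIntegral_congr_fun BW_meas fun Y hY => by
      show wY Y * α (pt 0 Y z) (LY 0 Y z a) = wY Y * α z a
      rw [LY_apply, pt]
      simp
  rw [e, integral_mul_const, ← mul_assoc]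
  have : cY⁻¹ * ∫ Y in BW, wY Y = 1 := inv_mul_cancel₀ cY_pos.ne'
  rw [this, one_mul]

/-! ### the curvature -/

theorem nsq_line {z b : W} (hz : nsq z = 1) (hb : hp z b = 0) (t : ℝ) :
    nsq (z + t • b) = 1 + t ^ 2 * nsq b := by
  have h1 : ((nsq (z + t • b) : ℝ) : ℂ) = ((1 + t ^ 2 * nsq b : ℝ) : ℂ) := by
    have hb' : hp b z = 0 := by rw [← hp_star, hb, star_zero]
    rw [← ConnBAux.hp_self, rsm, FrameGAux.hp_add_left, FrameGAux.hp_smul_left, hp_add_right,
      hp_add_right, ConnBAux.hp_smul_right, ConnBAux.hp_smul_right, hb, hb', ConnBAux.hp_self,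
      ConnBAux.hp_self, hz]
    simp
    ring
  exact_mod_cast h1

theorem nn_line {z b : W} (hz : nsq z = 1) (hb : hp z b = 0) :
    HasDerivAt (fun t : ℝ => nn (z + t • b)) 0 0 := by
  have h1 : HasDerivAt (fun t : ℝ => 1 + t ^ 2 * nsq b) 0 0 := by
    have h := ((hasDerivAt_pow 2 (0 : ℝ)).mul_const (nsq b)).const_add 1
    simpa using h
  have h2 := h1.sqrt (by norm_num)
  have h3 : (fun t : ℝ => nn (z + t • b)) = fun t : ℝ => Real.sqrt (1 + t ^ 2 * nsq b) := by
    funext t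
    unfold nn
    rw [nsq_line hz hb]
  rw [h3]
  simpa using h2

theorem hp_line {z b a : W} (ha : hp z a = 0) (t : ℝ) : hp (z + t • b) a = (t : ℂ) * hp b a := by
  rw [rsm, FrameGAux.hp_add_left, FrameGAux.hp_smul_left, ha]
  simp

theorem nn_one {z : W} (hz : nsq z = 1) : nn z = 1 := by
  unfold nn
  rw [hz, Real.sqrt_one]

theorem ne_one {z : W} (hz : nsq z = 1) : z ≠ 0 := by
  intro h
  rw [h] at hz
  have h2 : nsq (0 : W) = 0 := by simp [ConnBAux.nsq_eq]
  linarith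

theorem pt_line {z b : W} (hz : nsq z = 1) (hb : hp z b = 0) (s : ℝ) (Y : W) :
    HasDerivAt (fun t : ℝ => pt s Y (z + t • b)) b 0 := by
  have h1 := (ConnBAux.curve z b).add
    (((nn_line hz hb).const_mul s).smul_const Y)
  rw [mul_zero, zero_smul, add_zero] at h1
  exact h1

theorem LY_line {z b a : W} (hz : nsq z = 1) (hb : hp z b = 0) (ha : hp z a = 0) (s : ℝ) (Y : W) :
    HasDerivAt (fun t : ℝ => LY s Y (z + t • b) a) (s • (hp b a • Y)) 0 := by
  have hn : ∀ t : ℝ, nn (z + t • b) ≠ 0 := by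
    intro t
    unfold nn
    rw [nsq_line hz hb]
    have : 0 < 1 + t ^ 2 * nsq b := by
      have := nsq_nonneg' b
      positivity
    exact (Real.sqrt_pos.2 this).ne'
  have h1 : HasDerivAt (fun t : ℝ => s * t / nn (z + t • b)) s 0 := by
    have h2 := ((hasDerivAt_id (0 : ℝ)).const_mul s).div (nn_line hz hb) (hn 0)
    have e : nn (z + (0 : ℝ) • b) = 1 := by
      rw [zero_smul, add_zero, nn_one hz]
    rw [e] at h2
    have e2 : ((s * 1) * 1 - s * (id (0 : ℝ)) * 0) / 1 ^ 2 = s := by simp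
    exact h2.congr_deriv e2
  have h2 : (fun t : ℝ => LY s Y (z + t • b) a) =
      fun t : ℝ => a + (s * t / nn (z + t • b)) • (hp b a • Y) := by
    funext t
    rw [LY_apply, hp_line ha, mul_smul, ← rsm, smul_smul]
    congr 2
    ring
  rw [h2]
  exact (h1.smul_const _).const_add a

theorem Py_smooth' (h : Conn α) {s : ℝ} (hs : |s| < 9 / 10) :
    ContDiffOn ℝ ∞ (fun p : W × W => Py α ((s, p.1), p.2)) (({0}ᶜ : Set W) ×ˢ Ooy) := by
  refine (Py_smooth h).comp (f := fun p : W × W => (((s, p.1), p.2) : (ℝ × W) × W))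
    (((contDiff_const.prodMk contDiff_fst).prodMk contDiff_snd).contDiffOn) ?_
  rintro ⟨z, p⟩ ⟨hz, hp⟩
  exact ⟨⟨abs_lt.1 hs, hz⟩, hp⟩

/-- derivative of the integrand -/
theorem fd_Py (h : Conn α) {s : ℝ} (hs : |s| < 9 / 10) {z b a : W} (hz : nsq z = 1)
    (hb : hp z b = 0) (ha : hp z a = 0) {Y : W} (hY : Y ∈ BW) :
    (fderiv ℝ (fun z' => Py α ((s, z'), Y)) z b) a =
      wY Y * (fderiv ℝ α (z + s • Y) b a + α (z + s • Y) (s • (hp b a • Y))) := by
  have hz0 := ne_one hz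
  have hpt : pt s Y z = z + s • Y := by
    unfold pt
    rw [nn_one hz, mul_one]
  have hp0 : pt s Y z ≠ 0 := pt_ne hs.le (BW_sub hY) hz0
  have hd : DifferentiableAt ℝ (fun z' => Py α ((s, z'), Y)) z := by
    have h1 : ContDiffOn ℝ ∞ (fun z' : W => Py α ((s, z'), Y)) ({0}ᶜ : Set W) :=
      (Py_smooth' h hs).comp (f := fun z' : W => (z', Y))
        (contDiff_id.prodMk contDiff_const).contDiffOn fun z' hz' => ⟨hz', BW_sub hY⟩
    exact (h1.differentiableOn (by simp)).differentiableAt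
      (isOpen_compl_singleton.mem_nhds (show z ∈ ({0}ᶜ : Set W) from hz0))
  have e0 : z + (0 : ℝ) • b = z := by rw [zero_smul, add_zero]
  have h1 : HasDerivAt (fun t : ℝ => Py α ((s, z + t • b), Y) a)
      ((fderiv ℝ (fun z' => Py α ((s, z'), Y)) z b) a) 0 := by
    have h2 : HasFDerivAt (fun z' => Py α ((s, z'), Y))
        (fderiv ℝ (fun z' => Py α ((s, z'), Y)) z) (z + (0 : ℝ) • b) := by
      rw [e0]
      exact hd.hasFDerivAt
    have h3 := h2.comp_hasDerivAt (0 : ℝ) (ConnBAux.curve z b)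
    have h4 := h3.clm_apply (hasDerivAt_const (0 : ℝ) a)
    simpa using h4
  have h2 := ConnBAux.deriv_curve h.smooth hp0 (γ := fun t => pt s Y (z + t • b))
    (δ := fun t => LY s Y (z + t • b) a) (v := b) (w := a) (w' := s • (hp b a • Y))
    (pt_line hz hb s Y) (by rw [e0]) (LY_line hz hb ha s Y) (by
      rw [e0, LY_apply, ha, zero_smul, smul_zero, add_zero])
  have h3 : HasDerivAt (fun t : ℝ => Py α ((s, z + t • b), Y) a)
      (wY Y * (fderiv ℝ α (pt s Y z) b a + α (pt s Y z) (s • (hp b a • Y)))) 0 :=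
    h2.const_mul (wY Y)
  rw [h1.unique h3, hpt]

theorem fd_Ay (h : Conn α) {s : ℝ} (hs : |s| < 9 / 10) {z b a : W} (hz : nsq z = 1)
    (hb : hp z b = 0) (ha : hp z a = 0) :
    IntegrableOn (fun Y => wY Y * (fderiv ℝ α (z + s • Y) b a +
      α (z + s • Y) (s • (hp b a • Y)))) BW ∧
    fderiv ℝ (Ay s α) z b a = cY⁻¹ * ∫ Y in BW, wY Y * (fderiv ℝ α (z + s • Y) b a +
      α (z + s • Y) (s • (hp b a • Y))) := by
  have hz0 := ne_one hz
  obtain ⟨h1, h2⟩ := AvCAux.fderiv_param (volume : Measure W) (isOpen_compl_singleton)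
    Ooy_open BW_compact BW_sub (Py_smooth' h hs) hz0 b
  have h3 : IntegrableOn (fun Y => wY Y * (fderiv ℝ α (z + s • Y) b a +
      α (z + s • Y) (s • (hp b a • Y)))) BW :=
    IntegrableOn.congr_fun (f := fun Y => (fderiv ℝ (fun z' => Py α ((s, z'), Y)) z b) a)
      (h1.apply_continuousLinearMap a) (fun Y hY => fd_Py h hs hz hb ha hY) BW_meas
  refine ⟨h3, ?_⟩
  have hd : DifferentiableAt ℝ (fun z' => ∫ Y in BW, Py α ((s, z'), Y)) z := by
    have h5 := Pool.Agent.Lib.P28e.contDiffOn_param (E := W) (F := W) volume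
      isOpen_compl_singleton Ooy_open BW_compact BW_sub (Py_smooth' h hs)
    exact (h5.differentiableOn (by simp)).differentiableAt
      (isOpen_compl_singleton.mem_nhds (show z ∈ ({0}ᶜ : Set W) from hz0))
  have h4 : (Ay s α) = fun z' => cY⁻¹ • ∫ Y in BW, Py α ((s, z'), Y) := rfl
  rw [h4, fderiv_fun_const_smul hd, smul_apply, smul_apply, smul_eq_mul]
  congr 1
  have h2' : fderiv ℝ (fun z' => ∫ Y in BW, Py α ((s, z'), Y)) z b =
    ∫ Y in BW, fderiv ℝ (fun z' => Py α ((s, z'), Y)) z b := h2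
  rw [h2', ContinuousLinearMap.integral_apply h1]
  exact setIntegral_congr_fun BW_meas fun Y hY => fd_Py h hs hz hb ha hY

/-- **The curvature of the average.** -/
theorem dd_Ay (h : Conn α) {s : ℝ} (hs : |s| < 9 / 10) {z b a : W} (hz : nsq z = 1)
    (hb : hp z b = 0) (ha : hp z a = 0) :
    dd (Ay s α) z b a = cY⁻¹ * (∫ Y in BW, wY Y * dd α (z + s • Y) b a) +
      2 * (hp b a).im * (1 - cY⁻¹ * ∫ Y in BW, wY Y * α (z + s • Y) (Complex.I • z)) := by
  obtain ⟨i1, e1⟩ := fd_Ay h hs hz hb ha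
  obtain ⟨i2, e2⟩ := fd_Ay h hs hz ha hb
  have hz0 := ne_one hz
  have hne : ∀ Y ∈ BW, z + s • Y ≠ 0 := by
    intro Y hY
    have := pt_ne hs.le (BW_sub hY) hz0
    rwa [pt, nn_one hz, mul_one] at this
  have hcp : ContinuousOn (fun Y : W => z + s • Y) BW := by fun_prop
  have hmaps : MapsTo (fun Y : W => z + s • Y) BW ({0}ᶜ : Set W) := fun Y hY => hne Y hY
  have j1 : IntegrableOn (fun Y => wY Y * dd α (z + s • Y) b a) BW :=
    (wY_cont.continuousOn.mul ((dd_continuousOn h.smooth b a).comp hcp hmaps)).integrableOn_compact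
      BW_compact
  have j2 : IntegrableOn (fun Y => wY Y * α (z + s • Y) (Complex.I • z)) BW :=
    (wY_cont.continuousOn.mul ((h.smooth.continuousOn.comp hcp hmaps).clm_apply
      continuousOn_const)).integrableOn_compact BW_compact
  have j3 : IntegrableOn wY BW := wY_cont.continuousOn.integrableOn_compact BW_compact
  have hkey : ∀ Y ∈ BW, wY Y * (fderiv ℝ α (z + s • Y) b a + α (z + s • Y) (s • (hp b a • Y))) -
      wY Y * (fderiv ℝ α (z + s • Y) a b + α (z + s • Y) (s • (hp a b • Y))) =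
      wY Y * dd α (z + s • Y) b a + 2 * (hp b a).im * (wY Y -
        wY Y * α (z + s • Y) (Complex.I • z)) := by
    intro Y hY
    have hp0 := hne Y hY
    have e3 : s • (hp b a • Y) - s • (hp a b • Y) =
        (2 * (hp b a).im) • (Complex.I • (z + s • Y) - Complex.I • z) := by
      have e4 : hp a b = star (hp b a) := (hp_star b a).symm
      have e5 : hp b a - star (hp b a) = ((2 * (hp b a).im : ℝ) : ℂ) * Complex.I := by
        rw [Complex.star_def, Complex.sub_conj]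
      rw [← smul_sub, ← sub_smul, e4, e5, ← smul_sub, add_sub_cancel_left, rsm (2 * (hp b a).im),
        rsm s, rsm s, smul_smul, smul_smul, smul_smul]
      congr 1
      ring
    have e6 : α (z + s • Y) (s • (hp b a • Y)) - α (z + s • Y) (s • (hp a b • Y)) =
        2 * (hp b a).im * (1 - α (z + s • Y) (Complex.I • z)) := by
      rw [← map_sub, e3, map_smul, map_sub, h.rot _ hp0, smul_eq_mul]
    unfold dd
    linear_combination wY Y * e6
  have e7 : dd (Ay s α) z b a = cY⁻¹ * ∫ Y in BW, (wY Y * dd α (z + s • Y) b a +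
      2 * (hp b a).im * (wY Y - wY Y * α (z + s • Y) (Complex.I • z))) := by
    rw [← setIntegral_congr_fun BW_meas hkey, integral_sub i1 i2]
    show fderiv ℝ (Ay s α) z b a - fderiv ℝ (Ay s α) z a b = _
    rw [e1, e2]
    ring
  have j4 : IntegrableOn (fun Y => 2 * (hp b a).im * (wY Y -
      wY Y * α (z + s • Y) (Complex.I • z))) BW := (j3.sub j2).const_mul _
  rw [e7, integral_add j1 j4, integral_const_mul, integral_sub j3 j2]
  have e8 : cY⁻¹ * ∫ Y in BW, wY Y = 1 := inv_mul_cancel₀ cY_pos.ne'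
  linear_combination 2 * (hp b a).im * e8

end Pool.Agent.Lib.Shp
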