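import Pool.Agent.Lib.Shp.Def

set_option autoImplicit false

/-!
# The energy of the average (III (d), one-variable part)

`th' = y e`, integration by parts in `t` against `-KK'_t = 7 (1-t)⁶ (1-σt) + 2σ (1-t)⁷ ≤ 7 (1-t)⁶ (1 + 2σ/7)`, and
`th (σt) ≤ 4 σ² t² |S|²`. Also the mass `72 ∫ t KK = 1 - σ/10`.
-/

open Set MeasureTheory

namespace Pool.Agent.Lib.Shp

variable {q : ℝ} {S D : Fin 3 → ℝ → ℝ} {th e : ℝ → ℝ}

theorem int_poly {n : ℕ} (c : Fin n → ℝ) :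
    ∫ t in (0 : ℝ)..1, ∑ i, c i * t ^ (i : ℕ) = ∑ i, c i / ((i : ℕ) + 1) := by
  rw [intervalIntegral.integral_finsetSum]
  · refine Finset.sum_congr rfl fun i _ => ?_
    rw [intervalIntegral.integral_const_mul, integral_pow]
    rw [one_pow, zero_pow (by omega)]
    ring
  · intro i _
    exact Continuous.intervalIntegrable (by fun_prop) _ _

theorem mem_sc {σ t : ℝ} (h0 : 0 < σ) (h1 : σ ≤ 2 / 3) (ht : t ∈ Icc (0 : ℝ) 1) :
    σ * t ∈ Icc (0 : ℝ) (2 / 3) :=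
  ⟨mul_nonneg h0.le ht.1, by nlinarith [ht.1, ht.2]⟩

theorem mem_sc' {σ t : ℝ} (h0 : 0 < σ) (h1 : σ ≤ 2 / 3) (ht : t ∈ Ioc (0 : ℝ) 1) :
    σ * t ∈ Ioc (0 : ℝ) (2 / 3) :=
  ⟨mul_pos h0 ht.1, by nlinarith [ht.1, ht.2]⟩

theorem comp_cont {f : ℝ → ℝ} (hf : ContinuousOn f (Icc 0 (2 / 3))) {σ : ℝ} (h0 : 0 < σ)
    (h1 : σ ≤ 2 / 3) : ContinuousOn (fun t => f (σ * t)) (Icc 0 1) :=
  hf.comp (by fun_prop) fun _ ht => mem_sc h0 h1 ht

theorem ii_of {f : ℝ → ℝ} (hf : ContinuousOn f (Icc 0 1)) :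
    IntervalIntegrable f volume 0 1 := by
  refine ContinuousOn.intervalIntegrable ?_
  rwa [uIcc_of_le zero_le_one]

theorem sumS_cont (h : RY q S D th e) {σ : ℝ} (h0 : 0 < σ) (h1 : σ ≤ 2 / 3) :
    ContinuousOn (fun t => ∑ i, S i (σ * t) ^ 2) (Icc 0 1) :=
  continuousOn_finsetSum _ fun i _ => (comp_cont (h.Sc i) h0 h1).pow 2

theorem kap_cont : Continuous kap := by
  unfold kap
  fun_prop

theorem KK_cont (σ : ℝ) : Continuous (KK σ) := by
  unfold KK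
  fun_prop

theorem kap_nonneg (t : ℝ) : 0 ≤ kap t := by
  unfold kap
  positivity

/-- integration by parts against a power of `1 - t` -/
theorem KK_deriv (σ t : ℝ) : HasDerivAt (KK σ)
    (-((1 - t) ^ 6 * (7 * (1 - σ * t) + 2 * σ * (1 - t)))) t := by
  have h1 : HasDerivAt (fun t : ℝ => 1 - σ * t) (-σ) t := by
    simpa using ((hasDerivAt_id t).const_mul σ).const_sub 1
  have h2 : HasDerivAt (fun t : ℝ => 1 - t) (-1) t := by
    simpa using (hasDerivAt_id t).const_sub 1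
  have h3 := (h1.mul (h2.pow 7)).add ((h2.pow 8).const_mul (σ / 8))
  refine HasDerivAt.congr_deriv (f := KK σ) h3 ?_
  simp only [Nat.cast_ofNat, Nat.add_one_sub_one, Pi.pow_apply]
  ring

theorem th_deriv (h : RY q S D th e) {σ : ℝ} (h0 : 0 < σ) (h1 : σ ≤ 2 / 3) {t : ℝ}
    (ht : t ∈ Ioc (0 : ℝ) 1) : HasDerivAt (fun t => th (σ * t)) (σ ^ 2 * (t * e (σ * t))) t := by
  have h2 : HasDerivAt (fun t : ℝ => σ * t) σ t := by
    simpa using (hasDerivAt_id t).const_mul σ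
  have h3 := (h.thd (σ * t) (mem_sc' h0 h1 ht)).comp t h2
  refine HasDerivAt.congr_deriv (f := fun t => th (σ * t)) h3 ?_
  ring

/-- integration by parts -/
theorem parts (h : RY q S D th e) {σ : ℝ} (h0 : 0 < σ) (h1 : σ ≤ 2 / 3) {K K' : ℝ → ℝ}
    (hK : ∀ t, HasDerivAt K (-K' t) t) (hK' : Continuous K') (hK1 : K 1 = 0) :
    σ ^ 2 * ∫ t in (0 : ℝ)..1, t * K t * e (σ * t) = ∫ t in (0 : ℝ)..1, K' t * th (σ * t) := by
  have hKc : Continuous K := continuous_iff_continuousAt.2 fun t => (hK t).continuousAt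
  have c1 := comp_cont h.thc h0 h1
  have c2 := comp_cont h.ec h0 h1
  have d1 : ContinuousOn (fun t => K' t * th (σ * t)) (Icc 0 1) := hK'.continuousOn.mul c1
  have d2 : ContinuousOn (fun t => t * K t * e (σ * t)) (Icc 0 1) :=
    (continuousOn_id.mul hKc.continuousOn).mul c2
  have h2 := intervalIntegral.integral_eq_sub_of_hasDerivAt_of_le (a := 0) (b := 1)
    (f := fun t => K t * th (σ * t))
    (f' := fun t => σ ^ 2 * (t * K t * e (σ * t)) - K' t * th (σ * t)) zero_le_one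
    (hKc.continuousOn.mul c1) (fun t ht => by
      refine ((hK t).mul (th_deriv h h0 h1 ⟨ht.1, ht.2.le⟩)).congr_deriv ?_
      ring) (((ii_of d2).const_mul _).sub (ii_of d1))
  rw [intervalIntegral.integral_sub ((ii_of d2).const_mul _) (ii_of d1),
    intervalIntegral.integral_const_mul] at h2
  simp only [hK1, zero_mul, mul_zero, h.th0, sub_zero] at h2
  linarith

/-- comparison with the mean square -/
theorem th_int_le (h : RY q S D th e) {σ : ℝ} (h0 : 0 < σ) (h1 : σ ≤ 2 / 3) {c : ℝ}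
    {K' : ℝ → ℝ} (hK' : Continuous K') (hc : 0 ≤ c)
    (hb : ∀ t ∈ Icc (0 : ℝ) 1, K' t ≤ c * (1 - t) ^ 6) :
    ∫ t in (0 : ℝ)..1, K' t * th (σ * t) ≤ c * σ ^ 2 / 63 * N2 S σ := by
  have e1 : c * σ ^ 2 / 63 * N2 S σ =
      ∫ t in (0 : ℝ)..1, c * σ ^ 2 / 63 * (kap t * ∑ i, S i (σ * t) ^ 2) := by
    rw [intervalIntegral.integral_const_mul]
    rfl
  have c1 := comp_cont h.thc h0 h1
  have d1 : ContinuousOn (fun t => K' t * th (σ * t)) (Icc 0 1) := hK'.continuousOn.mul c1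
  have d2 : ContinuousOn (fun t => kap t * ∑ i, S i (σ * t) ^ 2) (Icc 0 1) :=
    kap_cont.continuousOn.mul (sumS_cont h h0 h1)
  rw [e1]
  refine intervalIntegral.integral_mono_on zero_le_one (ii_of d1) ((ii_of d2).const_mul _)
    fun t ht => ?_
  have hth0 : 0 ≤ th (σ * t) ∧ th (σ * t) ≤ 4 * (σ * t) ^ 2 * ∑ i, S i (σ * t) ^ 2 := by
    rcases eq_or_lt_of_le ht.1 with h2 | h2
    · rw [← h2, mul_zero, h.th0]
      simp
    · exact ⟨h.thn _ (mem_sc' h0 h1 ⟨h2, ht.2⟩), (h.bar _ (mem_sc' h0 h1 ⟨h2, ht.2⟩)).le⟩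
  have h3 : 0 ≤ (1 - t) ^ 6 := by positivity
  calc K' t * th (σ * t) ≤ (c * (1 - t) ^ 6) * th (σ * t) :=
        mul_le_mul_of_nonneg_right (hb t ht) hth0.1
    _ ≤ (c * (1 - t) ^ 6) * (4 * (σ * t) ^ 2 * ∑ i, S i (σ * t) ^ 2) :=
        mul_le_mul_of_nonneg_left hth0.2 (by positivity)
    _ = _ := by
        unfold kap
        ring

theorem EK_le (h : RY q S D th e) {σ : ℝ} (h0 : 0 < σ) (h1 : σ ≤ 2 / 3) :
    EK e σ ≤ 8 * (1 + 2 * σ / 7) * N2 S σ := by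
  have h2 := parts h h0 h1 (K := KK σ)
    (K' := fun t => (1 - t) ^ 6 * (7 * (1 - σ * t) + 2 * σ * (1 - t))) (KK_deriv σ)
    (by fun_prop) (by unfold KK; ring)
  have h3 := th_int_le h h0 h1 (c := 7 * (1 + 2 * σ / 7))
    (K' := fun t => (1 - t) ^ 6 * (7 * (1 - σ * t) + 2 * σ * (1 - t))) (by fun_prop)
    (by positivity) (fun t ht => by
      have h4 : 0 ≤ (1 - t) ^ 6 := by positivity
      have h5 : 7 * (1 - σ * t) + 2 * σ * (1 - t) ≤ 7 * (1 + 2 * σ / 7) := by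
        have := mul_nonneg h0.le ht.1
        linarith
      calc _ ≤ (1 - t) ^ 6 * (7 * (1 + 2 * σ / 7)) := mul_le_mul_of_nonneg_left h5 h4
        _ = _ := by ring)
  rw [← h2] at h3
  have h4 : 0 < σ ^ 2 := by positivity
  have h5 : ∫ t in (0 : ℝ)..1, t * KK σ t * e (σ * t) ≤ (1 + 2 * σ / 7) / 9 * N2 S σ := by
    have h6 : σ ^ 2 * ∫ t in (0 : ℝ)..1, t * KK σ t * e (σ * t) ≤
        σ ^ 2 * ((1 + 2 * σ / 7) / 9 * N2 S σ) := by
      refine h3.trans (le_of_eq ?_)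
      ring
    exact le_of_mul_le_mul_left h6 h4
  unfold EK
  linarith

theorem KK_mass (σ : ℝ) : 72 * ∫ t in (0 : ℝ)..1, t * KK σ t = 1 - σ / 10 := by
  have e1 : (fun t : ℝ => t * KK σ t) = fun t => ∑ i : Fin 10,
      (![0, 1 + σ / 8, -7 - σ - σ, 21 + 7 * σ + 28 * (σ / 8), -35 - 21 * σ - 56 * (σ / 8),
        35 + 35 * σ + 70 * (σ / 8), -21 - 35 * σ - 56 * (σ / 8), 7 + 21 * σ + 28 * (σ / 8),
        -1 - 7 * σ - 8 * (σ / 8), σ + σ / 8] : Fin 10 → ℝ) i * t ^ (i : ℕ) := by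
    funext t
    simp only [Fin.sum_univ_succ, Matrix.cons_val_zero, Matrix.cons_val_succ, Fin.val_zero,
      Fin.val_succ, Finset.univ_eq_empty, Finset.sum_empty]
    unfold KK
    ring
  rw [e1, int_poly]
  simp only [Fin.sum_univ_succ, Matrix.cons_val_zero, Matrix.cons_val_succ, Fin.val_zero,
    Fin.val_succ, Finset.univ_eq_empty, Finset.sum_empty]
  push_cast
  ring

end Pool.Agent.Lib.Shp
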