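import Pool.Agent.Lib.Shp.DefM

set_option autoImplicit false

/-!
# Radial integrals in the chart

`radial`: polar coordinates (Lib/Pex/Pol) with `‖x‖ = tan r`, `y = sin² r`: `‖x‖³ d‖x‖ = y / (2 (1 - y)³) dy`, volume of the unit ball of
`ℝ⁴`: `π² / 2`. `SA_U`, `SA_J`, `SA_V`: the means of the chart components over the sphere of radius `tan r` in terms of `Sy`, `Dy`
(`SA_Ue`, `pE_eq`, `QV_eq` of Lib/Pex/Cht).
-/

open MeasureTheory Set Metric
open scoped ContDiff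

namespace Pool.Agent.Lib.Shp

open Pool.Agent.P28b04d Pool.Agent.Lib.Psd Pool.Agent.Lib.Pex

variable {α : W → W →L[ℝ] ℝ} {z u v : W}

theorem vB_eq : vB = Real.pi ^ 2 / 2 := by
  have h1 := EuclideanSpace.volume_ball (ι := Fin 4) (0 : EuclideanSpace ℝ (Fin 4)) 1
  have h2 : vB = (volume (ball (0 : EuclideanSpace ℝ (Fin 4)) 1)).toReal := rfl
  rw [h2, h1]
  have h3 : Real.Gamma (((Fintype.card (Fin 4) : ℕ) : ℝ) / 2 + 1) = 2 := by
    rw [Fintype.card_fin]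
    have : (((4 : ℕ) : ℝ) / 2 + 1) = ((2 : ℕ) : ℝ) + 1 := by norm_num
    rw [this, Real.Gamma_nat_eq_factorial]
    norm_num
  rw [h3, Fintype.card_fin, ENNReal.ofReal_one, one_pow, one_mul, ENNReal.toReal_ofReal
    (by positivity)]
  have h4 : Real.sqrt Real.pi ^ 4 = Real.pi ^ 2 := by
    have h5 := Real.sq_sqrt Real.pi_pos.le
    calc Real.sqrt Real.pi ^ 4 = (Real.sqrt Real.pi ^ 2) ^ 2 := by ring
      _ = Real.pi ^ 2 := by rw [h5]
  rw [h4]

/-! ### the change of variables -/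

/-- `sin²` in terms of the tangent -/
noncomputable def fi (t : ℝ) : ℝ := t ^ 2 / (1 + t ^ 2)

theorem fi_nonneg (t : ℝ) : 0 ≤ fi t := by
  unfold fi
  positivity

theorem fi_lt (t : ℝ) : fi t < 1 := by
  unfold fi
  rw [div_lt_one (by positivity)]
  linarith

theorem rY_fi {t : ℝ} (ht : 0 ≤ t) : rY (fi t) = Real.arctan t := by
  unfold rY fi
  rw [Real.arctan_eq_arcsin, Real.sqrt_div (sq_nonneg t), Real.sqrt_sq ht]

/-- the tangent -/
noncomputable def tq (y : ℝ) : ℝ := Real.sqrt (y / (1 - y))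

theorem fi_tq {y : ℝ} (h0 : 0 ≤ y) (h1 : y < 1) : fi (tq y) = y := by
  unfold fi tq
  have h2 : 0 < 1 - y := by linarith
  rw [Real.sq_sqrt (by positivity)]
  field_simp
  ring

theorem tq_nonneg (y : ℝ) : 0 ≤ tq y := Real.sqrt_nonneg _

theorem tq_pos {y : ℝ} (h0 : 0 < y) (h1 : y < 1) : 0 < tq y :=
  Real.sqrt_pos.2 (div_pos h0 (by linarith))

theorem rY_tq {y : ℝ} (h0 : 0 ≤ y) (h1 : y < 1) : rY y = Real.arctan (tq y) := by
  rw [← rY_fi (tq_nonneg y), fi_tq h0 h1]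

theorem tan_rY {y : ℝ} (h0 : 0 ≤ y) (h1 : y < 1) : Real.tan (rY y) = tq y := by
  rw [rY_tq h0 h1, Real.tan_arctan]

theorem cos_rY {y : ℝ} (h0 : 0 ≤ y) (h1 : y < 1) : Real.cos (rY y) ^ 2 = 1 - y := by
  have h2 := (sc (tq y)).2.2
  rw [← rY_tq h0 h1] at h2
  have h3 : 1 + tq y ^ 2 = 1 / (1 - y) := by
    have h4 : 0 < 1 - y := by linarith
    unfold tq
    rw [Real.sq_sqrt (by positivity)]
    field_simp
    ring
  rw [h3] at h2
  have h4 : 1 - y ≠ 0 := by linarith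
  field_simp at h2
  linarith

theorem sin_rY {y : ℝ} (h0 : 0 ≤ y) (h1 : y < 1) : Real.sin (rY y) ^ 2 = y := by
  have h2 := Real.sin_sq_add_cos_sq (rY y)
  rw [cos_rY h0 h1] at h2
  linarith

theorem cos_rY_pos {y : ℝ} (h0 : 0 ≤ y) (h1 : y < 1) : 0 < Real.cos (rY y) := by
  rw [rY_tq h0 h1]
  exact (sc (tq y)).2.1

theorem tq_cont {σ : ℝ} (h1 : σ < 1) : ContinuousOn tq (Icc 0 σ) := by
  unfold tq
  refine Real.continuous_sqrt.comp_continuousOn (continuousOn_id.div ?_ ?_)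
  · exact continuousOn_const.sub continuousOn_id
  · intro y hy
    have h2 : (1 : ℝ) - y ≠ 0 := by linarith [hy.2]
    exact h2

theorem fi_deriv (t : ℝ) : HasDerivAt fi (2 * t / (1 + t ^ 2) ^ 2) t := by
  have h1 : HasDerivAt (fun t : ℝ => t ^ 2) (2 * t) t := by
    simpa using hasDerivAt_pow 2 t
  have h2 : HasDerivAt (fun t : ℝ => 1 + t ^ 2) (2 * t) t := h1.const_add 1
  have h3 : (1 + t ^ 2 : ℝ) ≠ 0 := by positivity
  refine HasDerivAt.congr_deriv (f := fi) (h1.div h2 h3) ?_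
  field_simp
  ring

/-- continuity of spherical means of continuous functions -/
theorem SA_scale_cont' {F : E → ℝ} (hF : Continuous F) :
    Continuous fun t : ℝ => SA fun ξ => F (t • ξ) := by
  have h1 : Continuous (Function.uncurry fun (t : ℝ) (ξ : E) => F (t • ξ)) :=
    hF.comp (continuous_fst.smul continuous_snd)
  have h2 := continuous_parametric_integral_of_continuous (μ := sg) h1 sphere_compact
  have e : (fun t : ℝ => SA fun ξ => F (t • ξ)) =
      fun t : ℝ => ∫ ξ in sphere (0 : E) 1, F (t • ξ) ∂sg := by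
    funext t
    exact SA_eq _
  rw [e]
  exact h2

theorem Dy0_eq {σ : ℝ} (h0 : 0 ≤ σ) (h1 : σ < 1) : Dy0 σ = closedBall (0 : E) (tq σ) := by
  ext x
  unfold Dy0 yy
  rw [mem_ofPred_eq, mem_closedBall_zero_iff, div_le_iff₀ (by positivity)]
  have h2 : 0 < 1 - σ := by linarith
  unfold tq
  rw [Real.le_sqrt (norm_nonneg x) (by positivity), le_div_iff₀ h2]
  constructor
  · intro h
    linarith
  · intro h
    linarith

theorem yy_cont : Continuous yy := by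
  unfold yy
  refine (continuous_norm.pow 2).div (continuous_const.add (continuous_norm.pow 2)) fun x => ?_
  positivity

theorem radial {F : E → ℝ} (hF : Continuous F) {k : ℝ → ℝ} (hk : Continuous k) {σ : ℝ} (h0 : 0 < σ)
    (h1 : σ ≤ 2 / 3) : ∫ x in Dy0 σ, k (yy x) * F x =
      Real.pi ^ 2 * ∫ y in (0 : ℝ)..σ, y / (1 - y) ^ 3 * k y *
        SA (fun ξ => F (Real.tan (rY y) • ξ)) := by
  have hσ1 : σ < 1 := by linarith
  have hc : Continuous fun x => k (yy x) * F x := (hk.comp yy_cont).mul hF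
  rw [Dy0_eq h0.le hσ1, polar_ball (hc.continuousOn.integrableOn_compact (isCompact_closedBall _ _))
    (tq_nonneg σ), vB_eq]
  have hG := SA_scale_cont' hF
  set G : ℝ → ℝ := fun t => SA fun ξ => F (t • ξ) with hGd
  -- the right side
  have e1 : ∫ y in (0 : ℝ)..σ, y / (1 - y) ^ 3 * k y * SA (fun ξ => F (Real.tan (rY y) • ξ)) =
      ∫ y in fi 0..fi (tq σ), y / (1 - y) ^ 3 * k y * G (tq y) := by
    have h2 : fi 0 = 0 := by simp [fi]
    rw [h2, fi_tq h0.le hσ1]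
    refine intervalIntegral.integral_congr fun y hy => ?_
    rw [uIcc_of_le h0.le] at hy
    show y / (1 - y) ^ 3 * k y * SA (fun ξ => F (Real.tan (rY y) • ξ)) = _
    rw [tan_rY hy.1 (lt_of_le_of_lt hy.2 hσ1)]
  have hmaps : ∀ t ∈ uIcc 0 (tq σ), fi t ∈ Icc 0 σ := by
    intro t ht
    rw [uIcc_of_le (tq_nonneg σ)] at ht
    refine ⟨fi_nonneg t, ?_⟩
    rw [← fi_tq h0.le hσ1]
    unfold fi
    rw [div_le_div_iff₀ (by positivity) (by positivity)]
    have h3 : t ^ 2 ≤ tq σ ^ 2 := pow_le_pow_left₀ ht.1 ht.2 2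
    linarith
  have h3 := intervalIntegral.integral_comp_mul_deriv' (a := 0) (b := tq σ) (f := fi)
    (f' := fun t => 2 * t / (1 + t ^ 2) ^ 2)
    (g := fun y => y / (1 - y) ^ 3 * k y * G (tq y)) (fun t _ => fi_deriv t) (by
      refine Continuous.continuousOn ?_
      refine Continuous.div (by fun_prop) (by fun_prop) fun t => ?_
      positivity) (by
      refine ContinuousOn.mono (s := Icc 0 σ) ?_ ?_
      · refine ((continuousOn_id.div ((continuousOn_const.sub continuousOn_id).pow 3) ?_).mul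
          hk.continuousOn).mul (hG.comp_continuousOn (tq_cont hσ1))
        intro y hy
        have h4 : (1 - y) ^ 3 ≠ 0 := pow_ne_zero 3 (by linarith [hy.2])
        exact h4
      · rintro _ ⟨t, ht, rfl⟩
        exact hmaps t ht)
  rw [e1, ← h3]
  have e2 : ∫ t in (0 : ℝ)..tq σ, t ^ 3 * SA (fun ξ => k (yy (t • ξ)) * F (t • ξ)) =
      ∫ t in (0 : ℝ)..tq σ, 1 / 2 * (((fun y => y / (1 - y) ^ 3 * k y * G (tq y)) ∘ fi) t *
        (2 * t / (1 + t ^ 2) ^ 2)) := by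
    refine intervalIntegral.integral_congr fun t ht => ?_
    rw [uIcc_of_le (tq_nonneg σ)] at ht
    have e3 : SA (fun ξ => k (yy (t • ξ)) * F (t • ξ)) = k (fi t) * G t := by
      rw [hGd, ← SA_smul]
      refine SA_congr fun ξ hξ => ?_
      congr 2
      unfold yy fi
      rw [norm_smul, hξ, mul_one, Real.norm_eq_abs, sq_abs]
    have e4 : tq (fi t) = t := by
      have h5 : fi t / (1 - fi t) = t ^ 2 := by
        unfold fi
        field_simp
        ring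
      unfold tq
      rw [h5, Real.sqrt_sq ht.1]
    show t ^ 3 * SA (fun ξ => k (yy (t • ξ)) * F (t • ξ)) =
      1 / 2 * (fi t / (1 - fi t) ^ 3 * k (fi t) * G (tq (fi t)) * (2 * t / (1 + t ^ 2) ^ 2))
    rw [e3, e4]
    have e5 : 1 - fi t = 1 / (1 + t ^ 2) := by
      unfold fi
      field_simp
      ring
    have e6 : fi t / (1 - fi t) ^ 3 * (2 * t / (1 + t ^ 2) ^ 2) = 2 * t ^ 3 := by
      rw [e5]
      unfold fi
      field_simp
    calc t ^ 3 * (k (fi t) * G t) = 1 / 2 * (2 * t ^ 3) * (k (fi t) * G t) := by ring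
      _ = _ := by
          rw [← e6]
          ring
  rw [e2, intervalIntegral.integral_const_mul]
  ring

/-! ### spherical means of the components -/

theorem SA_U (h : Conn α) (hz : ON3 z u v) {y : ℝ} (h0 : 0 < y) (h1 : y ≤ 2 / 3) {i : Fin 3}
    (hi : i ≠ 2) : SA (fun ξ => Ue α z u v i (Real.tan (rY y) • ξ)) =
      4 * Sy α z u v i y + 2 * y * (1 - y) * Dy α z u v i y := by
  have hy1 : y < 1 := by linarith
  have hc2 := cos_rY h0.le hy1
  rw [tan_rY h0.le hy1, SA_Ue h hz (tq_pos h0 hy1), ← rY_tq h0.le hy1]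
  unfold Sy Dy
  set c := Real.cos (rY y) with hc
  have hX : 1 - y = c ^ 2 := hc2.symm
  rw [hX]
  fin_cases i
  · simp only [pe, qe, Matrix.cons_val_zero, Fin.zero_eta, ← hc]
    field_simp
    ring
  · simp only [pe, qe, Matrix.cons_val_one, Matrix.cons_val_zero, Fin.mk_one, ← hc]
    field_simp
    ring
  · exact absurd rfl hi

theorem SA_U2 (h : Conn α) (hz : ON3 z u v) {y : ℝ} (h0 : 0 < y) (h1 : y ≤ 2 / 3) :
    SA (fun ξ => Ue α z u v 2 (Real.tan (rY y) • ξ)) =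
      (1 - y) * (2 * (2 - y) * Sy α z u v 2 y + 2 * y * (1 - y) * Dy α z u v 2 y) := by
  have hy1 : y < 1 := by linarith
  have hc2 := cos_rY h0.le hy1
  rw [tan_rY h0.le hy1, SA_Ue h hz (tq_pos h0 hy1), ← rY_tq h0.le hy1]
  unfold Sy Dy
  simp only [pe, qe, Matrix.cons_val]
  have e4 : Real.cos (rY y) ^ 4 = (1 - y) ^ 2 := by
    rw [← hc2]
    ring
  rw [e4, hc2]
  field_simp
  ring

/-- the one-form along the Hopf direction -/
theorem SA_J (h : Conn α) (hz : ON3 z u v) {y : ℝ} (h0 : 0 < y) (h1 : y ≤ 2 / 3) :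
    SA (fun ξ => ch α z u v (Real.tan (rY y) • ξ) (J4 (Real.tan (rY y) • ξ))) =
      y * Sy α z u v 2 y := by
  have hy1 : y < 1 := by linarith
  have ht := tq_pos h0 hy1
  obtain ⟨s1, s2, s3⟩ := sc (tq y)
  have e1 : SA (fun ξ => ch α z u v (Real.tan (rY y) • ξ) (J4 (Real.tan (rY y) • ξ))) =
      SA (aa α z u v (rY y) 2) := by
    refine SA_congr fun ξ hξ => ?_
    rw [tan_rY h0.le hy1]
    have hne : sig z u v (tq y • ξ) ≠ 0 := sig_ne hz _
    have hc0 : (Real.cos (Real.arctan (tq y)) : ℂ) ≠ 0 := by exact_mod_cast s2.ne'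
    have h3 := h.hom _ hc0 _ hne (Lf u v (J4 (tq y • ξ)))
    rw [← zt_sig] at h3
    unfold ch aa
    rw [ContinuousLinearMap.comp_apply, ← h3, rY_tq h0.le hy1]
    congr 1
    rw [← CmpFAux.rsmul, ← Mv_two, map_smul, map_smul, smul_smul, s1, mul_comm]
  have e2 := bm_eq h.smooth hz (rY y) 2
  have e3 := bm_eq' (HK.of_conn h) hz (rY y) 2
  have e4 : ww (rY y) 2 = y := by
    show Real.sin (rY y) ^ 2 = y
    exact sin_rY h0.le hy1
  rw [e1]
  unfold Sy
  simp only [Matrix.cons_val]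
  rw [e4] at e3
  have e5 : SA (aa α z u v (rY y) 2) = bm α z u v (rY y) 2 / 2 := by linarith
  rw [e5, e3]
  ring

/-- the anti-self-dual energy in the chart -/
theorem QV_pin (h : Conn α) {k : ℝ} (hk : 0 ≤ k) (hp : Pinched k α) (hz : ON3 z u v) {y : ℝ}
    (h0 : 0 < y) (h1 : y ≤ 2 / 3) {x : E} (hx : ‖x‖ = 1) :
    QV α z u v (tq y • x) ≤ ((1 - y) * (k + y / 2)) ^ 2 * ∑ i, UU α z u v (rY y) i x ^ 2 := by
  have hy1 : y < 1 := by linarith
  have hc2 := cos_rY h0.le hy1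
  have hpx := hp _ _ _ (frame_ON3 hz (rY y) hx)
  rw [nrm2_sd (Pex.cmp_skew _ _ _ _), nrm2_asd (Pex.cmp_skew _ _ _ _)] at hpx
  change ∑ i, VV α z u v (rY y) i x ^ 2 ≤ k ^ 2 * ∑ i, UU α z u v (rY y) i x ^ 2 at hpx
  rw [QV_eq h hz (tq_pos h0 hy1) hx, ← rY_tq h0.le hy1]
  simp only [Fin.sum_univ_three, pe, qe, Matrix.cons_val_zero, Matrix.cons_val_one,
    Matrix.cons_val] at hpx ⊢
  set c := Real.cos (rY y) with hc
  set a0 := UU α z u v (rY y) 0 x
  set a1 := UU α z u v (rY y) 1 x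
  set a2 := UU α z u v (rY y) 2 x
  set b0 := VV α z u v (rY y) 0 x
  set b1 := VV α z u v (rY y) 1 x
  set b2 := VV α z u v (rY y) 2 x
  set A := a0 ^ 2 + a1 ^ 2 + a2 ^ 2 with hA
  have hA0 : 0 ≤ A := by positivity
  have hab : |a2 * b2| ≤ k * A := by
    refine abs_le_of_sq_le_sq ?_ (by positivity)
    have h2 : b2 ^ 2 ≤ k ^ 2 * A := by nlinarith [sq_nonneg b0, sq_nonneg b1]
    have h3 : a2 ^ 2 ≤ A := by nlinarith [sq_nonneg a0, sq_nonneg a1]
    calc (a2 * b2) ^ 2 = a2 ^ 2 * b2 ^ 2 := by ring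
      _ ≤ A * (k ^ 2 * A) := mul_le_mul h3 h2 (sq_nonneg _) hA0
      _ = (k * A) ^ 2 := by ring
  have h4 : -(a2 * b2) ≤ k * A := (neg_le_abs _).trans hab
  have e1 : ((c ^ 3 - c ^ 3) / 2 * a0 + (c ^ 3 + c ^ 3) / 2 * b0) ^ 2 +
      ((c ^ 3 - c ^ 3) / 2 * a1 + (c ^ 3 + c ^ 3) / 2 * b1) ^ 2 +
      ((c ^ 4 - c ^ 2) / 2 * a2 + (c ^ 4 + c ^ 2) / 2 * b2) ^ 2 =
      (c ^ 2) ^ 2 * (c ^ 2 * (b0 ^ 2 + b1 ^ 2) +
        ((c ^ 2 - 1) / 2 * a2 + (c ^ 2 + 1) / 2 * b2) ^ 2) := by ring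
  rw [e1, hc2]
  have e2 : ((1 - y) * (k + y / 2)) ^ 2 * A = (1 - y) ^ 2 * ((k + y / 2) ^ 2 * A) := by ring
  rw [e2]
  refine mul_le_mul_of_nonneg_left ?_ (sq_nonneg _)
  have h5 : (1 - y) * (b0 ^ 2 + b1 ^ 2) ≤ b0 ^ 2 + b1 ^ 2 := by
    have : 0 ≤ b0 ^ 2 + b1 ^ 2 := by positivity
    nlinarith
  have h6 : ((1 - y - 1) / 2 * a2 + (1 - y + 1) / 2 * b2) ^ 2 ≤
      y ^ 2 / 4 * a2 ^ 2 + y * (k * A) + b2 ^ 2 := by
    have h7 : ((1 - y - 1) / 2 * a2 + (1 - y + 1) / 2 * b2) ^ 2 =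
        y ^ 2 / 4 * a2 ^ 2 + y * (2 - y) / 2 * (-(a2 * b2)) + (1 - y / 2) ^ 2 * b2 ^ 2 := by ring
    rw [h7]
    have h8 : y * (2 - y) / 2 * (-(a2 * b2)) ≤ y * (k * A) := by
      have h9 : 0 ≤ y * (2 - y) / 2 := by
        have : 0 ≤ 2 - y := by linarith
        positivity
      have h10 : y * (2 - y) / 2 ≤ y := by nlinarith
      calc y * (2 - y) / 2 * (-(a2 * b2)) ≤ y * (2 - y) / 2 * (k * A) :=
            mul_le_mul_of_nonneg_left h4 h9
        _ ≤ y * (k * A) := mul_le_mul_of_nonneg_right h10 (by positivity)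
    have h11 : (1 - y / 2) ^ 2 * b2 ^ 2 ≤ b2 ^ 2 := by
      have h12 : (1 - y / 2) ^ 2 ≤ 1 := by nlinarith
      exact mul_le_of_le_one_left (sq_nonneg _) h12
    linarith
  have h7 : y ^ 2 / 4 * a2 ^ 2 ≤ y ^ 2 / 4 * A := by
    refine mul_le_mul_of_nonneg_left ?_ (by positivity)
    nlinarith [sq_nonneg a0, sq_nonneg a1]
  have e3 : (k + y / 2) ^ 2 * A = k ^ 2 * A + y * (k * A) + y ^ 2 / 4 * A := by ring
  rw [e3]
  linarith

/-- `|Ve| ≤ cos² (|VV| + (y / 2) |UU|)`, pinching and Cauchy-Schwarz -/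
theorem SA_V (h : Conn α) {k : ℝ} (hk : 0 ≤ k) (hp : Pinched k α) (hz : ON3 z u v) {y : ℝ}
    (h0 : 0 < y) (h1 : y ≤ 2 / 3) {e : Fin 3 → ℝ} (he : ∑ i, e i ^ 2 = 1) :
    SA (fun ξ => ∑ i, e i * Ve α z u v i (Real.tan (rY y) • ξ)) ≤
      (1 - y) * ((k + y / 2) * Real.sqrt (u2 α z u v (rY y))) := by
  have hy1 : y < 1 := by linarith
  have hy2 : 0 ≤ 1 - y := by linarith
  rw [tan_rY h0.le hy1]
  have s1 : Continuous fun ξ : E => ∑ i, e i * Ve α z u v i (tq y • ξ) :=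
    continuous_finsetSum _ fun i _ => continuous_const.mul
      ((Ve_smooth h hz i).continuous.comp (continuous_const_smul _))
  have s2 : Sm fun x => ∑ i, UU α z u v (rY y) i x ^ 2 :=
    Sm.sum _ fun i _ => (UU_Sm h.smooth hz (rY y) i).pow 2
  have s3 : ContinuousOn (fun x => Real.sqrt (∑ i, UU α z u v (rY y) i x ^ 2))
      (sphere (0 : E) 1) := Real.continuous_sqrt.comp_continuousOn s2.cont
  have h2 : SA (fun ξ => ∑ i, e i * Ve α z u v i (tq y • ξ)) ≤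
      SA (fun x => (1 - y) * (k + y / 2) * Real.sqrt (∑ i, UU α z u v (rY y) i x ^ 2)) := by
    refine SA_mono s1.continuousOn (continuousOn_const.mul s3) fun x hx => ?_
    have h3 := QV_pin h hk hp hz h0 h1 hx
    have h4 := Finset.sum_mul_sq_le_sq_mul_sq Finset.univ e fun i => Ve α z u v i (tq y • x)
    rw [he, one_mul] at h4
    refine (abs_le_of_sq_le_sq' ?_ ?_).2
    · refine h4.trans (h3.trans (le_of_eq ?_))
      rw [mul_pow ((1 - y) * (k + y / 2)), Real.sq_sqrt (Finset.sum_nonneg fun i _ => sq_nonneg _)]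
    · positivity
  refine h2.trans ?_
  rw [SA_smul, mul_assoc]
  refine mul_le_mul_of_nonneg_left (mul_le_mul_of_nonneg_left ?_ (by positivity)) hy2
  have h5 := SA_sq_le s3
  have h6 : SA (fun x => Real.sqrt (∑ i, UU α z u v (rY y) i x ^ 2) ^ 2) = u2 α z u v (rY y) :=
    SA_congr fun x _ => Real.sq_sqrt (Finset.sum_nonneg fun i _ => sq_nonneg _)
  rw [h6] at h5
  exact Real.le_sqrt_of_sq_le h5

end Pool.Agent.Lib.Shp
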