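import Pool.Agent.Lib.Shp.Pcx
import Pool.Agent.Lib.Shp.Rdl
import Pool.Agent.Lib.Shp.Ene

set_option autoImplicit false

/-!
# The average in the chart

`c6_eq`: the mass. `Vc_Ay`, `Uc_Ay`, `Uc2_Ay`: the components of `d(Ay s α)` at `z` as integrals over the chart.
-/

open MeasureTheory Set Metric
open scoped ContDiff

namespace Pool.Agent.Lib.Shp

open Pool.Agent.P28b04d Pool.Agent.Lib.Psd Pool.Agent.Lib.Pex

variable {α : W → W →L[ℝ] ℝ} {z u v : W}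

/-! ### the mass -/

theorem c6_pp : c6 = ∫ q : C1, pp (Qc q) := by
  unfold c6
  rw [← integral_indicator B1_meas]
  refine integral_congr_ae (Filter.Eventually.of_forall fun q => ?_)
  show B1.indicator (fun q => (1 - Qc q) ^ 6) q = pp (Qc q)
  by_cases hq : q ∈ B1
  · rw [indicator_of_mem hq, pp_of_le hq]
  · rw [indicator_of_notMem hq, pp_zero]
    have : ¬ Qc q ≤ 1 := hq
    linarith

theorem pQ_int : Integrable (fun q : C1 => pp (Qc q))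
    ((volume : Measure ℂ).prod (volume : Measure E)) := by
  refine (pp_cont.comp Qc_cont).integrable_of_hasCompactSupport
    (HasCompactSupport.intro B1_compact fun q hq => pp_zero ?_)
  have : ¬ Qc q ≤ 1 := hq
  linarith

theorem c6_eq : c6 = Real.pi ^ 3 / 504 := by
  rw [c6_pp]
  have h1 : ∫ q : C1, pp (Qc q) = ∫ y : E, ∫ c : ℂ, pp (Qc (c, y)) :=
    integral_prod_symm _ pQ_int
  rw [h1]
  have h2 : ∀ y : E, ∫ c : ℂ, pp (Qc (c, y)) =
      (closedBall (0 : E) 1).indicator (fun y => Real.pi / 7 * (1 - ‖y‖ ^ 2) ^ 7) y := by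
    intro y
    by_cases hy : ‖y‖ ≤ 1
    · rw [indicator_of_mem (mem_closedBall_zero_iff.2 hy)]
      have h3 : ‖y‖ ^ 2 ≤ 1 := by nlinarith [norm_nonneg y]
      have h4 := I0_eq one_pos h3
      simp only [div_one, mul_one] at h4
      exact h4
    · rw [indicator_of_notMem (fun h => hy (mem_closedBall_zero_iff.1 h))]
      push Not at hy
      have h3 : ∀ c : ℂ, pp (Qc (c, y)) = 0 := fun c => pp_zero (by
        show 1 ≤ ‖c‖ ^ 2 + ‖y‖ ^ 2
        nlinarith [sq_nonneg ‖c‖])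
      simp only [h3, integral_zero]
  simp only [h2]
  rw [integral_indicator measurableSet_closedBall, polar_ball
    ((by fun_prop : Continuous fun y : E => Real.pi / 7 * (1 - ‖y‖ ^ 2) ^ 7).continuousOn.integrableOn_compact
      (isCompact_closedBall _ _)) zero_le_one, vB_eq]
  have h5 : ∀ t ∈ Icc (0 : ℝ) 1, t ^ 3 * SA (fun ξ : E => Real.pi / 7 * (1 - ‖t • ξ‖ ^ 2) ^ 7) =
      t ^ 3 * (Real.pi / 7 * (1 - t ^ 2) ^ 7) := by
    intro t ht
    congr 1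
    rw [← SA_const (Real.pi / 7 * (1 - t ^ 2) ^ 7)]
    refine SA_congr fun ξ hξ => ?_
    rw [norm_smul, hξ, Real.norm_eq_abs, abs_of_nonneg ht.1, mul_one]
  rw [intervalIntegral.integral_congr (g := fun t => t ^ 3 * (Real.pi / 7 * (1 - t ^ 2) ^ 7))
    (fun t ht => h5 t (by rwa [uIcc_of_le zero_le_one] at ht))]
  have h6 : ∫ t in (0 : ℝ)..1, t ^ 3 * (Real.pi / 7 * (1 - t ^ 2) ^ 7) =
      (-(Real.pi / 7) * (1 / 16 * ((1 : ℝ) ^ 2 * (1 - (1 : ℝ) ^ 2) ^ 8) +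
        1 / 144 * (1 - (1 : ℝ) ^ 2) ^ 9)) -
      (-(Real.pi / 7) * (1 / 16 * ((0 : ℝ) ^ 2 * (1 - (0 : ℝ) ^ 2) ^ 8) +
        1 / 144 * (1 - (0 : ℝ) ^ 2) ^ 9)) := by
    refine intervalIntegral.integral_eq_sub_of_hasDerivAt
      (f := fun t => -(Real.pi / 7) * (1 / 16 * (t ^ 2 * (1 - t ^ 2) ^ 8) +
        1 / 144 * (1 - t ^ 2) ^ 9)) (fun t _ => ?_) (Continuous.intervalIntegrable (by fun_prop) _ _)
    have h3 : HasDerivAt (fun t : ℝ => 1 - t ^ 2) (-(2 * t)) t := by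
      have h4 := (hasDerivAt_pow 2 t).const_sub 1
      refine h4.congr_deriv ?_
      simp
    have h5 := ((((hasDerivAt_pow 2 t).mul (h3.pow 8)).const_mul (1 / 16)).add
      ((h3.pow 9).const_mul (1 / 144))).const_mul (-(Real.pi / 7))
    refine h5.congr_deriv ?_
    simp only [Nat.add_one_sub_one, Nat.cast_ofNat, pow_one, Pi.pow_apply]
    ring
  rw [h6]
  ring

theorem c6_pos : 0 < c6 := by
  rw [c6_eq]
  have := Real.pi_pos
  positivity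

/-- the average in coordinates -/
theorem avg_cl (hz : ON3 z u v) (F : W → ℝ) : cY⁻¹ * ∫ Y in BW, wY Y * F Y =
    c6⁻¹ * ∫ q in B1, (1 - Qc q) ^ 6 * F (cl z u v q) := by
  obtain ⟨C, hC⟩ := int_cl hz
  have e1 : cY = C * c6 := by
    unfold cY c6
    rw [hC]
    unfold wY
    simp only [nsq_cl hz]
  have e2 : ∫ Y in BW, wY Y * F Y = C * ∫ q in B1, (1 - Qc q) ^ 6 * F (cl z u v q) := by
    rw [hC]
    unfold wY
    simp only [nsq_cl hz]
  have h0 : C ≠ 0 := by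
    intro h
    have h1 := cY_pos
    rw [e1, h] at h1
    linarith
  have h6 := c6_pos.ne'
  rw [e1, e2]
  field_simp

/-! ### components -/

theorem hs_of {s : ℝ} (h0 : 0 < s) (h1 : s ^ 2 ≤ 2 / 3) : |s| < 9 / 10 ∧ s < 1 := by
  have h2 : s < 9 / 10 := by nlinarith
  exact ⟨by rwa [abs_of_pos h0], by linarith⟩

theorem z_cl_ne (hz : ON3 z u v) {s : ℝ} (h0 : 0 < s) (h1 : s < 1) {q : C1} (hq : q ∈ B1) :
    z + (s : ℂ) • cl z u v q ≠ 0 := by
  rw [pt_cl h0.le h1 hq]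
  exact smul_ne_zero (zc_ne h0.le h1 (B1_fst hq)) (sig_ne hz _)

theorem cl_cont (z u v : W) : Continuous (cl z u v) := by
  unfold cl
  fun_prop

theorem cmp_cl_int (h : Conn α) (hz : ON3 z u v) {s : ℝ} (h0 : 0 < s) (h1 : s < 1) (i j : Fin 4) :
    IntegrableOn (fun q => (1 - Qc q) ^ 6 *
      Psd.cmp (dd α (z + (s : ℂ) • cl z u v q)) u v i j) B1 := by
  have hcp : ContinuousOn (fun q : C1 => z + (s : ℂ) • cl z u v q) B1 :=
    (continuous_const.add ((cl_cont z u v).const_smul (s : ℂ))).continuousOn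
  exact (((continuous_const.sub Qc_cont).pow 6).continuousOn.mul
    ((dd_continuousOn h.smooth (fr u v i) (fr u v j)).comp hcp fun q hq =>
      z_cl_ne hz h0 h1 hq)).integrableOn_compact B1_compact

theorem al_cl_int (h : Conn α) (hz : ON3 z u v) {s : ℝ} (h0 : 0 < s) (h1 : s < 1) :
    IntegrableOn (fun q => (1 - Qc q) ^ 6 * α (z + (s : ℂ) • cl z u v q) (Complex.I • z)) B1 := by
  have hcp : ContinuousOn (fun q : C1 => z + (s : ℂ) • cl z u v q) B1 :=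
    (continuous_const.add ((cl_cont z u v).const_smul (s : ℂ))).continuousOn
  exact (((continuous_const.sub Qc_cont).pow 6).continuousOn.mul
    ((h.smooth.continuousOn.comp hcp fun q hq => z_cl_ne hz h0 h1 hq).clm_apply
      continuousOn_const)).integrableOn_compact B1_compact

/-- The correction. -/
noncomputable def Jc (α : W → W →L[ℝ] ℝ) (z u v : W) (s : ℝ) : ℝ :=
  1 - c6⁻¹ * ∫ q in B1, (1 - Qc q) ^ 6 * α (z + (s : ℂ) • cl z u v q) (Complex.I • z)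

theorem cmp_Ay (h : Conn α) (hz : ON3 z u v) {s : ℝ} (h0 : 0 < s) (h1 : s ^ 2 ≤ 2 / 3)
    (i j : Fin 4) : Psd.cmp (dd (Ay s α) z) u v i j =
      c6⁻¹ * (∫ q in B1, (1 - Qc q) ^ 6 * Psd.cmp (dd α (z + (s : ℂ) • cl z u v q)) u v i j) +
      2 * (hp (fr u v i) (fr u v j)).im * Jc α z u v s := by
  unfold Psd.cmp
  rw [dd_Ay h (hs_of h0 h1).1 (MainAAux.nsq_one hz) (AvNearAux.hp_fr hz i)
    (AvNearAux.hp_fr hz j), avg_cl hz fun Y => dd α (z + s • Y) (fr u v i) (fr u v j),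
    avg_cl hz fun Y => α (z + s • Y) (Complex.I • z)]
  simp only [rsm]
  rfl

theorem hp_fr_im (hz : ON3 z u v) : (hp (fr u v 0) (fr u v 1)).im = 1 ∧
    (hp (fr u v 2) (fr u v 3)).im = 1 ∧ (hp (fr u v 0) (fr u v 2)).im = 0 ∧
    (hp (fr u v 3) (fr u v 1)).im = 0 ∧ (hp (fr u v 0) (fr u v 3)).im = 0 ∧
    (hp (fr u v 1) (fr u v 2)).im = 0 := by
  have hvu : hp v u = 0 := by rw [← hp_star, hz.uv, star_zero]
  refine ⟨?_, ?_, ?_, ?_, ?_, ?_⟩
  · show (hp u (Complex.I • u)).im = 1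
    rw [hp_smul_right, hz.uu]
    simp
  · show (hp v (Complex.I • v)).im = 1
    rw [hp_smul_right, hz.vv]
    simp
  · show (hp u v).im = 0
    rw [hz.uv]
    simp
  · show (hp (Complex.I • v) (Complex.I • u)).im = 0
    rw [hp_smul_right, FrameGAux.hp_smul_left, hvu]
    simp
  · show (hp u (Complex.I • v)).im = 0
    rw [hp_smul_right, hz.uv]
    simp
  · show (hp (Complex.I • u) v).im = 0
    rw [FrameGAux.hp_smul_left, hz.uv]
    simp

/-- **The anti-self-dual components.** -/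
theorem Vc_Ay (h : Conn α) (hz : ON3 z u v) {s : ℝ} (h0 : 0 < s) (h1 : s ^ 2 ≤ 2 / 3) (i : Fin 3) :
    Vc (Psd.cmp (dd (Ay s α) z) u v) i =
      c6⁻¹ * ((s ^ 6)⁻¹ * ∫ x in Dy0 (s ^ 2), k2 6 (s ^ 2) (yy x) * Ve α z u v i x) := by
  have hs := (hs_of h0 h1).2
  rw [← pcx_V h hz h0 hs i]
  obtain ⟨g1, g2, g3, g4, g5, g6⟩ := hp_fr_im hz
  have ci := cmp_cl_int h hz h0 hs
  fin_cases i
  · show Psd.cmp (dd (Ay s α) z) u v 0 2 - Psd.cmp (dd (Ay s α) z) u v 3 1 = _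
    rw [cmp_Ay h hz h0 h1, cmp_Ay h hz h0 h1, g3, g4]
    have e : ∀ q : C1, (1 - Qc q) ^ 6 *
        Vc (Psd.cmp (dd α (z + (s : ℂ) • cl z u v q)) u v) ((fun i => i) ⟨0, by omega⟩) =
        (1 - Qc q) ^ 6 * Psd.cmp (dd α (z + (s : ℂ) • cl z u v q)) u v 0 2 -
        (1 - Qc q) ^ 6 * Psd.cmp (dd α (z + (s : ℂ) • cl z u v q)) u v 3 1 := fun q => by
      simp only [Vc, Fin.zero_eta, Matrix.cons_val_zero]
      ring
    simp only [e]
    rw [integral_sub (ci 0 2) (ci 3 1)]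
    ring
  · show Psd.cmp (dd (Ay s α) z) u v 0 3 - Psd.cmp (dd (Ay s α) z) u v 1 2 = _
    rw [cmp_Ay h hz h0 h1, cmp_Ay h hz h0 h1, g5, g6]
    have e : ∀ q : C1, (1 - Qc q) ^ 6 *
        Vc (Psd.cmp (dd α (z + (s : ℂ) • cl z u v q)) u v) ((fun i => i) ⟨1, by omega⟩) =
        (1 - Qc q) ^ 6 * Psd.cmp (dd α (z + (s : ℂ) • cl z u v q)) u v 0 3 -
        (1 - Qc q) ^ 6 * Psd.cmp (dd α (z + (s : ℂ) • cl z u v q)) u v 1 2 := fun q => by
      simp only [Vc, Fin.mk_one, Matrix.cons_val_one, Matrix.cons_val_zero]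
      ring
    simp only [e]
    rw [integral_sub (ci 0 3) (ci 1 2)]
    ring
  · show Psd.cmp (dd (Ay s α) z) u v 0 1 - Psd.cmp (dd (Ay s α) z) u v 2 3 = _
    rw [cmp_Ay h hz h0 h1, cmp_Ay h hz h0 h1, g1, g2]
    have e : ∀ q : C1, (1 - Qc q) ^ 6 *
        Vc (Psd.cmp (dd α (z + (s : ℂ) • cl z u v q)) u v) ((fun i => i) ⟨2, by omega⟩) =
        (1 - Qc q) ^ 6 * Psd.cmp (dd α (z + (s : ℂ) • cl z u v q)) u v 0 1 -
        (1 - Qc q) ^ 6 * Psd.cmp (dd α (z + (s : ℂ) • cl z u v q)) u v 2 3 := fun q => by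
      simp only [Vc, Fin.reduceFinMk, Matrix.cons_val]
      ring
    simp only [e]
    rw [integral_sub (ci 0 1) (ci 2 3)]
    ring

/-- **The self-dual components `0`, `1`.** -/
theorem Uc_Ay' (h : Conn α) (hz : ON3 z u v) {s : ℝ} (h0 : 0 < s) (h1 : s ^ 2 ≤ 2 / 3)
    {i : Fin 3} (hi : i ≠ 2) : Uc (Psd.cmp (dd (Ay s α) z) u v) i =
      c6⁻¹ * ((s ^ 6)⁻¹ * ∫ x in Dy0 (s ^ 2), k1 6 (s ^ 2) (yy x) * Ue α z u v i x) := by
  have hs := (hs_of h0 h1).2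
  rw [← pcx_U h hz h0 hs hi]
  obtain ⟨g1, g2, g3, g4, g5, g6⟩ := hp_fr_im hz
  have ci := cmp_cl_int h hz h0 hs
  fin_cases i
  · show Psd.cmp (dd (Ay s α) z) u v 0 2 + Psd.cmp (dd (Ay s α) z) u v 3 1 = _
    rw [cmp_Ay h hz h0 h1, cmp_Ay h hz h0 h1, g3, g4]
    have e : ∀ q : C1, (1 - Qc q) ^ 6 *
        Uc (Psd.cmp (dd α (z + (s : ℂ) • cl z u v q)) u v) ((fun i => i) ⟨0, by omega⟩) =
        (1 - Qc q) ^ 6 * Psd.cmp (dd α (z + (s : ℂ) • cl z u v q)) u v 0 2 +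
        (1 - Qc q) ^ 6 * Psd.cmp (dd α (z + (s : ℂ) • cl z u v q)) u v 3 1 := fun q => by
      simp only [Uc, Fin.zero_eta, Matrix.cons_val_zero]
      ring
    simp only [e]
    rw [integral_add (ci 0 2) (ci 3 1)]
    ring
  · show Psd.cmp (dd (Ay s α) z) u v 0 3 + Psd.cmp (dd (Ay s α) z) u v 1 2 = _
    rw [cmp_Ay h hz h0 h1, cmp_Ay h hz h0 h1, g5, g6]
    have e : ∀ q : C1, (1 - Qc q) ^ 6 *
        Uc (Psd.cmp (dd α (z + (s : ℂ) • cl z u v q)) u v) ((fun i => i) ⟨1, by omega⟩) =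
        (1 - Qc q) ^ 6 * Psd.cmp (dd α (z + (s : ℂ) • cl z u v q)) u v 0 3 +
        (1 - Qc q) ^ 6 * Psd.cmp (dd α (z + (s : ℂ) • cl z u v q)) u v 1 2 := fun q => by
      simp only [Uc, Fin.mk_one, Matrix.cons_val_one, Matrix.cons_val_zero]
      ring
    simp only [e]
    rw [integral_add (ci 0 3) (ci 1 2)]
    ring
  · exact absurd rfl hi

/-- **The self-dual component `2`.** -/
theorem Uc_Ay2 (h : Conn α) (hz : ON3 z u v) {s : ℝ} (h0 : 0 < s) (h1 : s ^ 2 ≤ 2 / 3) :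
    Uc (Psd.cmp (dd (Ay s α) z) u v) 2 =
      c6⁻¹ * ((s ^ 6)⁻¹ * ∫ x in Dy0 (s ^ 2), k2 6 (s ^ 2) (yy x) * Ue α z u v 2 x) +
      4 * Jc α z u v s := by
  have hs := (hs_of h0 h1).2
  rw [← pcx_U2 h hz h0 hs]
  obtain ⟨g1, g2, g3, g4, g5, g6⟩ := hp_fr_im hz
  have ci := cmp_cl_int h hz h0 hs
  show Psd.cmp (dd (Ay s α) z) u v 0 1 + Psd.cmp (dd (Ay s α) z) u v 2 3 = _
  rw [cmp_Ay h hz h0 h1, cmp_Ay h hz h0 h1, g1, g2]
  have e : ∀ q : C1, (1 - Qc q) ^ 6 *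
      Uc (Psd.cmp (dd α (z + (s : ℂ) • cl z u v q)) u v) 2 =
      (1 - Qc q) ^ 6 * Psd.cmp (dd α (z + (s : ℂ) • cl z u v q)) u v 0 1 +
      (1 - Qc q) ^ 6 * Psd.cmp (dd α (z + (s : ℂ) • cl z u v q)) u v 2 3 := fun q => by
    simp only [Uc, Matrix.cons_val]
    ring
  simp only [e]
  rw [integral_add (ci 0 1) (ci 2 3)]
  ring

/-! ### the correction -/

theorem zi_int {s : ℝ} (h0 : 0 < s) (h1 : s < 1) :
    IntegrableOn (fun q : C1 => (1 - Qc q) ^ 6 * (zc s q.1)⁻¹.re) B1 := by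
  have h2 : ContinuousOn (fun q : C1 => (zc s q.1)⁻¹) B1 :=
    ((zc_cont s).comp continuous_fst).continuousOn.inv₀ fun q hq => zc_ne h0.le h1 (B1_fst hq)
  exact (((continuous_const.sub Qc_cont).pow 6).continuousOn.mul
    (Complex.continuous_re.comp_continuousOn h2)).integrableOn_compact B1_compact

theorem Jc_eq (h : Conn α) (hz : ON3 z u v) {s : ℝ} (h0 : 0 < s) (h1 : s ^ 2 ≤ 2 / 3) :
    Jc α z u v s = (1 - c6⁻¹ * ((s ^ 6)⁻¹ * ∫ x in Dy0 (s ^ 2), k3 (s ^ 2) (yy x))) +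
      c6⁻¹ * ((s ^ 6)⁻¹ * ∫ x in Dy0 (s ^ 2), k3 (s ^ 2) (yy x) * ch α z u v x (J4 x)) := by
  have hs := (hs_of h0 h1).2
  rw [← pcx_J0 h0 hs, ← pcx_J1 h hz h0 hs]
  have e : ∀ q : C1, (1 - Qc q) ^ 6 *
      ((zc s q.1)⁻¹.re - α (z + (s : ℂ) • cl z u v q) (Complex.I • z)) =
      (1 - Qc q) ^ 6 * (zc s q.1)⁻¹.re -
      (1 - Qc q) ^ 6 * α (z + (s : ℂ) • cl z u v q) (Complex.I • z) := fun q => by ring
  simp only [e]
  rw [integral_sub (zi_int h0 hs) (al_cl_int h hz h0 hs)]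
  unfold Jc
  ring

end Pool.Agent.Lib.Shp
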