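import Pool.Agent.Lib.Pex.Rad

set_option autoImplicit false

/-!
# The barrier: monotonicity at the critical constant

`ks = 5 - 2 √6`. For a connection form `α` pinched by `ks`, the function `Yb = Th - bm₂² - cos⁶ (bm₀² + bm₁²)` satisfies
`√6 (sin / (2 cos)) Yb' ≥ 6 Yb` on `(0, π/2)`, and `Yb (π/2) = -2`; hence `Yb ≤ -2 sin^(2√6) < 0`.
-/

open MeasureTheory Set Metric
open scoped ContDiff

namespace Pool.Agent.Lib.Shp

open Pool.Agent.P28b04d Pool.Agent.Lib.Psd Pool.Agent.Lib.Pex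

/-- The critical constant. -/
noncomputable def ks : ℝ := 5 - 2 * Real.sqrt 6

theorem s6_sq : Real.sqrt 6 ^ 2 = 6 := Real.sq_sqrt (by norm_num)

theorem s6_lo : 2.449 < Real.sqrt 6 := by
  rw [Real.lt_sqrt (by norm_num)]
  norm_num

theorem s6_hi : Real.sqrt 6 < 2.4495 := by
  rw [Real.sqrt_lt' (by norm_num)]
  norm_num

theorem ks_pos : 0 < ks := by
  have := s6_hi
  unfold ks
  linarith

theorem ks_lt : ks < 102 / 1000 := by
  have := s6_lo
  unfold ks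
  norm_num at this ⊢
  linarith

/-- the pointwise inequality -/
theorem ptw {A B P : ℝ} {g : ℝ} (hg : g ^ 2 = 6) (hg0 : 0 < g)
    (h : A - 2 * P + B ≤ (5 - 2 * g) ^ 2 * (A + 2 * P + B)) : 24 * (A + B) ≤ 20 * g * P := by
  have h1 : (5 - 2 * g) ^ 2 = 49 - 20 * g := by nlinarith
  rw [h1] at h
  -- (20 g - 48) (A + B) ≤ (100 - 40 g) P
  have h2 : (20 * g - 48) * (A + B) ≤ (100 - 40 * g) * P := by nlinarith
  have h3 : 0 < 20 * g + 48 := by linarith
  have h4 : (20 * g + 48) * ((20 * g - 48) * (A + B)) ≤ (20 * g + 48) * ((100 - 40 * g) * P) :=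
    mul_le_mul_of_nonneg_left h2 h3.le
  have e1 : (20 * g + 48) * ((20 * g - 48) * (A + B)) = (400 * g ^ 2 - 2304) * (A + B) := by ring
  have e2 : (20 * g + 48) * ((100 - 40 * g) * P) = (80 * g + 4800 - 800 * g ^ 2) * P := by ring
  rw [e1, e2, hg] at h4
  linarith

/-- the pointwise inequality for vectors -/
theorem ptv {a b Z : Fin 3 → ℝ}
    (h : ∑ i, (a i - b i) ^ 2 ≤ ks ^ 2 * ∑ i, (a i + b i) ^ 2) :
    5 / 2 * (∑ i, b i * Z i) - 1 / 4 * ((∑ i, b i ^ 2) + ∑ i, Z i ^ 2) ≤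
      Real.sqrt 6 * ∑ i, a i * Z i := by
  have hg := s6_sq
  have hg0 : 0 < Real.sqrt 6 := Real.sqrt_pos.2 (by norm_num)
  set g := Real.sqrt 6 with hgd
  have e1 : ∑ i, (a i - b i) ^ 2 = (∑ i, a i ^ 2) - 2 * (∑ i, a i * b i) + ∑ i, b i ^ 2 := by
    simp only [Fin.sum_univ_three]
    ring
  have e2 : ∑ i, (a i + b i) ^ 2 = (∑ i, a i ^ 2) + 2 * (∑ i, a i * b i) + ∑ i, b i ^ 2 := by
    simp only [Fin.sum_univ_three]
    ring
  rw [e1, e2] at h
  have h1 := ptw hg hg0 (show _ ≤ (5 - 2 * g) ^ 2 * _ from h)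
  have h2 : ∑ i, (2 * g * a i - 5 * b i) ^ 2 ≤ ∑ i, b i ^ 2 := by
    have e3 : ∑ i, (2 * g * a i - 5 * b i) ^ 2 = 4 * g ^ 2 * (∑ i, a i ^ 2) -
        20 * g * (∑ i, a i * b i) + 25 * ∑ i, b i ^ 2 := by
      simp only [Fin.sum_univ_three]
      ring
    rw [e3, hg]
    linarith
  have h3 : 0 ≤ ∑ i, (2 * g * a i - 5 * b i + Z i) ^ 2 := Finset.sum_nonneg fun _ _ => sq_nonneg _
  have e4 : ∑ i, (2 * g * a i - 5 * b i + Z i) ^ 2 = ∑ i, (2 * g * a i - 5 * b i) ^ 2 +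
      4 * (g * ∑ i, a i * Z i) - 10 * (∑ i, b i * Z i) + ∑ i, Z i ^ 2 := by
    simp only [Fin.sum_univ_three]
    ring
  rw [e4] at h3
  linarith

/-- The weights. -/
noncomputable def Thw (r : ℝ) : Fin 3 → ℝ := ![Real.cos r ^ 6, Real.cos r ^ 6, 1]

section
variable {α : W → W →L[ℝ] ℝ} {z u v : W}

/-- The functional. -/
noncomputable def Yb (α : W → W →L[ℝ] ℝ) (z u v : W) (r : ℝ) : ℝ :=
  Th α z u v r - bm α z u v r 2 ^ 2 -
    Real.cos r ^ 6 * (bm α z u v r 0 ^ 2 + bm α z u v r 1 ^ 2)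

/-- Its derivative. -/
noncomputable def Yd (α : W → W →L[ℝ] ℝ) (z u v : W) (r : ℝ) : ℝ :=
  2 * (SA fun x => ∑ i, AA α z u v r i x * BB α z u v r i x) -
    4 * (∑ i, Thw r i * bm α z u v r i * SA (AA α z u v r i)) +
    6 * Real.cos r ^ 5 * Real.sin r * (bm α z u v r 0 ^ 2 + bm α z u v r 1 ^ 2)

theorem Yb_deriv (hα : Conn α) (h : ON3 z u v) (r : ℝ) :
    HasDerivAt (Yb α z u v) (Yd α z u v r) r := by
  have hs := hα.smooth
  have h0 := bm_deriv hs h r 0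
  have h1 := bm_deriv hs h r 1
  have h2 := bm_deriv hs h r 2
  have h3 := Th_deriv hs h r
  have hc : HasDerivAt (fun r => Real.cos r ^ 6) (6 * Real.cos r ^ 5 * (-Real.sin r)) r :=
    HasDerivAt.congr_deriv (f := fun r => Real.cos r ^ 6) ((Real.hasDerivAt_cos r).pow 6) (by norm_num)
  have := (h3.sub (h2.pow 2)).sub (hc.mul ((h0.pow 2).add (h1.pow 2)))
  refine HasDerivAt.congr_deriv (f := Yb α z u v) this ?_
  unfold Yd
  simp only [Fin.sum_univ_three, Thw, Matrix.cons_val_zero, Matrix.cons_val_one, Matrix.cons_val,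
    Pi.add_apply, Pi.pow_apply, Nat.cast_ofNat, Nat.add_one_sub_one, pow_one]
  ring

/-- positivity on the open quarter period -/
theorem ww_pos {r : ℝ} (h0 : 0 < r) (h1 : r < Real.pi / 2) (i : Fin 3) : 0 < ww r i := by
  obtain ⟨hs, hc⟩ := sin_cos_pos h0 h1
  fin_cases i
  · show 0 < Real.sin r ^ 2 * Real.cos r
    positivity
  · show 0 < Real.sin r ^ 2 * Real.cos r
    positivity
  · show 0 < Real.sin r ^ 2
    positivity

/-- radial components -/
noncomputable def ac (α : W → W →L[ℝ] ℝ) (z u v : W) (r : ℝ) (i : Fin 3) (x : E) : ℝ :=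
  (UU α z u v r i x + VV α z u v r i x) / 2

/-- tangential components -/
noncomputable def bc (α : W → W →L[ℝ] ℝ) (z u v : W) (r : ℝ) (i : Fin 3) (x : E) : ℝ :=
  (UU α z u v r i x - VV α z u v r i x) / 2

theorem ac_Sm (hα : Conn α) (h : ON3 z u v) (r : ℝ) (i : Fin 3) : Sm (ac α z u v r i) := by
  have h1 := ((UU_Sm hα.smooth h r i).add (VV_Sm hα.smooth h r i)).smul (1 / 2)
  refine h1.congr fun x _ => ?_
  unfold ac
  ring

theorem bc_Sm (hα : Conn α) (h : ON3 z u v) (r : ℝ) (i : Fin 3) : Sm (bc α z u v r i) := by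
  have h1 := ((UU_Sm hα.smooth h r i).sub (VV_Sm hα.smooth h r i)).smul (1 / 2)
  refine h1.congr fun x _ => ?_
  unfold bc
  ring

/-- pinching in terms of the components -/
theorem pin_ab {k : ℝ} (hp : Pinched k α) (h : ON3 z u v) (r : ℝ) {x : E} (hx : ‖x‖ = 1) :
    ∑ i, (ac α z u v r i x - bc α z u v r i x) ^ 2 ≤
      k ^ 2 * ∑ i, (ac α z u v r i x + bc α z u v r i x) ^ 2 := by
  have h1 := hp _ _ _ (frame_ON3 h r hx)
  rw [nrm2_sd (Pex.cmp_skew _ _ _ _), nrm2_asd (Pex.cmp_skew _ _ _ _)] at h1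
  have e1 : ∀ i, ac α z u v r i x - bc α z u v r i x = VV α z u v r i x := fun i => by
    unfold ac bc
    ring
  have e2 : ∀ i, ac α z u v r i x + bc α z u v r i x = UU α z u v r i x := fun i => by
    unfold ac bc
    ring
  simp only [e1, e2]
  exact h1

theorem AA_ac (hα : Conn α) (h : ON3 z u v) (r : ℝ) (i : Fin 3) {x : E} (hx : ‖x‖ = 1) :
    AA α z u v r i x = pw r i * ac α z u v r i x := AA_eq (HK.of_conn hα) h r i (ne_of_norm hx)

theorem BB_bc (hα : Conn α) (h : ON3 z u v) (r : ℝ) (i : Fin 3) {x : E} (hx : ‖x‖ = 1) :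
    BB α z u v r i x = ww r i * bc α z u v r i x := BB_eq (HK.of_conn hα) h r i (ne_of_norm hx)

theorem bm_bc (hα : Conn α) (h : ON3 z u v) (r : ℝ) (i : Fin 3) :
    bm α z u v r i = ww r i * SA (bc α z u v r i) := by
  unfold bm
  rw [← SA_smul]
  exact SA_congr fun x hx => BB_bc hα h r i hx

/-- (c): the reflection estimate -/
theorem refl_est (hα : Conn α) (hp : Pinched ks α) (h : ON3 z u v) (r : ℝ) :
    2 * SA (fun x => ∑ i, bc α z u v r i x ^ 2) -
        5 * ∑ i, Thw r i * SA (bc α z u v r i) ^ 2 ≤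
      Real.sqrt 6 * SA (fun x => ∑ i, ac α z u v r i x *
        (bc α z u v r i x - 2 * Thw r i * SA (bc α z u v r i))) := by
  set n : Fin 3 → ℝ := fun i => SA (bc α z u v r i) with hn
  set Zc : Fin 3 → E → ℝ := fun i x => bc α z u v r i x - 2 * Thw r i * n i with hZ
  have sb := fun i => bc_Sm hα h r i
  have sa := fun i => ac_Sm hα h r i
  have sZ : ∀ i, Sm (Zc i) := fun i => (sb i).sub (Sm.const _)
  have s1 : Sm fun x => ∑ i, bc α z u v r i x * Zc i x := Sm.sum _ fun i _ => (sb i).mul (sZ i)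
  have s2 : Sm fun x => ∑ i, bc α z u v r i x ^ 2 := Sm.sum _ fun i _ => (sb i).pow 2
  have s3 : Sm fun x => ∑ i, Zc i x ^ 2 := Sm.sum _ fun i _ => (sZ i).pow 2
  have s4 : Sm fun x => ∑ i, ac α z u v r i x * Zc i x := Sm.sum _ fun i _ => (sa i).mul (sZ i)
  have s5 : Sm fun x => (∑ i, bc α z u v r i x ^ 2) + ∑ i, Zc i x ^ 2 := s2.add s3
  have s6 : Sm fun x => 5 / 2 * ∑ i, bc α z u v r i x * Zc i x := s1.smul _
  have s7 : Sm fun x => 1 / 4 * ((∑ i, bc α z u v r i x ^ 2) + ∑ i, Zc i x ^ 2) := s5.smul _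
  have s8 : Sm fun x => Real.sqrt 6 * ∑ i, ac α z u v r i x * Zc i x := s4.smul _
  have h1 : SA (fun x => 5 / 2 * (∑ i, bc α z u v r i x * Zc i x) -
      1 / 4 * ((∑ i, bc α z u v r i x ^ 2) + ∑ i, Zc i x ^ 2)) ≤
      SA (fun x => Real.sqrt 6 * ∑ i, ac α z u v r i x * Zc i x) :=
    SA_mono (s6.sub s7).cont s8.cont fun x hx => ptv (pin_ab hp h r hx)
  rw [SA_sub s6.cont s7.cont, SA_smul, SA_smul, SA_smul, SA_add s2.cont s3.cont] at h1
  -- the two integrals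
  have e1 : SA (fun x => ∑ i, bc α z u v r i x * Zc i x) =
      SA (fun x => ∑ i, bc α z u v r i x ^ 2) - 2 * ∑ i, Thw r i * n i ^ 2 := by
    have s9 : Sm fun x => ∑ i, (2 * Thw r i * n i) * bc α z u v r i x :=
      Sm.sum _ fun i _ => (sb i).smul _
    have e : (fun x => ∑ i, bc α z u v r i x * Zc i x) = fun x =>
        (∑ i, bc α z u v r i x ^ 2) - ∑ i, (2 * Thw r i * n i) * bc α z u v r i x := by
      funext x
      rw [← Finset.sum_sub_distrib]
      refine Finset.sum_congr rfl fun i _ => ?_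
      simp only [hZ]
      ring
    rw [e, SA_sub s2.cont s9.cont, SA_sum _ fun i _ => ((sb i).smul _).cont, Finset.mul_sum]
    congr 1
    refine Finset.sum_congr rfl fun i _ => ?_
    rw [SA_smul]
    show 2 * Thw r i * n i * n i = _
    ring
  have e2 : SA (fun x => ∑ i, Zc i x ^ 2) = SA (fun x => ∑ i, bc α z u v r i x ^ 2) -
      4 * (∑ i, Thw r i * n i ^ 2) + 4 * ∑ i, (Thw r i * n i) ^ 2 := by
    have s9 : Sm fun x => ∑ i, (4 * Thw r i * n i) * bc α z u v r i x :=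
      Sm.sum _ fun i _ => (sb i).smul _
    have e : (fun x => ∑ i, Zc i x ^ 2) = fun x =>
        ((∑ i, bc α z u v r i x ^ 2) - ∑ i, (4 * Thw r i * n i) * bc α z u v r i x) +
          4 * ∑ i, (Thw r i * n i) ^ 2 := by
      funext x
      rw [← Finset.sum_sub_distrib, Finset.mul_sum, ← Finset.sum_add_distrib]
      refine Finset.sum_congr rfl fun i _ => ?_
      simp only [hZ]
      ring
    rw [e, SA_add (s2.sub s9).cont continuousOn_const, SA_const, SA_sub s2.cont s9.cont,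
      SA_sum _ fun i _ => ((sb i).smul _).cont, Finset.mul_sum (s := Finset.univ) (a := (4 : ℝ))
        (f := fun i => Thw r i * n i ^ 2)]
    congr 2
    refine Finset.sum_congr rfl fun i _ => ?_
    rw [SA_smul]
    show 4 * Thw r i * n i * n i = _
    ring
  rw [e1, e2] at h1
  -- `0 ≤ Θ ≤ 1`
  have hΘ : ∀ i, (Thw r i * n i) ^ 2 ≤ Thw r i * n i ^ 2 := by
    have hc0 : 0 ≤ Real.cos r ^ 6 := by positivity
    have hc1 : Real.cos r ^ 6 ≤ 1 := by
      have h2 := Real.cos_sq_le_one r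
      have h3 := pow_le_one₀ (sq_nonneg (Real.cos r)) h2 (n := 3)
      calc Real.cos r ^ 6 = (Real.cos r ^ 2) ^ 3 := by ring
        _ ≤ 1 := h3
    intro i
    have h4 : 0 ≤ Thw r i ∧ Thw r i ≤ 1 := by
      fin_cases i
      · exact ⟨hc0, hc1⟩
      · exact ⟨hc0, hc1⟩
      · exact ⟨zero_le_one, le_refl _⟩
    have h5 : Thw r i * Thw r i ≤ Thw r i * 1 := mul_le_mul_of_nonneg_left h4.2 h4.1
    nlinarith [sq_nonneg (n i)]
  have h6 : ∑ i : Fin 3, (Thw r i * n i) ^ 2 ≤ ∑ i : Fin 3, Thw r i * n i ^ 2 :=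
    Finset.sum_le_sum fun i _ => hΘ i
  linarith

/-- the derivative in terms of the components -/
theorem Yd_eq (hα : Conn α) (h : ON3 z u v) (r : ℝ) :
    Yd α z u v r = 2 * (Real.sin r ^ 3 * Real.cos r) * SA (fun x => ∑ i, ac α z u v r i x *
        (bc α z u v r i x - 2 * Thw r i * SA (bc α z u v r i))) +
      6 * Real.cos r ^ 5 * Real.sin r * (bm α z u v r 0 ^ 2 + bm α z u v r 1 ^ 2) := by
  have sb := fun i => bc_Sm hα h r i
  have sa := fun i => ac_Sm hα h r i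
  set n : Fin 3 → ℝ := fun i => SA (bc α z u v r i) with hn
  have s1 : Sm fun x => ∑ i, ac α z u v r i x * bc α z u v r i x :=
    Sm.sum _ fun i _ => (sa i).mul (sb i)
  have s9 : Sm fun x => ∑ i, (2 * Thw r i * n i) * ac α z u v r i x :=
    Sm.sum _ fun i _ => (sa i).smul _
  have e1 : SA (fun x => ∑ i, AA α z u v r i x * BB α z u v r i x) =
      (Real.sin r ^ 3 * Real.cos r) * SA fun x => ∑ i, ac α z u v r i x * bc α z u v r i x := by
    rw [← SA_smul]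
    refine SA_congr fun x hx => ?_
    rw [Finset.mul_sum]
    refine Finset.sum_congr rfl fun i _ => ?_
    rw [AA_ac hα h r i hx, BB_bc hα h r i hx, ← pw_mul_ww r i]
    ring
  have e2 : ∀ i, SA (AA α z u v r i) = pw r i * SA (ac α z u v r i) := fun i => by
    rw [← SA_smul]
    exact SA_congr fun x hx => AA_ac hα h r i hx
  have e3 : SA (fun x => ∑ i, ac α z u v r i x * (bc α z u v r i x - 2 * Thw r i * n i)) =
      SA (fun x => ∑ i, ac α z u v r i x * bc α z u v r i x) -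
        ∑ i, (2 * Thw r i * n i) * SA (ac α z u v r i) := by
    have e : (fun x => ∑ i, ac α z u v r i x * (bc α z u v r i x - 2 * Thw r i * n i)) = fun x =>
        (∑ i, ac α z u v r i x * bc α z u v r i x) -
          ∑ i, (2 * Thw r i * n i) * ac α z u v r i x := by
      funext x
      rw [← Finset.sum_sub_distrib]
      refine Finset.sum_congr rfl fun i _ => ?_
      ring
    rw [e, SA_sub s1.cont s9.cont, SA_sum _ fun i _ => ((sa i).smul _).cont]
    congr 1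
    exact Finset.sum_congr rfl fun i _ => SA_smul _ _
  have e4 : ∑ i, Thw r i * bm α z u v r i * SA (AA α z u v r i) =
      (Real.sin r ^ 3 * Real.cos r) * ∑ i, Thw r i * n i * SA (ac α z u v r i) := by
    rw [Finset.mul_sum]
    refine Finset.sum_congr rfl fun i _ => ?_
    rw [e2, bm_bc hα h, ← pw_mul_ww r i]
    show Thw r i * (ww r i * n i) * (pw r i * SA (ac α z u v r i)) = _
    ring
  unfold Yd
  rw [e1, e4, e3]
  have e5 : ∑ i, (2 * Thw r i * n i) * SA (ac α z u v r i) =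
      2 * ∑ i, Thw r i * n i * SA (ac α z u v r i) := by
    rw [Finset.mul_sum]
    exact Finset.sum_congr rfl fun i _ => by ring
  rw [e5]
  ring

/-- (d): the curl inequality in terms of the components -/
theorem key_q (hα : Conn α) (h : ON3 z u v) {r : ℝ} (h0 : 0 < r) (h1 : r < Real.pi / 2) :
    3 * Th α z u v r - 1 / 2 * ∑ i, bm α z u v r i ^ 2 +
        (Real.sin r / Real.cos r) ^ 2 * (bm α z u v r 0 ^ 2 + bm α z u v r 1 ^ 2) ≤
      Real.sin r ^ 4 * SA (fun x => ∑ i, bc α z u v r i x ^ 2) := by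
  obtain ⟨hs, hc⟩ := sin_cos_pos h0 h1
  have sb := fun i => bc_Sm hα h r i
  have hk := Th_key hα.smooth h r
  have e1 : SA (fun x => ∑ i, BB α z u v r i x ^ 2) =
      ∑ i, ww r i ^ 2 * SA (fun x => bc α z u v r i x ^ 2) := by
    rw [SA_sum _ fun i _ => ((BB_Sm hα.smooth h r i).pow 2).cont]
    refine Finset.sum_congr rfl fun i _ => ?_
    rw [← SA_smul]
    refine SA_congr fun x hx => ?_
    rw [BB_bc hα h r i hx]
    ring
  have e2 : SA (fun x => ∑ i, bc α z u v r i x ^ 2) =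
      ∑ i, SA (fun x => bc α z u v r i x ^ 2) :=
    SA_sum _ fun i _ => ((sb i).pow 2).cont
  have hq : ∀ i, SA (bc α z u v r i) ^ 2 ≤ SA (fun x => bc α z u v r i x ^ 2) := fun i =>
    SA_sq_le (sb i).cont
  rw [e1] at hk
  rw [e2]
  have b0 := bm_bc hα h r 0
  have b1 := bm_bc hα h r 1
  have q0 := hq 0
  have q1 := hq 1
  set Q0 := SA (fun x => bc α z u v r 0 x ^ 2)
  set Q1 := SA (fun x => bc α z u v r 1 x ^ 2)
  set Q2 := SA (fun x => bc α z u v r 2 x ^ 2)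
  set n0 := SA (bc α z u v r 0)
  set n1 := SA (bc α z u v r 1)
  have hw0 : ww r 0 = Real.sin r ^ 2 * Real.cos r := rfl
  have hw1 : ww r 1 = Real.sin r ^ 2 * Real.cos r := rfl
  have hw2 : ww r 2 = Real.sin r ^ 2 := rfl
  rw [Fin.sum_univ_three (f := fun i => ww r i ^ 2 * SA (fun x => bc α z u v r i x ^ 2))] at hk
  rw [Fin.sum_univ_three (f := fun i => SA (fun x => bc α z u v r i x ^ 2))]
  change Th α z u v r ≤ 1 / 3 * (ww r 0 ^ 2 * Q0 + ww r 1 ^ 2 * Q1 + ww r 2 ^ 2 * Q2) +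
    1 / 6 * ∑ i, bm α z u v r i ^ 2 at hk
  change _ ≤ Real.sin r ^ 4 * (Q0 + Q1 + Q2)
  rw [hw0, hw1, hw2] at hk
  rw [hw0] at b0
  rw [hw1] at b1
  have hsc := Real.sin_sq_add_cos_sq r
  have e3 : (Real.sin r / Real.cos r) ^ 2 * (bm α z u v r 0 ^ 2 + bm α z u v r 1 ^ 2) =
      Real.sin r ^ 6 * (n0 ^ 2 + n1 ^ 2) := by
    rw [b0, b1]
    field_simp
  rw [e3]
  have h5 : Real.sin r ^ 6 * (n0 ^ 2 + n1 ^ 2) ≤ Real.sin r ^ 6 * (Q0 + Q1) :=
    mul_le_mul_of_nonneg_left (add_le_add q0 q1) (by positivity)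
  have e4 : Real.sin r ^ 4 * (Q0 + Q1 + Q2) = ((Real.sin r ^ 2 * Real.cos r) ^ 2 * Q0 +
      (Real.sin r ^ 2 * Real.cos r) ^ 2 * Q1 + (Real.sin r ^ 2) ^ 2 * Q2) +
      Real.sin r ^ 6 * (Q0 + Q1) := by
    have e5 : Real.cos r ^ 2 = 1 - Real.sin r ^ 2 := by linarith
    have e6 : (Real.sin r ^ 2 * Real.cos r) ^ 2 = Real.sin r ^ 4 * Real.cos r ^ 2 := by ring
    rw [e6, e5]
    ring
  rw [e4]
  linarith

/-- the polynomial of (f) -/
theorem poly_f {X g : ℝ} (h0 : 0 < X) (h1 : X ≤ 1) (hg : 2 ≤ g) :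
    0 ≤ 6 * X ^ 3 - 1 + 2 * ((1 - X) / X) - 5 * X ^ 2 + 3 * g * ((1 - X) * X ^ 2) := by
  have e : 6 * X ^ 3 - 1 + 2 * ((1 - X) / X) - 5 * X ^ 2 + 3 * g * ((1 - X) * X ^ 2) =
      ((1 - X) * (2 - X - X ^ 2 + (3 * g - 6) * X ^ 3)) / X := by
    field_simp
    ring
  rw [e]
  refine div_nonneg (mul_nonneg (by linarith) ?_) h0.le
  have h2 : 0 ≤ (3 * g - 6) * X ^ 3 := mul_nonneg (by linarith) (by positivity)
  nlinarith

/-- the differential inequality -/
theorem Y_ineq (hα : Conn α) (hp : Pinched ks α) (h : ON3 z u v) {r : ℝ} (h0 : 0 < r)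
    (h1 : r < Real.pi / 2) :
    6 * Yb α z u v r ≤ Real.sqrt 6 * (Real.sin r / (2 * Real.cos r)) * Yd α z u v r := by
  obtain ⟨hs, hc⟩ := sin_cos_pos h0 h1
  have hr := refl_est hα hp h r
  have hk := key_q hα h h0 h1
  have hsc := Real.sin_sq_add_cos_sq r
  have hX : Real.cos r ^ 2 ≤ 1 := Real.cos_sq_le_one r
  rw [Yd_eq hα h]
  set I := SA (fun x => ∑ i, ac α z u v r i x *
        (bc α z u v r i x - 2 * Thw r i * SA (bc α z u v r i))) with hI
  set q := SA (fun x => ∑ i, bc α z u v r i x ^ 2) with hq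
  have b0 := bm_bc hα h r 0
  have b1 := bm_bc hα h r 1
  have b2 := bm_bc hα h r 2
  have hw0 : ww r 0 = Real.sin r ^ 2 * Real.cos r := rfl
  have hw1 : ww r 1 = Real.sin r ^ 2 * Real.cos r := rfl
  have hw2 : ww r 2 = Real.sin r ^ 2 := rfl
  rw [hw0] at b0
  rw [hw1] at b1
  rw [hw2] at b2
  rw [Fin.sum_univ_three] at hr
  rw [Fin.sum_univ_three] at hk
  have t0 : Thw r 0 = Real.cos r ^ 6 := rfl
  have t1 : Thw r 1 = Real.cos r ^ 6 := rfl
  have t2 : Thw r 2 = 1 := rfl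
  rw [t0, t1, t2] at hr
  set n0 := SA (bc α z u v r 0)
  set n1 := SA (bc α z u v r 1)
  set n2 := SA (bc α z u v r 2)
  set m0 := bm α z u v r 0
  set m1 := bm α z u v r 1
  set m2 := bm α z u v r 2
  have hpol := poly_f (g := Real.sqrt 6) (pow_pos hc 2) hX (by linarith [s6_lo])
  set s := Real.sin r
  set c := Real.cos r
  have hY : Yb α z u v r = Th α z u v r - m2 ^ 2 - c ^ 6 * (m0 ^ 2 + m1 ^ 2) := rfl
  rw [hY]
  -- `s⁴ √6 I ≥ 2 s⁴ q - 5 (m₂² + c⁴ (m₀² + m₁²))`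
  have h2 : s ^ 4 * (2 * q) - 5 * (m2 ^ 2 + c ^ 4 * (m0 ^ 2 + m1 ^ 2)) ≤
      s ^ 4 * (Real.sqrt 6 * I) := by
    have h3 := mul_le_mul_of_nonneg_left hr (show 0 ≤ s ^ 4 by positivity)
    have e1 : s ^ 4 * (2 * q - 5 * (c ^ 6 * n0 ^ 2 + c ^ 6 * n1 ^ 2 + 1 * n2 ^ 2)) =
        s ^ 4 * (2 * q) - 5 * (m2 ^ 2 + c ^ 4 * (m0 ^ 2 + m1 ^ 2)) := by
      rw [b0, b1, b2]
      ring
    rw [e1] at h3
    exact h3
  have e2 : Real.sqrt 6 * (s / (2 * c)) * (2 * (s ^ 3 * c) * I +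
      6 * c ^ 5 * s * (m0 ^ 2 + m1 ^ 2)) = s ^ 4 * (Real.sqrt 6 * I) +
        3 * Real.sqrt 6 * (s ^ 2 * c ^ 4) * (m0 ^ 2 + m1 ^ 2) := by
    field_simp
    ring
  rw [e2]
  have e3 : s ^ 2 = 1 - c ^ 2 := by linarith
  have e4 : (s / c) ^ 2 = (1 - c ^ 2) / c ^ 2 := by
    rw [div_pow, e3]
  rw [e4] at hk
  have hm : 0 ≤ m0 ^ 2 + m1 ^ 2 := by positivity
  have h5 := mul_nonneg hpol hm
  rw [e3]
  nlinarith

end

end Pool.Agent.Lib.Shp
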