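import Pool.Agent.Lib.Shp.DefM

set_option autoImplicit false

/-!
# Integrals over the complex plane (III (b))

`pp τ = (1 - τ)₊⁶`. `I0_eq`, `I2_eq`: `∫ pp ((|w|² + y)/σ)`, `∫ pp ((|w|² + y)/σ) |w|²`. `ker_p`: the integrals in `ζ = 1 + s c` for a fixed point `x` of
the chart, by `ζ = h⁻² + w / h`, `h² = 1 + |x|²`.
-/

open MeasureTheory Set Metric
open scoped ContDiff

namespace Pool.Agent.Lib.Shp

open Pool.Agent.P28b04d Pool.Agent.Lib.Psd Pool.Agent.Lib.Pex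

/-- The density. -/
noncomputable def pp (τ : ℝ) : ℝ := (max 0 (1 - τ)) ^ 6

theorem pp_cont : Continuous pp := (continuous_const.max (continuous_const.sub continuous_id)).pow 6

theorem pp_zero {τ : ℝ} (h : 1 ≤ τ) : pp τ = 0 := by
  unfold pp
  rw [max_eq_left (by linarith)]
  norm_num

theorem pp_of_le {τ : ℝ} (h : τ ≤ 1) : pp τ = (1 - τ) ^ 6 := by
  unfold pp
  rw [max_eq_right (by linarith)]

/-- radial integrals -/
theorem cpl_radial (f : ℝ → ℝ) : ∫ w : ℂ, f ‖w‖ = 2 * Real.pi * ∫ r in Ioi (0 : ℝ), r * f r := by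
  rw [integral_fun_norm_addHaar, Complex.finrank_real_complex]
  have h1 : (volume : Measure ℂ).real (ball (0 : ℂ) 1) = Real.pi := by
    rw [measureReal_def, Complex.volume_ball]
    simp
  rw [h1, nsmul_eq_mul, smul_eq_mul]
  simp only [Nat.add_one_sub_one, pow_one, smul_eq_mul]
  push_cast
  ring

theorem cut_int {σ y : ℝ} (hσ : 0 < σ) (hy : y ≤ σ) (n : ℕ) :
    ∫ r in Ioi (0 : ℝ), r ^ n * pp ((r ^ 2 + y) / σ) =
      ∫ r in (0 : ℝ)..Real.sqrt (σ - y), r ^ n * (1 - (r ^ 2 + y) / σ) ^ 6 := by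
  have h0 : 0 ≤ σ - y := by linarith
  rw [intervalIntegral.integral_of_le (Real.sqrt_nonneg _)]
  have h1 : Ioi (0 : ℝ) = Ioc 0 (Real.sqrt (σ - y)) ∪ Ioi (Real.sqrt (σ - y)) :=
    (Ioc_union_Ioi_eq_Ioi (Real.sqrt_nonneg _)).symm
  have hz : ∀ r ∈ Ioi (Real.sqrt (σ - y)), r ^ n * pp ((r ^ 2 + y) / σ) = 0 := by
    intro r hr
    have hr0 : Real.sqrt (σ - y) < r := hr
    have h2 : σ - y < r ^ 2 := (Real.sqrt_lt' (lt_of_le_of_lt (Real.sqrt_nonneg _) hr0)).1 hr0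
    rw [pp_zero ((le_div_iff₀ hσ).2 (by linarith)), mul_zero]
  have hc : Continuous fun r : ℝ => r ^ n * pp ((r ^ 2 + y) / σ) :=
    (continuous_id.pow n).mul (pp_cont.comp (by fun_prop))
  have i1 : IntegrableOn (fun r : ℝ => r ^ n * pp ((r ^ 2 + y) / σ))
      (Ioc 0 (Real.sqrt (σ - y))) :=
    (hc.continuousOn.integrableOn_compact isCompact_Icc).mono_set Ioc_subset_Icc_self
  have i2 : IntegrableOn (fun r : ℝ => r ^ n * pp ((r ^ 2 + y) / σ))
      (Ioi (Real.sqrt (σ - y))) :=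
    (integrableOn_zero).congr_fun (fun r hr => (hz r hr).symm) measurableSet_Ioi
  rw [h1, setIntegral_union (Ioc_disjoint_Ioi le_rfl) measurableSet_Ioi i1 i2,
    setIntegral_eq_zero_of_forall_eq_zero hz, add_zero]
  refine setIntegral_congr_fun measurableSet_Ioc fun r hr => ?_
  have h2 : r ^ 2 ≤ σ - y := by
    have := hr.2
    rwa [Real.le_sqrt hr.1.le h0] at this
  show r ^ n * pp ((r ^ 2 + y) / σ) = r ^ n * (1 - (r ^ 2 + y) / σ) ^ 6
  rw [pp_of_le ((div_le_one hσ).2 (by linarith))]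

theorem I0_eq {σ y : ℝ} (hσ : 0 < σ) (hy : y ≤ σ) :
    ∫ w : ℂ, pp ((‖w‖ ^ 2 + y) / σ) = Real.pi * σ / 7 * (1 - y / σ) ^ 7 := by
  rw [cpl_radial fun r => pp ((r ^ 2 + y) / σ)]
  have h1 := cut_int hσ hy 1
  simp only [pow_one] at h1
  have h0 : 0 ≤ σ - y := by linarith
  have h2 : ∫ r in (0 : ℝ)..Real.sqrt (σ - y), r * (1 - (r ^ 2 + y) / σ) ^ 6 =
      -(σ / 14) * (1 - (Real.sqrt (σ - y) ^ 2 + y) / σ) ^ 7 -
        -(σ / 14) * (1 - ((0 : ℝ) ^ 2 + y) / σ) ^ 7 := by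
    refine intervalIntegral.integral_eq_sub_of_hasDerivAt
      (f := fun r => -(σ / 14) * (1 - (r ^ 2 + y) / σ) ^ 7) (fun r _ => ?_)
      (Continuous.intervalIntegrable (by fun_prop) _ _)
    have h3 : HasDerivAt (fun r : ℝ => 1 - (r ^ 2 + y) / σ) (-(2 * r / σ)) r := by
      have h4 := (((hasDerivAt_pow 2 r).add_const y).div_const σ).const_sub 1
      refine h4.congr_deriv ?_
      simp
    refine ((h3.pow 7).const_mul (-(σ / 14))).congr_deriv ?_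
    simp only [Nat.add_one_sub_one, Nat.cast_ofNat]
    field_simp
    ring
  rw [h1, h2, Real.sq_sqrt h0]
  have e1 : 1 - (σ - y + y) / σ = 0 := by
    rw [sub_add_cancel, div_self hσ.ne', sub_self]
  rw [e1]
  have e2 : (0 : ℝ) ^ 2 + y = y := by ring
  rw [e2]
  ring

theorem I2_eq {σ y : ℝ} (hσ : 0 < σ) (hy : y ≤ σ) :
    ∫ w : ℂ, pp ((‖w‖ ^ 2 + y) / σ) * ‖w‖ ^ 2 = Real.pi * σ ^ 2 / 56 * (1 - y / σ) ^ 8 := by
  rw [cpl_radial fun r => pp ((r ^ 2 + y) / σ) * r ^ 2]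
  have h1 := cut_int hσ hy 3
  have h0 : 0 ≤ σ - y := by linarith
  have e0 : ∀ r : ℝ, r * (pp ((r ^ 2 + y) / σ) * r ^ 2) = r ^ 3 * pp ((r ^ 2 + y) / σ) := by
    intro r
    ring
  simp only [e0]
  have h2 : ∫ r in (0 : ℝ)..Real.sqrt (σ - y), r ^ 3 * (1 - (r ^ 2 + y) / σ) ^ 6 =
      (-(σ / 14) * (Real.sqrt (σ - y) ^ 2 * (1 - (Real.sqrt (σ - y) ^ 2 + y) / σ) ^ 7) -
        σ ^ 2 / 112 * (1 - (Real.sqrt (σ - y) ^ 2 + y) / σ) ^ 8) -
      (-(σ / 14) * ((0 : ℝ) ^ 2 * (1 - ((0 : ℝ) ^ 2 + y) / σ) ^ 7) -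
        σ ^ 2 / 112 * (1 - ((0 : ℝ) ^ 2 + y) / σ) ^ 8) := by
    refine intervalIntegral.integral_eq_sub_of_hasDerivAt
      (f := fun r => -(σ / 14) * (r ^ 2 * (1 - (r ^ 2 + y) / σ) ^ 7) -
        σ ^ 2 / 112 * (1 - (r ^ 2 + y) / σ) ^ 8) (fun r _ => ?_)
      (Continuous.intervalIntegrable (by fun_prop) _ _)
    have h3 : HasDerivAt (fun r : ℝ => 1 - (r ^ 2 + y) / σ) (-(2 * r / σ)) r := by
      have h4 := (((hasDerivAt_pow 2 r).add_const y).div_const σ).const_sub 1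
      refine h4.congr_deriv ?_
      simp
    have h5 := (((hasDerivAt_pow 2 r).mul (h3.pow 7)).const_mul (-(σ / 14))).sub
      ((h3.pow 8).const_mul (σ ^ 2 / 112))
    refine h5.congr_deriv ?_
    simp only [Nat.add_one_sub_one, Nat.cast_ofNat, pow_one, Pi.pow_apply]
    field_simp
    ring
  rw [h1, h2, Real.sq_sqrt h0]
  have e1 : 1 - (σ - y + y) / σ = 0 := by
    rw [sub_add_cancel, div_self hσ.ne', sub_self]
  rw [e1]
  have e2 : (0 : ℝ) ^ 2 + y = y := by ring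
  rw [e2]
  ring

/-! ### quarter turns -/

/-- multiplication by `i` -/
noncomputable def rotI : ℂ ≃ₗᵢ[ℝ] ℂ :=
  LinearIsometry.toLinearIsometryEquiv
    { toFun := fun w => Complex.I * w
      map_add' := fun a b => mul_add _ a b
      map_smul' := fun r a => by
        simp only [RingHom.id_apply, Complex.real_smul]
        ring
      norm_map' := fun w => by
        show ‖Complex.I * w‖ = ‖w‖
        rw [norm_mul, Complex.norm_I, one_mul] } rfl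

theorem rotI_apply (w : ℂ) : rotI w = Complex.I * w := rfl

theorem int_rotI (f : ℂ → ℝ) : ∫ w : ℂ, f (Complex.I * w) = ∫ w : ℂ, f w :=
  rotI.measurePreserving.integral_comp rotI.toHomeomorph.measurableEmbedding f

/-- the radial weight -/
noncomputable def gg (σ y : ℝ) (w : ℂ) : ℝ := pp ((‖w‖ ^ 2 + y) / σ)

theorem gg_cont (σ y : ℝ) : Continuous (gg σ y) :=
  pp_cont.comp (((continuous_norm.pow 2).add continuous_const).div_const σ)

theorem gg_supp {σ y : ℝ} (hσ : 0 < σ) (hy0 : 0 ≤ y) : HasCompactSupport (gg σ y) := by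
  refine HasCompactSupport.intro (isCompact_closedBall (0 : ℂ) (σ + 1)) fun w hw => ?_
  have h1 : σ + 1 < ‖w‖ := by
    rwa [mem_closedBall_zero_iff, not_le] at hw
  refine pp_zero ((le_div_iff₀ hσ).2 ?_)
  nlinarith [norm_nonneg w]

theorem gg_int {σ y : ℝ} (hσ : 0 < σ) (hy0 : 0 ≤ y) {φ : ℂ → ℝ} (hφ : Continuous φ) :
    Integrable fun w => gg σ y w * φ w :=
  ((gg_cont σ y).mul hφ).integrable_of_hasCompactSupport ((gg_supp hσ hy0).mul_right)

theorem rot4 {σ y : ℝ} (hσ : 0 < σ) (hy0 : 0 ≤ y) (hy : y ≤ σ) {φ : ℂ → ℝ} (hφ : Continuous φ)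
    {A B : ℝ} (h : ∀ w : ℂ, φ w + φ (Complex.I * w) + φ (-w) + φ (-(Complex.I * w)) =
      4 * A + 4 * B * ‖w‖ ^ 2) :
    ∫ w : ℂ, gg σ y w * φ w = A * (Real.pi * σ / 7 * (1 - y / σ) ^ 7) +
      B * (Real.pi * σ ^ 2 / 56 * (1 - y / σ) ^ 8) := by
  have hI : ∀ w : ℂ, gg σ y (Complex.I * w) = gg σ y w := fun w => by
    unfold gg
    rw [norm_mul, Complex.norm_I, one_mul]
  have hN : ∀ w : ℂ, gg σ y (-w) = gg σ y w := fun w => by
    unfold gg
    rw [norm_neg]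
  have e1 : ∫ w : ℂ, gg σ y w * φ (Complex.I * w) = ∫ w : ℂ, gg σ y w * φ w := by
    rw [← int_rotI fun w => gg σ y w * φ w]
    refine integral_congr_ae (Filter.Eventually.of_forall fun w => ?_)
    show gg σ y w * φ (Complex.I * w) = gg σ y (Complex.I * w) * φ (Complex.I * w)
    rw [hI]
  have e2 : ∫ w : ℂ, gg σ y w * φ (-w) = ∫ w : ℂ, gg σ y w * φ w := by
    rw [← integral_neg_eq_self fun w => gg σ y w * φ w]
    refine integral_congr_ae (Filter.Eventually.of_forall fun w => ?_)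
    show gg σ y w * φ (-w) = gg σ y (-w) * φ (-w)
    rw [hN]
  have e3 : ∫ w : ℂ, gg σ y w * φ (-(Complex.I * w)) = ∫ w : ℂ, gg σ y w * φ w := by
    rw [← e2, ← int_rotI fun w => gg σ y w * φ (-w)]
    refine integral_congr_ae (Filter.Eventually.of_forall fun w => ?_)
    show gg σ y w * φ (-(Complex.I * w)) = gg σ y (Complex.I * w) * φ (-(Complex.I * w))
    rw [hI]
  have cI : Continuous fun w : ℂ => φ (Complex.I * w) :=
    hφ.comp (continuous_const.mul continuous_id)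
  have cN : Continuous fun w : ℂ => φ (-w) := hφ.comp continuous_neg
  have cNI : Continuous fun w : ℂ => φ (-(Complex.I * w)) :=
    hφ.comp (continuous_const.mul continuous_id).neg
  have i0 := gg_int hσ hy0 hφ
  have i1 := gg_int hσ hy0 cI
  have i2 := gg_int hσ hy0 cN
  have i3 := gg_int hσ hy0 cNI
  have i4 := gg_int (y := y) hσ hy0 (φ := fun _ => 4 * A) continuous_const
  have i5 := gg_int (y := y) hσ hy0 (φ := fun w => 4 * B * ‖w‖ ^ 2) (by fun_prop)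
  have e4 : ∫ w : ℂ, (gg σ y w * φ w + gg σ y w * φ (Complex.I * w) + gg σ y w * φ (-w) +
      gg σ y w * φ (-(Complex.I * w))) = 4 * ∫ w : ℂ, gg σ y w * φ w := by
    have i01 : Integrable fun w : ℂ => gg σ y w * φ w + gg σ y w * φ (Complex.I * w) := i0.add i1
    have i012 : Integrable fun w : ℂ => gg σ y w * φ w + gg σ y w * φ (Complex.I * w) +
        gg σ y w * φ (-w) := i01.add i2
    rw [integral_add i012 i3, integral_add i01 i2, integral_add i0 i1, e1, e2, e3]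
    ring
  have e5 : ∫ w : ℂ, (gg σ y w * φ w + gg σ y w * φ (Complex.I * w) + gg σ y w * φ (-w) +
      gg σ y w * φ (-(Complex.I * w))) =
      4 * A * (Real.pi * σ / 7 * (1 - y / σ) ^ 7) +
      4 * B * (Real.pi * σ ^ 2 / 56 * (1 - y / σ) ^ 8) := by
    have e6 : ∀ w : ℂ, gg σ y w * φ w + gg σ y w * φ (Complex.I * w) + gg σ y w * φ (-w) +
        gg σ y w * φ (-(Complex.I * w)) =
        gg σ y w * (4 * A) + gg σ y w * (4 * B * ‖w‖ ^ 2) := by
      intro w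
      linear_combination gg σ y w * h w
    simp only [e6]
    rw [integral_add i4 i5]
    have e7 : ∀ w : ℂ, gg σ y w * (4 * A) = 4 * A * pp ((‖w‖ ^ 2 + y) / σ) := fun w => by
      unfold gg
      ring
    have e8 : ∀ w : ℂ, gg σ y w * (4 * B * ‖w‖ ^ 2) =
        4 * B * (pp ((‖w‖ ^ 2 + y) / σ) * ‖w‖ ^ 2) := fun w => by
      unfold gg
      ring
    simp only [e7, e8]
    rw [integral_const_mul, integral_const_mul, I0_eq hσ hy, I2_eq hσ hy]
  linarith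

/-! ### the substitution -/

theorem yy_lt (x : E) : yy x < 1 := by
  unfold yy
  rw [div_lt_one (by positivity)]
  linarith

theorem yy_nonneg (x : E) : 0 ≤ yy x := by
  unfold yy
  positivity

theorem one_sub_yy (x : E) : 1 - yy x = (1 + ‖x‖ ^ 2)⁻¹ := by
  unfold yy
  have : (1 : ℝ) + ‖x‖ ^ 2 ≠ 0 := by positivity
  field_simp
  ring

theorem yyc : Continuous yy := by
  unfold yy
  exact (continuous_norm.pow 2).div (continuous_const.add (continuous_norm.pow 2)) fun x => by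
    positivity

/-- the weight on `ζ = 1 + s c`, `x` -/
noncomputable def gw (s : ℝ) (x : E) (c : ℂ) : ℝ :=
  pp (‖c‖ ^ 2 + ‖1 + (s : ℂ) * c‖ ^ 2 * ‖x‖ ^ 2 / s ^ 2)

theorem gw_cont (s : ℝ) : Continuous fun p : ℂ × E => gw s p.2 p.1 := by
  unfold gw
  refine pp_cont.comp ?_
  fun_prop

theorem int_aff (g : ℂ → ℝ) (a : ℂ) {b : ℝ} (hb : 0 < b) :
    ∫ c : ℂ, g c = b ^ 2 * ∫ w : ℂ, g (a + (b : ℂ) * w) := by
  have h1 := Measure.integral_comp_smul (volume : Measure ℂ) (fun w => g (a + w)) b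
  have h2 : ∀ w : ℂ, (fun w => g (a + w)) (b • w) = g (a + (b : ℂ) * w) := fun w => by
    show g (a + b • w) = _
    rw [Complex.real_smul]
  simp only [h2] at h1
  rw [h1, Complex.finrank_real_complex, abs_of_pos (by positivity), smul_eq_mul, ← mul_assoc,
    mul_inv_cancel₀ (by positivity), one_mul]
  exact (integral_add_left_eq_self g a).symm

theorem gw_sub {s : ℝ} (hs : 0 < s) (x : E) {h : ℝ} (hh : 0 < h) (hx : h ^ 2 = 1 + ‖x‖ ^ 2)
    (w : ℂ) : gw s x ((((h ^ 2)⁻¹ - 1) / s : ℝ) + ((h * s)⁻¹ : ℝ) * w) = gg (s ^ 2) (yy x) w ∧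
    1 + (s : ℂ) * ((((h ^ 2)⁻¹ - 1) / s : ℝ) + ((h * s)⁻¹ : ℝ) * w) =
      (((h ^ 2)⁻¹ : ℝ) : ℂ) + ((h⁻¹ : ℝ) : ℂ) * w := by
  have e1 : 1 + (s : ℂ) * ((((h ^ 2)⁻¹ - 1) / s : ℝ) + ((h * s)⁻¹ : ℝ) * w) =
      (((h ^ 2)⁻¹ : ℝ) : ℂ) + ((h⁻¹ : ℝ) : ℂ) * w := by
    have hsc : (s : ℂ) ≠ 0 := by exact_mod_cast hs.ne'
    have hhc : (h : ℂ) ≠ 0 := by exact_mod_cast hh.ne'
    push_cast
    field_simp
    ring
  refine ⟨?_, e1⟩
  unfold gw gg
  rw [e1]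
  congr 1
  have hy : yy x = 1 - (h ^ 2)⁻¹ := by
    have := one_sub_yy x
    rw [← hx] at this
    linarith
  have hN : ‖x‖ ^ 2 = h ^ 2 - 1 := by linarith
  rw [hy, hN, ← Complex.normSq_eq_norm_sq, ← Complex.normSq_eq_norm_sq,
    ← Complex.normSq_eq_norm_sq, Complex.normSq_apply, Complex.normSq_apply,
    Complex.normSq_apply]
  simp only [Complex.add_re, Complex.add_im, Complex.mul_re, Complex.mul_im, Complex.ofReal_re,
    Complex.ofReal_im, zero_mul, sub_zero, add_zero, zero_add]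
  field_simp
  ring

theorem ker_p {s : ℝ} (hs : 0 < s) (x : E) {P : ℂ → ℝ} (hP : Continuous P) {A B : ℝ}
    (h : ∀ h : ℝ, 0 < h → h ^ 2 = 1 + ‖x‖ ^ 2 → ∀ w : ℂ,
      P ((((h ^ 2)⁻¹ : ℝ) : ℂ) + ((h⁻¹ : ℝ) : ℂ) * w) +
      P ((((h ^ 2)⁻¹ : ℝ) : ℂ) + ((h⁻¹ : ℝ) : ℂ) * (Complex.I * w)) +
      P ((((h ^ 2)⁻¹ : ℝ) : ℂ) + ((h⁻¹ : ℝ) : ℂ) * (-w)) +
      P ((((h ^ 2)⁻¹ : ℝ) : ℂ) + ((h⁻¹ : ℝ) : ℂ) * (-(Complex.I * w))) =
      4 * A + 4 * B * ‖w‖ ^ 2) :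
    ∫ c : ℂ, gw s x c * P (1 + (s : ℂ) * c) = (s ^ 2)⁻¹ * (Iic (s ^ 2)).indicator (fun y =>
      (1 - y) * (A * (Real.pi * s ^ 2 / 7 * (1 - y / s ^ 2) ^ 7) +
      B * (Real.pi * (s ^ 2) ^ 2 / 56 * (1 - y / s ^ 2) ^ 8))) (yy x) := by
  set k := Real.sqrt (1 + ‖x‖ ^ 2) with hk
  have hk0 : 0 < k := Real.sqrt_pos.2 (by positivity)
  have hk2 : k ^ 2 = 1 + ‖x‖ ^ 2 := Real.sq_sqrt (by positivity)
  have hσ : 0 < s ^ 2 := by positivity
  rw [int_aff (fun c => gw s x c * P (1 + (s : ℂ) * c)) ((((k ^ 2)⁻¹ - 1) / s : ℝ) : ℂ)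
    (b := (k * s)⁻¹) (by positivity)]
  have e1 : ∀ w : ℂ, gw s x ((((k ^ 2)⁻¹ - 1) / s : ℝ) + ((k * s)⁻¹ : ℝ) * w) *
      P (1 + (s : ℂ) * ((((k ^ 2)⁻¹ - 1) / s : ℝ) + ((k * s)⁻¹ : ℝ) * w)) =
      gg (s ^ 2) (yy x) w * P ((((k ^ 2)⁻¹ : ℝ) : ℂ) + ((k⁻¹ : ℝ) : ℂ) * w) := by
    intro w
    obtain ⟨h1, h2⟩ := gw_sub hs x hk0 hk2 w
    rw [h1, h2]
  simp only [e1]
  have e2 : ((k * s)⁻¹) ^ 2 = (s ^ 2)⁻¹ * (1 - yy x) := by
    rw [one_sub_yy, ← hk2]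
    field_simp
  rw [e2, mul_assoc]
  congr 1
  by_cases hy : yy x ≤ s ^ 2
  · rw [indicator_of_mem (mem_Iic.2 hy)]
    rw [rot4 hσ (yy_nonneg x) hy
      (φ := fun w => P ((((k ^ 2)⁻¹ : ℝ) : ℂ) + ((k⁻¹ : ℝ) : ℂ) * w))
      (hP.comp (by fun_prop)) (h k hk0 hk2)]
  · rw [indicator_of_notMem (fun h' => hy (mem_Iic.1 h'))]
    have e3 : ∀ w : ℂ, gg (s ^ 2) (yy x) w = 0 := by
      intro w
      refine pp_zero ((le_div_iff₀ hσ).2 ?_)
      push Not at hy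
      nlinarith [sq_nonneg ‖w‖]
    simp only [e3, zero_mul, integral_zero, mul_zero]

/-! ### the kernels -/

noncomputable def k3 (σ y : ℝ) : ℝ :=
  Real.pi * σ / 7 * (1 - y / σ) ^ 7 * (1 - y) ^ 4 +
    2 * (Real.pi * σ ^ 2 / 56 * (1 - y / σ) ^ 8 * (1 - y) ^ 3)

/-- value of the inner integral -/
theorem ker_V {s : ℝ} (hs : 0 < s) (x : E) : ∫ c : ℂ, gw s x c * ‖1 + (s : ℂ) * c‖ ^ 2 =
    (s ^ 2)⁻¹ * (Iic (s ^ 2)).indicator (k2 6 (s ^ 2)) (yy x) := by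
  rw [ker_p hs x (P := fun ζ => ‖ζ‖ ^ 2) (by fun_prop) (A := (1 - yy x) ^ 2) (B := 1 - yy x)]
  · congr 1
    by_cases hy : yy x ∈ Iic (s ^ 2)
    · rw [indicator_of_mem hy, indicator_of_mem hy]
      unfold k2 k1
      push_cast
      ring
    · rw [indicator_of_notMem hy, indicator_of_notMem hy]
  · intro h h0 h2 w
    have e : 1 - yy x = (h ^ 2)⁻¹ := by rw [one_sub_yy, h2]
    simp only [← Complex.normSq_eq_norm_sq, Complex.normSq_apply, e]
    simp only [Complex.add_re, Complex.add_im, Complex.mul_re, Complex.mul_im, Complex.ofReal_re,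
      Complex.ofReal_im, Complex.I_re, Complex.I_im, Complex.neg_re, Complex.neg_im]
    field_simp
    ring

theorem ker_U {s : ℝ} (hs : 0 < s) (x : E) :
    ∫ c : ℂ, gw s x c * ((1 + (s : ℂ) * c).re ^ 2 - (1 + (s : ℂ) * c).im ^ 2) =
    (s ^ 2)⁻¹ * (Iic (s ^ 2)).indicator (k1 6 (s ^ 2)) (yy x) := by
  rw [ker_p hs x (P := fun ζ => ζ.re ^ 2 - ζ.im ^ 2) (by fun_prop) (A := (1 - yy x) ^ 2) (B := 0)]
  · congr 1
    by_cases hy : yy x ∈ Iic (s ^ 2)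
    · rw [indicator_of_mem hy, indicator_of_mem hy]
      unfold k1
      push_cast
      ring
    · rw [indicator_of_notMem hy, indicator_of_notMem hy]
  · intro h h0 h2 w
    have e : 1 - yy x = (h ^ 2)⁻¹ := by rw [one_sub_yy, h2]
    simp only [← Complex.normSq_eq_norm_sq, Complex.normSq_apply, e]
    simp only [Complex.add_re, Complex.add_im, Complex.mul_re, Complex.mul_im, Complex.ofReal_re,
      Complex.ofReal_im, Complex.I_re, Complex.I_im, Complex.neg_re, Complex.neg_im]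
    field_simp
    ring

theorem ker_U' {s : ℝ} (hs : 0 < s) (x : E) :
    ∫ c : ℂ, gw s x c * ((1 + (s : ℂ) * c).re * (1 + (s : ℂ) * c).im) = 0 := by
  rw [ker_p hs x (P := fun ζ => ζ.re * ζ.im) (by fun_prop) (A := 0) (B := 0)]
  · simp
  · intro h h0 h2 w
    simp only [Complex.add_re, Complex.add_im, Complex.mul_re, Complex.mul_im, Complex.ofReal_re,
      Complex.ofReal_im, Complex.I_re, Complex.I_im, Complex.neg_re, Complex.neg_im]
    field_simp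
    ring

theorem ker_J {s : ℝ} (hs : 0 < s) (x : E) :
    ∫ c : ℂ, gw s x c * (‖1 + (s : ℂ) * c‖ ^ 2 * (1 + (s : ℂ) * c).re) =
    (s ^ 2)⁻¹ * (Iic (s ^ 2)).indicator (k3 (s ^ 2)) (yy x) := by
  rw [ker_p hs x (P := fun ζ => ‖ζ‖ ^ 2 * ζ.re) (by fun_prop) (A := (1 - yy x) ^ 3)
    (B := 2 * (1 - yy x) ^ 2)]
  · congr 1
    by_cases hy : yy x ∈ Iic (s ^ 2)
    · rw [indicator_of_mem hy, indicator_of_mem hy]
      unfold k3
      ring
    · rw [indicator_of_notMem hy, indicator_of_notMem hy]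
  · intro h h0 h2 w
    have e : 1 - yy x = (h ^ 2)⁻¹ := by rw [one_sub_yy, h2]
    simp only [← Complex.normSq_eq_norm_sq, Complex.normSq_apply, e]
    simp only [Complex.add_re, Complex.add_im, Complex.mul_re, Complex.mul_im, Complex.ofReal_re,
      Complex.ofReal_im, Complex.I_re, Complex.I_im, Complex.neg_re, Complex.neg_im]
    field_simp
    ring

theorem ker_J' {s : ℝ} (hs : 0 < s) (x : E) :
    ∫ c : ℂ, gw s x c * (‖1 + (s : ℂ) * c‖ ^ 2 * (1 + (s : ℂ) * c).im) = 0 := by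
  rw [ker_p hs x (P := fun ζ => ‖ζ‖ ^ 2 * ζ.im) (by fun_prop) (A := 0) (B := 0)]
  · simp
  · intro h h0 h2 w
    simp only [← Complex.normSq_eq_norm_sq, Complex.normSq_apply]
    simp only [Complex.add_re, Complex.add_im, Complex.mul_re, Complex.mul_im, Complex.ofReal_re,
      Complex.ofReal_im, Complex.I_re, Complex.I_im, Complex.neg_re, Complex.neg_im]
    field_simp
    ring

end Pool.Agent.Lib.Shp
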