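import Mathlib

set_option autoImplicit false

/-!
# One-variable data of the averages

`kap`: the probability density `252 t² (1-t)⁶` on `[0,1]` (mean `3/10`), `pJ`, `rr`: the exact relative kernels of the average over the unit
ball of the complex matrices, `KK`: the kernel of the energy. `RY q S D th e`: the radial data of a pinched form in the variable
`y = sin² r` (`q = 4k²/(1-k²)`).
-/

open Set

namespace Pool.Agent.Lib.Shp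

noncomputable def kap (t : ℝ) : ℝ := 252 * t ^ 2 * (1 - t) ^ 6

noncomputable def pJ (σ t : ℝ) : ℝ :=
  1 + σ * (6 - 20 * t) / 7 + σ ^ 2 * (3 - 30 * t + 55 * t ^ 2) / 28

noncomputable def rr (σ t : ℝ) : ℝ := (1 - σ * t) + 3 * σ / 7 * (1 - t)

noncomputable def KK (σ t : ℝ) : ℝ := (1 - σ * t) * (1 - t) ^ 7 + σ / 8 * (1 - t) ^ 8

/-- Radial data in the variable `y`. -/
structure RY (q : ℝ) (S D : Fin 3 → ℝ → ℝ) (th e : ℝ → ℝ) : Prop where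
  Sc : ∀ i, ContinuousOn (S i) (Icc 0 (2 / 3))
  ec : ContinuousOn e (Icc 0 (2 / 3))
  thc : ContinuousOn th (Icc 0 (2 / 3))
  Dc : ∀ i, ContinuousOn (D i) (Ioc 0 (2 / 3))
  Sd : ∀ i, ∀ y ∈ Ioc (0 : ℝ) (2 / 3), HasDerivAt (S i) (D i y) y
  thd : ∀ y ∈ Ioc (0 : ℝ) (2 / 3), HasDerivAt th (y * e y) y
  th0 : th 0 = 0
  en : ∀ y ∈ Ioc (0 : ℝ) (2 / 3), 0 ≤ e y
  Dq : ∀ y ∈ Ioc (0 : ℝ) (2 / 3), 4 * y ^ 2 * ∑ i, D i y ^ 2 ≤ q * e y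
  bar : ∀ y ∈ Ioc (0 : ℝ) (2 / 3), th y < 4 * y ^ 2 * ∑ i, S i y ^ 2
  thn : ∀ y ∈ Ioc (0 : ℝ) (2 / 3), 0 ≤ th y

/-- The mean square. -/
noncomputable def N2 (S : Fin 3 → ℝ → ℝ) (σ : ℝ) : ℝ :=
  ∫ t in (0 : ℝ)..1, kap t * ∑ i, S i (σ * t) ^ 2

/-- The three components of the average (`0`, `1`: kernel `rr`, `2`: kernel `pJ`). -/
noncomputable def Wm (S : Fin 3 → ℝ → ℝ) (σ : ℝ) : Fin 3 → ℝ :=
  ![∫ t in (0 : ℝ)..1, kap t * (rr σ t * S 0 (σ * t)),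
    ∫ t in (0 : ℝ)..1, kap t * (rr σ t * S 1 (σ * t)),
    ∫ t in (0 : ℝ)..1, kap t * (pJ σ t * S 2 (σ * t))]

/-- The energy. -/
noncomputable def EK (e : ℝ → ℝ) (σ : ℝ) : ℝ :=
  72 * ∫ t in (0 : ℝ)..1, t * KK σ t * e (σ * t)

end Pool.Agent.Lib.Shp
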