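import Pool.Agent.Lib.Pex.MainP
import Pool.Agent.Lib.Shp.Def

set_option autoImplicit false

/-!
# Averages over the maps `1 + s X`, `X` a complex matrix: definitions

`C1 = ℂ × ℝ⁴`: coordinates of a vector of `ℂ³` in a unitary frame `(z, u, v)` (`cl z u v`). `P3`: three columns, `K3` the unit ball of the
Hilbert-Schmidt norm. `Am s α`: the average of the pull-backs of `α` under `1 + s X`, `X ∈ K3`. `k1 n σ`, `k2 n σ`: kernels in the chart,
with `y = ‖x‖² / (1 + ‖x‖²)`. `Sy`, `Dy`, `ey`, `thy`: radial data of a connection form in the variable `y = sin² r`.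
-/

open MeasureTheory Set Metric
open scoped ContDiff

namespace Pool.Agent.Lib.Shp

open Pool.Agent.P28b04d Pool.Agent.Lib.Psd Pool.Agent.Lib.Pex

abbrev C1 : Type := ℂ × E

abbrev P3 : Type := C1 × (C1 × C1)

/-- Square norm. -/
noncomputable def Qc (q : C1) : ℝ := ‖q.1‖ ^ 2 + ‖q.2‖ ^ 2

noncomputable def Q3 (p : P3) : ℝ := Qc p.1 + (Qc p.2.1 + Qc p.2.2)

def B1 : Set C1 := {q | Qc q ≤ 1}

def K3 : Set P3 := {p | Q3 p ≤ 1}

/-- The vector with the coordinates `q` in the frame `(z, u, v)`. -/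
noncomputable def cl (z u v : W) (q : C1) : W := q.1 • z + Lf u v q.2

/-- Standard basis of `ℂ³`. -/
noncomputable def eW (i : Fin 3) : W := Pi.single i 1

/-- The matrix with the columns `p`. -/
noncomputable def X3 (p : P3) : XX :=
  ![cl (eW 0) (eW 1) (eW 2) p.1, cl (eW 0) (eW 1) (eW 2) p.2.1, cl (eW 0) (eW 1) (eW 2) p.2.2]

/-- The transformation `1 + s X`. -/
noncomputable def gm (s : ℝ) (p : P3) (z : W) : W := act s (X3 p) z

/-- Volume of the unit ball of the parameters. -/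
noncomputable def cM : ℝ := (volume K3).toReal

/-- Average of a one-form over the maps `1 + s X`. -/
noncomputable def Am (s : ℝ) (α : W → W →L[ℝ] ℝ) (z : W) : W →L[ℝ] ℝ :=
  cM⁻¹ • ∫ p in K3, (α (gm s p z)).comp (actL s (X3 p))

/-- Mass of the weight of the first column. -/
noncomputable def c6 : ℝ := ∫ q in B1, (1 - Qc q) ^ 6

/-- Trace of the `J`-invariant part of a two-form. -/
noncomputable def tr3 (τ : W → W → ℝ) (z u v : W) : ℝ :=
  τ z (Complex.I • z) + τ u (Complex.I • u) + τ v (Complex.I • v)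

/-! ### kernels in the chart -/

/-- `sin²` of the distance to the centre of the chart -/
noncomputable def yy (x : E) : ℝ := ‖x‖ ^ 2 / (1 + ‖x‖ ^ 2)

/-- The ball of radius `r`, `sin² r = σ`. -/
def Dy0 (σ : ℝ) : Set E := {x | yy x ≤ σ}

noncomputable def k1 (n : ℕ) (σ y : ℝ) : ℝ :=
  Real.pi * σ / (n + 1) * (1 - y / σ) ^ (n + 1) * (1 - y) ^ 3

noncomputable def k2 (n : ℕ) (σ y : ℝ) : ℝ :=
  k1 n σ y + Real.pi * σ ^ 2 / ((n + 1) * (n + 2)) * (1 - y / σ) ^ (n + 2) * (1 - y) ^ 2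

/-! ### radial data -/

noncomputable def rY (y : ℝ) : ℝ := Real.arcsin (Real.sqrt y)

noncomputable def Sy (α : W → W →L[ℝ] ℝ) (z u v : W) (i : Fin 3) (y : ℝ) : ℝ :=
  (![Real.cos (rY y) ^ 3, Real.cos (rY y) ^ 3, 1] : Fin 3 → ℝ) i *
    (ub α z u v (rY y) i - vb α z u v (rY y) i) / 4

noncomputable def Dy (α : W → W →L[ℝ] ℝ) (z u v : W) (i : Fin 3) (y : ℝ) : ℝ :=
  (![Real.cos (rY y), Real.cos (rY y), 1] : Fin 3 → ℝ) i * vb α z u v (rY y) i / (2 * y)

noncomputable def ey (α : W → W →L[ℝ] ℝ) (z u v : W) (y : ℝ) : ℝ :=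
  (u2 α z u v (rY y) - v2 α z u v (rY y)) / 4

noncomputable def thy (α : W → W →L[ℝ] ℝ) (z u v : W) (y : ℝ) : ℝ := Th α z u v (rY y)

end Pool.Agent.Lib.Shp
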