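import Pool.Agent.Lib.Pex.MainP
import Pool.Agent.Lib.Shp.Bar

set_option autoImplicit false

/-!
# The flat example: definitions

`E = ℝ⁴ = ℂ²`, `z₁ = x₀ + i x₁`, `z₂ = x₂ + i x₃`, `T = ‖x‖²`. `th1 = x₀ dx₁ - x₁ dx₀ + x₂ dx₃ - x₃ dx₂`, `reb = Re (z₁² dz₂ - z₁ z₂ dz₁) / 3`,
`FH F H = F(T) th1 + H(T) reb`. For a one-form `lam` on `E` the components of `d lam` are `co lam i j x` (Lib/Psd/Defs); self-dual and
anti-self-dual components `Uc`, `Vc` (Lib/Pex/Frm).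
-/

open MeasureTheory Set Metric
open scoped ContDiff

namespace Pool.Agent.Lib.Shp

open Pool.Agent.P28b04d Pool.Agent.Lib.Psd Pool.Agent.Lib.Pex

/-- The one-form with the coefficients `g`. -/
noncomputable def frm (g : Fin 4 → E → ℝ) (x : E) : E →L[ℝ] ℝ :=
  ∑ j, g j x • (EuclideanSpace.proj (𝕜 := ℝ) j : E →L[ℝ] ℝ)

/-- Coefficients of `th1`. -/
def t1c (x : E) : Fin 4 → ℝ := ![-x 1, x 0, -x 3, x 2]

/-- Coefficients of `3 reb`. -/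
def rbc (x : E) : Fin 4 → ℝ :=
  ![-(x 0 * x 2 - x 1 * x 3), x 0 * x 3 + x 1 * x 2, x 0 ^ 2 - x 1 ^ 2, -2 * (x 0 * x 1)]

/-- `x₀ dx₁ - x₁ dx₀ + x₂ dx₃ - x₃ dx₂` -/
noncomputable def th1 (x : E) : E →L[ℝ] ℝ := frm (fun j y => t1c y j) x

/-- `F(T) th1 + H(T) reb` -/
noncomputable def FH (F H : ℝ → ℝ) (x : E) : E →L[ℝ] ℝ :=
  frm (fun j y => F (‖y‖ ^ 2) * t1c y j + H (‖y‖ ^ 2) * rbc y j / 3) x

/-- Components of `d lam`. -/
noncomputable def cof (lam : E → E →L[ℝ] ℝ) (x : E) (i j : Fin 4) : ℝ := co lam i j x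

end Pool.Agent.Lib.Shp
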