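import Pool.Agent.Lib.Shp.FlD

set_option autoImplicit false

/-!
# The flat example: the radial functions

`K = (1 + k) / (1 - k)`, `K² > 3/2` because `k > ks = 5 - 2 √6`. Let `a > 0` be small. `F = exp (-(K - 1) ∫_T^∞ χ(s) ds / s)`, `χ` smooth with values
in `[0, 1]`, `χ = 0` outside `[a, 1/2]`, `χ = 1` on `[2 a, 1/4]`; `H = e₀ F ^ (-γ) η`, `γ = 3 / (2 K)`, `η` smooth, `1` for `T ≤ 1/2`, `0` for
`T ≥ 1`. Then `φ = T F' / F` has values in `[0, K - 1]`, and `T F' ≤ k (2 F + T F')` is `φ ≤ 2 k / (1 - k) = K - 1`; for `T ≤ 1/2`: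
`T H' / 3 = -(γ φ / 3) H` and `γ φ / 3 ≤ k (1 - γ φ / 3)` because `γ (K - 1) / 3 = (K - 1) / (2 K) = k / (1 + k)`; for `T ≥ 1/2`: `F = 1`, `H = e₀ η`,
fine for small `e₀`. With `c = F a ≤ (8 a) ^ (K - 1)`, `e = e₀ c ^ (-γ)`: `c / (e √a) = c ^ (1 + γ) / (e₀ √a) ≤ C a ^ (K - 3 / (2 K)) → 0` as `a → 0`
(first choose `e₀`, then `a`).
-/

open MeasureTheory Set Metric
open scoped ContDiff

namespace Pool.Agent.Lib.Shp

namespace FlFAux

/-- The cut-off. -/
noncomputable def chi (a s : ℝ) : ℝ :=
  Real.smoothTransition ((s - a) / a) * Real.smoothTransition (4 * (1 / 2 - s))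

/-- The integrand. -/
noncomputable def q (a s : ℝ) : ℝ := chi a s / s

/-- The exponent. -/
noncomputable def g (a T : ℝ) : ℝ := ∫ s in T..1, q a s

/-- The outer cut-off. -/
noncomputable def eta (T : ℝ) : ℝ := Real.smoothTransition (2 * (1 - T))

theorem chi_nonneg (a s : ℝ) : 0 ≤ chi a s :=
  mul_nonneg (Real.smoothTransition.nonneg _) (Real.smoothTransition.nonneg _)

theorem chi_le_one (a s : ℝ) : chi a s ≤ 1 := by
  unfold chi
  exact mul_le_one₀ (Real.smoothTransition.le_one _) (Real.smoothTransition.nonneg _)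
    (Real.smoothTransition.le_one _)

theorem chi_low {a s : ℝ} (ha : 0 < a) (hs : s ≤ a) : chi a s = 0 := by
  unfold chi
  rw [Real.smoothTransition.zero_of_nonpos, zero_mul]
  exact div_nonpos_of_nonpos_of_nonneg (by linarith) ha.le

theorem chi_high {a s : ℝ} (hs : 1 / 2 ≤ s) : chi a s = 0 := by
  unfold chi
  rw [Real.smoothTransition.zero_of_nonpos (x := 4 * (1 / 2 - s)) (by linarith), mul_zero]

theorem chi_mid {a s : ℝ} (ha : 0 < a) (h1 : 2 * a ≤ s) (h2 : s ≤ 1 / 4) : chi a s = 1 := by
  unfold chi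
  rw [Real.smoothTransition.one_of_one_le, Real.smoothTransition.one_of_one_le, one_mul]
  · linarith
  · rw [le_div_iff₀ ha]
    linarith

theorem chi_contDiff (a : ℝ) : ContDiff ℝ ∞ (chi a) := by
  unfold chi
  have h1 : ContDiff ℝ ∞ (fun s : ℝ => Real.smoothTransition ((s - a) / a)) :=
    (Real.smoothTransition.contDiff (n := ⊤)).comp ((contDiff_id.sub contDiff_const).div_const a)
  have h2 : ContDiff ℝ ∞ (fun s : ℝ => Real.smoothTransition (4 * (1 / 2 - s))) :=
    (Real.smoothTransition.contDiff (n := ⊤)).comp (contDiff_const.mul (contDiff_const.sub contDiff_id))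
  exact h1.mul h2

theorem q_contDiff {a : ℝ} (ha : 0 < a) : ContDiff ℝ ∞ (q a) := by
  rw [contDiff_iff_contDiffAt]
  intro s
  rcases lt_or_ge s a with hs | hs
  · have : q a =ᶠ[nhds s] fun _ => (0 : ℝ) := by
      filter_upwards [Iio_mem_nhds hs] with t ht
      unfold q
      rw [chi_low ha (le_of_lt ht), zero_div]
    exact contDiffAt_const.congr_of_eventuallyEq this
  · have hs0 : 0 < s := by linarith
    exact (chi_contDiff a).contDiffAt.div contDiffAt_id hs0.ne'

theorem q_nonneg {a : ℝ} (ha : 0 < a) (s : ℝ) : 0 ≤ q a s := by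
  unfold q
  rcases le_or_gt s a with hs | hs
  · rw [chi_low ha hs, zero_div]
  · exact div_nonneg (chi_nonneg a s) (by linarith)

theorem mul_q {a : ℝ} (ha : 0 < a) (s : ℝ) : s * q a s = chi a s := by
  unfold q
  rcases le_or_gt s a with hs | hs
  · rw [chi_low ha hs, zero_div, mul_zero]
  · have hs0 : s ≠ 0 := (by linarith : (0 : ℝ) < s).ne'
    field_simp

theorem hasDeriv_g {a : ℝ} (ha : 0 < a) (T : ℝ) : HasDerivAt (g a) (-q a T) T := by
  have hc : Continuous (q a) := (q_contDiff ha).continuous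
  exact intervalIntegral.integral_hasDerivAt_left (hc.intervalIntegrable _ _)
    (hc.stronglyMeasurableAtFilter _ _) hc.continuousAt

theorem g_contDiff {a : ℝ} (ha : 0 < a) : ContDiff ℝ ∞ (g a) := by
  rw [contDiff_infty_iff_deriv]
  refine ⟨fun T => (hasDeriv_g ha T).differentiableAt, ?_⟩
  have : deriv (g a) = fun T => -q a T := funext fun T => (hasDeriv_g ha T).deriv
  rw [this]
  exact (q_contDiff ha).neg

theorem g_high {a T : ℝ} (hT : 1 / 2 ≤ T) : g a T = 0 := by
  unfold g
  have : ∫ s in T..1, q a s = ∫ s in T..1, (0 : ℝ) := by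
    apply intervalIntegral.integral_congr
    intro s hs
    rw [Set.mem_uIcc] at hs
    have : 1 / 2 ≤ s := by rcases hs with h | h <;> linarith [h.1]
    simp only [q]
    rw [chi_high this, zero_div]
  rw [this]
  simp

theorem g_low {a T : ℝ} (ha : 0 < a) (hT : T ≤ a) : g a T = g a a := by
  unfold g
  have hc : Continuous (q a) := (q_contDiff ha).continuous
  rw [← intervalIntegral.integral_add_adjacent_intervals (b := a) (hc.intervalIntegrable _ _)
    (hc.intervalIntegrable _ _)]
  have : ∫ s in T..a, q a s = ∫ s in T..a, (0 : ℝ) := by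
    apply intervalIntegral.integral_congr
    intro s hs
    rw [Set.mem_uIcc] at hs
    have : s ≤ a := by rcases hs with h | h <;> linarith [h.2]
    simp only [q]
    rw [chi_low ha this, zero_div]
  rw [this]
  simp

theorem g_ge {a : ℝ} (ha : 0 < a) (ha8 : a ≤ 1 / 8) : Real.log (1 / (8 * a)) ≤ g a a := by
  unfold g
  have hc : Continuous (q a) := (q_contDiff ha).continuous
  rw [← intervalIntegral.integral_add_adjacent_intervals (a := a) (b := 2 * a) (c := 1)
      (hc.intervalIntegrable _ _) (hc.intervalIntegrable _ _),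
    ← intervalIntegral.integral_add_adjacent_intervals (a := 2 * a) (b := 1 / 4) (c := 1)
      (hc.intervalIntegrable _ _) (hc.intervalIntegrable _ _)]
  have h1 : 0 ≤ ∫ s in a..(2 * a), q a s :=
    intervalIntegral.integral_nonneg (by linarith) (fun s _ => q_nonneg ha s)
  have h3 : 0 ≤ ∫ s in (1 / 4)..(1 : ℝ), q a s :=
    intervalIntegral.integral_nonneg (by norm_num) (fun s _ => q_nonneg ha s)
  have h2 : ∫ s in (2 * a)..(1 / 4), q a s = Real.log (1 / (8 * a)) := by
    have : ∫ s in (2 * a)..(1 / 4), q a s = ∫ s in (2 * a)..(1 / 4), s⁻¹ := by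
      apply intervalIntegral.integral_congr
      intro s hs
      rw [Set.uIcc_of_le (by linarith)] at hs
      simp only [q]
      rw [chi_mid ha hs.1 hs.2, one_div]
    rw [this, integral_inv_of_pos (by linarith) (by norm_num)]
    congr 1
    field_simp
    norm_num
  linarith

theorem eta_contDiff : ContDiff ℝ ∞ eta := by
  unfold eta
  exact (Real.smoothTransition.contDiff (n := ⊤)).comp (contDiff_const.mul (contDiff_const.sub contDiff_id))

theorem eta_low {T : ℝ} (hT : T ≤ 1 / 2) : eta T = 1 :=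
  Real.smoothTransition.one_of_one_le (by linarith)

theorem eta_high {T : ℝ} (hT : 1 ≤ T) : eta T = 0 :=
  Real.smoothTransition.zero_of_nonpos (by linarith)

theorem deriv_eta_low {T : ℝ} (hT : T < 1 / 2) : deriv eta T = 0 := by
  have : eta =ᶠ[nhds T] fun _ => (1 : ℝ) := by
    filter_upwards [Iio_mem_nhds hT] with t ht
    exact eta_low (le_of_lt ht)
  rw [this.deriv_eq, deriv_const]

theorem deriv_eta_high {T : ℝ} (hT : 1 < T) : deriv eta T = 0 := by
  have : eta =ᶠ[nhds T] fun _ => (0 : ℝ) := by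
    filter_upwards [Ioi_mem_nhds hT] with t ht
    exact eta_high (le_of_lt ht)
  rw [this.deriv_eq, deriv_const]

theorem exists_bound : ∃ B : ℝ, 0 ≤ B ∧ ∀ T ∈ Icc (0 : ℝ) 1, |deriv eta T| ≤ B := by
  have hc : Continuous (deriv eta) := (contDiff_infty_iff_deriv.1 eta_contDiff).2.continuous
  obtain ⟨B, hB⟩ := (isCompact_Icc (a := (0 : ℝ)) (b := 1)).exists_bound_of_continuousOn hc.continuousOn
  refine ⟨B, ?_, fun T hT => ?_⟩
  · exact le_trans (norm_nonneg _) (hB 0 (by simp))
  · exact hB T hT

theorem ks_pos : 0 < ks := by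
  unfold ks
  have h : Real.sqrt 6 < 5 / 2 := by
    rw [Real.sqrt_lt' (by norm_num)]
    norm_num
  linarith

/-- The exponent of the final estimate is positive. -/
theorem delta_pos {k : ℝ} (hk : ks < k) (hk1 : k < 1) :
    0 < 2 * k / (1 - k) + 3 * k / (1 + k) - 1 / 2 := by
  have hk0 : 0 < k := ks_pos.trans hk
  have h1 : 0 < 1 - k := by linarith
  have h2 : 0 < 1 + k := by linarith
  have h6 : Real.sqrt 6 ^ 2 = 6 := Real.sq_sqrt (by norm_num)
  have h60 : 0 ≤ Real.sqrt 6 := Real.sqrt_nonneg _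
  have hlt : 5 - k < 2 * Real.sqrt 6 := by
    unfold ks at hk
    linarith
  have hsq : (5 - k) ^ 2 < 24 := by
    have : (5 - k) ^ 2 < (2 * Real.sqrt 6) ^ 2 := by
      apply pow_lt_pow_left₀ hlt (by linarith) (by norm_num)
    nlinarith
  have : 2 * k / (1 - k) + 3 * k / (1 + k) - 1 / 2 = (10 * k - k ^ 2 - 1) / (2 * (1 - k) * (1 + k)) := by
    field_simp
    ring
  rw [this]
  apply div_pos
  · nlinarith
  · positivity

end FlFAux

open FlFAux in
theorem exists_FH {k : ℝ} (hk : ks < k) (hk1 : k < 1) (C : ℝ) : ∃ (F H : ℝ → ℝ) (a c e : ℝ),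
    0 < a ∧ a ≤ 1 / 4 ∧ 0 < c ∧ 0 < e ∧ ContDiff ℝ ∞ F ∧ ContDiff ℝ ∞ H ∧
    (∀ T ≤ a, F T = c ∧ H T = e) ∧ (∀ T, 1 ≤ T → F T = 1 ∧ H T = 0) ∧ C * c ≤ e * Real.sqrt a ∧
    ∀ T m : ℝ, 0 ≤ m → m ≤ T → (T * deriv F T) ^ 2 + (T * deriv H T / 3) ^ 2 * m ≤
      k ^ 2 * ((2 * F T + T * deriv F T) ^ 2 + (H T + T * deriv H T / 3) ^ 2 * m) := by
  have hk0 : 0 < k := ks_pos.trans hk
  have h1 : 0 < 1 - k := by linarith
  have h2 : 0 < 1 + k := by linarith
  obtain ⟨B, hB0, hB⟩ := exists_bound
  have hd := delta_pos hk hk1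
  set κ : ℝ := 2 * k / (1 - k) with hκ
  set β : ℝ := 3 * k / (1 + k) with hβ
  set δ : ℝ := κ + β - 1 / 2 with hδ
  have hκ0 : 0 < κ := by positivity
  have hβ0 : 0 < β := by positivity
  set e0 : ℝ := k / (B + 1) with he0
  have he0p : 0 < e0 := by positivity
  -- the choice of a
  set L : ℝ := (|C| * Real.sqrt 8 / e0) / δ with hL
  have hL0 : 0 ≤ L := by positivity
  set a : ℝ := Real.exp (-L) / 8 with hadef
  have ha : 0 < a := by positivity
  have ha8 : a ≤ 1 / 8 := by
    rw [hadef]
    have : Real.exp (-L) ≤ 1 := Real.exp_le_one_iff.2 (by linarith)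
    linarith
  have hlog : Real.log (1 / (8 * a)) = L := by
    have : 1 / (8 * a) = Real.exp L := by
      rw [hadef, Real.exp_neg]
      field_simp
    rw [this, Real.log_exp]
  have hg0 : L ≤ g a a := by
    rw [← hlog]
    exact g_ge ha ha8
  -- the functions
  set F : ℝ → ℝ := fun T => Real.exp (-κ * g a T) with hF
  set H : ℝ → ℝ := fun T => e0 * Real.exp (β * g a T) * eta T with hH
  have hFd : ∀ T, HasDerivAt F (κ * q a T * F T) T := by
    intro T
    have := ((hasDeriv_g ha T).const_mul (-κ)).exp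
    convert this using 1
    rw [hF]
    ring
  have hHd : ∀ T, HasDerivAt H (-(β * q a T) * H T + e0 * Real.exp (β * g a T) * deriv eta T) T := by
    intro T
    have hE := (((hasDeriv_g ha T).const_mul β).exp).const_mul e0
    have hη : HasDerivAt eta (deriv eta T) T :=
      ((eta_contDiff.differentiable (by simp)) T).hasDerivAt
    have := hE.mul hη
    exact this.congr_deriv (by simp only [hH]; ring)
  have hFc : ContDiff ℝ ∞ F := ((contDiff_const.mul (g_contDiff ha))).exp
  have hHc : ContDiff ℝ ∞ H :=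
    (contDiff_const.mul ((contDiff_const.mul (g_contDiff ha)).exp)).mul eta_contDiff
  refine ⟨F, H, a, Real.exp (-κ * g a a), e0 * Real.exp (β * g a a), ha, by linarith, Real.exp_pos _,
    by positivity, hFc, hHc, ?_, ?_, ?_, ?_⟩
  · intro T hT
    refine ⟨?_, ?_⟩
    · simp only [hF]
      rw [g_low ha hT]
    · simp only [hH]
      rw [g_low ha hT, eta_low (by linarith), mul_one]
  · intro T hT
    refine ⟨?_, ?_⟩
    · simp only [hF]
      rw [g_high (by linarith), mul_zero, Real.exp_zero]
    · simp only [hH]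
      rw [eta_high hT, mul_zero]
  · -- C c ≤ e √a
    have hsq : Real.sqrt a = Real.exp (-L / 2) / Real.sqrt 8 := by
      rw [hadef, Real.sqrt_div (Real.exp_pos _).le, ← Real.exp_half]
    have h8 : 0 < Real.sqrt 8 := by positivity
    have hCe : |C| * Real.sqrt 8 / e0 ≤ Real.exp (δ * L) := by
      have : δ * L = |C| * Real.sqrt 8 / e0 := by
        rw [hL]
        field_simp
      rw [this]
      have := Real.add_one_le_exp (|C| * Real.sqrt 8 / e0)
      linarith
    have hmain : |C| ≤ e0 * Real.exp ((κ + β) * g a a) * Real.sqrt a := by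
      rw [hsq]
      have hexp : Real.exp (δ * L) ≤ Real.exp ((κ + β) * g a a) * Real.exp (-L / 2) := by
        rw [← Real.exp_add]
        apply Real.exp_le_exp.2
        have : (κ + β) * L ≤ (κ + β) * g a a := mul_le_mul_of_nonneg_left hg0 (by positivity)
        rw [hδ]
        linarith
      have h3 : |C| * Real.sqrt 8 / e0 ≤ Real.exp ((κ + β) * g a a) * Real.exp (-L / 2) := hCe.trans hexp
      rw [div_le_iff₀ he0p] at h3
      have : e0 * Real.exp ((κ + β) * g a a) * (Real.exp (-L / 2) / Real.sqrt 8) =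
          (Real.exp ((κ + β) * g a a) * Real.exp (-L / 2) * e0) / Real.sqrt 8 := by ring
      rw [this, le_div_iff₀ h8]
      exact h3
    have hsplit : Real.exp ((κ + β) * g a a) = Real.exp (κ * g a a) * Real.exp (β * g a a) := by
      rw [← Real.exp_add]
      ring_nf
    have hinv : Real.exp (-κ * g a a) * Real.exp (κ * g a a) = 1 := by
      rw [← Real.exp_add]
      simp
    calc C * Real.exp (-κ * g a a) ≤ |C| * Real.exp (-κ * g a a) :=
          mul_le_mul_of_nonneg_right (le_abs_self C) (Real.exp_pos _).le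
      _ ≤ (e0 * Real.exp ((κ + β) * g a a) * Real.sqrt a) * Real.exp (-κ * g a a) :=
          mul_le_mul_of_nonneg_right hmain (Real.exp_pos _).le
      _ = e0 * Real.exp (β * g a a) * Real.sqrt a * (Real.exp (-κ * g a a) * Real.exp (κ * g a a)) := by
          rw [hsplit]; ring
      _ = e0 * Real.exp (β * g a a) * Real.sqrt a := by rw [hinv, mul_one]
  · intro T m hm hmT
    have hT0 : 0 ≤ T := hm.trans hmT
    have hTF : T * deriv F T = κ * chi a T * F T := by
      rw [(hFd T).deriv, ← mul_q ha T]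
      ring
    have hTH : T * deriv H T = -(β * chi a T) * H T + e0 * Real.exp (β * g a T) * (T * deriv eta T) := by
      rw [(hHd T).deriv, ← mul_q ha T]
      ring
    have hFp : 0 < F T := Real.exp_pos _
    have hχ0 := chi_nonneg a T
    have hχ1 := chi_le_one a T
    rw [hTF, hTH]
    have hφ : κ * chi a T * (1 - k) ≤ 2 * k := by
      have : κ * (1 - k) = 2 * k := by
        rw [hκ]
        field_simp
      calc κ * chi a T * (1 - k) = (κ * (1 - k)) * chi a T := by ring
        _ = 2 * k * chi a T := by rw [this]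
        _ ≤ 2 * k * 1 := mul_le_mul_of_nonneg_left hχ1 (by linarith)
        _ = 2 * k := by ring
    have hA : (κ * chi a T * F T) ^ 2 ≤ k ^ 2 * (2 * F T + κ * chi a T * F T) ^ 2 := by
      rw [← mul_pow]
      apply pow_le_pow_left₀ (by positivity)
      have : 0 ≤ (2 * k - κ * chi a T * (1 - k)) * F T := mul_nonneg (by linarith) hFp.le
      nlinarith
    rcases lt_or_ge T (1 / 2) with hT | hT
    · rw [deriv_eta_low hT, mul_zero, mul_zero, add_zero]
      have hψ : β * chi a T * (1 + k) ≤ 3 * k := by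
        have : β * (1 + k) = 3 * k := by
          rw [hβ]
          field_simp
        calc β * chi a T * (1 + k) = (β * (1 + k)) * chi a T := by ring
          _ = 3 * k * chi a T := by rw [this]
          _ ≤ 3 * k * 1 := mul_le_mul_of_nonneg_left hχ1 (by linarith)
          _ = 3 * k := by ring
      set ψ : ℝ := β * chi a T with hψd
      have hψ0 : 0 ≤ ψ := by positivity
      have hBnd : (-ψ * H T / 3) ^ 2 ≤ k ^ 2 * (H T + -ψ * H T / 3) ^ 2 := by
        have e1 : (-ψ * H T / 3) ^ 2 = (ψ / 3) ^ 2 * H T ^ 2 := by ring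
        have e2 : k ^ 2 * (H T + -ψ * H T / 3) ^ 2 = (k * (1 - ψ / 3)) ^ 2 * H T ^ 2 := by ring
        rw [e1, e2]
        apply mul_le_mul_of_nonneg_right _ (sq_nonneg _)
        apply pow_le_pow_left₀ (by positivity)
        nlinarith
      have := mul_le_mul_of_nonneg_right hBnd hm
      nlinarith
    · rw [chi_high hT, g_high hT]
      have hFT : F T = 1 := by
        simp only [hF]
        rw [g_high hT, mul_zero, Real.exp_zero]
      rw [hFT]
      simp only [mul_zero, zero_mul, neg_zero, Real.exp_zero, mul_one, zero_add, add_zero]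
      have hsm : (e0 * (T * deriv eta T) / 3) ^ 2 * m ≤ k ^ 2 * 4 := by
        rcases le_or_gt T 1 with hT1 | hT1
        · have hb : |deriv eta T| ≤ B := hB T ⟨hT0, hT1⟩
          have hb1 : |e0 * (T * deriv eta T) / 3| ≤ k := by
            rw [abs_div, abs_mul, abs_mul, abs_of_pos he0p, abs_of_nonneg hT0,
              abs_of_pos (by norm_num : (0 : ℝ) < 3)]
            have h4 : T * |deriv eta T| ≤ B := by
              calc T * |deriv eta T| ≤ 1 * |deriv eta T| :=
                    mul_le_mul_of_nonneg_right hT1 (abs_nonneg _)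
                _ ≤ B := by rw [one_mul]; exact hb
            have h5 : e0 * (T * |deriv eta T|) ≤ e0 * (B + 1) :=
              mul_le_mul_of_nonneg_left (by linarith) he0p.le
            have h6 : e0 * (B + 1) = k := by
              rw [he0]
              field_simp
            rw [div_le_iff₀ (by norm_num : (0 : ℝ) < 3)]
            linarith
          have hb2 : (e0 * (T * deriv eta T) / 3) ^ 2 ≤ k ^ 2 := by
            rw [← sq_abs]
            exact pow_le_pow_left₀ (abs_nonneg _) hb1 2
          calc (e0 * (T * deriv eta T) / 3) ^ 2 * m ≤ k ^ 2 * 1 :=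
                mul_le_mul hb2 (hmT.trans hT1) hm (sq_nonneg _)
            _ ≤ k ^ 2 * 4 := mul_le_mul_of_nonneg_left (by norm_num) (sq_nonneg _)
        · rw [deriv_eta_high hT1]
          simp only [mul_zero, zero_div]
          have : (0 : ℝ) ^ 2 * m = 0 := by ring
          rw [this]
          positivity
      have hnn : 0 ≤ (H T + e0 * (T * deriv eta T) / 3) ^ 2 * m := by positivity
      have : 0 ≤ k ^ 2 * ((H T + e0 * (T * deriv eta T) / 3) ^ 2 * m) := by positivity
      nlinarith

end Pool.Agent.Lib.Shp
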