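import Pool.Agent.Lib.Shp.FlD

set_option autoImplicit false

/-!
# The flat example: exterior derivatives

`co_frm`: `d (∑ g_j dx_j)`. `FH_co`: the components of `d (FH F H)`. `FH_U`, `FH_V`: polynomial identities.
-/

open MeasureTheory Set Metric
open scoped ContDiff

namespace Pool.Agent.Lib.Shp

open Pool.Agent.P28b04d Pool.Agent.Lib.Psd Pool.Agent.Lib.Pex

theorem frm_apply (g : Fin 4 → E → ℝ) (x v : E) : frm g x v = ∑ j, g j x * v j := by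
  simp [frm]

theorem frm_smooth {g : Fin 4 → E → ℝ} (hg : ∀ j, ContDiff ℝ ∞ (g j)) : ContDiff ℝ ∞ (frm g) := by
  unfold frm
  exact ContDiff.sum fun j _ => (hg j).smul contDiff_const

theorem co_frm {g : Fin 4 → E → ℝ} (hg : ∀ j, ContDiff ℝ ∞ (g j)) (x : E) (i j : Fin 4) :
    co (frm g) i j x = pd i (g j) x - pd j (g i) x := by
  have hd : ∀ j, HasFDerivAt (g j) (fderiv ℝ (g j) x) x := fun j =>
    ((hg j).differentiable (by simp)).differentiableAt.hasFDerivAt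
  have h : HasFDerivAt (frm g) (∑ j, (fderiv ℝ (g j) x).smulRight
      (EuclideanSpace.proj (𝕜 := ℝ) j : E →L[ℝ] ℝ)) x := by
    have h1 : HasFDerivAt (fun y => ∑ j, g j y • (EuclideanSpace.proj (𝕜 := ℝ) j : E →L[ℝ] ℝ))
        (∑ j, (fderiv ℝ (g j) x).smulRight (EuclideanSpace.proj (𝕜 := ℝ) j : E →L[ℝ] ℝ)) x := by
      refine HasFDerivAt.fun_sum fun j _ => ?_
      exact (hd j).smul_const (EuclideanSpace.proj (𝕜 := ℝ) j : E →L[ℝ] ℝ)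
    exact h1
  unfold co dd
  rw [h.fderiv]
  simp only [ContinuousLinearMap.sum_apply, ContinuousLinearMap.smulRight_apply,
    ContinuousLinearMap.smul_apply, smul_eq_mul, ev, pd]
  simp [Finset.sum_ite_eq]

theorem th1_eq (x : E) : th1 x = innerSL ℝ (Mv 2 x) := by
  ext v
  rw [th1, frm_apply, innerSL_apply_apply, inner_four, Fin.sum_univ_four]
  simp [t1c, Mv_apply, Mf]

theorem t1c_smooth (j : Fin 4) : ContDiff ℝ ∞ (fun y : E => t1c y j) := by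
  have hc : ∀ k : Fin 4, ContDiff ℝ ∞ (fun y : E => y k) := fun k =>
    (EuclideanSpace.proj (𝕜 := ℝ) k : E →L[ℝ] ℝ).contDiff
  fin_cases j
  · exact (hc 1).neg
  · exact hc 0
  · exact (hc 3).neg
  · exact hc 2

theorem rbc_smooth (j : Fin 4) : ContDiff ℝ ∞ (fun y : E => rbc y j) := by
  have hc : ∀ k : Fin 4, ContDiff ℝ ∞ (fun y : E => y k) := fun k =>
    (EuclideanSpace.proj (𝕜 := ℝ) k : E →L[ℝ] ℝ).contDiff
  fin_cases j
  · exact (((hc 0).mul (hc 2)).sub ((hc 1).mul (hc 3))).neg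
  · exact ((hc 0).mul (hc 3)).add ((hc 1).mul (hc 2))
  · exact ((hc 0).pow 2).sub ((hc 1).pow 2)
  · exact contDiff_const.mul ((hc 0).mul (hc 1))

theorem nsq_smooth {F : ℝ → ℝ} (hF : ContDiff ℝ ∞ F) : ContDiff ℝ ∞ (fun y : E => F (‖y‖ ^ 2)) :=
  hF.comp (contDiff_norm_sq ℝ)

theorem FHc_smooth {F H : ℝ → ℝ} (hF : ContDiff ℝ ∞ F) (hH : ContDiff ℝ ∞ H) (j : Fin 4) :
    ContDiff ℝ ∞ (fun y : E => F (‖y‖ ^ 2) * t1c y j + H (‖y‖ ^ 2) * rbc y j / 3) :=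
  ((nsq_smooth hF).mul (t1c_smooth j)).add (((nsq_smooth hH).mul (rbc_smooth j)).div_const 3)

theorem FH_smooth {F H : ℝ → ℝ} (hF : ContDiff ℝ ∞ F) (hH : ContDiff ℝ ∞ H) :
    ContDiff ℝ ∞ (FH F H) :=
  frm_smooth (FHc_smooth hF hH)

namespace FlRAux

/-- derivatives of `t1c` -/
def dt (i j : Fin 4) : ℝ :=
  (![![0, 1, 0, 0], ![-1, 0, 0, 0], ![0, 0, 0, 1], ![0, 0, -1, 0]] : Fin 4 → Fin 4 → ℝ) i j

/-- derivatives of `rbc` -/
def dr (x : E) (i j : Fin 4) : ℝ :=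
  (![![-x 2, x 3, 2 * x 0, -2 * x 1], ![x 3, x 2, -2 * x 1, -2 * x 0], ![-x 0, x 1, 0, 0],
    ![x 1, x 0, 0, 0]] : Fin 4 → Fin 4 → ℝ) i j

theorem hp (k : Fin 4) (x : E) :
    HasFDerivAt (fun y : E => y k) (EuclideanSpace.proj (𝕜 := ℝ) k : E →L[ℝ] ℝ) x :=
  (EuclideanSpace.proj (𝕜 := ℝ) k : E →L[ℝ] ℝ).hasFDerivAt

theorem pd_t1c (x : E) (i j : Fin 4) : pd i (fun y => t1c y j) x = dt i j := by
  have h0 : HasFDerivAt (fun y : E => t1c y 0) (-(EuclideanSpace.proj (𝕜 := ℝ) 1 : E →L[ℝ] ℝ)) x :=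
    (hp 1 x).neg
  have h1 : HasFDerivAt (fun y : E => t1c y 1) (EuclideanSpace.proj (𝕜 := ℝ) 0 : E →L[ℝ] ℝ) x :=
    hp 0 x
  have h2 : HasFDerivAt (fun y : E => t1c y 2) (-(EuclideanSpace.proj (𝕜 := ℝ) 3 : E →L[ℝ] ℝ)) x :=
    (hp 3 x).neg
  have h3 : HasFDerivAt (fun y : E => t1c y 3) (EuclideanSpace.proj (𝕜 := ℝ) 2 : E →L[ℝ] ℝ) x :=
    hp 2 x
  unfold pd
  fin_cases j
  · rw [show (fun y : E => t1c y ((fun i => i) ⟨0, by omega⟩ : Fin 4)) = fun y : E => t1c y 0 from rfl,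
      h0.fderiv]
    fin_cases i <;> simp [dt, ev]
  · rw [show (fun y : E => t1c y ((fun i => i) ⟨1, by omega⟩ : Fin 4)) = fun y : E => t1c y 1 from rfl,
      h1.fderiv]
    fin_cases i <;> simp [dt, ev]
  · rw [show (fun y : E => t1c y ((fun i => i) ⟨2, by omega⟩ : Fin 4)) = fun y : E => t1c y 2 from rfl,
      h2.fderiv]
    fin_cases i <;> simp [dt, ev]
  · rw [show (fun y : E => t1c y ((fun i => i) ⟨3, by omega⟩ : Fin 4)) = fun y : E => t1c y 3 from rfl,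
      h3.fderiv]
    fin_cases i <;> simp [dt, ev]

theorem pd_rbc (x : E) (i j : Fin 4) : pd i (fun y => rbc y j) x = dr x i j := by
  have h0 : HasFDerivAt (fun y : E => rbc y 0) (-((x 0 • (EuclideanSpace.proj (𝕜 := ℝ) 2 : E →L[ℝ] ℝ) +
      x 2 • (EuclideanSpace.proj (𝕜 := ℝ) 0 : E →L[ℝ] ℝ)) -
      (x 1 • (EuclideanSpace.proj (𝕜 := ℝ) 3 : E →L[ℝ] ℝ) +
      x 3 • (EuclideanSpace.proj (𝕜 := ℝ) 1 : E →L[ℝ] ℝ)))) x :=
    (((hp 0 x).mul (hp 2 x)).sub ((hp 1 x).mul (hp 3 x))).neg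
  have h1 : HasFDerivAt (fun y : E => rbc y 1) ((x 0 • (EuclideanSpace.proj (𝕜 := ℝ) 3 : E →L[ℝ] ℝ) +
      x 3 • (EuclideanSpace.proj (𝕜 := ℝ) 0 : E →L[ℝ] ℝ)) +
      (x 1 • (EuclideanSpace.proj (𝕜 := ℝ) 2 : E →L[ℝ] ℝ) +
      x 2 • (EuclideanSpace.proj (𝕜 := ℝ) 1 : E →L[ℝ] ℝ))) x :=
    ((hp 0 x).mul (hp 3 x)).add ((hp 1 x).mul (hp 2 x))
  have h2 : HasFDerivAt (fun y : E => rbc y 2)
      ((x 0 • (EuclideanSpace.proj (𝕜 := ℝ) 0 : E →L[ℝ] ℝ) + x 0 • (EuclideanSpace.proj (𝕜 := ℝ) 0 : E →L[ℝ] ℝ)) -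
      (x 1 • (EuclideanSpace.proj (𝕜 := ℝ) 1 : E →L[ℝ] ℝ) + x 1 • (EuclideanSpace.proj (𝕜 := ℝ) 1 : E →L[ℝ] ℝ))) x := by
    have e : (fun y : E => rbc y 2) = fun y : E => y 0 * y 0 - y 1 * y 1 := by
      funext y
      show y 0 ^ 2 - y 1 ^ 2 = _
      ring
    rw [e]
    exact ((hp 0 x).mul (hp 0 x)).sub ((hp 1 x).mul (hp 1 x))
  have h3 : HasFDerivAt (fun y : E => rbc y 3) ((-2 : ℝ) • (x 0 • (EuclideanSpace.proj (𝕜 := ℝ) 1 : E →L[ℝ] ℝ) +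
      x 1 • (EuclideanSpace.proj (𝕜 := ℝ) 0 : E →L[ℝ] ℝ))) x :=
    ((hp 0 x).mul (hp 1 x)).const_mul (-2)
  unfold pd
  fin_cases j
  · rw [show (fun y : E => rbc y ((fun i => i) ⟨0, by omega⟩ : Fin 4)) = fun y : E => rbc y 0 from rfl,
      h0.fderiv]
    fin_cases i <;> simp [dr, ev]
  · rw [show (fun y : E => rbc y ((fun i => i) ⟨1, by omega⟩ : Fin 4)) = fun y : E => rbc y 1 from rfl,
      h1.fderiv]
    fin_cases i <;> simp [dr, ev]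
  · rw [show (fun y : E => rbc y ((fun i => i) ⟨2, by omega⟩ : Fin 4)) = fun y : E => rbc y 2 from rfl,
      h2.fderiv]
    fin_cases i <;> simp [dr, ev] <;> ring
  · rw [show (fun y : E => rbc y ((fun i => i) ⟨3, by omega⟩ : Fin 4)) = fun y : E => rbc y 3 from rfl,
      h3.fderiv]
    fin_cases i <;> simp [dr, ev]

theorem pd_nsq {F : ℝ → ℝ} (hF : ContDiff ℝ ∞ F) (x : E) (i : Fin 4) :
    pd i (fun y => F (‖y‖ ^ 2)) x = deriv F (‖x‖ ^ 2) * (2 * x i) := by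
  have h1 : HasFDerivAt (fun y : E => ‖y‖ ^ 2) (2 • innerSL ℝ x) x :=
    (hasStrictFDerivAt_norm_sq x).hasFDerivAt
  have h2 : HasDerivAt F (deriv F (‖x‖ ^ 2)) (‖x‖ ^ 2) :=
    ((hF.differentiable (by simp)).differentiableAt).hasDerivAt
  have h3 : HasFDerivAt (fun y : E => F (‖y‖ ^ 2)) (deriv F (‖x‖ ^ 2) • (2 • innerSL ℝ x)) x :=
    h2.comp_hasFDerivAt x h1
  unfold pd
  rw [h3.fderiv]
  simp only [ContinuousLinearMap.smul_apply, innerSL_apply_apply, smul_eq_mul, nsmul_eq_mul, ev]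
  rw [real_inner_comm, EuclideanSpace.inner_single_left]
  simp

theorem pd_mul {f g : E → ℝ} (hf : ContDiff ℝ ∞ f) (hg : ContDiff ℝ ∞ g) (x : E) (i : Fin 4) :
    pd i (fun y => f y * g y) x = f x * pd i g x + g x * pd i f x := by
  have h1 := ((hf.differentiable (by simp)).differentiableAt (x := x)).hasFDerivAt
  have h2 := ((hg.differentiable (by simp)).differentiableAt (x := x)).hasFDerivAt
  unfold pd
  rw [(h1.fun_mul h2).fderiv]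
  simp

theorem pd_add {f g : E → ℝ} (hf : ContDiff ℝ ∞ f) (hg : ContDiff ℝ ∞ g) (x : E) (i : Fin 4) :
    pd i (fun y => f y + g y) x = pd i f x + pd i g x := by
  have h1 := ((hf.differentiable (by simp)).differentiableAt (x := x)).hasFDerivAt
  have h2 := ((hg.differentiable (by simp)).differentiableAt (x := x)).hasFDerivAt
  unfold pd
  rw [(h1.fun_add h2).fderiv]
  simp

theorem pd_div {f : E → ℝ} (hf : ContDiff ℝ ∞ f) (x : E) (i : Fin 4) (c : ℝ) :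
    pd i (fun y => f y / c) x = pd i f x / c := by
  have h1 := ((hf.differentiable (by simp)).differentiableAt (x := x)).hasFDerivAt
  unfold pd
  have h2 := h1.mul_const c⁻¹
  simp only [← div_eq_mul_inv] at h2
  rw [h2.fderiv]
  simp [div_eq_inv_mul]

theorem FH_co {F H : ℝ → ℝ} (hF : ContDiff ℝ ∞ F) (hH : ContDiff ℝ ∞ H) (x : E) (i j : Fin 4) :
    co (FH F H) i j x =
      (F (‖x‖ ^ 2) * dt i j + t1c x j * (deriv F (‖x‖ ^ 2) * (2 * x i)) +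
        (H (‖x‖ ^ 2) * dr x i j + rbc x j * (deriv H (‖x‖ ^ 2) * (2 * x i))) / 3) -
      (F (‖x‖ ^ 2) * dt j i + t1c x i * (deriv F (‖x‖ ^ 2) * (2 * x j)) +
        (H (‖x‖ ^ 2) * dr x j i + rbc x i * (deriv H (‖x‖ ^ 2) * (2 * x j))) / 3) := by
  have key : ∀ i j : Fin 4, pd i (fun y : E => F (‖y‖ ^ 2) * t1c y j + H (‖y‖ ^ 2) * rbc y j / 3) x =
      F (‖x‖ ^ 2) * dt i j + t1c x j * (deriv F (‖x‖ ^ 2) * (2 * x i)) +
        (H (‖x‖ ^ 2) * dr x i j + rbc x j * (deriv H (‖x‖ ^ 2) * (2 * x i))) / 3 := by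
    intro i j
    rw [pd_add ((nsq_smooth hF).mul (t1c_smooth j)) (((nsq_smooth hH).mul (rbc_smooth j)).div_const 3),
      pd_mul (nsq_smooth hF) (t1c_smooth j), pd_div ((nsq_smooth hH).mul (rbc_smooth j)),
      pd_mul (nsq_smooth hH) (rbc_smooth j), pd_nsq hF, pd_nsq hH, pd_t1c, pd_rbc]
  unfold FH
  rw [co_frm (FHc_smooth hF hH), key, key]

end FlRAux

open FlRAux

theorem FH_U {F H : ℝ → ℝ} (hF : ContDiff ℝ ∞ F) (hH : ContDiff ℝ ∞ H) (x : E) :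
    Uc (cof (FH F H) x) = ![2 * x 0 * (H (‖x‖ ^ 2) + ‖x‖ ^ 2 * deriv H (‖x‖ ^ 2) / 3),
      -2 * x 1 * (H (‖x‖ ^ 2) + ‖x‖ ^ 2 * deriv H (‖x‖ ^ 2) / 3),
      2 * (2 * F (‖x‖ ^ 2) + ‖x‖ ^ 2 * deriv F (‖x‖ ^ 2))] := by
  have hT := norm_sq_four x
  unfold Uc cof
  simp only [FH_co hF hH]
  generalize F (‖x‖ ^ 2) = f
  generalize deriv F (‖x‖ ^ 2) = f'
  generalize H (‖x‖ ^ 2) = h
  generalize deriv H (‖x‖ ^ 2) = h'
  rw [hT]
  ext i
  fin_cases i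
  · simp [dt, dr, t1c, rbc]
    ring
  · simp [dt, dr, t1c, rbc]
    ring
  · simp [dt, dr, t1c, rbc]
    ring

theorem FH_V {F H : ℝ → ℝ} (hF : ContDiff ℝ ∞ F) (hH : ContDiff ℝ ∞ H) (x : E) :
    ∑ i, Vc (cof (FH F H) x) i ^ 2 = 4 * ((‖x‖ ^ 2 * deriv F (‖x‖ ^ 2)) ^ 2 +
      (‖x‖ ^ 2 * deriv H (‖x‖ ^ 2) / 3) ^ 2 * (x 0 ^ 2 + x 1 ^ 2)) := by
  have hT := norm_sq_four x
  unfold Vc cof
  simp only [FH_co hF hH]
  generalize F (‖x‖ ^ 2) = f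
  generalize deriv F (‖x‖ ^ 2) = f'
  generalize H (‖x‖ ^ 2) = h
  generalize deriv H (‖x‖ ^ 2) = h'
  rw [hT, Fin.sum_univ_three]
  simp [dt, dr, t1c, rbc]
  ring

/-- the derivative of a sum -/
theorem cof_add {lam mu : E → E →L[ℝ] ℝ} (h : ContDiff ℝ ∞ lam) (h' : ContDiff ℝ ∞ mu) (x : E)
    (i j : Fin 4) : cof (fun y => lam y + mu y) x i j = cof lam x i j + cof mu x i j := by
  have h1 := ((h.differentiable (by simp)).differentiableAt (x := x)).hasFDerivAt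
  have h2 := ((h'.differentiable (by simp)).differentiableAt (x := x)).hasFDerivAt
  unfold cof co dd
  rw [(h1.fun_add h2).fderiv]
  simp only [ContinuousLinearMap.add_apply]
  ring

/-- scaling: for `lam_r x v = r lam (x / r) v` the derivative is `(d lam)(x / r)` -/
theorem cof_scale {lam : E → E →L[ℝ] ℝ} (h : ContDiff ℝ ∞ lam) {r : ℝ} (hr : 0 < r) (x : E)
    (i j : Fin 4) : cof (fun y => r • lam (r⁻¹ • y)) x i j = cof lam (r⁻¹ • x) i j := by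
  have h1 : HasFDerivAt lam (fderiv ℝ lam (r⁻¹ • x)) (r⁻¹ • x) :=
    ((h.differentiable (by simp)).differentiableAt (x := r⁻¹ • x)).hasFDerivAt
  have h2 : HasFDerivAt (fun y : E => r⁻¹ • y) (r⁻¹ • ContinuousLinearMap.id ℝ E) x :=
    (hasFDerivAt_id x).const_smul r⁻¹
  have h3 : HasFDerivAt (fun y : E => r • lam (r⁻¹ • y))
      (r • ((fderiv ℝ lam (r⁻¹ • x)).comp (r⁻¹ • ContinuousLinearMap.id ℝ E))) x :=
    (h1.comp x h2).const_smul r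
  have hr' : r ≠ 0 := hr.ne'
  unfold cof co dd
  rw [h3.fderiv]
  simp only [ContinuousLinearMap.smul_apply, ContinuousLinearMap.comp_apply, ContinuousLinearMap.id_apply,
    map_smul, smul_smul, mul_inv_cancel₀ hr', one_smul]

theorem cof_skew (lam : E → E →L[ℝ] ℝ) (x : E) : Skew (cof lam x) := by
  intro i j
  unfold cof co dd
  ring

end Pool.Agent.Lib.Shp
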