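import Pool.Agent.Lib.Shp.Bar
import Pool.Agent.Lib.Pex.Cen

set_option autoImplicit false

/-!
# The barrier at all radii and the absence of zeros

`Yb ≤ -2 sin^5 < 0` on `(0, π/2]`, the inequality `Th ≤ bm₂² + cos⁶ (bm₀² + bm₁²)` with its strict form, and the form of a connection
pinched by the critical constant does not vanish at the centre.
-/

open MeasureTheory Set Metric
open scoped ContDiff

namespace Pool.Agent.Lib.Shp

open Pool.Agent.P28b04d Pool.Agent.Lib.Psd Pool.Agent.Lib.Pex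

section
variable {α : W → W →L[ℝ] ℝ} {z u v : W}

theorem aa_two_half (hα : Conn α) (h : ON3 z u v) {x : E} (hx : ‖x‖ = 1) :
    aa α z u v (Real.pi / 2) 2 x = 1 := by
  have hne := zt_ne h (Real.pi / 2) (ne_of_norm hx)
  unfold aa
  have e1 : Real.sin (Real.pi / 2) • Lf u v (Mv 2 x) =
      Complex.I • zt z u v (Real.pi / 2) x := by
    unfold zt
    rw [Real.sin_pi_div_two, Real.cos_pi_div_two, one_smul, zero_smul, zero_add, one_smul,
      Mv_two, Lf_J4]
  rw [e1]
  exact hα.rot _ hne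

theorem bm_two_half (hα : Conn α) (h : ON3 z u v) : bm α z u v (Real.pi / 2) 2 = 2 := by
  rw [bm_eq hα.smooth h]
  have e : SA (aa α z u v (Real.pi / 2) 2) = SA fun _ => 1 :=
    SA_congr fun x hx => aa_two_half hα h hx
  rw [e, SA_const]
  norm_num

theorem Th_half_conn (hα : Conn α) (h : ON3 z u v) : Th α z u v (Real.pi / 2) = 2 := by
  refine Eq.trans (SA_congr (g := BB α z u v (Real.pi / 2) 2) fun x hx => ?_) (bm_two_half hα h)
  have hx0 := ne_of_norm hx
  have b0 : BB α z u v (Real.pi / 2) 0 x = 0 := by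
    rw [BB_eq (HK.of_conn hα) h _ _ hx0]
    simp [ww]
  have b1 : BB α z u v (Real.pi / 2) 1 x = 0 := by
    rw [BB_eq (HK.of_conn hα) h _ _ hx0]
    simp [ww]
  rw [Fin.sum_univ_three, b0, b1, aa_two_half hα h hx]
  ring

/-- the value at the end -/
theorem Yb_half (hα : Conn α) (h : ON3 z u v) : Yb α z u v (Real.pi / 2) = -2 := by
  unfold Yb
  rw [Th_half_conn hα h, bm_two_half hα h, Real.cos_pi_div_two]
  norm_num

/-- the monotone function -/
noncomputable def Fm (α : W → W →L[ℝ] ℝ) (z u v : W) (r : ℝ) : ℝ :=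
  Real.sin r ^ (-(2 * Real.sqrt 6)) * Yb α z u v r

theorem Fm_deriv (hα : Conn α) (h : ON3 z u v) {r : ℝ} (hs : 0 < Real.sin r) :
    HasDerivAt (Fm α z u v) (Real.sin r ^ (-(2 * Real.sqrt 6)) *
      (Yd α z u v r - 2 * Real.sqrt 6 * (Real.cos r / Real.sin r) * Yb α z u v r)) r := by
  have h1 := (Real.hasDerivAt_sin r).rpow_const (p := -(2 * Real.sqrt 6)) (Or.inl hs.ne')
  have h2 := h1.mul (Yb_deriv hα h r)
  refine HasDerivAt.congr_deriv (f := Fm α z u v) h2 ?_
  rw [Real.rpow_sub_one hs.ne']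
  field_simp
  ring

theorem Fm_mono (hα : Conn α) (hp : Pinched ks α) (h : ON3 z u v) :
    MonotoneOn (Fm α z u v) (Ioc 0 (Real.pi / 2)) := by
  have hpi := Real.pi_pos
  have hsin : ∀ r ∈ Ioc 0 (Real.pi / 2), 0 < Real.sin r := fun r hr =>
    Real.sin_pos_of_pos_of_lt_pi hr.1 (by linarith [hr.2])
  refine monotoneOn_of_deriv_nonneg (convex_Ioc _ _) ?_ ?_ ?_
  · exact fun r hr => (Fm_deriv hα h (hsin r hr)).continuousAt.continuousWithinAt
  · intro r hr
    rw [interior_Ioc] at hr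
    exact (Fm_deriv hα h (hsin r ⟨hr.1, hr.2.le⟩)).differentiableAt.differentiableWithinAt
  · intro r hr
    rw [interior_Ioc] at hr
    obtain ⟨hs, hc⟩ := sin_cos_pos hr.1 hr.2
    rw [(Fm_deriv hα h hs).deriv]
    refine mul_nonneg (Real.rpow_nonneg hs.le _) ?_
    have h1 := Y_ineq hα hp h hr.1 hr.2
    have hg0 : 0 < Real.sqrt 6 := Real.sqrt_pos.2 (by norm_num)
    have hg := s6_sq
    set g := Real.sqrt 6
    have h2 : 0 < g * (Real.cos r / Real.sin r) / 3 := by positivity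
    have h3 := mul_le_mul_of_nonneg_left h1 h2.le
    have e1 : g * (Real.cos r / Real.sin r) / 3 * (6 * Yb α z u v r) =
        2 * g * (Real.cos r / Real.sin r) * Yb α z u v r := by ring
    have e2 : g * (Real.cos r / Real.sin r) / 3 *
        (g * (Real.sin r / (2 * Real.cos r)) * Yd α z u v r) = Yd α z u v r := by
      have : g * (Real.cos r / Real.sin r) / 3 * (g * (Real.sin r / (2 * Real.cos r)) *
          Yd α z u v r) = g ^ 2 / 6 * (Real.cos r / Real.cos r * (Real.sin r / Real.sin r)) *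
            Yd α z u v r := by ring
      rw [this, hg, div_self hc.ne', div_self hs.ne']
      ring
    rw [e1, e2] at h3
    linarith

/-- the barrier, quantitative form -/
theorem Yb_le (hα : Conn α) (hp : Pinched ks α) (h : ON3 z u v) {r : ℝ} (h0 : 0 < r)
    (h1 : r ≤ Real.pi / 2) : Yb α z u v r ≤ -2 * Real.sin r ^ 5 := by
  have hpi := Real.pi_pos
  have hs : 0 < Real.sin r := Real.sin_pos_of_pos_of_lt_pi h0 (by linarith)
  have h2 := Fm_mono hα hp h ⟨h0, h1⟩ (right_mem_Ioc.2 (by linarith)) h1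
  unfold Fm at h2
  rw [Real.sin_pi_div_two, Real.one_rpow, one_mul, Yb_half hα h] at h2
  have hpos := Real.rpow_pos_of_pos hs (2 * Real.sqrt 6)
  have h3 : Yb α z u v r ≤ Real.sin r ^ (2 * Real.sqrt 6) * (-2) := by
    have h4 := mul_le_mul_of_nonneg_left h2 hpos.le
    rwa [← mul_assoc, ← Real.rpow_add hs, add_neg_cancel, Real.rpow_zero, one_mul] at h4
  have h5 : Real.sin r ^ (5 : ℝ) ≤ Real.sin r ^ (2 * Real.sqrt 6) :=
    Real.rpow_le_rpow_of_exponent_ge hs (Real.sin_le_one r) (by linarith [s6_hi])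
  have h6 : Real.sin r ^ (5 : ℝ) = Real.sin r ^ 5 := by
    rw [← Real.rpow_natCast]
    norm_num
  rw [h6] at h5
  linarith

/-- the barrier -/
theorem barrier (hα : Conn α) (hp : Pinched ks α) (h : ON3 z u v) {r : ℝ} (h0 : 0 < r)
    (h1 : r ≤ Real.pi / 2) : Th α z u v r < bm α z u v r 2 ^ 2 +
      Real.cos r ^ 6 * (bm α z u v r 0 ^ 2 + bm α z u v r 1 ^ 2) := by
  have h2 := Yb_le hα hp h h0 h1
  have hs : 0 < Real.sin r := Real.sin_pos_of_pos_of_lt_pi h0 (by linarith [Real.pi_pos])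
  have h3 : 0 < Real.sin r ^ 5 := by positivity
  unfold Yb at h2
  linarith

theorem ks_sq_lt : ks ^ 2 < 1 := by
  have h1 := ks_pos
  have h2 := ks_lt
  nlinarith

theorem Th_nonneg {k : ℝ} (hk0 : 0 ≤ k) (hk : k ≤ 1) (hα : Conn α) (hp : Pinched k α)
    (h : ON3 z u v) {r : ℝ} (hr : r ∈ Icc 0 (Real.pi / 2)) : 0 ≤ Th α z u v r := by
  rw [Th_sub (HK.of_conn hα) h]
  have h1 := Yn_le hα.smooth h (fun r => pin_v2 hα hp h r) hr
  have h2 : 0 ≤ Nn α z u v r :=
    nonneg_of_wt (fun r => Nn_deriv hα.smooth h r) Nn_zero (fun r _ => u2_nonneg r) hr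
  have h3 : k ^ 2 ≤ 1 := pow_le_one₀ hk0 hk
  nlinarith

/-- the form does not vanish at the centre -/
theorem centre (hα : Conn α) (hp : Pinched ks α) (h : ON3 z u v) :
    ∃ i j, Psd.cmp (dd α z) u v i j ≠ 0 := by
  by_contra hcon
  push Not at hcon
  have hsm : ∀ i, ∃ C : ℝ, 0 ≤ C ∧ ∀ r ∈ Icc (0 : ℝ) 1,
      |ub α z u v r i - vb α z u v r i| ≤ C * r := by
    intro i
    have s1 : ContDiff ℝ ∞ fun r => ub α z u v r i := SA_smooth (UU_joint hα.smooth h i)
    have s2 : ContDiff ℝ ∞ fun r => vb α z u v r i := SA_smooth (VV_joint hα.smooth h i)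
    obtain ⟨z1, z2⟩ := ub_zero hcon i
    exact lip_zero (s1.sub s2) (by rw [z1, z2, sub_zero])
  choose C hC0 hC using hsm
  -- the bound of the means
  have hpi := Real.pi_gt_three
  have hm : ∀ i, ∀ r ∈ Ioc (0 : ℝ) 1, bm α z u v r i ^ 2 ≤ C i ^ 2 * Real.sin r ^ 6 := by
    intro i r hr
    have hr2 : r < Real.pi / 2 := by linarith [hr.2]
    obtain ⟨hs, hc⟩ := sin_cos_pos hr.1 hr2
    have h1 := hC i r ⟨hr.1.le, hr.2⟩
    have hj : r ≤ 2 * Real.sin r := by
      have h4 := Real.mul_le_sin hr.1.le hr2.le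
      have h5 : 2 / Real.pi * r ≥ 1 / 2 * r := by
        have h6 : (1 : ℝ) / 2 ≤ 2 / Real.pi := by
          rw [div_le_div_iff₀ (by norm_num) Real.pi_pos]
          linarith [Real.pi_le_four]
        exact mul_le_mul_of_nonneg_right h6 hr.1.le
      linarith
    have h2 : |ub α z u v r i - vb α z u v r i| ≤ C i * (2 * Real.sin r) :=
      h1.trans (mul_le_mul_of_nonneg_left hj (hC0 i))
    have h3 : (ub α z u v r i - vb α z u v r i) ^ 2 ≤ (C i * (2 * Real.sin r)) ^ 2 := by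
      rw [← sq_abs]
      exact pow_le_pow_left₀ (abs_nonneg _) h2 2
    rw [bm_eq' (HK.of_conn hα) h]
    calc (ww r i * ((ub α z u v r i - vb α z u v r i) / 2)) ^ 2 =
        ww r i ^ 2 * ((ub α z u v r i - vb α z u v r i) ^ 2 / 4) := by ring
      _ ≤ Real.sin r ^ 4 * ((C i * (2 * Real.sin r)) ^ 2 / 4) := by
          have := ww_sq_le r i
          gcongr
      _ = _ := by ring
  set D : ℝ := C 0 ^ 2 + C 1 ^ 2 + C 2 ^ 2 with hD
  have hD0 : 0 ≤ D := by positivity
  have key : ∀ r ∈ Ioc (0 : ℝ) 1, 2 ≤ D * Real.sin r := by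
    intro r hr
    have hr2 : r < Real.pi / 2 := by linarith [hr.2]
    obtain ⟨hs, hc⟩ := sin_cos_pos hr.1 hr2
    have h1 := Yb_le hα hp h hr.1 hr2.le
    have h2 := Th_nonneg ks_pos.le (by linarith [ks_lt]) hα hp h (r := r) ⟨hr.1.le, hr2.le⟩
    have m0 := hm 0 r hr
    have m1 := hm 1 r hr
    have m2 := hm 2 r hr
    unfold Yb at h1
    have hc6 : Real.cos r ^ 6 ≤ 1 := pow_le_one₀ hc.le (Real.cos_le_one r)
    have h3 : Real.cos r ^ 6 * (bm α z u v r 0 ^ 2 + bm α z u v r 1 ^ 2) ≤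
        1 * (bm α z u v r 0 ^ 2 + bm α z u v r 1 ^ 2) :=
      mul_le_mul_of_nonneg_right hc6 (by positivity)
    have h4 : 2 * Real.sin r ^ 5 ≤ D * Real.sin r ^ 6 := by
      rw [hD]
      linarith
    have h5 : 0 < Real.sin r ^ 5 := by positivity
    have h6 : Real.sin r ^ 5 * 2 ≤ Real.sin r ^ 5 * (D * Real.sin r) := by
      calc Real.sin r ^ 5 * 2 = 2 * Real.sin r ^ 5 := by ring
        _ ≤ D * Real.sin r ^ 6 := h4
        _ = _ := by ring
    exact le_of_mul_le_mul_left h6 h5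
  have hr : min 1 (1 / (D + 1)) ∈ Ioc (0 : ℝ) 1 := ⟨by positivity, min_le_left _ _⟩
  have h1 := key _ hr
  have h2 : Real.sin (min 1 (1 / (D + 1))) ≤ 1 / (D + 1) :=
    (Real.sin_le hr.1.le).trans (min_le_right _ _)
  have h3 : D * Real.sin (min 1 (1 / (D + 1))) ≤ D * (1 / (D + 1)) :=
    mul_le_mul_of_nonneg_left h2 hD0
  have h4 : D * (1 / (D + 1)) ≤ 1 := by
    rw [mul_one_div, div_le_one (by positivity)]
    linarith
  linarith

end

end Pool.Agent.Lib.Shp
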