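import Pool.Agent.Lib.Shp.DefM
import Pool.Agent.Lib.Shp.Nv

set_option autoImplicit false

/-!
# Radial data of a connection form in the variable `y = sin² r`
-/

open MeasureTheory Set Metric
open scoped ContDiff

namespace Pool.Agent.Lib.Shp

open Pool.Agent.P28b04d Pool.Agent.Lib.Psd Pool.Agent.Lib.Pex

/-! ### the angle -/

theorem rY_cont : Continuous rY := Real.continuous_arcsin.comp Real.continuous_sqrt

theorem rY_sin {y : ℝ} (h0 : 0 ≤ y) (h1 : y ≤ 1) : Real.sin (rY y) = Real.sqrt y := by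
  have h2 : Real.sqrt y ≤ 1 := Real.sqrt_le_one.2 h1
  exact Real.sin_arcsin (by linarith [Real.sqrt_nonneg y]) h2

theorem rY_cos {y : ℝ} (h0 : 0 ≤ y) : Real.cos (rY y) = Real.sqrt (1 - y) := by
  unfold rY
  rw [Real.cos_arcsin, Real.sq_sqrt h0]

theorem rY_sin_sq {y : ℝ} (h0 : 0 ≤ y) (h1 : y ≤ 1) : Real.sin (rY y) ^ 2 = y := by
  rw [rY_sin h0 h1, Real.sq_sqrt h0]

theorem rY_cos_sq {y : ℝ} (h0 : 0 ≤ y) (h1 : y ≤ 1) : Real.cos (rY y) ^ 2 = 1 - y := by
  rw [rY_cos h0, Real.sq_sqrt (by linarith)]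

theorem rY_mem {y : ℝ} (h0 : 0 ≤ y) : rY y ∈ Icc 0 (Real.pi / 2) :=
  ⟨Real.arcsin_nonneg.2 (Real.sqrt_nonneg y), Real.arcsin_le_pi_div_two _⟩

theorem rY_pos {y : ℝ} (h0 : 0 < y) : 0 < rY y := Real.arcsin_pos.2 (Real.sqrt_pos.2 h0)

theorem rY_lt {y : ℝ} (h1 : y < 1) : rY y < Real.pi / 2 := by
  unfold rY
  rw [Real.arcsin_lt_pi_div_two, Real.sqrt_lt' one_pos]
  linarith

theorem rY_zero : rY 0 = 0 := by
  unfold rY
  rw [Real.sqrt_zero, Real.arcsin_zero]

theorem rY_one : rY 1 = Real.pi / 2 := by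
  unfold rY
  rw [Real.sqrt_one, Real.arcsin_one]

theorem rY_deriv {y : ℝ} (h0 : 0 < y) (h1 : y < 1) :
    HasDerivAt rY (1 / (2 * (Real.sin (rY y) * Real.cos (rY y)))) y := by
  have hs : Real.sqrt y ≠ -1 := by
    have := Real.sqrt_nonneg y
    linarith
  have hs1 : Real.sqrt y ≠ 1 := by
    intro h
    have h2 := Real.sq_sqrt h0.le
    rw [h] at h2
    linarith
  have h2 := (Real.hasDerivAt_arcsin hs hs1).comp y (Real.hasDerivAt_sqrt h0.ne')
  refine h2.congr_deriv ?_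
  rw [rY_sin h0.le h1.le, rY_cos h0.le, Real.sq_sqrt h0.le]
  have h3 : 0 < Real.sqrt y := Real.sqrt_pos.2 h0
  have h4 : 0 < Real.sqrt (1 - y) := Real.sqrt_pos.2 (by linarith)
  field_simp

section
variable {α : W → W →L[ℝ] ℝ} {z u v : W}

theorem ub_smooth (h : Conn α) (hz : ON3 z u v) (i : Fin 3) :
    ContDiff ℝ ∞ (fun r => ub α z u v r i) :=
  SA_smooth (UU_joint h.smooth hz i)

theorem vb_smooth (h : Conn α) (hz : ON3 z u v) (i : Fin 3) :
    ContDiff ℝ ∞ (fun r => vb α z u v r i) :=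
  SA_smooth (VV_joint h.smooth hz i)

theorem wt_cont1 (i : Fin 3) : Continuous fun y : ℝ =>
    (![Real.cos (rY y) ^ 3, Real.cos (rY y) ^ 3, 1] : Fin 3 → ℝ) i := by
  have h1 : Continuous fun y => Real.cos (rY y) ^ 3 := (Real.continuous_cos.comp rY_cont).pow 3
  fin_cases i
  · exact h1
  · exact h1
  · exact continuous_const

theorem wt_cont2 (i : Fin 3) : Continuous fun y : ℝ =>
    (![Real.cos (rY y), Real.cos (rY y), 1] : Fin 3 → ℝ) i := by
  have h1 : Continuous fun y => Real.cos (rY y) := Real.continuous_cos.comp rY_cont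
  fin_cases i
  · exact h1
  · exact h1
  · exact continuous_const

theorem Sy_cont' (h : Conn α) (hz : ON3 z u v) (i : Fin 3) : Continuous (Sy α z u v i) :=
  ((wt_cont1 i).mul (((ub_smooth h hz i).continuous.comp rY_cont).sub
    ((vb_smooth h hz i).continuous.comp rY_cont))).div_const 4

theorem Sy_cont (h : Conn α) (hz : ON3 z u v) (i : Fin 3) :
    ContinuousOn (Sy α z u v i) (Icc 0 (2 / 3)) := (Sy_cont' h hz i).continuousOn

theorem Dy_cont (h : Conn α) (hz : ON3 z u v) (i : Fin 3) :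
    ContinuousOn (Dy α z u v i) (Ioc 0 (2 / 3)) := by
  refine ContinuousOn.div ((wt_cont2 i).mul
    ((vb_smooth h hz i).continuous.comp rY_cont)).continuousOn
    (continuous_const.mul continuous_id).continuousOn fun y hy => ?_
  have := hy.1
  show 2 * y ≠ 0
  positivity

theorem ey_cont (h : Conn α) (hz : ON3 z u v) : Continuous (ey α z u v) :=
  (((u2_smooth h.smooth hz).continuous.comp rY_cont).sub
    ((v2_smooth h.smooth hz).continuous.comp rY_cont)).div_const 4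

/-- derivative of `dvec` (as `dvec_deriv`, without pinching) -/
theorem dvec_deriv' (hα : Conn α) (hz : ON3 z u v) {r : ℝ} (hs : Real.sin r ≠ 0) (i : Fin 3) :
    HasDerivAt (fun r => dvec (bm α z u v) r i) (rt r i * vb α z u v r i) r := by
  have hsd := Real.hasDerivAt_sin r
  have hcd := Real.hasDerivAt_cos r
  have hs2 : Real.sin r ^ 2 ≠ 0 := pow_ne_zero 2 hs
  have hA : HasDerivAt (fun r => 2 * Real.cos r ^ 2 / Real.sin r ^ 2)
      (-4 * Real.cos r / Real.sin r ^ 3) r := by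
    have h1 := (((hcd.pow 2).const_mul 2).div (hsd.pow 2) hs2)
    refine HasDerivAt.congr_deriv (f := fun r => 2 * Real.cos r ^ 2 / Real.sin r ^ 2) h1 ?_
    have hsc := Real.sin_sq_add_cos_sq r
    simp only [Nat.cast_ofNat, Nat.add_one_sub_one, pow_one, Pi.pow_apply]
    rw [div_eq_div_iff (by positivity) (by positivity)]
    linear_combination (-4 * Real.cos r * Real.sin r ^ 4) * hsc
  have hB : HasDerivAt (fun r => 2 / Real.sin r ^ 2) (-4 * Real.cos r / Real.sin r ^ 3) r := by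
    have h1 := (hasDerivAt_const r (2 : ℝ)).div (hsd.pow 2) hs2
    refine HasDerivAt.congr_deriv (f := fun r => 2 / Real.sin r ^ 2) h1 ?_
    simp only [Nat.cast_ofNat, Nat.add_one_sub_one, pow_one, Pi.pow_apply]
    rw [div_eq_div_iff (by positivity) (by positivity)]
    ring
  have hbi := bm_deriv' (HK.of_conn hα) hz r i
  have hbv := bm_eq' (HK.of_conn hα) hz r i
  fin_cases i
  · refine HasDerivAt.congr_deriv
      (f := fun r => 2 * Real.cos r ^ 2 / Real.sin r ^ 2 * bm α z u v r 0) (hA.mul hbi) ?_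
    simp only [rt, pw, ww, Matrix.cons_val_zero, Fin.zero_eta] at hbv ⊢
    rw [hbv]
    field_simp
    ring
  · refine HasDerivAt.congr_deriv
      (f := fun r => 2 * Real.cos r ^ 2 / Real.sin r ^ 2 * bm α z u v r 1) (hA.mul hbi) ?_
    simp only [rt, pw, ww, Matrix.cons_val_zero, Matrix.cons_val_one, Fin.mk_one] at hbv ⊢
    rw [hbv]
    field_simp
    ring
  · refine HasDerivAt.congr_deriv (f := fun r => 2 / Real.sin r ^ 2 * bm α z u v r 2)
      (hB.mul hbi) ?_
    simp only [rt, pw, ww, Matrix.cons_val, Fin.reduceFinMk] at hbv ⊢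
    rw [hbv]
    field_simp
    ring

theorem Sy_dvec (h : Conn α) (hz : ON3 z u v) (i : Fin 3) {y : ℝ} (h0 : 0 < y) (h1 : y ≤ 1) :
    Sy α z u v i y = dvec (bm α z u v) (rY y) i / 4 := by
  have hs : Real.sin (rY y) ≠ 0 := by
    rw [rY_sin h0.le h1]
    exact (Real.sqrt_pos.2 h0).ne'
  rw [dvec_ub h hz hs]
  rfl

/-- `Sy` in terms of `bm` -/
theorem Sy_bm (h : Conn α) (hz : ON3 z u v) (i : Fin 3) {y : ℝ} (h0 : 0 < y) (h1 : y ≤ 1) :
    Sy α z u v i y = (![1 - y, 1 - y, 1] : Fin 3 → ℝ) i * bm α z u v (rY y) i / (2 * y) := by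
  rw [Sy_dvec h hz i h0 h1]
  have e1 := rY_sin_sq h0.le h1
  have e2 := rY_cos_sq h0.le h1
  unfold dvec
  rw [e1, e2]
  fin_cases i
  · simp only [Matrix.cons_val_zero, Fin.zero_eta]
    field_simp
    ring
  · simp only [Matrix.cons_val_zero, Matrix.cons_val_one, Fin.mk_one]
    field_simp
    ring
  · simp only [Matrix.cons_val, Fin.reduceFinMk]
    field_simp
    ring

theorem Sy_deriv (h : Conn α) (hz : ON3 z u v) (i : Fin 3) {y : ℝ} (h0 : 0 < y) (h1 : y < 1) :
    HasDerivAt (Sy α z u v i) (Dy α z u v i y) y := by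
  have hs : Real.sin (rY y) ≠ 0 := by
    rw [rY_sin h0.le h1.le]
    exact (Real.sqrt_pos.2 h0).ne'
  have hc : Real.cos (rY y) ≠ 0 := by
    rw [rY_cos h0.le]
    exact (Real.sqrt_pos.2 (by linarith)).ne'
  have h2 := ((dvec_deriv' h hz hs i).comp y (rY_deriv h0 h1)).div_const 4
  have h3 : Sy α z u v i =ᶠ[nhds y] fun t => (fun r => dvec (bm α z u v) r i) (rY t) / 4 := by
    filter_upwards [Ioo_mem_nhds h0 h1] with t ht
    exact Sy_dvec h hz i ht.1 ht.2.le
  refine (h2.congr_of_eventuallyEq h3).congr_deriv ?_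
  have e1 := rY_sin_sq h0.le h1.le
  have e5 : 2 * y = 2 * Real.sin (rY y) ^ 2 := by rw [e1]
  unfold Dy rt
  fin_cases i
  · simp only [Matrix.cons_val_zero, Fin.zero_eta]
    rw [e5]
    field_simp
  · simp only [Matrix.cons_val_zero, Matrix.cons_val_one, Fin.mk_one]
    rw [e5]
    field_simp
  · simp only [Matrix.cons_val, Fin.reduceFinMk]
    rw [e5]
    field_simp

/-- `4 y² |D|² ≤ v2` -/
theorem Dy_sq (h : Conn α) (hz : ON3 z u v) {y : ℝ} (h0 : 0 < y) (h1 : y ≤ 1) :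
    4 * y ^ 2 * ∑ i, Dy α z u v i y ^ 2 ≤ v2 α z u v (rY y) := by
  refine le_trans ?_ (vb_sq_le h.smooth hz (rY y))
  have e2 := rY_cos_sq h0.le h1
  have e3 : 4 * y ^ 2 * ∑ i, Dy α z u v i y ^ 2 = Real.cos (rY y) ^ 2 * vb α z u v (rY y) 0 ^ 2 +
      Real.cos (rY y) ^ 2 * vb α z u v (rY y) 1 ^ 2 + vb α z u v (rY y) 2 ^ 2 := by
    rw [Fin.sum_univ_three]
    simp only [Dy, Matrix.cons_val_zero, Matrix.cons_val_one, Matrix.cons_val]
    field_simp
    ring
  rw [e3, e2, Fin.sum_univ_three]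
  nlinarith [mul_nonneg h0.le (sq_nonneg (vb α z u v (rY y) 0)),
    mul_nonneg h0.le (sq_nonneg (vb α z u v (rY y) 1))]

theorem u2_le_ey (h : Conn α) {k : ℝ} (hk1 : k ^ 2 < 1) (hp : Pinched k α) (hz : ON3 z u v)
    (y : ℝ) : u2 α z u v (rY y) ≤ 4 / (1 - k ^ 2) * ey α z u v y := by
  have h1 := pin_v2 h hp hz (rY y)
  unfold ey
  rw [div_mul_div_comm, le_div_iff₀ (by nlinarith)]
  nlinarith

theorem ey_nonneg (h : Conn α) {k : ℝ} (hk1 : k ^ 2 < 1) (hp : Pinched k α) (hz : ON3 z u v)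
    (y : ℝ) : 0 ≤ ey α z u v y := by
  have h1 := pin_v2 h hp hz (rY y)
  have h2 := u2_nonneg (γ := α) (z := z) (u := u) (v := v) (rY y)
  unfold ey
  have : v2 α z u v (rY y) ≤ 1 * u2 α z u v (rY y) :=
    h1.trans (mul_le_mul_of_nonneg_right hk1.le h2)
  linarith

theorem thy_deriv (h : Conn α) (hz : ON3 z u v) {y : ℝ} (h0 : 0 < y) (h1 : y < 1) :
    HasDerivAt (thy α z u v) (y * ey α z u v y) y := by
  have hs : Real.sin (rY y) ≠ 0 := by
    rw [rY_sin h0.le h1.le]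
    exact (Real.sqrt_pos.2 h0).ne'
  have hc : Real.cos (rY y) ≠ 0 := by
    rw [rY_cos h0.le]
    exact (Real.sqrt_pos.2 (by linarith)).ne'
  have h2 := (Th_deriv' (HK.of_conn h) hz (rY y)).comp y (rY_deriv h0 h1)
  refine HasDerivAt.congr_deriv (f := thy α z u v) h2 ?_
  have e1 := rY_sin_sq h0.le h1.le
  unfold ey
  have e4 : y * ((u2 α z u v (rY y) - v2 α z u v (rY y)) / 4) =
      Real.sin (rY y) ^ 2 * ((u2 α z u v (rY y) - v2 α z u v (rY y)) / 4) := by rw [e1]
  rw [e4]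
  field_simp
  ring

theorem thy_cont (h : Conn α) (hz : ON3 z u v) : Continuous (thy α z u v) := by
  have h1 : Continuous fun r => Th α z u v r :=
    continuous_iff_continuousAt.2 fun r => (Th_deriv' (HK.of_conn h) hz r).continuousAt
  exact h1.comp rY_cont

/-- the radial data of a form pinched by `5 - 2 √6` -/
theorem RY_conn (h : Conn α) (hp : Pinched ks α) (hz : ON3 z u v) :
    RY (413 / 10000) (Sy α z u v) (Dy α z u v) (thy α z u v) (ey α z u v) := by
  have hk2 := ks_sq_lt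
  have hks : ks ^ 2 = 49 - 20 * Real.sqrt 6 := by
    unfold ks
    nlinarith [s6_sq]
  have hlo : 24494897 / 10000000 < Real.sqrt 6 := by
    rw [Real.lt_sqrt (by norm_num)]
    norm_num
  refine ⟨fun i => Sy_cont h hz i, (ey_cont h hz).continuousOn, (thy_cont h hz).continuousOn,
    fun i => Dy_cont h hz i, fun i y hy => Sy_deriv h hz i hy.1 (by linarith [hy.2]),
    fun y hy => thy_deriv h hz hy.1 (by linarith [hy.2]), ?_, fun y _ => ey_nonneg h hk2 hp hz y,
    ?_, ?_, ?_⟩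
  · unfold thy
    rw [rY_zero]
    exact Th_zero
  · intro y hy
    have h1 : y ≤ 1 := by linarith [hy.2]
    refine (Dy_sq h hz hy.1 h1).trans ?_
    have h2 := pin_v2 h hp hz (rY y)
    have h3 := u2_le_ey h hk2 hp hz y
    have h4 := ey_nonneg h hk2 hp hz y
    have h5 : 0 < 1 - ks ^ 2 := by linarith
    refine h2.trans ((mul_le_mul_of_nonneg_left h3 (sq_nonneg ks)).trans ?_)
    rw [← mul_assoc]
    refine mul_le_mul_of_nonneg_right ?_ h4
    rw [mul_div_assoc', div_le_iff₀ h5, hks]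
    linarith
  · intro y hy
    have h1 : y ≤ 1 := by linarith [hy.2]
    have h1' : y < 1 := by linarith [hy.2]
    have h2 := barrier h hp hz (rY_pos hy.1) (rY_mem hy.1.le).2
    refine lt_of_lt_of_le h2 ?_
    have e2 := rY_cos_sq hy.1.le h1
    have e6 : Real.cos (rY y) ^ 6 = (1 - y) ^ 3 := by
      rw [← e2]
      ring
    have b := fun i => Sy_bm h hz i hy.1 h1
    have b0 := b 0
    have b1 := b 1
    have b2 := b 2
    simp only [Matrix.cons_val_zero, Matrix.cons_val_one, Matrix.cons_val] at b0 b1 b2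
    have hy0 := hy.1
    have c0' : 2 * y * Sy α z u v 0 y = (1 - y) * bm α z u v (rY y) 0 := by
      rw [b0]
      field_simp
    have c1' : 2 * y * Sy α z u v 1 y = (1 - y) * bm α z u v (rY y) 1 := by
      rw [b1]
      field_simp
    have c2' : 2 * y * Sy α z u v 2 y = bm α z u v (rY y) 2 := by
      rw [b2]
      field_simp
    have e7 : 4 * y ^ 2 * ∑ i, Sy α z u v i y ^ 2 = ((1 - y) * bm α z u v (rY y) 0) ^ 2 +
        ((1 - y) * bm α z u v (rY y) 1) ^ 2 + bm α z u v (rY y) 2 ^ 2 := by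
      rw [Fin.sum_univ_three, ← c0', ← c1', ← c2']
      ring
    rw [e7, e6]
    have h8 : (1 - y) ^ 3 ≤ (1 - y) ^ 2 := by
      have h9 : 0 ≤ 1 - y := by linarith
      nlinarith [sq_nonneg (1 - y)]
    have h10 : 0 ≤ bm α z u v (rY y) 0 ^ 2 + bm α z u v (rY y) 1 ^ 2 := by positivity
    nlinarith [mul_le_mul_of_nonneg_right h8 h10]
  · intro y hy
    exact Th_nonneg ks_pos.le (by linarith [ks_lt]) h hp hz (rY_mem hy.1.le)

end

end Pool.Agent.Lib.Shp
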