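import Pool.Agent.Lib.Shp.Ayc
import Pool.Agent.Lib.Shp.Yv

set_option autoImplicit false

/-!
# The exact formula for the average

`Uc_Ay`: the self-dual components of `d(Ay s α)` at `z` are `4 Wm (Sy α z u v) (s²)`. Integration by parts of the terms with `Dy`
(`Sy' = Dy`, Yv), substitution `y = σ t`. Text: /team-store/b19_28b04d_sharp.md, III (c), (d).
-/

open MeasureTheory Set Metric
open scoped ContDiff

namespace Pool.Agent.Lib.Shp

open Pool.Agent.P28b04d Pool.Agent.Lib.Psd Pool.Agent.Lib.Pex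

variable {α : W → W →L[ℝ] ℝ} {z u v : W}

/-- `y Dy` -/
noncomputable def Ey (α : W → W →L[ℝ] ℝ) (z u v : W) (i : Fin 3) (y : ℝ) : ℝ :=
  (![Real.cos (rY y), Real.cos (rY y), 1] : Fin 3 → ℝ) i * vb α z u v (rY y) i / 2

theorem Ey_cont (h : Conn α) (hz : ON3 z u v) (i : Fin 3) : Continuous (Ey α z u v i) :=
  ((wt_cont2 i).mul ((vb_smooth h hz i).continuous.comp rY_cont)).div_const 2

theorem Ey_eq (i : Fin 3) {y : ℝ} (hy : 0 < y) : Ey α z u v i y = y * Dy α z u v i y := by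
  unfold Ey Dy
  field_simp

theorem k1_cont (n : ℕ) (σ : ℝ) : Continuous (k1 n σ) := by
  unfold k1
  fun_prop

theorem k2_cont (n : ℕ) (σ : ℝ) : Continuous (k2 n σ) := by
  unfold k2 k1
  fun_prop

theorem k3_cont (σ : ℝ) : Continuous (k3 σ) := by
  unfold k3
  fun_prop

/-- integration by parts -/
theorem kparts (h : Conn α) (hz : ON3 z u v) (i : Fin 3) {σ : ℝ} (h0 : 0 < σ) (h1 : σ < 1)
    {M M' : ℝ → ℝ} (hM : ∀ y, HasDerivAt M (M' y) y) (hM' : Continuous M') (hMσ : M σ = 0) :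
    ∫ y in (0 : ℝ)..σ, ((2 * y * M y + y ^ 2 * M' y) * Sy α z u v i y +
      y * M y * Ey α z u v i y) = 0 := by
  have hMc : Continuous M := continuous_iff_continuousAt.2 fun y => (hM y).continuousAt
  have hS := Sy_cont' h hz i
  have hE := Ey_cont h hz i
  have h2 := intervalIntegral.integral_eq_sub_of_hasDerivAt_of_le (a := 0) (b := σ)
    (f := fun y => y ^ 2 * M y * Sy α z u v i y)
    (f' := fun y => (2 * y * M y + y ^ 2 * M' y) * Sy α z u v i y + y * M y * Ey α z u v i y)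
    h0.le (Continuous.continuousOn (by fun_prop)) (fun y hy => by
      have h3 := ((hasDerivAt_pow 2 y).mul (hM y)).mul
        (Sy_deriv h hz i hy.1 (lt_trans hy.2 h1))
      refine h3.congr_deriv ?_
      rw [Ey_eq i hy.1]
      simp only [Nat.add_one_sub_one, Nat.cast_ofNat, pow_one, Pi.mul_apply]
      ring)
    (Continuous.intervalIntegrable (by fun_prop) _ _)
  rw [h2, hMσ]
  ring

theorem sub_int (σ : ℝ) (g : ℝ → ℝ) :
    ∫ y in (0 : ℝ)..σ, g y = σ * ∫ t in (0 : ℝ)..1, g (σ * t) := by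
  have h := intervalIntegral.mul_integral_comp_mul_left (a := 0) (b := 1) (f := g) σ
  rw [mul_zero, mul_one] at h
  exact h.symm

theorem pow_da (σ y : ℝ) (n : ℕ) : HasDerivAt (fun y : ℝ => (1 - y / σ) ^ (n + 1))
    (-((n + 1 : ℕ) : ℝ) / σ * (1 - y / σ) ^ n) y := by
  have h3 : HasDerivAt (fun y : ℝ => 1 - y / σ) (-(1 / σ)) y :=
    ((hasDerivAt_id y).div_const σ).const_sub 1
  refine (h3.pow (n + 1)).congr_deriv ?_
  simp only [Nat.add_one_sub_one]
  ring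

theorem d1y (y : ℝ) : HasDerivAt (fun y : ℝ => 1 - y) (-1) y := by
  have := (hasDerivAt_id y).const_sub 1
  exact this

/-- components `0`, `1` -/
theorem Uc_Ay01 (h : Conn α) (hz : ON3 z u v) {s : ℝ} (h0 : 0 < s) (h1 : s ^ 2 ≤ 2 / 3)
    {i : Fin 3} (hi : i ≠ 2) : Uc (Psd.cmp (dd (Ay s α) z) u v) i =
      4 * ∫ t in (0 : ℝ)..1, kap t * (rr (s ^ 2) t * Sy α z u v i (s ^ 2 * t)) := by
  rw [Uc_Ay' h hz h0 h1 hi]
  have hσ : 0 < s ^ 2 := by positivity
  set σ := s ^ 2 with hσd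
  have hσ1 : σ < 1 := by linarith
  rw [radial (Ue_smooth h hz i).continuous (k1_cont 6 σ) hσ h1]
  have hS := Sy_cont' h hz i
  have hE := Ey_cont h hz i
  set M : ℝ → ℝ := fun y => 2 * (1 - y) * (1 - y / σ) ^ 7 with hM
  set M' : ℝ → ℝ := fun y => -2 * (1 - y / σ) ^ 7 - 14 / σ * (1 - y) * (1 - y / σ) ^ 6 with hM'
  have hMd : ∀ y, HasDerivAt M (M' y) y := by
    intro y
    refine (((d1y y).const_mul 2).mul (pow_da σ y 6)).congr_deriv ?_
    rw [hM']
    push_cast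
    ring
  have hM'c : Continuous M' := by
    rw [hM']
    fun_prop
  have hMc : Continuous M := by
    rw [hM]
    fun_prop
  have hMσ : M σ = 0 := by
    show 2 * (1 - σ) * (1 - σ / σ) ^ 7 = 0
    rw [div_self hσ.ne', sub_self]
    ring
  have hp := kparts h hz i hσ hσ1 hMd hM'c hMσ
  have e1 : ∫ y in (0 : ℝ)..σ, y / (1 - y) ^ 3 * k1 6 σ y *
      SA (fun ξ => Ue α z u v i (Real.tan (rY y) • ξ)) =
      ∫ y in (0 : ℝ)..σ, (2 * Real.pi * (y ^ 2 * (1 - y / σ) ^ 6 *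
        (((1 - y) + 3 * σ / 7 * (1 - y / σ)) * Sy α z u v i y)) + Real.pi * σ / 7 *
        ((2 * y * M y + y ^ 2 * M' y) * Sy α z u v i y + y * M y * Ey α z u v i y)) := by
    refine intervalIntegral.integral_congr_ae (Filter.Eventually.of_forall fun y hy => ?_)
    rw [uIoc_of_le hσ.le] at hy
    have hy1 : 1 - y ≠ 0 := by linarith [hy.2]
    rw [SA_U h hz hy.1 (hy.2.trans h1) hi, Ey_eq i hy.1, hM, hM']
    unfold k1
    have hσ0 := hσ.ne'
    simp only []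
    generalize 1 - y / σ = a
    push_cast
    field_simp
    ring
  have i1 : IntervalIntegrable (fun y => 2 * Real.pi * (y ^ 2 * (1 - y / σ) ^ 6 *
        (((1 - y) + 3 * σ / 7 * (1 - y / σ)) * Sy α z u v i y))) volume 0 σ :=
    Continuous.intervalIntegrable (by fun_prop) _ _
  have i2 : IntervalIntegrable (fun y => Real.pi * σ / 7 *
        ((2 * y * M y + y ^ 2 * M' y) * Sy α z u v i y + y * M y * Ey α z u v i y)) volume 0 σ :=
    Continuous.intervalIntegrable (by fun_prop) _ _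
  rw [e1, intervalIntegral.integral_add i1 i2, intervalIntegral.integral_const_mul,
    intervalIntegral.integral_const_mul, hp, mul_zero, add_zero, sub_int σ]
  have e2 : ∀ t : ℝ, (σ * t) ^ 2 * (1 - σ * t / σ) ^ 6 *
      (((1 - σ * t) + 3 * σ / 7 * (1 - σ * t / σ)) * Sy α z u v i (σ * t)) =
      σ ^ 2 / 252 * (kap t * (rr σ t * Sy α z u v i (σ * t))) := by
    intro t
    rw [mul_div_cancel_left₀ _ hσ.ne']
    unfold kap rr
    ring
  simp only [e2]
  rw [intervalIntegral.integral_const_mul, c6_eq]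
  have e3 : s ^ 6 = σ ^ 3 := by
    rw [hσd]
    ring
  rw [e3]
  have := Real.pi_pos.ne'
  field_simp
  ring

/-- the mass of `k3` -/
theorem k3_mass {s : ℝ} (h0 : 0 < s) (h1 : s ^ 2 ≤ 2 / 3) :
    c6⁻¹ * ((s ^ 6)⁻¹ * ∫ x in Dy0 (s ^ 2), k3 (s ^ 2) (yy x)) = 1 := by
  have hσ : 0 < s ^ 2 := by positivity
  set σ := s ^ 2 with hσd
  have e0 := radial (F := fun _ => 1) continuous_const (k3_cont σ) hσ h1
  simp only [mul_one] at e0
  rw [e0, SA_const]
  have e1 : ∫ y in (0 : ℝ)..σ, y / (1 - y) ^ 3 * k3 σ y * 1 =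
      ∫ y in (0 : ℝ)..σ, Real.pi * σ / 7 * (y * ((1 - y) * (1 - y / σ) ^ 7 +
        σ / 4 * (1 - y / σ) ^ 8)) := by
    refine intervalIntegral.integral_congr_ae (Filter.Eventually.of_forall fun y hy => ?_)
    rw [uIoc_of_le hσ.le] at hy
    have hy1 : 1 - y ≠ 0 := by linarith [hy.2]
    unfold k3
    generalize 1 - y / σ = a
    field_simp
    ring
  rw [e1, intervalIntegral.integral_const_mul, sub_int σ]
  have e2 : ∀ t : ℝ, σ * t * ((1 - σ * t) * (1 - σ * t / σ) ^ 7 +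
      σ / 4 * (1 - σ * t / σ) ^ 8) = σ * (t * (1 - σ * t) * (1 - t) ^ 7 +
        σ / 4 * (t * (1 - t) ^ 8)) := by
    intro t
    rw [mul_div_cancel_left₀ _ hσ.ne']
    ring
  simp only [e2]
  rw [intervalIntegral.integral_const_mul]
  have e3 : ∫ t in (0 : ℝ)..1, (t * (1 - σ * t) * (1 - t) ^ 7 + σ / 4 * (t * (1 - t) ^ 8)) =
      1 / 72 := by
    have h2 := intervalIntegral.integral_eq_sub_of_hasDerivAt (a := 0) (b := 1)
      (f := fun t : ℝ => (-(1 - t) ^ 8 / 8 + (1 - t) ^ 9 / 9) -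
        σ * (-(1 - t) ^ 8 / 8 + 2 * (1 - t) ^ 9 / 9 - (1 - t) ^ 10 / 10) +
        σ / 4 * (-(1 - t) ^ 9 / 9 + (1 - t) ^ 10 / 10))
      (f' := fun t => t * (1 - σ * t) * (1 - t) ^ 7 + σ / 4 * (t * (1 - t) ^ 8))
      (fun t _ => by
        have p8 := (d1y t).pow 8
        have p9 := (d1y t).pow 9
        have p10 := (d1y t).pow 10
        have q := (((p8.neg.div_const 8).add (p9.div_const 9)).sub
          (((p8.neg.div_const 8).add ((p9.const_mul 2).div_const 9)).sub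
            (p10.div_const 10) |>.const_mul σ)).add
          (((p9.neg.div_const 9).add (p10.div_const 10)).const_mul (σ / 4))
        refine q.congr_deriv ?_
        simp only [Nat.cast_ofNat, Nat.add_one_sub_one]
        ring) (Continuous.intervalIntegrable (by fun_prop) _ _)
    rw [h2]
    ring
  rw [e3, c6_eq]
  have e4 : s ^ 6 = σ ^ 3 := by
    rw [hσd]
    ring
  rw [e4]
  have := Real.pi_pos.ne'
  field_simp
  ring

/-- component `2` -/
theorem Uc_Ay22 (h : Conn α) (hz : ON3 z u v) {s : ℝ} (h0 : 0 < s) (h1 : s ^ 2 ≤ 2 / 3) :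
    Uc (Psd.cmp (dd (Ay s α) z) u v) 2 =
      4 * ∫ t in (0 : ℝ)..1, kap t * (pJ (s ^ 2) t * Sy α z u v 2 (s ^ 2 * t)) := by
  rw [Uc_Ay2 h hz h0 h1, Jc_eq h hz h0 h1, k3_mass h0 h1, sub_self, zero_add]
  have hσ : 0 < s ^ 2 := by positivity
  set σ := s ^ 2 with hσd
  have hσ1 : σ < 1 := by linarith
  rw [radial (Ue_smooth h hz 2).continuous (k2_cont 6 σ) hσ h1,
    radial (chJ_cont h hz) (k3_cont σ) hσ h1]
  have hS := Sy_cont' h hz 2
  have hE := Ey_cont h hz 2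
  set M : ℝ → ℝ := fun y => 2 * (1 - y) * ((1 - y) * (1 - y / σ) ^ 7 + σ / 8 * (1 - y / σ) ^ 8)
    with hM
  set M' : ℝ → ℝ := fun y => -2 * ((1 - y) * (1 - y / σ) ^ 7 + σ / 8 * (1 - y / σ) ^ 8) +
    2 * (1 - y) * (-2 * (1 - y / σ) ^ 7 - 7 / σ * (1 - y) * (1 - y / σ) ^ 6) with hM'
  have hMd : ∀ y, HasDerivAt M (M' y) y := by
    intro y
    refine (((d1y y).const_mul 2).mul (((d1y y).mul (pow_da σ y 6)).add
      ((pow_da σ y 7).const_mul (σ / 8)))).congr_deriv ?_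
    rw [hM']
    simp only [Pi.add_apply, Pi.mul_apply]
    push_cast
    field_simp
    ring
  have hM'c : Continuous M' := by
    rw [hM']
    fun_prop
  have hMc : Continuous M := by
    rw [hM]
    fun_prop
  have hMσ : M σ = 0 := by
    show 2 * (1 - σ) * ((1 - σ) * (1 - σ / σ) ^ 7 + σ / 8 * (1 - σ / σ) ^ 8) = 0
    rw [div_self hσ.ne', sub_self]
    ring
  have hp := kparts h hz 2 hσ hσ1 hMd hM'c hMσ
  have e1 : ∫ y in (0 : ℝ)..σ, y / (1 - y) ^ 3 * k2 6 σ y *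
      SA (fun ξ => Ue α z u v 2 (Real.tan (rY y) • ξ)) =
      ∫ y in (0 : ℝ)..σ, (2 * Real.pi * (y ^ 2 * (1 - y / σ) ^ 6 *
        (((1 - y) ^ 2 + 6 * σ / 7 * (1 - y) * (1 - y / σ) + 3 * σ ^ 2 / 28 * (1 - y / σ) ^ 2) *
          Sy α z u v 2 y)) + Real.pi * σ / 7 *
        ((2 * y * M y + y ^ 2 * M' y) * Sy α z u v 2 y + y * M y * Ey α z u v 2 y) -
        4 * (Real.pi * σ / 7 * (y ^ 2 * ((1 - y) * (1 - y / σ) ^ 7 + σ / 4 * (1 - y / σ) ^ 8) *
          Sy α z u v 2 y))) := by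
    refine intervalIntegral.integral_congr_ae (Filter.Eventually.of_forall fun y hy => ?_)
    rw [uIoc_of_le hσ.le] at hy
    have hy1 : 1 - y ≠ 0 := by linarith [hy.2]
    rw [SA_U2 h hz hy.1 (hy.2.trans h1), Ey_eq 2 hy.1, hM, hM']
    unfold k2 k1
    have hσ0 := hσ.ne'
    simp only []
    generalize 1 - y / σ = a
    push_cast
    field_simp
    ring
  have e2 : ∫ y in (0 : ℝ)..σ, y / (1 - y) ^ 3 * k3 σ y *
      SA (fun ξ => ch α z u v (Real.tan (rY y) • ξ) (J4 (Real.tan (rY y) • ξ))) =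
      ∫ y in (0 : ℝ)..σ, Real.pi * σ / 7 *
        (y ^ 2 * ((1 - y) * (1 - y / σ) ^ 7 + σ / 4 * (1 - y / σ) ^ 8) * Sy α z u v 2 y) := by
    refine intervalIntegral.integral_congr_ae (Filter.Eventually.of_forall fun y hy => ?_)
    rw [uIoc_of_le hσ.le] at hy
    have hy1 : 1 - y ≠ 0 := by linarith [hy.2]
    rw [SA_J h hz hy.1 (hy.2.trans h1)]
    unfold k3
    generalize 1 - y / σ = a
    field_simp
    ring
  have i1 : IntervalIntegrable (fun y => 2 * Real.pi * (y ^ 2 * (1 - y / σ) ^ 6 *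
        (((1 - y) ^ 2 + 6 * σ / 7 * (1 - y) * (1 - y / σ) + 3 * σ ^ 2 / 28 * (1 - y / σ) ^ 2) *
          Sy α z u v 2 y))) volume 0 σ :=
    Continuous.intervalIntegrable (by fun_prop) _ _
  have i2 : IntervalIntegrable (fun y => Real.pi * σ / 7 *
        ((2 * y * M y + y ^ 2 * M' y) * Sy α z u v 2 y + y * M y * Ey α z u v 2 y)) volume 0 σ :=
    Continuous.intervalIntegrable (by fun_prop) _ _
  have i3 : IntervalIntegrable (fun y => 4 * (Real.pi * σ / 7 *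
      (y ^ 2 * ((1 - y) * (1 - y / σ) ^ 7 + σ / 4 * (1 - y / σ) ^ 8) * Sy α z u v 2 y)))
      volume 0 σ := Continuous.intervalIntegrable (by fun_prop) _ _
  rw [e1, e2, intervalIntegral.integral_sub (i1.add i2) i3, intervalIntegral.integral_add i1 i2,
    intervalIntegral.integral_const_mul (2 * Real.pi),
    intervalIntegral.integral_const_mul (Real.pi * σ / 7) fun y =>
      (2 * y * M y + y ^ 2 * M' y) * Sy α z u v 2 y + y * M y * Ey α z u v 2 y, hp, mul_zero,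
    add_zero, intervalIntegral.integral_const_mul (4 : ℝ)]
  set X := ∫ y in (0 : ℝ)..σ, Real.pi * σ / 7 *
    (y ^ 2 * ((1 - y) * (1 - y / σ) ^ 7 + σ / 4 * (1 - y / σ) ^ 8) * Sy α z u v 2 y) with hX
  rw [sub_int σ fun y => y ^ 2 * (1 - y / σ) ^ 6 *
    (((1 - y) ^ 2 + 6 * σ / 7 * (1 - y) * (1 - y / σ) + 3 * σ ^ 2 / 28 * (1 - y / σ) ^ 2) *
      Sy α z u v 2 y)]
  have e3 : ∀ t : ℝ, (σ * t) ^ 2 * (1 - σ * t / σ) ^ 6 *
      (((1 - σ * t) ^ 2 + 6 * σ / 7 * (1 - σ * t) * (1 - σ * t / σ) +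
        3 * σ ^ 2 / 28 * (1 - σ * t / σ) ^ 2) * Sy α z u v 2 (σ * t)) =
      σ ^ 2 / 252 * (kap t * (pJ σ t * Sy α z u v 2 (σ * t))) := by
    intro t
    rw [mul_div_cancel_left₀ _ hσ.ne']
    unfold kap pJ
    ring
  simp only [e3]
  rw [intervalIntegral.integral_const_mul, c6_eq]
  have e4 : s ^ 6 = σ ^ 3 := by
    rw [hσd]
    ring
  rw [e4]
  have := Real.pi_pos.ne'
  field_simp
  ring

/-- **The exact formula.** -/
theorem Uc_Ay (h : Conn α) (hz : ON3 z u v) {s : ℝ} (h0 : 0 < s) (h1 : s ^ 2 ≤ 2 / 3)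
    (i : Fin 3) :
    Uc (Psd.cmp (dd (Ay s α) z) u v) i = 4 * Wm (Sy α z u v) (s ^ 2) i := by
  fin_cases i
  · exact Uc_Ay01 h hz h0 h1 (i := 0) (by decide)
  · exact Uc_Ay01 h hz h0 h1 (i := 1) (by decide)
  · exact Uc_Ay22 h hz h0 h1

end Pool.Agent.Lib.Shp
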