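import Pool.Agent.Lib.Shp.Cpl
import Pool.Agent.Lib.Shp.AvY

set_option autoImplicit false

/-!
# Complex polar coordinates (III (a), (b))

`int_cl`: the unit ball of `ℂ³` in the coordinates of a unitary frame. `master`: the integral over the ball in `ζ = 1 + s q.1` and
`x = cm (s / ζ) q.2`, where `z + s cl z u v q = ζ • sig z u v x`. `pcx_V`, `pcx_U`, `pcx_U2`: the averages of the components of `dα`;
`pcx_J`: the average of `1 - α_{z + s Y}(i z)`.
-/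

open MeasureTheory Set Metric
open scoped ContDiff

namespace Pool.Agent.Lib.Shp

open Pool.Agent.P28b04d Pool.Agent.Lib.Psd Pool.Agent.Lib.Pex

variable {α : W → W →L[ℝ] ℝ} {z u v : W}

/-! ### coordinates -/

theorem nsq_cl (hz : ON3 z u v) (q : C1) : nsq (cl z u v q) = Qc q := by
  have h1 : ((nsq (cl z u v q) : ℝ) : ℂ) = ((Qc q : ℝ) : ℂ) := by
    rw [nsq_eq_hp]
    unfold cl Qc
    rw [FrameGAux.hp_add_left, FrameGAux.hp_smul_left, hp_add_right, hp_add_right, hp_smul_right,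
      hp_smul_right, hz.zz, hp_z_Lf hz, hp_Lf_z hz, hp_Lf hz, inner_J4_self,
      real_inner_self_eq_norm_sq, ← Complex.normSq_eq_norm_sq]
    push_cast
    rw [Complex.normSq_eq_conj_mul_self]
    simp only [Complex.star_def]
    ring
  exact_mod_cast h1

/-- The coordinates as a linear map. -/
noncomputable def clL (z u v : W) : C1 →ₗ[ℝ] W where
  toFun := cl z u v
  map_add' := fun p q => by
    unfold cl
    rw [Prod.fst_add, Prod.snd_add, add_smul, map_add]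
    abel
  map_smul' := fun r q => by
    unfold cl
    rw [Prod.smul_fst, Prod.smul_snd, map_smul, RingHom.id_apply, smul_add, smul_assoc]

theorem clL_apply (q : C1) : clL z u v q = cl z u v q := rfl

theorem Qc_pos {q : C1} (h : q ≠ 0) : 0 < Qc q := by
  unfold Qc
  by_cases h1 : q.1 = 0
  · have h2 : q.2 ≠ 0 := fun h2 => h (Prod.ext h1 h2)
    have := norm_pos_iff.2 h2
    positivity
  · have := norm_pos_iff.2 h1
    positivity

theorem clL_inj (hz : ON3 z u v) : Function.Injective (clL z u v) := by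
  rw [← LinearMap.ker_eq_bot, LinearMap.ker_eq_bot']
  intro q hq
  by_contra h
  have h1 := Qc_pos h
  rw [← nsq_cl hz, ← clL_apply, hq] at h1
  have h2 : nsq (0 : W) = 0 := by simp [ConnBAux.nsq_eq]
  linarith

theorem finrank_C1 : Module.finrank ℝ C1 = Module.finrank ℝ W := by
  rw [Module.finrank_prod, Complex.finrank_real_complex, finrank_E, Module.finrank_pi_fintype]
  simp [Complex.finrank_real_complex]

/-- The coordinates as an equivalence. -/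
noncomputable def clE (hz : ON3 z u v) : C1 ≃L[ℝ] W :=
  (LinearMap.linearEquivOfInjective (clL z u v) (clL_inj hz) finrank_C1).toContinuousLinearEquiv

theorem clE_apply (hz : ON3 z u v) (q : C1) : clE hz q = cl z u v q := rfl

theorem int_cl (hz : ON3 z u v) : ∃ C : ℝ, ∀ F : W → ℝ,
    ∫ Y in BW, F Y = C * ∫ q in B1, F (cl z u v q) := by
  set e := clE hz with he
  have : (volume : Measure C1).IsAddHaarMeasure :=
    inferInstanceAs ((volume : Measure ℂ).prod (volume : Measure E)).IsAddHaarMeasure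
  set ν : Measure C1 := (volume : Measure W).map e.symm with hν
  have : ν.IsAddHaarMeasure := e.symm.isAddHaarMeasure_map _
  refine ⟨(Measure.addHaarScalarFactor ν volume : ℝ), fun F => ?_⟩
  have hmp : MeasurePreserving e ν volume := by
    refine ⟨e.continuous.measurable, ?_⟩
    rw [hν, Measure.map_map e.continuous.measurable e.symm.continuous.measurable]
    have : (e ∘ e.symm : W → W) = id := by
      funext x
      exact e.apply_symm_apply x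
    rw [this, Measure.map_id]
  have h1 := hmp.setIntegral_preimage_emb e.toHomeomorph.measurableEmbedding F BW
  have hpre : (e ⁻¹' BW : Set C1) = B1 := by
    ext q
    show nsq (cl z u v q) ≤ 1 ↔ Qc q ≤ 1
    rw [nsq_cl hz]
  rw [hpre] at h1
  rw [← h1]
  have h2 : ν = Measure.addHaarScalarFactor ν (volume : Measure C1) • (volume : Measure C1) :=
    Measure.isAddLeftInvariant_eq_smul ν volume
  conv_lhs => rw [h2]
  rw [Measure.restrict_smul, integral_smul_nnreal_measure, NNReal.smul_def, smul_eq_mul]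
  rfl

theorem Qc_cont : Continuous Qc := by
  unfold Qc
  fun_prop

theorem B1_closed : IsClosed B1 := isClosed_le Qc_cont continuous_const

theorem B1_fst {q : C1} (h : q ∈ B1) : ‖q.1‖ ≤ 1 := by
  have h1 : ‖q.1‖ ^ 2 + ‖q.2‖ ^ 2 ≤ 1 := h
  nlinarith [norm_nonneg q.1, sq_nonneg ‖q.2‖]

theorem B1_snd {q : C1} (h : q ∈ B1) : ‖q.2‖ ≤ 1 := by
  have h1 : ‖q.1‖ ^ 2 + ‖q.2‖ ^ 2 ≤ 1 := h
  nlinarith [norm_nonneg q.2, sq_nonneg ‖q.1‖]

theorem B1_compact : IsCompact B1 := by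
  refine (isCompact_closedBall (0 : C1) 1).of_isClosed_subset B1_closed fun q hq => ?_
  rw [mem_closedBall_zero_iff, Prod.norm_def]
  exact max_le (B1_fst hq) (B1_snd hq)

theorem B1_meas : MeasurableSet B1 := B1_compact.measurableSet

/-- the factor of the radial direction -/
noncomputable def zc (s : ℝ) (c : ℂ) : ℂ := 1 + (s : ℂ) * c

theorem zc_cont (s : ℝ) : Continuous (zc s) := by
  unfold zc
  fun_prop

theorem zc_ge {s : ℝ} (h0 : 0 ≤ s) {c : ℂ} (hc : ‖c‖ ≤ 1) : 1 - s ≤ ‖zc s c‖ := by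
  have h1 : ‖(s : ℂ) * c‖ ≤ s := by
    rw [norm_mul, Complex.norm_real, Real.norm_eq_abs, abs_of_nonneg h0]
    exact mul_le_of_le_one_right h0 hc
  have h2 : (1 : ℝ) = ‖zc s c - (s : ℂ) * c‖ := by
    unfold zc
    rw [add_sub_cancel_right, norm_one]
  have h3 := norm_sub_le (zc s c) ((s : ℂ) * c)
  linarith

theorem zc_ne {s : ℝ} (h0 : 0 ≤ s) (h1 : s < 1) {c : ℂ} (hc : ‖c‖ ≤ 1) : zc s c ≠ 0 := by
  have h2 := zc_ge h0 hc
  exact norm_pos_iff.1 (by linarith)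

/-- The chart coordinate. -/
noncomputable def xc (s : ℝ) (q : C1) : E := cm ((s : ℂ) / zc s q.1) q.2

theorem xc_cont {s : ℝ} (h0 : 0 ≤ s) (h1 : s < 1) : ContinuousOn (xc s) B1 := by
  have h2 : ContinuousOn (fun q : C1 => (s : ℂ) / zc s q.1) B1 :=
    continuousOn_const.div ((zc_cont s).comp continuous_fst).continuousOn fun q hq =>
      zc_ne h0 h1 (B1_fst hq)
  have h3 : Continuous fun q : C1 => J4 q.2 := (Mv 2).continuous.comp continuous_snd
  unfold xc cm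
  exact ((Complex.continuous_re.comp_continuousOn h2).smul continuousOn_snd).add
    ((Complex.continuous_im.comp_continuousOn h2).smul h3.continuousOn)

/-- The integrand. -/
noncomputable def Fz (s : ℝ) (P : ℂ → ℝ) (H : E → ℝ) (q : C1) : ℝ :=
  (1 - Qc q) ^ 6 * ((‖zc s q.1‖ ^ 4)⁻¹ * P (zc s q.1) * H (xc s q))

theorem Fz_cont {s : ℝ} (h0 : 0 ≤ s) (h1 : s < 1) {P : ℂ → ℝ} (hP : Continuous P) {H : E → ℝ}
    (hH : Continuous H) : ContinuousOn (Fz s P H) B1 := by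
  have h2 : Continuous fun q : C1 => zc s q.1 := (zc_cont s).comp continuous_fst
  have h3 : ContinuousOn (fun q : C1 => (‖zc s q.1‖ ^ 4)⁻¹) B1 :=
    (h2.norm.pow 4).continuousOn.inv₀ fun q hq =>
      pow_ne_zero 4 (norm_ne_zero_iff.2 (zc_ne h0 h1 (B1_fst hq)))
  unfold Fz
  exact ((continuous_const.sub Qc_cont).pow 6).continuousOn.mul
    ((h3.mul (hP.comp h2).continuousOn).mul (hH.comp_continuousOn (xc_cont h0 h1)))

theorem Fz_int {s : ℝ} (h0 : 0 ≤ s) (h1 : s < 1) {P : ℂ → ℝ} (hP : Continuous P) {H : E → ℝ}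
    (hH : Continuous H) : IntegrableOn (Fz s P H) B1 :=
  (Fz_cont h0 h1 hP hH).integrableOn_compact B1_compact

theorem cm_map (c : ℂ) (hc : c ≠ 0) (G : E → ℝ) :
    ∫ y : E, G (cm c y) = (‖c‖ ^ 4)⁻¹ * ∫ x : E, G x := by
  have hn : 0 < ‖c‖ := norm_pos_iff.2 hc
  set w : ℂ := c / (‖c‖ : ℂ) with hw
  have hw1 : ‖w‖ = 1 := by
    rw [hw, norm_div, Complex.norm_real, norm_norm, div_self hn.ne']
  have hcw : c = (‖c‖ : ℂ) * w := by
    rw [hw, mul_div_cancel₀]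
    exact_mod_cast hn.ne'
  set O := cmO w hw1 with hO
  have h1 : ∀ y, G (cm c y) = (fun x => G (O x)) (‖c‖ • y) := by
    intro y
    show G (cm c y) = G (cm w (‖c‖ • y))
    rw [cm_smul, ← cm_real_mul, ← hcw]
  simp only [h1]
  have h2 := Measure.integral_comp_smul (volume : Measure E) (fun x => G (O x)) ‖c‖
  rw [finrank_E, smul_eq_mul] at h2
  rw [show (∫ y : E, G (O (‖c‖ • y))) = ∫ x : E, (fun x => G (O x)) (‖c‖ • x) from rfl, h2,
    abs_of_pos (by positivity)]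
  congr 1
  exact O.measurePreserving.integral_comp O.toHomeomorph.measurableEmbedding G

theorem gw_big {s : ℝ} {c : ℂ} (hc : 1 ≤ ‖c‖) (x : E) : gw s x c = 0 := by
  refine pp_zero ?_
  have : 0 ≤ ‖1 + (s : ℂ) * c‖ ^ 2 * ‖x‖ ^ 2 / s ^ 2 := by positivity
  nlinarith

/-- the integral over the second variable -/
theorem inner_int {s : ℝ} (h0 : 0 < s) (h1 : s < 1) (P : ℂ → ℝ) (H : E → ℝ) (c : ℂ) :
    ∫ y : E, B1.indicator (Fz s P H) (c, y) =
      (s ^ 4)⁻¹ * ∫ x : E, gw s x c * P (zc s c) * H x := by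
  rcases le_or_gt 1 ‖c‖ with hc | hc
  · have e1 : ∀ x : E, gw s x c * P (zc s c) * H x = 0 := fun x => by
      rw [gw_big hc, zero_mul, zero_mul]
    have e2 : ∀ y : E, B1.indicator (Fz s P H) (c, y) = 0 := by
      intro y
      by_cases hq : ((c, y) : C1) ∈ B1
      · rw [indicator_of_mem hq]
        have h2 : ‖c‖ ^ 2 + ‖y‖ ^ 2 ≤ 1 := hq
        have h3 : Qc (c, y) = 1 := by
          show ‖c‖ ^ 2 + ‖y‖ ^ 2 = 1
          nlinarith [sq_nonneg ‖y‖]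
        unfold Fz
        rw [h3]
        ring
      · exact indicator_of_notMem hq _
    simp only [e1, e2, integral_zero, mul_zero]
  · have hz := zc_ne h0.le h1 hc.le
    have hzn : 0 < ‖zc s c‖ := norm_pos_iff.2 hz
    set κ : ℂ := (s : ℂ) / zc s c with hκ
    have hκ0 : κ ≠ 0 := div_ne_zero (by exact_mod_cast h0.ne') hz
    have hκn : ‖κ‖ = s / ‖zc s c‖ := by
      rw [hκ, norm_div, Complex.norm_real, Real.norm_eq_abs, abs_of_pos h0]
    have e1 : ∀ y : E, B1.indicator (Fz s P H) (c, y) =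
        (fun x => gw s x c * ((‖zc s c‖ ^ 4)⁻¹ * P (zc s c) * H x)) (cm κ y) := by
      intro y
      have e2 : gw s (cm κ y) c = pp (Qc (c, y)) := by
        unfold gw Qc
        congr 1
        rw [cm_norm, hκn]
        show ‖c‖ ^ 2 + ‖zc s c‖ ^ 2 * (s / ‖zc s c‖ * ‖y‖) ^ 2 / s ^ 2 = ‖c‖ ^ 2 + ‖y‖ ^ 2
        field_simp
      show _ = gw s (cm κ y) c * ((‖zc s c‖ ^ 4)⁻¹ * P (zc s c) * H (cm κ y))
      rw [e2]
      by_cases hq : ((c, y) : C1) ∈ B1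
      · rw [indicator_of_mem hq, pp_of_le hq]
        rfl
      · rw [indicator_of_notMem hq, pp_zero, zero_mul]
        have : ¬ Qc (c, y) ≤ 1 := hq
        linarith
    simp only [e1]
    rw [cm_map κ hκ0 (fun x => gw s x c * ((‖zc s c‖ ^ 4)⁻¹ * P (zc s c) * H x)), hκn]
    have e3 : ∀ x : E, gw s x c * ((‖zc s c‖ ^ 4)⁻¹ * P (zc s c) * H x) =
        (‖zc s c‖ ^ 4)⁻¹ * (gw s x c * P (zc s c) * H x) := fun x => by ring
    simp only [e3]
    rw [integral_const_mul, ← mul_assoc]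
    congr 1
    field_simp

theorem K_cont {s : ℝ} {P : ℂ → ℝ} (hP : Continuous P) {H : E → ℝ} (hH : Continuous H) :
    Continuous fun p : ℂ × E => gw s p.2 p.1 * P (zc s p.1) * H p.2 :=
  ((gw_cont s).mul (hP.comp ((zc_cont s).comp continuous_fst))).mul (hH.comp continuous_snd)

theorem K_int {s : ℝ} (h0 : 0 < s) (h1 : s < 1) {P : ℂ → ℝ} (hP : Continuous P) {H : E → ℝ}
    (hH : Continuous H) : Integrable (fun p : ℂ × E => gw s p.2 p.1 * P (zc s p.1) * H p.2)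
      ((volume : Measure ℂ).prod (volume : Measure E)) := by
  have h3 : HasCompactSupport fun p : ℂ × E => gw s p.2 p.1 * P (zc s p.1) * H p.2 := by
    refine HasCompactSupport.intro ((isCompact_closedBall (0 : ℂ) 1).prod
      (isCompact_closedBall (0 : E) (s / (1 - s)))) fun p hp => ?_
    have h2 : gw s p.2 p.1 = 0 := by
      by_contra hne
      apply hp
      have hc : ‖p.1‖ < 1 := by
        by_contra hc
        exact hne (gw_big (not_lt.1 hc) p.2)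
      refine mem_prod.2 ⟨mem_closedBall_zero_iff.2 hc.le, mem_closedBall_zero_iff.2 ?_⟩
      by_contra hx
      push Not at hx
      refine hne (pp_zero ?_)
      have h4 := zc_ge h0.le hc.le
      have h5 : 0 < 1 - s := by linarith
      have h6 : s < (1 - s) * ‖p.2‖ := by
        rwa [div_lt_iff₀ h5, mul_comm] at hx
      have h7 : s ≤ ‖zc s p.1‖ * ‖p.2‖ :=
        h6.le.trans (mul_le_mul_of_nonneg_right h4 (norm_nonneg _))
      have h8 : s ^ 2 ≤ ‖zc s p.1‖ ^ 2 * ‖p.2‖ ^ 2 := by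
        rw [← mul_pow]
        exact pow_le_pow_left₀ h0.le h7 2
      have h9 : 1 ≤ ‖zc s p.1‖ ^ 2 * ‖p.2‖ ^ 2 / s ^ 2 := by
        rw [le_div_iff₀ (by positivity), one_mul]
        exact h8
      have h10 : 0 ≤ ‖p.1‖ ^ 2 := sq_nonneg _
      show 1 ≤ ‖p.1‖ ^ 2 + ‖zc s p.1‖ ^ 2 * ‖p.2‖ ^ 2 / s ^ 2
      linarith
    show gw s p.2 p.1 * P (zc s p.1) * H p.2 = 0
    rw [h2, zero_mul, zero_mul]
  exact (K_cont hP hH).integrable_of_hasCompactSupport h3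

/-- **Complex polar coordinates.** -/
theorem master {s : ℝ} (h0 : 0 < s) (h1 : s < 1) {P : ℂ → ℝ} (hP : Continuous P) {H : E → ℝ}
    (hH : Continuous H) : ∫ q in B1, Fz s P H q =
      (s ^ 4)⁻¹ * ∫ x : E, (∫ c : ℂ, gw s x c * P (zc s c)) * H x := by
  have hi : Integrable (B1.indicator (Fz s P H)) :=
    (integrable_indicator_iff B1_meas).2 (Fz_int h0.le h1 hP hH)
  have hi' : Integrable (B1.indicator (Fz s P H))
    ((volume : Measure ℂ).prod (volume : Measure E)) := hi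
  have e1 : ∫ q in B1, Fz s P H q = ∫ c : ℂ, ∫ y : E, B1.indicator (Fz s P H) (c, y) := by
    rw [← integral_indicator B1_meas]
    exact integral_prod _ hi'
  rw [e1]
  simp only [inner_int h0 h1 P H]
  rw [integral_const_mul]
  congr 1
  rw [integral_integral_swap (f := fun (c : ℂ) (x : E) => gw s x c * P (zc s c) * H x)
    (K_int h0 h1 hP hH)]
  refine integral_congr_ae (Filter.Eventually.of_forall fun x => ?_)
  exact integral_mul_const _ _

/-- with a kernel -/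
theorem master_k {s : ℝ} (h0 : 0 < s) (h1 : s < 1) {P : ℂ → ℝ} (hP : Continuous P) {H : E → ℝ}
    (hH : Continuous H) {k : ℝ → ℝ} (hk : ∀ x : E, ∫ c : ℂ, gw s x c * P (zc s c) =
      (s ^ 2)⁻¹ * (Iic (s ^ 2)).indicator k (yy x)) : ∫ q in B1, Fz s P H q =
      (s ^ 6)⁻¹ * ∫ x in Dy0 (s ^ 2), k (yy x) * H x := by
  have hm : MeasurableSet (Dy0 (s ^ 2)) :=
    (isClosed_le yyc continuous_const).measurableSet
  rw [master h0 h1 hP hH, ← integral_indicator hm]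
  have e1 : ∀ x : E, (∫ c : ℂ, gw s x c * P (zc s c)) * H x =
      (s ^ 2)⁻¹ * (Dy0 (s ^ 2)).indicator (fun x => k (yy x) * H x) x := by
    intro x
    rw [hk x]
    by_cases hx : yy x ≤ s ^ 2
    · rw [indicator_of_mem (mem_Iic.2 hx), indicator_of_mem (show x ∈ Dy0 (s ^ 2) from hx)]
      ring
    · rw [indicator_of_notMem (fun h => hx (mem_Iic.1 h)),
        indicator_of_notMem (fun h : x ∈ Dy0 (s ^ 2) => hx h)]
      ring
  simp only [e1]
  rw [integral_const_mul, ← mul_assoc]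
  congr 1
  rw [← mul_inv]
  congr 1
  ring

/-! ### homogeneity -/

theorem csm (c : ℂ) (a : W) : c • a = c.re • a + c.im • (Complex.I • a) := by
  rw [rsm, rsm, smul_smul, ← add_smul]
  congr 1
  exact (Complex.re_add_im c).symm

theorem dd_sc (h : Conn α) {w : W} (hw : w ≠ 0) {ζ : ℂ} (hζ : ζ ≠ 0) (a b : W) :
    dd α (ζ • w) a b = dd α w (ζ⁻¹ • a) (ζ⁻¹ • b) := by
  have h1 := h.dd_hom hζ hw (ζ⁻¹ • a) (ζ⁻¹ • b)
  rw [smul_inv_smul₀ hζ, smul_inv_smul₀ hζ] at h1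
  exact h1

theorem fr_sc (c : ℂ) (u v : W) : c • fr u v 0 = c.re • fr u v 0 + c.im • fr u v 1 ∧
    c • fr u v 1 = c.re • fr u v 1 + (-c.im) • fr u v 0 ∧
    c • fr u v 2 = c.re • fr u v 2 + c.im • fr u v 3 ∧
    c • fr u v 3 = c.re • fr u v 3 + (-c.im) • fr u v 2 := by
  have e : ∀ a : W, Complex.I • (Complex.I • a) = -a := fun a => by
    rw [smul_smul, Complex.I_mul_I, neg_one_smul]
  refine ⟨csm c _, ?_, csm c _, ?_⟩
  · rw [csm c]
    show c.re • fr u v 1 + c.im • (Complex.I • (Complex.I • u)) = _ + (-c.im) • u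
    rw [e, smul_neg, neg_smul]
  · rw [csm c]
    show c.re • fr u v 3 + c.im • (Complex.I • (Complex.I • v)) = _ + (-c.im) • v
    rw [e, smul_neg, neg_smul]

theorem cmp_sc (h : Conn α) {w : W} (hw : w ≠ 0) {ζ : ℂ} (hζ : ζ ≠ 0) (u v : W) :
    (Uc (Psd.cmp (dd α (ζ • w)) u v) 0 =
      (ζ⁻¹.re ^ 2 - ζ⁻¹.im ^ 2) * Uc (Psd.cmp (dd α w) u v) 0 +
      2 * ζ⁻¹.re * ζ⁻¹.im * Uc (Psd.cmp (dd α w) u v) 1) ∧
    (Uc (Psd.cmp (dd α (ζ • w)) u v) 1 =
      (ζ⁻¹.re ^ 2 - ζ⁻¹.im ^ 2) * Uc (Psd.cmp (dd α w) u v) 1 -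
      2 * ζ⁻¹.re * ζ⁻¹.im * Uc (Psd.cmp (dd α w) u v) 0) ∧
    (Uc (Psd.cmp (dd α (ζ • w)) u v) 2 =
      (ζ⁻¹.re ^ 2 + ζ⁻¹.im ^ 2) * Uc (Psd.cmp (dd α w) u v) 2) ∧
    ∀ i, Vc (Psd.cmp (dd α (ζ • w)) u v) i =
      (ζ⁻¹.re ^ 2 + ζ⁻¹.im ^ 2) * Vc (Psd.cmp (dd α w) u v) i := by
  obtain ⟨g0, g1, g2, g3⟩ := fr_sc ζ⁻¹ u v
  obtain ⟨⟨e1, e2, e3, e4⟩, ⟨e5, e6, e7⟩, ⟨e8, e9, e10⟩⟩ := AlgAux.sk (Pex.cmp_skew α w u v)
  unfold Psd.cmp at e1 e2 e3 e4 e5 e6 e7 e8 e9 e10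
  have k02 : Psd.cmp (dd α (ζ • w)) u v 0 2 = ζ⁻¹.re ^ 2 * dd α w (fr u v 0) (fr u v 2) +
      ζ⁻¹.re * ζ⁻¹.im * (dd α w (fr u v 0) (fr u v 3) + dd α w (fr u v 1) (fr u v 2)) +
      ζ⁻¹.im ^ 2 * dd α w (fr u v 1) (fr u v 3) := by
    unfold Psd.cmp
    rw [dd_sc h hw hζ, g0, g2, dd_add_left, dd_add_right, dd_add_right]
    simp only [dd_smul_left, dd_smul_right]
    ring
  have k31 : Psd.cmp (dd α (ζ • w)) u v 3 1 = -(ζ⁻¹.re ^ 2 * dd α w (fr u v 1) (fr u v 3) -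
      ζ⁻¹.re * ζ⁻¹.im * (dd α w (fr u v 0) (fr u v 3) + dd α w (fr u v 1) (fr u v 2)) +
      ζ⁻¹.im ^ 2 * dd α w (fr u v 0) (fr u v 2)) := by
    unfold Psd.cmp
    rw [dd_sc h hw hζ, g3, g1, dd_add_left, dd_add_right, dd_add_right]
    simp only [dd_smul_left, dd_smul_right]
    rw [e6, e7, e8, e9]
    ring
  have k03 : Psd.cmp (dd α (ζ • w)) u v 0 3 = ζ⁻¹.re ^ 2 * dd α w (fr u v 0) (fr u v 3) +
      ζ⁻¹.re * ζ⁻¹.im * (dd α w (fr u v 1) (fr u v 3) - dd α w (fr u v 0) (fr u v 2)) -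
      ζ⁻¹.im ^ 2 * dd α w (fr u v 1) (fr u v 2) := by
    unfold Psd.cmp
    rw [dd_sc h hw hζ, g0, g3, dd_add_left, dd_add_right, dd_add_right]
    simp only [dd_smul_left, dd_smul_right]
    ring
  have k12 : Psd.cmp (dd α (ζ • w)) u v 1 2 = ζ⁻¹.re ^ 2 * dd α w (fr u v 1) (fr u v 2) +
      ζ⁻¹.re * ζ⁻¹.im * (dd α w (fr u v 1) (fr u v 3) - dd α w (fr u v 0) (fr u v 2)) -
      ζ⁻¹.im ^ 2 * dd α w (fr u v 0) (fr u v 3) := by
    unfold Psd.cmp
    rw [dd_sc h hw hζ, g1, g2, dd_add_left, dd_add_right, dd_add_right]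
    simp only [dd_smul_left, dd_smul_right]
    ring
  have k01 : Psd.cmp (dd α (ζ • w)) u v 0 1 =
      (ζ⁻¹.re ^ 2 + ζ⁻¹.im ^ 2) * dd α w (fr u v 0) (fr u v 1) := by
    unfold Psd.cmp
    rw [dd_sc h hw hζ, g0, g1, dd_add_left, dd_add_right, dd_add_right]
    simp only [dd_smul_left, dd_smul_right]
    rw [e1, e2, e5]
    ring
  have k23 : Psd.cmp (dd α (ζ • w)) u v 2 3 =
      (ζ⁻¹.re ^ 2 + ζ⁻¹.im ^ 2) * dd α w (fr u v 2) (fr u v 3) := by
    unfold Psd.cmp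
    rw [dd_sc h hw hζ, g2, g3, dd_add_left, dd_add_right, dd_add_right]
    simp only [dd_smul_left, dd_smul_right]
    rw [e3, e4, e10]
    ring
  have u31 : Psd.cmp (dd α w) u v 3 1 = -dd α w (fr u v 1) (fr u v 3) := e9
  refine ⟨?_, ?_, ?_, ?_⟩
  · simp only [Uc, Matrix.cons_val_zero, Matrix.cons_val_one, k02, k31, u31]
    unfold Psd.cmp
    ring
  · simp only [Uc, Matrix.cons_val_zero, Matrix.cons_val_one, k03, k12, u31]
    unfold Psd.cmp
    ring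
  · simp only [Uc, Matrix.cons_val, k01, k23]
    unfold Psd.cmp
    ring
  · intro i
    fin_cases i
    · simp only [Vc, Matrix.cons_val_zero, Fin.zero_eta, k02, k31, u31]
      unfold Psd.cmp
      ring
    · simp only [Vc, Matrix.cons_val_zero, Matrix.cons_val_one, Fin.mk_one, k03, k12]
      unfold Psd.cmp
      ring
    · simp only [Vc, Matrix.cons_val, Fin.reduceFinMk, k01, k23]
      unfold Psd.cmp
      ring

theorem tE_cmp (h : Conn α) (hz : ON3 z u v) (x : E) :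
    tE α z u v x = Psd.cmp (dd α (sig z u v x)) u v := by
  funext i j
  show dd (ch α z u v) x (ev i) (ev j) = dd α (sig z u v x) (fr u v i) (fr u v j)
  rw [dd_ch hz h.smooth, Lf_ev, Lf_ev]

/-! ### the point -/

theorem pt_cl {s : ℝ} (h0 : 0 ≤ s) (h1 : s < 1) {q : C1} (hq : q ∈ B1) :
    z + (s : ℂ) • cl z u v q = zc s q.1 • sig z u v (xc s q) := by
  have hne := zc_ne h0 h1 (B1_fst hq)
  unfold sig xc cl
  rw [Lf_cm, smul_add, smul_add, smul_smul, smul_smul, mul_div_cancel₀ _ hne, ← add_assoc]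
  congr 1
  unfold zc
  rw [add_smul, one_smul]

theorem inv_re (ζ : ℂ) : ζ⁻¹.re = ζ.re / ‖ζ‖ ^ 2 := by
  rw [Complex.inv_re, Complex.normSq_eq_norm_sq]

theorem inv_im (ζ : ℂ) : ζ⁻¹.im = -ζ.im / ‖ζ‖ ^ 2 := by
  rw [Complex.inv_im, Complex.normSq_eq_norm_sq]

theorem re_im (ζ : ℂ) : ζ.re ^ 2 + ζ.im ^ 2 = ‖ζ‖ ^ 2 := by
  rw [← Complex.normSq_eq_norm_sq, Complex.normSq_apply]
  ring

theorem master_0 {s : ℝ} (h0 : 0 < s) (h1 : s < 1) {P : ℂ → ℝ} (hP : Continuous P) {H : E → ℝ}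
    (hH : Continuous H) (hk : ∀ x : E, ∫ c : ℂ, gw s x c * P (zc s c) = 0) :
    ∫ q in B1, Fz s P H q = 0 := by
  rw [master h0 h1 hP hH]
  simp only [hk, zero_mul, integral_zero, mul_zero]

theorem s_lt {s : ℝ} (h1 : s ^ 2 ≤ 2 / 3) : s < 1 := by nlinarith

theorem pcx_V (h : Conn α) (hz : ON3 z u v) {s : ℝ} (h0 : 0 < s) (h1 : s < 1) (i : Fin 3) :
    ∫ q in B1, (1 - Qc q) ^ 6 * Vc (Psd.cmp (dd α (z + (s : ℂ) • cl z u v q)) u v) i =
      (s ^ 6)⁻¹ * ∫ x in Dy0 (s ^ 2), k2 6 (s ^ 2) (yy x) * Ve α z u v i x := by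
  rw [← master_k h0 h1 (P := fun ζ => ‖ζ‖ ^ 2) (by fun_prop) (Ve_smooth h hz i).continuous
    fun x => ker_V h0 x]
  refine setIntegral_congr_fun B1_meas fun q hq => ?_
  show (1 - Qc q) ^ 6 * Vc (Psd.cmp (dd α (z + (s : ℂ) • cl z u v q)) u v) i = Fz s _ _ q
  have hne := zc_ne h0.le h1 (B1_fst hq)
  have hn : ‖zc s q.1‖ ≠ 0 := norm_ne_zero_iff.2 hne
  rw [pt_cl h0.le h1 hq, (cmp_sc h (sig_ne hz _) hne u v).2.2.2 i]
  unfold Fz Ve
  rw [tE_cmp h hz, inv_re, inv_im]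
  have e := re_im (zc s q.1)
  have e2 : (zc s q.1).re ^ 2 = ‖zc s q.1‖ ^ 2 - (zc s q.1).im ^ 2 := by linarith
  rw [div_pow, div_pow, neg_sq, e2]
  field_simp
  ring

theorem pcx_U2 (h : Conn α) (hz : ON3 z u v) {s : ℝ} (h0 : 0 < s) (h1 : s < 1) :
    ∫ q in B1, (1 - Qc q) ^ 6 * Uc (Psd.cmp (dd α (z + (s : ℂ) • cl z u v q)) u v) 2 =
      (s ^ 6)⁻¹ * ∫ x in Dy0 (s ^ 2), k2 6 (s ^ 2) (yy x) * Ue α z u v 2 x := by
  rw [← master_k h0 h1 (P := fun ζ => ‖ζ‖ ^ 2) (by fun_prop) (Ue_smooth h hz 2).continuous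
    fun x => ker_V h0 x]
  refine setIntegral_congr_fun B1_meas fun q hq => ?_
  show (1 - Qc q) ^ 6 * Uc (Psd.cmp (dd α (z + (s : ℂ) • cl z u v q)) u v) 2 = Fz s _ _ q
  have hne := zc_ne h0.le h1 (B1_fst hq)
  have hn : ‖zc s q.1‖ ≠ 0 := norm_ne_zero_iff.2 hne
  rw [pt_cl h0.le h1 hq, (cmp_sc h (sig_ne hz _) hne u v).2.2.1]
  unfold Fz Ue
  rw [tE_cmp h hz, inv_re, inv_im]
  have e := re_im (zc s q.1)
  have e2 : (zc s q.1).re ^ 2 = ‖zc s q.1‖ ^ 2 - (zc s q.1).im ^ 2 := by linarith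
  rw [div_pow, div_pow, neg_sq, e2]
  field_simp
  ring

theorem pcx_U (h : Conn α) (hz : ON3 z u v) {s : ℝ} (h0 : 0 < s) (h1 : s < 1) {i : Fin 3}
    (hi : i ≠ 2) :
    ∫ q in B1, (1 - Qc q) ^ 6 * Uc (Psd.cmp (dd α (z + (s : ℂ) • cl z u v q)) u v) i =
      (s ^ 6)⁻¹ * ∫ x in Dy0 (s ^ 2), k1 6 (s ^ 2) (yy x) * Ue α z u v i x := by
  have cR : Continuous fun ζ : ℂ => ζ.re ^ 2 - ζ.im ^ 2 := by fun_prop
  have cI : Continuous fun ζ : ℂ => ζ.re * ζ.im := by fun_prop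
  have key : ∀ (i j : Fin 3) (c : ℝ), (∀ (ζ : ℂ) (w : W), w ≠ 0 → ζ ≠ 0 →
      Uc (Psd.cmp (dd α (ζ • w)) u v) i = (ζ⁻¹.re ^ 2 - ζ⁻¹.im ^ 2) *
        Uc (Psd.cmp (dd α w) u v) i + c * (ζ⁻¹.re * ζ⁻¹.im * Uc (Psd.cmp (dd α w) u v) j)) →
      ∫ q in B1, (1 - Qc q) ^ 6 * Uc (Psd.cmp (dd α (z + (s : ℂ) • cl z u v q)) u v) i =
      (s ^ 6)⁻¹ * ∫ x in Dy0 (s ^ 2), k1 6 (s ^ 2) (yy x) * Ue α z u v i x := by
    intro i j c hc
    have e1 := master_k h0 h1 cR (Ue_smooth h hz i).continuous fun x => ker_U h0 x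
    have e2 := master_0 h0 h1 cI (Ue_smooth h hz j).continuous fun x => ker_U' h0 x
    have i1 := Fz_int h0.le h1 cR (Ue_smooth h hz i).continuous
    have i2 := (Fz_int h0.le h1 cI (Ue_smooth h hz j).continuous).const_mul (-c)
    have e3 : ∫ q in B1, (Fz s (fun ζ => ζ.re ^ 2 - ζ.im ^ 2) (Ue α z u v i) q +
        (-c) * Fz s (fun ζ => ζ.re * ζ.im) (Ue α z u v j) q) =
        (s ^ 6)⁻¹ * ∫ x in Dy0 (s ^ 2), k1 6 (s ^ 2) (yy x) * Ue α z u v i x := by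
      rw [integral_add i1 i2, integral_const_mul, e1, e2]
      ring
    rw [← e3]
    refine setIntegral_congr_fun B1_meas fun q hq => ?_
    show (1 - Qc q) ^ 6 * Uc (Psd.cmp (dd α (z + (s : ℂ) • cl z u v q)) u v) i = _
    have hne := zc_ne h0.le h1 (B1_fst hq)
    have hn : ‖zc s q.1‖ ≠ 0 := norm_ne_zero_iff.2 hne
    rw [pt_cl h0.le h1 hq, hc _ _ (sig_ne hz _) hne]
    unfold Fz Ue
    rw [tE_cmp h hz, inv_re, inv_im]
    field_simp
  fin_cases i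
  · refine key 0 1 2 fun ζ w hw hζ => ?_
    rw [(cmp_sc h hw hζ u v).1]
    ring
  · refine key 1 0 (-2) fun ζ w hw hζ => ?_
    rw [(cmp_sc h hw hζ u v).2.1]
    ring
  · exact absurd rfl hi

theorem chJ_cont (h : Conn α) (hz : ON3 z u v) : Continuous fun x => ch α z u v x (J4 x) :=
  (ch_smooth hz h.smooth).continuous.clm_apply (Mv 2).continuous

theorem chx_cont (h : Conn α) (hz : ON3 z u v) : Continuous fun x => ch α z u v x x :=
  (ch_smooth hz h.smooth).continuous.clm_apply continuous_id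

theorem al_cl (h : Conn α) (hz : ON3 z u v) {ζ : ℂ} (hζ : ζ ≠ 0) (x : E) :
    α (ζ • sig z u v x) (Complex.I • z) =
      ζ⁻¹.re + ζ⁻¹.im * ch α z u v x x - ζ⁻¹.re * ch α z u v x (J4 x) := by
  have hw := sig_ne hz x
  have h1 := h.hom ζ hζ _ hw (ζ⁻¹ • (Complex.I • z))
  rw [smul_inv_smul₀ hζ] at h1
  rw [h1]
  set c : ℂ := ζ⁻¹ * Complex.I with hc
  have hre : c.re = -ζ⁻¹.im := by simp [hc]
  have him : c.im = ζ⁻¹.re := by simp [hc]
  have e1 : ζ⁻¹ • (Complex.I • z) = (c.re • sig z u v x + c.im • (Complex.I • sig z u v x)) -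
      Lf u v (c.re • x + c.im • J4 x) := by
    rw [← csm, show c.re • x + c.im • J4 x = cm c x from rfl, Lf_cm, smul_smul, ← hc]
    unfold sig
    rw [smul_add]
    abel
  have e2 : α (sig z u v x) (Lf u v (c.re • x + c.im • J4 x)) =
      c.re * ch α z u v x x + c.im * ch α z u v x (J4 x) := by
    rw [show α (sig z u v x) (Lf u v (c.re • x + c.im • J4 x)) =
      ch α z u v x (c.re • x + c.im • J4 x) from rfl, map_add, map_smul, map_smul, smul_eq_mul,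
      smul_eq_mul]
  rw [e1, map_sub, e2, map_add, map_smul, map_smul, h.rad _ hw, h.rot _ hw, hre, him]
  simp only [smul_eq_mul]
  ring

theorem pcx_J0 {s : ℝ} (h0 : 0 < s) (h1 : s < 1) :
    ∫ q in B1, (1 - Qc q) ^ 6 * (zc s q.1)⁻¹.re =
      (s ^ 6)⁻¹ * ∫ x in Dy0 (s ^ 2), k3 (s ^ 2) (yy x) := by
  have e1 := master_k h0 h1 (P := fun ζ => ‖ζ‖ ^ 2 * ζ.re) (by fun_prop) (H := fun _ => 1)
    continuous_const fun x => ker_J h0 x
  simp only [mul_one] at e1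
  rw [← e1]
  refine setIntegral_congr_fun B1_meas fun q hq => ?_
  have hne := zc_ne h0.le h1 (B1_fst hq)
  have hn : ‖zc s q.1‖ ≠ 0 := norm_ne_zero_iff.2 hne
  show (1 - Qc q) ^ 6 * (zc s q.1)⁻¹.re = Fz s _ _ q
  unfold Fz
  rw [inv_re]
  field_simp

theorem pcx_J1 (h : Conn α) (hz : ON3 z u v) {s : ℝ} (h0 : 0 < s) (h1 : s < 1) :
    ∫ q in B1, (1 - Qc q) ^ 6 *
      ((zc s q.1)⁻¹.re - α (z + (s : ℂ) • cl z u v q) (Complex.I • z)) =
      (s ^ 6)⁻¹ * ∫ x in Dy0 (s ^ 2), k3 (s ^ 2) (yy x) * ch α z u v x (J4 x) := by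
  have cR : Continuous fun ζ : ℂ => ‖ζ‖ ^ 2 * ζ.re := by fun_prop
  have cI : Continuous fun ζ : ℂ => ‖ζ‖ ^ 2 * ζ.im := by fun_prop
  have e1 := master_k h0 h1 cR (chJ_cont h hz) fun x => ker_J h0 x
  have e2 := master_0 h0 h1 cI (chx_cont h hz) fun x => ker_J' h0 x
  have i1 := Fz_int h0.le h1 cR (chJ_cont h hz)
  have i2 := Fz_int h0.le h1 cI (chx_cont h hz)
  have e3 : ∫ q in B1, (Fz s (fun ζ => ‖ζ‖ ^ 2 * ζ.re) (fun x => ch α z u v x (J4 x)) q +
      Fz s (fun ζ => ‖ζ‖ ^ 2 * ζ.im) (fun x => ch α z u v x x) q) =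
      (s ^ 6)⁻¹ * ∫ x in Dy0 (s ^ 2), k3 (s ^ 2) (yy x) * ch α z u v x (J4 x) := by
    rw [integral_add i1 i2, e1, e2, add_zero]
  rw [← e3]
  refine setIntegral_congr_fun B1_meas fun q hq => ?_
  have hne := zc_ne h0.le h1 (B1_fst hq)
  have hn : ‖zc s q.1‖ ≠ 0 := norm_ne_zero_iff.2 hne
  show (1 - Qc q) ^ 6 * ((zc s q.1)⁻¹.re - α (z + (s : ℂ) • cl z u v q) (Complex.I • z)) = _
  rw [pt_cl h0.le h1 hq, al_cl h hz hne]
  unfold Fz
  rw [inv_re, inv_im]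
  field_simp
  ring

end Pool.Agent.Lib.Shp
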