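import Pool.Agent.Lib.Shp.FlR
import Pool.Agent.Lib.Shp.DefM
import Pool.Agent.Lib.Psd.AmbA

set_option autoImplicit false

/-!
# One-forms on the affine chart as connection forms

`mu` a smooth one-form on `E` with `mu x = 0` for `‖x‖ ≥ ρ`. Chart `X z = (z₁ / z₀, z₂ / z₀)` for `z₀ ≠ 0`. `γ z = (mu (X z)).comp (fderiv X z)` for
`z₀ ≠ 0`, `0` for `z₀ = 0`: smooth on `z ≠ 0` (it vanishes for `|z₁|² + |z₂|² ≥ ρ² |z₀|²`), `Basic γ` (`X (c z) = X z`, so `fderiv X z` kills `z` and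
`i z`). `α = a0 + γ` (`conn_add`, Lib/Psd/AmbA). In the chart `sig (eW 0) (eW 1) (eW 2) x = (1, x)`: `X (1, x) = x`, `a0` becomes `th1 / (1 + ‖x‖²)` (`a0_apply`, `hp_Lf`).
-/

open MeasureTheory Set Metric
open scoped ContDiff

namespace Pool.Agent.Lib.Shp

open Pool.Agent.P28b04d Pool.Agent.Lib.Psd Pool.Agent.Lib.Pex

theorem eW_ON3 : ON3 (eW 0) (eW 1) (eW 2) := by
  constructor <;> simp [hp, eW, Fin.sum_univ_three]

namespace TrBAux

/-- The affine chart. -/
noncomputable def X (z : W) : E :=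
  !₂[(z 1 * (z 0)⁻¹).re, (z 1 * (z 0)⁻¹).im, (z 2 * (z 0)⁻¹).re, (z 2 * (z 0)⁻¹).im]

theorem X_smul {c : ℂ} (hc : c ≠ 0) (z : W) : X (c • z) = X z := by
  have h : ∀ k : Fin 3, (c • z) k * ((c • z) 0)⁻¹ = z k * (z 0)⁻¹ := by
    intro k
    simp only [Pi.smul_apply, smul_eq_mul, mul_inv]
    field_simp
  unfold X
  rw [h 1, h 2]

theorem X_smooth {z : W} (hz : z 0 ≠ 0) : ContDiffAt ℝ ∞ X z := by
  have hc : ∀ k : Fin 3, ContDiffAt ℝ ∞ (fun w : W => w k) z := fun k =>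
    (ContinuousLinearMap.proj (R := ℝ) (φ := fun _ : Fin 3 => ℂ) k).contDiff.contDiffAt
  have hq : ∀ k : Fin 3, ContDiffAt ℝ ∞ (fun w : W => w k * (w 0)⁻¹) z := fun k =>
    (hc k).mul ((hc 0).inv hz)
  have hre : ∀ k : Fin 3, ContDiffAt ℝ ∞ (fun w : W => (w k * (w 0)⁻¹).re) z := fun k =>
    Complex.reCLM.contDiff.contDiffAt.comp z (hq k)
  have him : ∀ k : Fin 3, ContDiffAt ℝ ∞ (fun w : W => (w k * (w 0)⁻¹).im) z := fun k =>
    Complex.imCLM.contDiff.contDiffAt.comp z (hq k)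
  rw [contDiffAt_euclidean]
  intro i
  fin_cases i
  · exact hre 1
  · exact him 1
  · exact hre 2
  · exact him 2

theorem X_hasFDerivAt {z : W} (hz : z 0 ≠ 0) : HasFDerivAt X (fderiv ℝ X z) z :=
  ((X_smooth hz).differentiableAt (by simp)).hasFDerivAt

theorem isOpen_z0 : IsOpen {z : W | z 0 ≠ 0} :=
  isOpen_ne_fun (continuous_apply 0) continuous_const

theorem X_fderiv_smooth {z : W} (hz : z 0 ≠ 0) : ContDiffAt ℝ ∞ (fderiv ℝ X) z := by
  have h : ContDiffOn ℝ ∞ X {z : W | z 0 ≠ 0} := fun w hw => (X_smooth hw).contDiffWithinAt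
  exact (h.fderiv_of_isOpen isOpen_z0 (by simp)).contDiffAt (isOpen_z0.mem_nhds hz)

theorem fderiv_X_hom {c : ℂ} (hc : c ≠ 0) {z : W} (hz : z 0 ≠ 0) (v : W) :
    fderiv ℝ X (c • z) (c • v) = fderiv ℝ X z v := by
  have hcz : (c • z) 0 ≠ 0 := by
    simp only [Pi.smul_apply, smul_eq_mul]
    exact mul_ne_zero hc hz
  have hM : HasFDerivAt (fun y : W => c • y) (c • ContinuousLinearMap.id ℝ W) z :=
    (hasFDerivAt_id z).const_smul c
  have h1 := (X_hasFDerivAt hcz).comp z hM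
  have h2 := X_hasFDerivAt hz
  have h3 : (X ∘ fun y : W => c • y) = X := by
    funext y
    exact X_smul hc y
  rw [h3] at h1
  have h5 := DFunLike.congr_fun (h1.unique h2) v
  simpa using h5

theorem fderiv_X_self {z : W} (hz : z 0 ≠ 0) (c : ℂ) : fderiv ℝ X z (c • z) = 0 := by
  have hcur := ConnBAux.curve z (c • z)
  have h1 : HasFDerivAt X (fderiv ℝ X z) (z + (0 : ℝ) • (c • z)) := by
    rw [zero_smul, add_zero]
    exact X_hasFDerivAt hz
  have h2 := h1.comp_hasDerivAt (0 : ℝ) hcur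
  have hcont : Filter.Tendsto (fun t : ℝ => (1 : ℂ) + (t : ℂ) * c) (nhds 0) (nhds 1) := by
    have hc : Continuous (fun t : ℝ => (1 : ℂ) + (t : ℂ) * c) := by fun_prop
    have h := hc.tendsto 0
    simpa using h
  have hne : ∀ᶠ t : ℝ in nhds 0, (1 : ℂ) + (t : ℂ) * c ≠ 0 :=
    hcont.eventually_ne one_ne_zero
  have h3 : (X ∘ fun t : ℝ => z + t • (c • z)) =ᶠ[nhds 0] fun _ => X z := by
    filter_upwards [hne] with t ht
    have e1 : z + t • (c • z) = ((1 : ℂ) + (t : ℂ) * c) • z := by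
      rw [add_smul, one_smul, mul_smul]
      rfl
    rw [Function.comp_apply, e1]
    exact X_smul ht z
  have h4 := (hasDerivAt_const (0 : ℝ) (X z)).congr_of_eventuallyEq h3
  exact h2.unique h4

/-- The pull-back. -/
noncomputable def gam (mu : E → E →L[ℝ] ℝ) (z : W) : W →L[ℝ] ℝ :=
  open Classical in if z 0 = 0 then 0 else (mu (X z)).comp (fderiv ℝ X z)

theorem gam_of_ne (mu : E → E →L[ℝ] ℝ) {z : W} (hz : z 0 ≠ 0) :
    gam mu z = (mu (X z)).comp (fderiv ℝ X z) := by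
  unfold gam
  rw [if_neg hz]

theorem gam_of_eq (mu : E → E →L[ℝ] ℝ) {z : W} (hz : z 0 = 0) : gam mu z = 0 := by
  unfold gam
  rw [if_pos hz]

theorem norm_X {z : W} (hz : z 0 ≠ 0) :
    ‖X z‖ ^ 2 * Complex.normSq (z 0) = Complex.normSq (z 1) + Complex.normSq (z 2) := by
  have h0 : Complex.normSq (z 0) ≠ 0 := by
    rwa [Ne, Complex.normSq_eq_zero]
  have h1 : ‖X z‖ ^ 2 = Complex.normSq (z 1 * (z 0)⁻¹) + Complex.normSq (z 2 * (z 0)⁻¹) := by
    rw [norm_sq_four, Complex.normSq_apply, Complex.normSq_apply]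
    simp [X]
    ring
  rw [h1, Complex.normSq_mul, Complex.normSq_mul, Complex.normSq_inv]
  field_simp

theorem gam_smooth {mu : E → E →L[ℝ] ℝ} (hmu : ContDiff ℝ ∞ mu) {ρ : ℝ}
    (hρ : ∀ x, ρ ≤ ‖x‖ → mu x = 0) : ContDiffOn ℝ ∞ (gam mu) {0}ᶜ := by
  intro z hz
  refine ContDiffAt.contDiffWithinAt ?_
  by_cases h0 : z 0 = 0
  · have hopen : IsOpen {w : W | ρ ^ 2 * Complex.normSq (w 0) <
        Complex.normSq (w 1) + Complex.normSq (w 2)} := by
      refine isOpen_lt ?_ ?_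
      · exact continuous_const.mul (Complex.continuous_normSq.comp (continuous_apply 0))
      · exact (Complex.continuous_normSq.comp (continuous_apply 1)).add
          (Complex.continuous_normSq.comp (continuous_apply 2))
    have hmem : z ∈ {w : W | ρ ^ 2 * Complex.normSq (w 0) <
        Complex.normSq (w 1) + Complex.normSq (w 2)} := by
      show ρ ^ 2 * Complex.normSq (z 0) < Complex.normSq (z 1) + Complex.normSq (z 2)
      rw [h0, Complex.normSq_zero, mul_zero]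
      by_contra hcon
      have h1 := Complex.normSq_nonneg (z 1)
      have h2 := Complex.normSq_nonneg (z 2)
      have h3 : Complex.normSq (z 1) = 0 := by linarith
      have h4 : Complex.normSq (z 2) = 0 := by linarith
      rw [Complex.normSq_eq_zero] at h3 h4
      apply hz
      show z = 0
      funext k
      fin_cases k
      · exact h0
      · exact h3
      · exact h4
    have hev : gam mu =ᶠ[nhds z] fun _ => 0 := by
      filter_upwards [hopen.mem_nhds hmem] with w hw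
      by_cases hw0 : w 0 = 0
      · exact gam_of_eq mu hw0
      · rw [gam_of_ne mu hw0]
        have hpos : 0 < Complex.normSq (w 0) := Complex.normSq_pos.2 hw0
        have h1 := norm_X hw0
        have h2 : ρ ^ 2 < ‖X w‖ ^ 2 := by
          have hw' : ρ ^ 2 * Complex.normSq (w 0) < ‖X w‖ ^ 2 * Complex.normSq (w 0) := by
            rw [h1]
            exact hw
          exact lt_of_mul_lt_mul_right hw' hpos.le
        have h3 : ρ ≤ ‖X w‖ := by
          exact (le_abs_self ρ).trans (abs_le_of_sq_le_sq h2.le (norm_nonneg _))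
        rw [hρ _ h3]
        simp
    exact contDiffAt_const.congr_of_eventuallyEq hev
  · have hev : gam mu =ᶠ[nhds z] fun w => (mu (X w)).comp (fderiv ℝ X w) := by
      filter_upwards [isOpen_z0.mem_nhds h0] with w hw
      exact gam_of_ne mu hw
    refine ContDiffAt.congr_of_eventuallyEq ?_ hev
    exact (hmu.contDiffAt.comp z (X_smooth h0)).clm_comp (X_fderiv_smooth h0)

theorem gam_basic {mu : E → E →L[ℝ] ℝ} (hmu : ContDiff ℝ ∞ mu) {ρ : ℝ}
    (hρ : ∀ x, ρ ≤ ‖x‖ → mu x = 0) : Basic (gam mu) :=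
  { smooth := gam_smooth hmu hρ
    hom := by
      intro c hc z _ v
      by_cases h0 : z 0 = 0
      · have h1 : (c • z) 0 = 0 := by
          simp [h0]
        rw [gam_of_eq mu h0, gam_of_eq mu h1]
        simp
      · have h1 : (c • z) 0 ≠ 0 := by
          simp only [Pi.smul_apply, smul_eq_mul]
          exact mul_ne_zero hc h0
        rw [gam_of_ne mu h0, gam_of_ne mu h1, ContinuousLinearMap.comp_apply,
          ContinuousLinearMap.comp_apply, fderiv_X_hom hc h0, X_smul hc]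
    rad := by
      intro z _
      by_cases h0 : z 0 = 0
      · rw [gam_of_eq mu h0]
        simp
      · have h := fderiv_X_self h0 1
        rw [one_smul] at h
        rw [gam_of_ne mu h0, ContinuousLinearMap.comp_apply, h, map_zero]
    rot := by
      intro z _
      by_cases h0 : z 0 = 0
      · rw [gam_of_eq mu h0]
        simp
      · rw [gam_of_ne mu h0, ContinuousLinearMap.comp_apply, fderiv_X_self h0 Complex.I, map_zero] }

theorem sig_apply (x : E) : sig (eW 0) (eW 1) (eW 2) x =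
    ![1, (x 0 : ℂ) + Complex.I * (x 1 : ℂ), (x 2 : ℂ) + Complex.I * (x 3 : ℂ)] := by
  rw [sig, Lf_apply, Fin.sum_univ_four]
  funext k
  fin_cases k
  · simp [eW, fr]
  · simp [eW, fr, mul_comm]
  · simp [eW, fr, mul_comm]

theorem X_sig (x : E) : X (sig (eW 0) (eW 1) (eW 2) x) = x := by
  rw [sig_apply]
  ext i
  fin_cases i <;> simp [X]

theorem sig_zero_ne (x : E) : sig (eW 0) (eW 1) (eW 2) x 0 ≠ 0 := by
  rw [sig_apply]
  simp

theorem fderiv_X_sig (x v : E) :
    fderiv ℝ X (sig (eW 0) (eW 1) (eW 2) x) (Lf (eW 1) (eW 2) v) = v := by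
  have hs : HasFDerivAt (sig (eW 0) (eW 1) (eW 2)) (Lf (eW 1) (eW 2)) x := by
    have h := (Lf (eW 1) (eW 2)).hasFDerivAt (x := x)
    exact h.const_add (eW 0)
  have h1 := (X_hasFDerivAt (sig_zero_ne x)).comp x hs
  have h2 : (X ∘ sig (eW 0) (eW 1) (eW 2)) = id := by
    funext y
    exact X_sig y
  rw [h2] at h1
  have h3 := DFunLike.congr_fun (h1.unique (hasFDerivAt_id x)) v
  simpa using h3

end TrBAux

open TrBAux

theorem bundle {mu : E → E →L[ℝ] ℝ} (hmu : ContDiff ℝ ∞ mu) {ρ : ℝ}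
    (hρ : ∀ x, ρ ≤ ‖x‖ → mu x = 0) : ∃ α : W → W →L[ℝ] ℝ, Conn α ∧
      ∀ x, ch α (eW 0) (eW 1) (eW 2) x = (1 + ‖x‖ ^ 2)⁻¹ • th1 x + mu x := by
  refine ⟨fun z => a0 z + gam mu z, conn_add a0_conn (gam_basic hmu hρ), ?_⟩
  intro x
  ext v
  have h1 : hp (sig (eW 0) (eW 1) (eW 2) x) (Lf (eW 1) (eW 2) v) =
      ((inner ℝ x v : ℝ) : ℂ) + Complex.I * ((inner ℝ (J4 x) v : ℝ) : ℂ) := by
    rw [sig, FrameGAux.hp_add_left, hp_z_Lf eW_ON3, hp_Lf eW_ON3, zero_add]
  have h2 : th1 x v = inner ℝ (J4 x) v := by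
    rw [th1, frm_apply, inner_four, Fin.sum_univ_four]
    simp [t1c, J4]
  show (a0 (sig (eW 0) (eW 1) (eW 2) x) + gam mu (sig (eW 0) (eW 1) (eW 2) x))
    (Lf (eW 1) (eW 2) v) = ((1 + ‖x‖ ^ 2)⁻¹ • th1 x + mu x) v
  rw [ContinuousLinearMap.add_apply, ContinuousLinearMap.add_apply, gam_of_ne mu (sig_zero_ne x),
    ContinuousLinearMap.comp_apply, fderiv_X_sig, X_sig, a0_apply, h1, nsq_sig eW_ON3,
    ContinuousLinearMap.smul_apply, h2]
  congr 1
  simp [div_eq_inv_mul]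

end Pool.Agent.Lib.Shp
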